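import Pool.Agent.TH393.Cube

set_option autoImplicit false

/-!
# Dense set systems without large pairwise intersecting subsystems
-/

open Finset

namespace Pool.Agent.TH393.Constr

/-- the block of residue `i` modulo `L` among the first `n'` points -/
def blk (n n' L : ℕ) (i : ℕ) : Finset (Fin n) :=
  univ.filter (fun e => e.val < n' ∧ e.val % L = i)

/-- the weight (size) of a block -/
def wt (n n' L : ℕ) (i : Fin L) : ℕ := (blk n n' L i).card

/-- the blow-up of a subset of the set of blocks; the points `≥ n'` belong to all blow-ups -/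
def blow (n n' L : ℕ) (a : Finset (Fin L)) : Finset (Fin n) :=
  univ.filter (fun e => n' ≤ e.val ∨ ∃ i ∈ a, e.val % L = i.val)

theorem blow_inter (n n' L : ℕ) (a b : Finset (Fin L)) :
    blow n n' L a ∩ blow n n' L b = blow n n' L (a ∩ b) := by
  ext e
  simp only [blow, mem_inter, mem_filter, mem_univ, true_and]
  constructor
  · rintro ⟨h1 | ⟨i, hi, hei⟩, h2 | ⟨j, hj, hej⟩⟩
    · exact Or.inl h1
    · exact Or.inl h1
    · exact Or.inl h2
    · right
      have : i = j := Fin.ext (by omega)
      subst this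
      exact ⟨i, ⟨hi, hj⟩, hei⟩
  · rintro (h | ⟨i, ⟨hi, hj⟩, hei⟩)
    · exact ⟨Or.inl h, Or.inl h⟩
    · exact ⟨Or.inr ⟨i, hi, hei⟩, Or.inr ⟨i, hj, hei⟩⟩

theorem card_blow (n n' L : ℕ) (hn : n' ≤ n) (a : Finset (Fin L)) :
    (blow n n' L a).card = (n - n') + ∑ i ∈ a, wt n n' L i := by
  classical
  have h1 : blow n n' L a = (univ.filter (fun e : Fin n => n' ≤ e.val)) ∪
      a.biUnion (fun i => blk n n' L i) := by
    ext e
    simp only [blow, blk, mem_union, mem_filter, mem_univ, true_and, mem_biUnion]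
    constructor
    · rintro (h | ⟨i, hi, hei⟩)
      · exact Or.inl h
      · rcases Nat.lt_or_ge e.val n' with h | h
        · exact Or.inr ⟨i, hi, h, hei⟩
        · exact Or.inl h
    · rintro (h | ⟨i, hi, h, hei⟩)
      · exact Or.inl h
      · exact Or.inr ⟨i, hi, hei⟩
  have hdisj : Disjoint (univ.filter (fun e : Fin n => n' ≤ e.val))
      (a.biUnion (fun i => blk n n' L i)) := by
    rw [disjoint_left]
    intro e he he2
    simp only [blk, mem_filter, mem_univ, true_and, mem_biUnion] at he he2
    obtain ⟨i, _, h, _⟩ := he2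
    omega
  rw [h1, card_union_of_disjoint hdisj, card_biUnion]
  · congr 1
    have : (univ.filter (fun e : Fin n => n' ≤ e.val)).card =
        (univ : Finset (Fin n)).card - (univ.filter (fun e : Fin n => e.val < n')).card := by
      rw [← card_sdiff_of_subset (filter_subset _ _)]
      congr 1
      ext e
      simp
    rw [this, card_univ, Fintype.card_fin]
    congr 1
    rw [Fin.card_filter_val_lt]
    exact min_eq_right hn
  · intro i _ j _ hij
    rw [Function.onFun, disjoint_left]
    intro e he he2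
    simp only [blk, mem_filter, mem_univ, true_and] at he he2
    exact hij (Fin.ext (by omega))

theorem sum_wt (n n' L : ℕ) (hn : n' ≤ n) (hL : 0 < L) : ∑ i, wt n n' L i = n' := by
  have h := card_blow n n' L hn univ
  have h2 : blow n n' L univ = univ := by
    ext e
    simp only [blow, mem_filter, mem_univ, true_and, iff_true]
    right
    exact ⟨⟨e.val % L, Nat.mod_lt _ hL⟩, rfl⟩
  rw [h2, card_univ, Fintype.card_fin] at h
  omega

theorem wt_le (n n' L : ℕ) (i : Fin L) : wt n n' L i ≤ n / L + 1 := by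
  unfold wt
  have : (blk n n' L i).card ≤ (range (n / L + 1)).card := by
    apply card_le_card_of_injOn (fun e => e.val / L)
    · intro e he
      simp only [blk, coe_filter, mem_univ, true_and, Set.mem_ofPred_eq] at he
      simp only [coe_range, Set.mem_Iio]
      have := Nat.div_le_div_right (c := L) (show e.val ≤ n by omega)
      omega
    · intro e he f hf hef
      simp only [blk, coe_filter, mem_univ, true_and, Set.mem_ofPred_eq] at he hf
      have h1 := Nat.div_add_mod e.val L
      have h2 := Nat.div_add_mod f.val L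
      simp only at hef
      rw [hef, he.2] at h1
      rw [hf.2] at h2
      exact Fin.ext (by omega)
  simpa using this

theorem half (n' L : ℕ) (w : Fin L → ℕ) (hs : ∑ i, w i = n') (hodd : Odd n') :
    2 * ((univ : Finset (Finset (Fin L))).filter (fun a => n' < 2 * ∑ i ∈ a, w i)).card
      = 2 ^ L := by
  classical
  set M := (univ : Finset (Finset (Fin L))).filter (fun a => n' < 2 * ∑ i ∈ a, w i) with hM
  have h1 : Mᶜ.card = M.card := by
    symm
    refine card_bij (fun a _ => aᶜ) ?_ ?_ ?_
    · intro a ha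
      rw [hM, mem_filter] at ha
      rw [mem_compl, hM, mem_filter]
      intro hcon
      have := sum_add_sum_compl a w
      omega
    · intro a _ b _ hab
      exact compl_injective hab
    · intro b hb
      refine ⟨bᶜ, ?_, compl_compl b⟩
      rw [mem_compl, hM, mem_filter] at hb
      rw [hM, mem_filter]
      refine ⟨mem_univ _, ?_⟩
      have := sum_add_sum_compl b w
      have h2 : ¬ n' < 2 * ∑ i ∈ b, w i := fun h => hb ⟨mem_univ _, h⟩
      obtain ⟨r, hr⟩ := hodd
      omega
  have h2 := card_add_card_compl M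
  rw [h1, Fintype.card_finset, Fintype.card_fin] at h2
  omega

theorem exp_small (x : ℝ) (hx : x ≤ 5 / 16) : Real.exp x ≤ 3 / 2 := by
  have h1 : Real.exp x ≤ Real.exp (5 / 16) := Real.exp_le_exp.2 hx
  have h2 : (11 / 16 : ℝ) ≤ Real.exp (-(5 / 16)) := by
    have := Real.add_one_le_exp (-(5 / 16) : ℝ)
    linarith
  have h3 : Real.exp (5 / 16) * Real.exp (-(5 / 16)) = 1 := by rw [← Real.exp_add]; simp
  have h4 : 0 < Real.exp (5 / 16) := Real.exp_pos _
  nlinarith

/-- For all `n, m ≥ 1` and `0 < ε < 1/2` there are `m` subsets of an `n`-set with more than `n/2`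
elements each such that every subfamily in which any two members meet in more than `ε n` elements
has at most `6 m D^{-ε²/4}` members, where `D = min(m, 2^n)`. -/
theorem construct (n m : ℕ) (hn : 1 ≤ n) (hm : 1 ≤ m) (ε : ℝ) (hε : 0 < ε) (hε1 : ε < 1 / 2) :
    ∃ A : Fin m → Finset (Fin n), (∀ k, (n : ℝ) / 2 < ((A k).card : ℝ)) ∧
      ∀ I : Finset (Fin m), (∀ i ∈ I, ∀ j ∈ I, i ≠ j → ε * n < ((A i ∩ A j).card : ℝ)) →
        (I.card : ℝ) ≤ 6 * m * ((min m (2 ^ n) : ℕ) : ℝ) ^ (-(ε ^ 2 / 4)) := by
  classical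
  set D := min m (2 ^ n) with hD
  have hD1 : 1 ≤ D := le_min hm Nat.one_le_two_pow
  have hDm : D ≤ m := min_le_left _ _
  have hDn : D ≤ 2 ^ n := min_le_right _ _
  have hm' : (1 : ℝ) ≤ m := by exact_mod_cast hm
  have hn' : (1 : ℝ) ≤ n := by exact_mod_cast hn
  set L := Nat.log 2 D with hLdef
  have hL2 : 2 ^ L ≤ D := Nat.pow_log_le_self 2 (by omega)
  have hL3 : D < 2 ^ (L + 1) := Nat.lt_pow_succ_log_self (by norm_num) D
  rcases Nat.eq_zero_or_pos L with hL0 | hLpos
  · refine ⟨fun _ => univ, ?_, ?_⟩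
    · intro k
      rw [card_univ, Fintype.card_fin]
      linarith
    · intro I _
      have hDone : D = 1 := by rw [hL0] at hL3; omega
      rw [hDone]
      have : I.card ≤ m := by simpa using card_le_univ I
      have : (I.card : ℝ) ≤ m := by exact_mod_cast this
      simp only [Nat.cast_one, Real.one_rpow, mul_one]
      linarith
  have hLn : L ≤ n := by
    have := hL2.trans hDn
    exact (Nat.pow_le_pow_iff_right (by norm_num)).1 this
  have hLn' : (L : ℝ) ≤ n := by exact_mod_cast hLn
  have hLpos' : (0 : ℝ) < L := by exact_mod_cast hLpos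
  obtain ⟨n', hn'odd, hn'le, hn'ge⟩ : ∃ n', Odd n' ∧ n' ≤ n ∧ n ≤ n' + 1 := by
    rcases Nat.even_or_odd n with h | h
    · refine ⟨n - 1, ?_, by omega, by omega⟩
      obtain ⟨r, hr⟩ := h
      exact ⟨r - 1, by omega⟩
    · exact ⟨n, h, le_rfl, by omega⟩
  have hsum := sum_wt n n' L hn'le hLpos
  set M0 := (univ : Finset (Finset (Fin L))).filter
    (fun a => n' < 2 * ∑ i ∈ a, wt n n' L i) with hM0
  have hhalf := half n' L (wt n n' L) hsum hn'odd
  rw [← hM0] at hhalf
  have hMpos : 0 < M0.card := by
    have : 0 < 2 ^ L := by positivity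
    omega
  have hMm : M0.card ≤ m := by omega
  let g : Fin M0.card → Finset (Fin L) := fun x => (M0.equivFin.symm x).val
  have hg : ∀ x, g x ∈ M0 := fun x => (M0.equivFin.symm x).2
  let a : Fin m → Finset (Fin L) := fun k => g ⟨k.val % M0.card, Nat.mod_lt _ hMpos⟩
  have ha : ∀ k, n' < 2 * ∑ i ∈ a k, wt n n' L i := by
    intro k
    have := hg ⟨k.val % M0.card, Nat.mod_lt _ hMpos⟩
    exact (mem_filter.1 this).2
  refine ⟨fun k => blow n n' L (a k), ?_, ?_⟩
  · intro k
    rw [card_blow n n' L hn'le]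
    have h1 := ha k
    have h2 : n < 2 * ((n - n') + ∑ i ∈ a k, wt n n' L i) := by omega
    have h3 : (n : ℝ) < 2 * (((n - n') + ∑ i ∈ a k, wt n n' L i : ℕ) : ℝ) := by exact_mod_cast h2
    linarith
  · intro I hI
    set F0 := I.image a with hF0
    -- the number of indices
    have hcardI : I.card ≤ F0.card * (m / M0.card + 1) := by
      have : I.card ≤ (F0 ×ˢ range (m / M0.card + 1)).card := by
        apply card_le_card_of_injOn (fun k => (a k, k.val / M0.card))
        · intro k hk
          simp only [coe_product, Set.mem_prod, mem_coe, mem_range]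
          refine ⟨mem_image_of_mem _ hk, ?_⟩
          have := Nat.div_le_div_right (c := M0.card) (show k.val ≤ m by omega)
          omega
        · intro k _ l _ hkl
          simp only [Prod.mk.injEq] at hkl
          obtain ⟨h1, h2⟩ := hkl
          have h3 : (⟨k.val % M0.card, Nat.mod_lt _ hMpos⟩ : Fin M0.card) =
              ⟨l.val % M0.card, Nat.mod_lt _ hMpos⟩ := by
            have : Function.Injective g := by
              intro x y hxy
              exact M0.equivFin.symm.injective (Subtype.ext hxy)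
            exact this h1
          have h4 : k.val % M0.card = l.val % M0.card := by simpa using h3
          have h5 := Nat.div_add_mod k.val M0.card
          have h6 := Nat.div_add_mod l.val M0.card
          rw [h2, h4] at h5
          exact Fin.ext (by omega)
      rwa [card_product, card_range] at this
    -- the pairwise intersections
    have hpair : ∀ x ∈ F0, ∀ y ∈ F0, ε * n - 1 ≤ ∑ i ∈ x ∩ y, (wt n n' L i : ℝ) := by
      intro x hx y hy
      obtain ⟨k, hk, rfl⟩ := mem_image.1 hx
      obtain ⟨l, hl, rfl⟩ := mem_image.1 hy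
      by_cases hkl : k = l
      · subst hkl
        rw [inter_self]
        have h1 := ha k
        have h2 : (n' : ℝ) < 2 * ∑ i ∈ a k, (wt n n' L i : ℝ) := by exact_mod_cast h1
        have h3 : (n : ℝ) ≤ n' + 1 := by exact_mod_cast hn'ge
        have h4 : ε * n ≤ 1 / 2 * n := mul_le_mul_of_nonneg_right hε1.le (by positivity)
        linarith
      · have h1 := hI k hk l hl hkl
        simp only [blow_inter, card_blow n n' L hn'le] at h1
        push_cast at h1
        have h2 : ((n - n' : ℕ) : ℝ) ≤ 1 := by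
          have : n - n' ≤ 1 := by omega
          exact_mod_cast this
        linarith
    have hwle : ∀ i, (wt n n' L i : ℝ) ≤ 2 * n / L := by
      intro i
      have h1 := wt_le n n' L i
      have h2 : (wt n n' L i : ℝ) ≤ ((n / L : ℕ) : ℝ) + 1 := by exact_mod_cast h1
      have h3 : ((n / L : ℕ) : ℝ) ≤ (n : ℝ) / L := Nat.cast_div_le
      have h4 : (1 : ℝ) ≤ (n : ℝ) / L := (one_le_div hLpos').2 hLn'
      have h5 : (2 * n / L : ℝ) = n / L + n / L := by ring
      linarith
    have hW : ∑ i : Fin L, (wt n n' L i : ℝ) ^ 2 ≤ 2 * n ^ 2 / L := by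
      have h1 : ∑ i : Fin L, (wt n n' L i : ℝ) ^ 2 ≤
          ∑ i : Fin L, (2 * n / L) * (wt n n' L i : ℝ) := by
        apply sum_le_sum
        intro i _
        rw [sq]
        exact mul_le_mul_of_nonneg_right (hwle i) (Nat.cast_nonneg _)
      refine h1.trans ?_
      rw [← mul_sum]
      have h2 : ∑ i : Fin L, (wt n n' L i : ℝ) = n' := by exact_mod_cast hsum
      rw [h2]
      have h3 : (n' : ℝ) ≤ n := by exact_mod_cast hn'le
      have h4 : (2 * n ^ 2 / L : ℝ) = 2 * n / L * n := by ring
      rw [h4]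
      exact mul_le_mul_of_nonneg_left h3 (by positivity)
    have hsq := Cube.card_sq_le (fun i => (wt n n' L i : ℝ)) (fun i => Nat.cast_nonneg _)
      (2 * n ^ 2 / L) hW F0 (ε * n - 1) (ε * L / n) (by positivity) hpair
    have hF0le : (F0.card : ℝ) ≤ 2 ^ L * Real.exp (-(ε ^ 2 / 4) * L + ε / 2) := by
      have h1 : (F0.card : ℝ) ^ 2 ≤ (2 ^ L * Real.exp (-(ε ^ 2 / 4) * L + ε / 2)) ^ 2 := by
        refine hsq.trans ?_
        have e1 : (4 : ℝ) ^ L = 2 ^ L * 2 ^ L := by rw [← mul_pow]; norm_num
        rw [mul_pow, ← Real.exp_nat_mul, sq ((2 : ℝ) ^ L), ← e1]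
        apply mul_le_mul_of_nonneg_left _ (by positivity)
        apply Real.exp_le_exp.2
        have hn0 : (n : ℝ) ≠ 0 := by positivity
        have hL0 : (L : ℝ) ≠ 0 := by positivity
        have e2 : (ε * L / n) ^ 2 * (2 * n ^ 2 / L) / 4 - ε * L / n * (ε * n - 1) =
            -(ε ^ 2 * L / 2) + ε * (L / n) := by
          field_simp
          ring
        rw [e2]
        push_cast
        have h5 : (L : ℝ) / n ≤ 1 := (div_le_one (by positivity)).2 hLn'
        nlinarith
      exact (pow_le_pow_iff_left₀ (by positivity) (by positivity) (by norm_num)).1 h1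
    -- put together
    have hM0' : (M0.card : ℝ) = 2 ^ L / 2 := by
      have : (2 : ℝ) * M0.card = 2 ^ L := by exact_mod_cast hhalf
      linarith
    have hMposR : (0 : ℝ) < M0.card := by exact_mod_cast hMpos
    have h10 : ((m / M0.card + 1 : ℕ) : ℝ) ≤ 4 * m / 2 ^ L := by
      push_cast
      have h1 : ((m / M0.card : ℕ) : ℝ) ≤ (m : ℝ) / M0.card := Nat.cast_div_le
      have h2 : (1 : ℝ) ≤ (m : ℝ) / M0.card := (one_le_div hMposR).2 (by exact_mod_cast hMm)
      have h3 : (4 * m / 2 ^ L : ℝ) = m / M0.card + m / M0.card := by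
        rw [hM0']; field_simp; ring
      linarith
    have h11 : (I.card : ℝ) ≤ F0.card * ((m / M0.card + 1 : ℕ) : ℝ) := by exact_mod_cast hcardI
    have h12 : (I.card : ℝ) ≤ (2 ^ L * Real.exp (-(ε ^ 2 / 4) * L + ε / 2)) * (4 * m / 2 ^ L) :=
      h11.trans (mul_le_mul hF0le h10 (by positivity) (by positivity))
    have h13 : (2 ^ L * Real.exp (-(ε ^ 2 / 4) * L + ε / 2)) * (4 * m / 2 ^ L) =
        4 * m * Real.exp (-(ε ^ 2 / 4) * L + ε / 2) := by
      field_simp
    rw [h13] at h12
    refine h12.trans ?_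
    have hDpos : (0 : ℝ) < D := by exact_mod_cast hD1
    have hlogD : Real.log D ≤ L + 1 := by
      have h1 : (D : ℝ) ≤ 2 ^ (L + 1) := by exact_mod_cast hL3.le
      have h2 : Real.log D ≤ Real.log (2 ^ (L + 1)) := Real.log_le_log hDpos h1
      rw [Real.log_pow] at h2
      have h3 : Real.log 2 ≤ 1 := by
        have := Real.log_two_lt_d9
        linarith
      have h4 : ((L + 1 : ℕ) : ℝ) * Real.log 2 ≤ ((L + 1 : ℕ) : ℝ) * 1 :=
        mul_le_mul_of_nonneg_left h3 (by positivity)
      push_cast at h2 h4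
      linarith
    have h14 : Real.exp (-(ε ^ 2 / 4) * L + ε / 2) ≤
        (3 / 2) * (D : ℝ) ^ (-(ε ^ 2 / 4)) := by
      rw [Real.rpow_def_of_pos hDpos]
      have h15 : Real.exp (-(ε ^ 2 / 4) * L + ε / 2) ≤
          Real.exp ((ε / 2 + ε ^ 2 / 4) + Real.log D * (-(ε ^ 2 / 4))) := by
        apply Real.exp_le_exp.2
        nlinarith [sq_nonneg ε]
      refine h15.trans ?_
      rw [Real.exp_add]
      apply mul_le_mul_of_nonneg_right _ (Real.exp_pos _).le
      apply exp_small
      nlinarith
    have h16 : 4 * (m : ℝ) * Real.exp (-(ε ^ 2 / 4) * L + ε / 2) ≤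
        4 * m * ((3 / 2) * (D : ℝ) ^ (-(ε ^ 2 / 4))) :=
      mul_le_mul_of_nonneg_left h14 (by positivity)
    refine h16.trans (le_of_eq ?_)
    ring

end Pool.Agent.TH393.Constr
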