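import Pool.Agent.TH393.LkKk

set_option autoImplicit false
set_option linter.unusedSectionVars false

/-!
Optimal subspaces have only trivial linear syzygies, and the gap theorem.
-/

namespace Pool.Agent.TH393.Lk

open Module Finset

variable {n : ℕ}

/-- Optimal subspaces: linear syzygies and the second boundary. -/
theorem opt (k : ℕ) : ∀ B : Submodule ℝ (Finset (Fin n) → ℝ), B ≤ gr n k →
    finrank ℝ (bd ct B) = Fm k (finrank ℝ B) →
    Syz ct B ∧ finrank ℝ (bd ct (bd ct B)) ≤ Fm (k - 1) (Fm k (finrank ℝ B)) := by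
  induction k with
  | zero =>
    intro B hB _
    have h0 : bd ct B = ⊥ := by
      rw [Submodule.eq_bot_iff]
      intro v hv
      have : bd ct B ≤ ⊥ := bd_le ct fun α w hw => by
        rw [Submodule.mem_bot]
        exact ct_gr0 (hB hw) α
      exact (Submodule.mem_bot ℝ).1 (this hv)
    refine ⟨?_, ?_⟩
    · intro c hc _
      have : c = 0 := by
        funext j
        have := hc j
        rw [h0] at this
        exact (Submodule.mem_bot ℝ).1 this
      rw [this]
      exact zero_mem _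
    · have h1 : bd ct (bd ct B) = ⊥ := by
        rw [h0, Submodule.eq_bot_iff]
        intro v hv
        have : bd ct (⊥ : Submodule ℝ (Finset (Fin n) → ℝ)) ≤ ⊥ := bd_le ct fun α w hw => by
          rw [(Submodule.mem_bot ℝ).1 hw, map_zero]
          exact zero_mem _
        exact (Submodule.mem_bot ℝ).1 (this hv)
      rw [h1, finrank_bot]
      exact Nat.zero_le _
  | succ k ih =>
    intro B hB hopt
    obtain ⟨φ, hg, hg'⟩ := exists_gen ct B (bd ct B)
    have h1 := finrank_split ct B φ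
    have h2 := split_bd ct ct_ct B φ
    have h3 := Submodule.finrank_mono (map_le_ker ct ct_ct B φ)
    have h4 := Submodule.finrank_mono (gen_bd_ker ct hg)
    have h5 := kk' (map_gr hB φ)
    have h6 := kk' (show B ⊓ LinearMap.ker (ct φ) ≤ gr n (k + 1) from inf_le_left.trans hB)
    have h7 := split_ineq k _ _ (h6.trans h4)
    have h8 : finrank ℝ (B ⊓ LinearMap.ker (ct φ) : Submodule ℝ _) +
          finrank ℝ (B.map (ct φ)) = finrank ℝ B := by omega
    rw [h8] at h7
    have h9 : finrank ℝ (bd ct (B.map (ct φ))) = Fm k (finrank ℝ (B.map (ct φ))) := by omega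
    have h10 : finrank ℝ (bd ct B ⊓ LinearMap.ker (ct φ) : Submodule ℝ _) ≤
      finrank ℝ (B.map (ct φ)) := by omega
    have h11 : Fm (k + 1) (finrank ℝ B) = finrank ℝ (B.map (ct φ)) +
      Fm k (finrank ℝ (B.map (ct φ))) := by omega
    have h12 : B.map (ct φ) = bd ct B ⊓ LinearMap.ker (ct φ) :=
      Submodule.eq_of_le_of_finrank_le (map_le_ker ct ct_ct B φ) h10
    obtain ⟨hS, hd⟩ := ih (B.map (ct φ)) (map_gr hB φ) h9
    have hker : bd ct B ⊓ LinearMap.ker (ct φ) ≤ B.map (ct φ) := h12.ge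
    refine ⟨syz_transfer ct ct_ct hker hS, ?_⟩
    have h13 := Submodule.finrank_mono (ker_transfer ct ct_ct hker hS)
    have h14 := finrank_split ct (bd ct (bd ct B)) φ
    rw [map_bd ct ct_ct, map_bd ct ct_ct] at h14
    rw [map_bd ct ct_ct] at h13
    rw [h11]
    simp only [Nat.add_sub_cancel]
    rcases k with _ | k
    · simp only [Fm_zero, Nat.zero_sub, add_zero] at *
      omega
    · have h15 := second_ineq k (finrank ℝ (B.map (ct φ)))
      simp only [Nat.add_sub_cancel] at hd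
      omega

/-- The gap theorem for subspaces. -/
theorem gap (m : ℕ) (β : ℕ → ℕ) (hβ : ∀ j, j + 1 < m → β j ≤ β (j + 1)) (ρ : ℕ) :
    ∀ V : Submodule ℝ (Finset (Fin n) → ℝ), V ≤ gr n (ρ + m) →
    Fm (ρ + m) (finrank ℝ V - 1) ≤ SS ρ m β → SS ρ m β < finrank ℝ (bd ct V) →
    Fm (ρ + m) (finrank ℝ V - 1) + ρ ≤ finrank ℝ (bd ct V) := by
  induction ρ with
  | zero =>
    intro V _ h1 h2
    omega
  | succ ρ ih =>
    intro V hV h1 h2
    rcases Nat.eq_zero_or_pos ρ with rfl | hρ
    · omega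
    have e1 : ρ + 1 + m = (ρ + m) + 1 := by ring
    rw [e1] at hV h1 ⊢
    have e3 := SS_pascal ρ m β
    obtain ⟨φ, hg, hg'⟩ := exists_gen ct V (bd ct V)
    have g1 := finrank_split ct V φ
    have g2 := split_bd ct ct_ct V φ
    have g3 := Submodule.finrank_mono (map_le_ker ct ct_ct V φ)
    have g4 := Submodule.finrank_mono (gen_bd_ker ct hg)
    have hV1 := map_gr hV φ
    have g5 := kk' hV1
    have g6 := kk' (show V ⊓ LinearMap.ker (ct φ) ≤ gr n (ρ + m + 1) from inf_le_left.trans hV)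
    have hj := jump m ρ β hβ
    have hc := Fm_cascade ρ m β hβ
    have step1 : SS ρ m β < finrank ℝ (bd ct (V.map (ct φ))) := by
      by_contra hcon
      have f1 := Submodule.finrank_mono (gen_bd_ker ct hg')
      rw [map_bd ct ct_ct] at f1
      have f2 := kk' (show bd ct V ⊓ LinearMap.ker (ct φ) ≤ gr n (ρ + m) from
        inf_le_left.trans (bd_gr hV))
      have f3 : finrank ℝ (bd ct V ⊓ LinearMap.ker (ct φ) : Submodule ℝ _) ≤ TT ρ m β := by
        by_contra hcon2
        have := Fm_mono (ρ + m) (show TT ρ m β + 1 ≤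
          finrank ℝ (bd ct V ⊓ LinearMap.ker (ct φ) : Submodule ℝ _) by omega)
        omega
      omega
    by_cases hbig : TT ρ m β + 1 ≤ finrank ℝ (V.map (ct φ))
    · have := Fm_mono (ρ + m) hbig
      omega
    · have hle : finrank ℝ (V.map (ct φ)) ≤ TT ρ m β := by omega
      have hle' := Fm_mono (ρ + m) hle
      have hle'' := Fm_mono (ρ + m) (show finrank ℝ (V.map (ct φ)) - 1 ≤ TT ρ m β by omega)
      have f1 := ih (V.map (ct φ)) hV1 (by omega) step1
      have hv1 : 1 ≤ finrank ℝ (V.map (ct φ)) := by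
        by_contra h0
        have h0' : finrank ℝ (V.map (ct φ)) = 0 := by omega
        have h6 : V.map (ct φ) = ⊥ := Submodule.finrank_eq_zero.1 h0'
        have h7 : bd ct (V.map (ct φ)) = ⊥ := by
          rw [h6, Submodule.eq_bot_iff]
          intro v hv
          have : bd ct (⊥ : Submodule ℝ (Finset (Fin n) → ℝ)) ≤ ⊥ := bd_le ct fun α w hw => by
            rw [(Submodule.mem_bot ℝ).1 hw, map_zero]
            exact zero_mem _
          exact (Submodule.mem_bot ℝ).1 (this hv)
        rw [h7, finrank_bot] at step1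
        omega
      by_cases hb : Fm (ρ + m + 1) (finrank ℝ (V ⊓ LinearMap.ker (ct φ) : Submodule ℝ _)) ≤
          finrank ℝ (V.map (ct φ)) - 1
      · have f2 := split_ineq (ρ + m) _ _ hb
        have f3 : finrank ℝ (V ⊓ LinearMap.ker (ct φ) : Submodule ℝ _) +
          (finrank ℝ (V.map (ct φ)) - 1) = finrank ℝ V - 1 := by omega
        rw [f3] at f2
        omega
      · exfalso
        have f4 : bd ct (V ⊓ LinearMap.ker (ct φ)) = V.map (ct φ) :=
          Submodule.eq_of_le_of_finrank_le (gen_bd_ker ct hg) (by omega)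
        have f5 := (opt (ρ + m + 1) (V ⊓ LinearMap.ker (ct φ)) (inf_le_left.trans hV)
          (by omega)).2
        rw [f4] at f5
        simp only [Nat.add_sub_cancel] at f5
        have f6 : Fm (ρ + m + 1) (finrank ℝ (V ⊓ LinearMap.ker (ct φ) : Submodule ℝ _)) =
          finrank ℝ (V.map (ct φ)) := by omega
        rw [f6] at f5
        omega

/-- The gap theorem for families. -/
theorem gap_fam (m ρ : ℕ) (β : ℕ → ℕ) (hβ : ∀ j, j + 1 < m → β j ≤ β (j + 1))
    (𝒜 : Finset (Finset ℕ)) (h2 : ∀ A ∈ 𝒜, A.card = ρ + m)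
    (h3 : Fm (ρ + m) (𝒜.card - 1) ≤ SS ρ m β) (h4 : SS ρ m β < 𝒜.shadow.card) :
    Fm (ρ + m) (𝒜.card - 1) + ρ ≤ 𝒜.shadow.card := by
  obtain ⟨N, hN⟩ := to_fin 𝒜
  obtain ⟨𝒟, hD⟩ := hN N le_rfl
  have s1 : ∀ A ∈ 𝒟, A.card = ρ + m := sized_of_fmap (f := Fin.valEmbedding) (by rw [hD]; exact h2)
  have c1 : 𝒟.card = 𝒜.card := by rw [← card_fmap Fin.valEmbedding, hD]
  have d1 : 𝒟.shadow.card = 𝒜.shadow.card := by
    rw [← card_fmap Fin.valEmbedding, ← shadow_fmap, hD]
  have g7 : finrank ℝ (sp 𝒟) = 𝒜.card := by rw [finrank_sp, c1]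
  have g8 : finrank ℝ (bd ct (sp 𝒟)) = 𝒜.shadow.card := by rw [bd_sp, finrank_sp, d1]
  have := gap (n := N) m β hβ ρ (sp 𝒟) (sp_le_gr s1) (by rw [g7]; exact h3) (by rw [g8]; exact h4)
  rw [g7, g8] at this
  exact this

end Pool.Agent.TH393.Lk
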