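import Mathlib

set_option autoImplicit false

/-!
# Two far apart families in the discrete cube, and families with large pairwise intersections
-/

open Finset

namespace Pool.Agent.TH393.Cube

/-- the section of a family of `0/1`-vectors at a value of the first coordinate -/
def sec {N : ℕ} (F : Finset (Fin (N + 1) → Bool)) (b : Bool) : Finset (Fin N → Bool) :=
  univ.filter (fun x => (Fin.cons b x : Fin (N + 1) → Bool) ∈ F)

theorem card_sec {N : ℕ} (F : Finset (Fin (N + 1) → Bool)) :
    F.card = (sec F false).card + (sec F true).card := by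
  classical
  have h1 : F.card = (F.filter (fun x => x 0 = false)).card +
      (F.filter (fun x => ¬ x 0 = false)).card :=
    (card_filter_add_card_filter_not _).symm
  have h2 : (F.filter (fun x => x 0 = false)).card = (sec F false).card := by
    symm
    refine card_bij (fun x _ => (Fin.cons false x : Fin (N + 1) → Bool)) ?_ ?_ ?_
    · intro x hx
      simp only [sec, mem_filter, mem_univ, true_and] at hx ⊢
      exact ⟨hx, rfl⟩
    · intro x _ y _ hxy
      exact (Fin.cons_injective2 hxy).2
    · intro y hy
      rw [mem_filter] at hy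
      refine ⟨Fin.tail y, ?_, ?_⟩
      · simp only [sec, mem_filter, mem_univ, true_and]
        rw [← hy.2, Fin.cons_self_tail]; exact hy.1
      · rw [← hy.2, Fin.cons_self_tail]
  have h3 : (F.filter (fun x => ¬ x 0 = false)).card = (sec F true).card := by
    symm
    refine card_bij (fun x _ => (Fin.cons true x : Fin (N + 1) → Bool)) ?_ ?_ ?_
    · intro x hx
      simp only [sec, mem_filter, mem_univ, true_and] at hx ⊢
      exact ⟨hx, by simp⟩
    · intro x _ y _ hxy
      exact (Fin.cons_injective2 hxy).2
    · intro y hy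
      rw [mem_filter] at hy
      have hy2 : y 0 = true := by simpa using hy.2
      refine ⟨Fin.tail y, ?_, ?_⟩
      · simp only [sec, mem_filter, mem_univ, true_and]
        rw [← hy2, Fin.cons_self_tail]; exact hy.1
      · rw [← hy2, Fin.cons_self_tail]
  rw [h1, h2, h3]

/-- the elementary inequality behind the induction -/
theorem elem_ineq (t B p q r s : ℝ) (hB : 0 < B) (hq : 0 ≤ q) (hs : 0 ≤ s) (h1 : p * r ≤ B) (h2 : q * s ≤ B) (h3 : p * s ≤ Real.exp t * B)
    (h4 : q * r ≤ Real.exp t * B) :
    (p + q) * (r + s) ≤ (2 + 2 * Real.cosh t) * B := by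
  have hM : 0 < Real.exp t * B := mul_pos (Real.exp_pos t) hB
  have hprod : (p * s) * (q * r) ≤ B * B := by
    have : (p * s) * (q * r) = (p * r) * (q * s) := by ring
    rw [this]
    exact mul_le_mul h1 h2 (mul_nonneg hq hs) hB.le
  have hcosh : 2 * Real.cosh t = Real.exp t + Real.exp (-t) := by
    rw [Real.cosh_eq]; ring
  have hinv : Real.exp (-t) * Real.exp t = 1 := by rw [← Real.exp_add]; simp
  have key : (p * s + q * r) ≤ (Real.exp t + Real.exp (-t)) * B := by
    have h5 : 0 ≤ (Real.exp t * B - p * s) * (Real.exp t * B - q * r) :=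
      mul_nonneg (by linarith) (by linarith)
    have h6 : (Real.exp t * B) * (p * s + q * r) ≤
        (Real.exp t * B) * ((Real.exp t + Real.exp (-t)) * B) := by
      have e1 : (Real.exp t * B) * ((Real.exp t + Real.exp (-t)) * B) =
          (Real.exp t * B) * (Real.exp t * B) + (Real.exp (-t) * Real.exp t) * (B * B) := by ring
      rw [e1, hinv, one_mul]
      nlinarith
    exact le_of_mul_le_mul_left h6 hM
  have : (p + q) * (r + s) = p * r + q * s + (p * s + q * r) := by ring
  rw [this, add_mul, hcosh]
  linarith

/-- If every member of `F` has weighted Hamming distance at least `k` from every member of `G`,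
then `|F| |G| ≤ e^{-tk} ∏ (2 + 2 cosh (t w_i))` for every real `t ≥ 0`. -/
theorem two_families (t : ℝ) (ht : 0 ≤ t) : ∀ (N : ℕ) (w : Fin N → ℝ)
    (F G : Finset (Fin N → Bool)) (k : ℝ),
    (∀ x ∈ F, ∀ y ∈ G, k ≤ ∑ i, (if x i = y i then 0 else w i)) →
    (F.card : ℝ) * G.card ≤ (∏ i, (2 + 2 * Real.cosh (t * w i))) * Real.exp (-(t * k)) := by
  intro N
  induction N with
  | zero =>
    intro w F G k h
    rcases F.eq_empty_or_nonempty with rfl | ⟨x, hx⟩
    · simp; exact (Real.exp_pos _).le
    rcases G.eq_empty_or_nonempty with rfl | ⟨y, hy⟩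
    · simp; exact (Real.exp_pos _).le
    have hk : k ≤ 0 := by
      have := h x hx y hy
      simpa using this
    have hF : F.card ≤ 1 := by
      have := card_le_univ F
      simpa using this
    have hG : G.card ≤ 1 := by
      have := card_le_univ G
      simpa using this
    have hF' : (F.card : ℝ) ≤ 1 := by exact_mod_cast hF
    have hG' : (G.card : ℝ) ≤ 1 := by exact_mod_cast hG
    have he : 1 ≤ Real.exp (-(t * k)) := by
      apply Real.one_le_exp
      nlinarith
    rw [univ_eq_empty, prod_empty, one_mul]
    calc (F.card : ℝ) * G.card ≤ 1 * 1 := mul_le_mul hF' hG' (by positivity) (by norm_num)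
      _ ≤ _ := by rw [one_mul]; exact he
  | succ N ih =>
    intro w F G k h
    set P := ∏ i : Fin N, (2 + 2 * Real.cosh (t * w i.succ)) with hP
    have hsame : ∀ b : Bool, ((sec F b).card : ℝ) * (sec G b).card ≤
        P * Real.exp (-(t * k)) := by
      intro b
      apply ih (fun i => w i.succ)
      intro x hx y hy
      simp only [sec, mem_filter, mem_univ, true_and] at hx hy
      have := h _ hx _ hy
      rw [Fin.sum_univ_succ] at this
      simpa using this
    have hdiff : ∀ b c : Bool, b ≠ c → ((sec F b).card : ℝ) * (sec G c).card ≤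
        Real.exp (t * w 0) * (P * Real.exp (-(t * k))) := by
      intro b c hbc
      have := ih (fun i => w i.succ) (sec F b) (sec G c) (k - w 0) (by
        intro x hx y hy
        simp only [sec, mem_filter, mem_univ, true_and] at hx hy
        have := h _ hx _ hy
        rw [Fin.sum_univ_succ] at this
        simp only [Fin.cons_zero, Fin.cons_succ, if_neg hbc] at this
        linarith)
      refine this.trans (le_of_eq ?_)
      have e : -(t * (k - w 0)) = t * w 0 + -(t * k) := by ring
      rw [e, Real.exp_add]; ring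
    have hPpos : 0 < P := by
      apply prod_pos
      intro i _
      have : 0 < Real.cosh (t * w i.succ) := Real.cosh_pos _
      linarith
    have hB : 0 < P * Real.exp (-(t * k)) := by positivity
    have := elem_ineq (t * w 0) _ ((sec F false).card : ℝ) ((sec F true).card : ℝ)
      ((sec G false).card : ℝ) ((sec G true).card : ℝ) hB (by positivity) (by positivity)
      (hsame false) (hsame true) (hdiff _ _ (by decide)) (hdiff _ _ (by decide))
    rw [card_sec F, card_sec G, Fin.prod_univ_succ]
    push_cast
    refine this.trans (le_of_eq ?_)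
    rw [← hP]; ring

/-- `2 + 2 cosh x ≤ 4 e^{x²/4}` -/
theorem cosh_bound (x : ℝ) : 2 + 2 * Real.cosh x ≤ 4 * Real.exp (x ^ 2 / 4) := by
  have e1 : Real.cosh x = 2 * Real.cosh (x / 2) ^ 2 - 1 := by
    have : x = 2 * (x / 2) := by ring
    rw [this, Real.cosh_two_mul]
    have := Real.cosh_sq (x / 2)
    rw [show 2 * (x / 2) / 2 = x / 2 by ring]
    linarith
  have e2 : Real.cosh (x / 2) ≤ Real.exp ((x / 2) ^ 2 / 2) := Real.cosh_le_exp_half_sq _
  have e3 : Real.cosh (x / 2) ^ 2 ≤ Real.exp ((x / 2) ^ 2 / 2) ^ 2 :=
    pow_le_pow_left₀ (Real.cosh_pos _).le e2 2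
  have e4 : Real.exp ((x / 2) ^ 2 / 2) ^ 2 = Real.exp (x ^ 2 / 4) := by
    rw [← Real.exp_nat_mul]; congr 1; push_cast; ring
  rw [e1, ← e4]; linarith

/-- A family of subsets of `Fin N`, any two members of which (a member and itself included) have
an intersection of weight at least `k`, satisfies `|F|² ≤ 4^N e^{t² W/4 - t k}` where `W` is any
upper bound of the sum of the squares of the weights. -/
theorem card_sq_le {N : ℕ} (w : Fin N → ℝ) (hw : ∀ i, 0 ≤ w i) (W : ℝ)
    (hW : ∑ i, w i ^ 2 ≤ W) (F : Finset (Finset (Fin N))) (k t : ℝ) (ht : 0 ≤ t)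
    (h : ∀ A ∈ F, ∀ B ∈ F, k ≤ ∑ i ∈ A ∩ B, w i) :
    (F.card : ℝ) ^ 2 ≤ 4 ^ N * Real.exp (t ^ 2 * W / 4 - t * k) := by
  classical
  let ind : Finset (Fin N) → (Fin N → Bool) := fun A i => decide (i ∈ A)
  let cind : Finset (Fin N) → (Fin N → Bool) := fun A i => decide (i ∉ A)
  have hind : Function.Injective ind := by
    intro A B hAB
    ext i
    have := congrFun hAB i
    simpa [ind] using this
  have hcind : Function.Injective cind := by
    intro A B hAB
    ext i
    have := congrFun hAB i
    simp only [cind, decide_eq_decide] at this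
    tauto
  have hdist : ∀ x ∈ F.image ind, ∀ y ∈ F.image cind,
      k ≤ ∑ i, (if x i = y i then 0 else w i) := by
    intro x hx y hy
    obtain ⟨A, hA, rfl⟩ := mem_image.1 hx
    obtain ⟨B, hB, rfl⟩ := mem_image.1 hy
    refine (h A hA B hB).trans ?_
    have e1 : ∑ i ∈ A ∩ B, w i = ∑ i, (if i ∈ A ∩ B then w i else 0) := by
      rw [sum_ite_mem, univ_inter]
    rw [e1]
    apply sum_le_sum
    intro i _
    by_cases hi : i ∈ A ∩ B
    · rw [if_pos hi, if_neg]
      rw [mem_inter] at hi
      simp only [ind, cind, decide_eq_decide]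
      tauto
    · rw [if_neg hi]
      split_ifs
      · exact le_rfl
      · exact hw i
  have key := two_families t ht N w (F.image ind) (F.image cind) k hdist
  rw [card_image_of_injective _ hind, card_image_of_injective _ hcind] at key
  have hprod : ∏ i, (2 + 2 * Real.cosh (t * w i)) ≤ 4 ^ N * Real.exp (t ^ 2 * W / 4) := by
    have h1 : ∏ i, (2 + 2 * Real.cosh (t * w i)) ≤
        ∏ i, (4 * Real.exp ((t * w i) ^ 2 / 4)) := by
      apply prod_le_prod
      · intro i _
        have := Real.cosh_pos (t * w i)
        linarith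
      · intro i _
        exact cosh_bound _
    refine h1.trans ?_
    rw [prod_mul_distrib, prod_const, card_univ, Fintype.card_fin, ← Real.exp_sum]
    apply mul_le_mul_of_nonneg_left _ (by positivity)
    apply Real.exp_le_exp.2
    have : ∑ i, (t * w i) ^ 2 / 4 = t ^ 2 / 4 * ∑ i, w i ^ 2 := by
      rw [mul_sum]; apply sum_congr rfl; intro i _; ring
    rw [this]
    have : 0 ≤ t ^ 2 / 4 := by positivity
    nlinarith
  have h2 := mul_le_mul_of_nonneg_right hprod (Real.exp_pos (-(t * k))).le
  rw [sq]
  refine (key.trans h2).trans (le_of_eq ?_)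
  rw [mul_assoc, ← Real.exp_add]
  congr 2

end Pool.Agent.TH393.Cube
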