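import Mathlib

set_option autoImplicit false

/-!
# Dependent random choice for dense set systems
-/

open Finset

namespace Pool.Agent.TH393.Drc

/-- Dependent random choice: among `m` subsets of an `n`-set, each of size at least `c n`, forming
at most `D` distinct sets, there is for every `k` a subfamily with at least
`m c^k - m D ε^k` members, any two of which meet in more than `ε n` elements. -/
theorem drc {n m : ℕ} (hn : 0 < n) (A : Fin m → Finset (Fin n)) (c ε : ℝ) (hc : 0 ≤ c)
    (hε : 0 ≤ ε) (hA : ∀ i, c * n ≤ ((A i).card : ℝ)) (D k : ℕ)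
    (hD : (univ.image A).card ≤ D) :
    ∃ I : Finset (Fin m), (∀ i ∈ I, ∀ j ∈ I, ε * n < ((A i ∩ A j).card : ℝ)) ∧
      (m : ℝ) * c ^ k - m * D * ε ^ k ≤ I.card := by
  classical
  let S : (Fin k → Fin n) → Finset (Fin m) := fun x => univ.filter (fun i => ∀ j, x j ∈ A i)
  let R : (Fin k → Fin n) → Finset (Fin m) := fun x => (S x).filter (fun i =>
    ∃ B ∈ univ.image A, (∀ j, x j ∈ B) ∧ ((A i ∩ B).card : ℝ) ≤ ε * n)
  have hcount : ∀ T : Finset (Fin n),
      ((univ : Finset (Fin k → Fin n)).filter (fun x => ∀ j, x j ∈ T)).card = T.card ^ k := by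
    intro T
    have : (univ : Finset (Fin k → Fin n)).filter (fun x => ∀ j, x j ∈ T) =
        Fintype.piFinset (fun _ : Fin k => T) := by
      ext x; simp [Fintype.mem_piFinset]
    rw [this, Fintype.card_piFinset]
    simp
  -- total number of survivors
  have hS : ∑ x : Fin k → Fin n, ((S x).card : ℝ) = ∑ i : Fin m, ((A i).card : ℝ) ^ k := by
    have h1 : ∀ x, ((S x).card : ℝ) = ∑ i : Fin m, (if ∀ j, x j ∈ A i then (1 : ℝ) else 0) := by
      intro x
      rw [Finset.sum_boole]
    simp_rw [h1]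
    rw [Finset.sum_comm]
    apply sum_congr rfl
    intro i _
    rw [Finset.sum_boole, hcount]
    push_cast; rfl
  -- total number of removed ones
  have hR : ∑ x : Fin k → Fin n, ((R x).card : ℝ) ≤ m * D * (ε * n) ^ k := by
    have h1 : ∀ x, ((R x).card : ℝ) ≤ ∑ i : Fin m, ∑ B ∈ univ.image A,
        (if (∀ j, x j ∈ A i ∩ B) ∧ ((A i ∩ B).card : ℝ) ≤ ε * n then (1 : ℝ) else 0) := by
      intro x
      have : ((R x).card : ℝ) = ∑ i : Fin m, (if i ∈ R x then (1 : ℝ) else 0) := by
        rw [Finset.sum_boole]; congr 1; congr 1; ext i; simp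
      rw [this]
      apply sum_le_sum
      intro i _
      split_ifs with hi
      · simp only [R, S, mem_filter, mem_univ, true_and] at hi
        obtain ⟨hi1, B, hB, hxB, hcard⟩ := hi
        have h2 : (if (∀ j, x j ∈ A i ∩ B) ∧ ((A i ∩ B).card : ℝ) ≤ ε * n then (1 : ℝ) else 0)
            = 1 := by
          rw [if_pos]
          exact ⟨fun j => mem_inter.2 ⟨hi1 j, hxB j⟩, hcard⟩
        exact h2.symm.le.trans (single_le_sum (f := fun B => (if (∀ j, x j ∈ A i ∩ B) ∧
          ((A i ∩ B).card : ℝ) ≤ ε * n then (1 : ℝ) else 0))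
          (fun B _ => by positivity) hB)
      · exact sum_nonneg (fun B _ => by positivity)
    refine (sum_le_sum (fun x _ => h1 x)).trans ?_
    rw [Finset.sum_comm]
    have h3 : ∀ i : Fin m, ∑ x : Fin k → Fin n, ∑ B ∈ univ.image A,
        (if (∀ j, x j ∈ A i ∩ B) ∧ ((A i ∩ B).card : ℝ) ≤ ε * n then (1 : ℝ) else 0) ≤
        D * (ε * n) ^ k := by
      intro i
      rw [Finset.sum_comm]
      have h4 : ∀ B ∈ univ.image A, ∑ x : Fin k → Fin n,
          (if (∀ j, x j ∈ A i ∩ B) ∧ ((A i ∩ B).card : ℝ) ≤ ε * n then (1 : ℝ) else 0) ≤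
          (ε * n) ^ k := by
        intro B _
        by_cases hB : ((A i ∩ B).card : ℝ) ≤ ε * n
        · simp only [hB, and_true]
          rw [Finset.sum_boole, hcount]
          push_cast
          exact pow_le_pow_left₀ (by positivity) hB k
        · simp only [hB, and_false, if_false, sum_const_zero]
          positivity
      refine (sum_le_sum h4).trans ?_
      rw [sum_const, nsmul_eq_mul]
      apply mul_le_mul_of_nonneg_right _ (by positivity)
      exact_mod_cast hD
    refine (sum_le_sum (fun i _ => h3 i)).trans ?_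
    rw [sum_const, card_univ, Fintype.card_fin, nsmul_eq_mul, mul_assoc]
  have hlow : (m : ℝ) * (c * n) ^ k ≤ ∑ i : Fin m, ((A i).card : ℝ) ^ k := by
    have : (m : ℝ) * (c * n) ^ k = ∑ _i : Fin m, (c * n) ^ k := by
      rw [sum_const, card_univ, Fintype.card_fin, nsmul_eq_mul]
    rw [this]
    exact sum_le_sum (fun i _ => pow_le_pow_left₀ (by positivity) (hA i) k)
  -- averaging
  have hex : ∃ x : Fin k → Fin n, (m : ℝ) * c ^ k - m * D * ε ^ k ≤
      ((S x).card : ℝ) - (R x).card := by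
    by_contra hcon
    push Not at hcon
    have hne : (univ : Finset (Fin k → Fin n)).Nonempty := ⟨fun _ => ⟨0, hn⟩, mem_univ _⟩
    have h5 := sum_lt_sum_of_nonempty hne (fun x _ => hcon x)
    rw [sum_sub_distrib, sum_const, card_univ, Fintype.card_fun, Fintype.card_fin,
      Fintype.card_fin, nsmul_eq_mul, hS] at h5
    push_cast at h5
    have h6 : (n : ℝ) ^ k * ((m : ℝ) * c ^ k - m * D * ε ^ k) =
        (m : ℝ) * (c * n) ^ k - m * D * (ε * n) ^ k := by
      rw [mul_pow, mul_pow]; ring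
    rw [h6] at h5
    linarith
  obtain ⟨x, hx⟩ := hex
  refine ⟨S x \ R x, ?_, ?_⟩
  · intro i hi j hj
    rw [mem_sdiff] at hi hj
    by_contra hlt
    push Not at hlt
    apply hi.2
    simp only [R, mem_filter]
    refine ⟨hi.1, A j, mem_image_of_mem _ (mem_univ _), ?_, hlt⟩
    have := hj.1
    simp only [S, mem_filter, mem_univ, true_and] at this
    exact this
  · have hsub : R x ⊆ S x := by
      intro i hi
      simp only [R, mem_filter] at hi
      exact hi.1
    have h7 : (S x \ R x).card = (S x).card - (R x).card := card_sdiff_of_subset hsub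
    have h8 : (R x).card ≤ (S x).card := card_le_card hsub
    rw [h7, Nat.cast_sub h8]
    exact hx

/-- The same with the number of steps chosen: a subfamily with at least
`(c/2) m (2 D)^{-log(1/c)/log(c/ε)}` members. -/
theorem drc_exp {n m : ℕ} (hn : 0 < n) (A : Fin m → Finset (Fin n)) (c ε : ℝ) (hε : 0 < ε)
    (hεc : ε < c) (hc1 : c ≤ 1)
    (hA : ∀ i, c * n ≤ ((A i).card : ℝ)) (D : ℕ) (hD1 : 1 ≤ D)
    (hD : (univ.image A).card ≤ D) :
    ∃ I : Finset (Fin m), (∀ i ∈ I, ∀ j ∈ I, ε * n < ((A i ∩ A j).card : ℝ)) ∧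
      (c / 2) * m * (2 * D : ℝ) ^ (-(Real.log (1 / c) / Real.log (c / ε))) ≤ I.card := by
  have hc : 0 < c := hε.trans hεc
  have hr : 1 < c / ε := (one_lt_div hε).2 hεc
  have hlog : 0 < Real.log (c / ε) := Real.log_pos hr
  have hDpos : (0 : ℝ) < 2 * D := by
    have : (0 : ℝ) < D := by exact_mod_cast hD1
    linarith
  have hDge : (1 : ℝ) ≤ 2 * D := by
    have : (1 : ℝ) ≤ D := by exact_mod_cast hD1
    linarith
  have hlD : 0 ≤ Real.log (2 * D) := Real.log_nonneg hDge
  set k := ⌈Real.log (2 * D) / Real.log (c / ε)⌉₊ with hk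
  obtain ⟨I, hI, hcard⟩ := drc hn A c ε hc.le hε.le hA D k hD
  refine ⟨I, hI, le_trans ?_ hcard⟩
  have hk1 : Real.log (2 * D) / Real.log (c / ε) ≤ k := Nat.le_ceil _
  have hk2 : (k : ℝ) ≤ Real.log (2 * D) / Real.log (c / ε) + 1 :=
    (Nat.ceil_lt_add_one (by positivity)).le
  -- `D ε^k ≤ c^k / 2`
  have h1 : (2 * D : ℝ) ≤ (c / ε) ^ k := by
    rw [div_le_iff₀ hlog] at hk1
    rw [← Real.log_le_log_iff hDpos (by positivity), Real.log_pow]
    exact hk1
  have h2 : (D : ℝ) * ε ^ k ≤ c ^ k / 2 := by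
    rw [div_pow] at h1
    rw [le_div_iff₀ (by positivity)] at h1
    linarith
  -- `c^k ≥ c (2D)^(-δ)`
  have h3 : c * (2 * D : ℝ) ^ (-(Real.log (1 / c) / Real.log (c / ε))) ≤ c ^ k := by
    have hexp : c ^ (Real.log (2 * D) / Real.log (c / ε) + 1) ≤ c ^ (k : ℝ) :=
      Real.rpow_le_rpow_of_exponent_ge hc hc1 hk2
    rw [Real.rpow_natCast] at hexp
    refine le_trans (le_of_eq ?_) hexp
    rw [Real.rpow_add hc, Real.rpow_one, mul_comm]
    congr 1
    rw [Real.rpow_def_of_pos hDpos, Real.rpow_def_of_pos hc]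
    congr 1
    rw [one_div, Real.log_inv]
    field_simp
  have hm : (0 : ℝ) ≤ m := Nat.cast_nonneg m
  have h4 : (m : ℝ) * (D * ε ^ k) ≤ m * (c ^ k / 2) := mul_le_mul_of_nonneg_left h2 hm
  have h5 : (m : ℝ) * (c * (2 * D : ℝ) ^ (-(Real.log (1 / c) / Real.log (c / ε)))) ≤
      m * c ^ k := mul_le_mul_of_nonneg_left h3 hm
  have e : (m : ℝ) * D * ε ^ k = m * (D * ε ^ k) := by ring
  rw [e]
  have e2 : (c / 2) * m * (2 * D : ℝ) ^ (-(Real.log (1 / c) / Real.log (c / ε))) =
      ((m : ℝ) * (c * (2 * D : ℝ) ^ (-(Real.log (1 / c) / Real.log (c / ε))))) / 2 := by ring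
  rw [e2]
  linarith

end Pool.Agent.TH393.Drc
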