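import Pool.Agent.H867R4.NCount
import Pool.Agent.H541R2.Lower

set_option autoImplicit false

namespace Pool.Agent.TH393.LB

open Finset
open Pool.Agent.H541R2 (rd mv mv_le le_mv gsign mu mu_nonneg mu_lt_one IsCyl isCyl_univ cyl_card theLang
  sign_card)
open Pool.Agent.H867R4 (Code Out rd_out out_of_block W_mem exists_row rowsOf)

/-- A nondeterministic program with `k` input heads and set of nodes `V`. Every node comes with the
positions of the `k` heads. The possible next nodes depend on the node and on the symbols under the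
heads, in an arbitrary way, except that every head is afterwards at distance at most one from the
place where it, or another head, was before. -/
structure Prog (k : ℕ) (V : Type) where
  pos : V → Fin k → ℕ
  E : V → (Fin k → Bool × Option (Fin 4)) → V → Prop
  near : ∀ u x v, E u x v → ∀ i, ∃ j, pos v i ≤ pos u j + 1 ∧ pos u j ≤ pos v i + 1
  start : V
  acc : Set V

variable {k : ℕ} {V : Type}

/-- `v` is a possible next node after `u` on the input `w`. -/
def Prog.Step (P : Prog k V) (w : List (Fin 4)) (u v : V) : Prop := P.E u (fun i => rd w (P.pos u i)) v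

/-- `ρ` is an accepting computation of length `T` on `w`. -/
def Prog.AccRun (P : Prog k V) (w : List (Fin 4)) (T : ℕ) (ρ : ℕ → V) : Prop :=
  ρ 0 = P.start ∧ (∀ t < T, P.Step w (ρ t) (ρ (t + 1))) ∧ ρ T ∈ P.acc

/-- Reading outside row `r`. -/
theorem rd_congr (C : Code Unit) {g N : ℕ} (b b' : Fin g → Fin N → Bool) (r : Fin g)
    (hbb : ∀ j, j ≠ r → b j = b' j) {p : ℕ} (h : p / (N * (C.x₁.length + 1) + 1) ≠ r.val + 1) :
    rd (C.W b) p = rd (C.W b') p := by
  obtain ⟨h1, h2⟩ := C.U_congr b b' r hbb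
  rw [C.W_split b r, C.W_split b' r, ← h1, ← h2]
  exact rd_out (C.U_ne b r) (by rw [C.zone_length, C.zone_length]; simp) (out_of_block C b r h)

/-- A piece of a computation that does not read row `r`. -/
inductive Ph (P : Prog k V) (D : ℕ) (w : List (Fin 4)) (r : ℕ) : V → V → Prop
  | refl (u : V) : Ph P D w r u u
  | head (u u' v : V) : (∀ i, P.pos u i / D ≠ r + 1) → P.Step w u u' → Ph P D w r u' v →
      Ph P D w r u v

theorem ph_indep (C : Code Unit) (P : Prog k V) {g N : ℕ} (r : Fin g)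
    (b b' : Fin g → Fin N → Bool) (hbb : ∀ j, j ≠ r → b j = b' j) {u v : V}
    (h : Ph P (N * (C.x₁.length + 1) + 1) (C.W b) r u v) :
    Ph P (N * (C.x₁.length + 1) + 1) (C.W b') r u v := by
  induction h with
  | refl u => exact Ph.refl u
  | head u u' v h1 h2 _ ih =>
    refine Ph.head u u' v h1 ?_ ih
    have e : (fun i => rd (C.W b) (P.pos u i)) = fun i => rd (C.W b') (P.pos u i) :=
      funext fun i => rd_congr C b b' r hbb (h1 i)
    unfold Prog.Step at h2 ⊢
    rwa [← e]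

/-- A piece is a path. -/
theorem Ph.path {P : Prog k V} {D : ℕ} {w : List (Fin 4)} {r : ℕ} {u v : V} (h : Ph P D w r u v) :
    Relation.ReflTransGen (P.Step w) u v := by
  induction h with
  | refl u => exact Relation.ReflTransGen.refl
  | head u u' v _ h2 _ ih => exact Relation.ReflTransGen.head h2 ih

/-- Acceptance in `R + 1` pieces. -/
def AccIn (C : Code Unit) (P : Prog k V) {g N : ℕ} :
    ℕ → V → (Fin g → Fin N → Bool) → Prop
  | 0, u, b => ∃ r : Fin g, ∃ v ∈ P.acc, Ph P (N * (C.x₁.length + 1) + 1) (C.W b) r u v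
  | (R + 1), u, b => ∃ r : Fin g, ∃ v, Ph P (N * (C.x₁.length + 1) + 1) (C.W b) r u v ∧
      AccIn C P R v b

theorem AccIn.mono {C : Code Unit} {P : Prog k V} {g N : ℕ} {R : ℕ} {u : V}
    {b : Fin (g + 1) → Fin N → Bool} (h : AccIn C P R u b) : AccIn C P (R + 1) u b :=
  ⟨0, u, Ph.refl u, h⟩

theorem AccIn.path {C : Code Unit} {P : Prog k V} {g N : ℕ} : ∀ {R : ℕ} {u : V}
    {b : Fin g → Fin N → Bool}, AccIn C P R u b →
    ∃ v ∈ P.acc, Relation.ReflTransGen (P.Step (C.W b)) u v := by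
  intro R
  induction R with
  | zero =>
    rintro u b ⟨r, v, hv, h⟩
    exact ⟨v, hv, h.path⟩
  | succ R ih =>
    rintro u b ⟨r, v, h, h2⟩
    obtain ⟨z, hz, h3⟩ := ih h2
    exact ⟨z, hz, h.path.trans h3⟩

open Classical in
theorem accIn_card [Fintype V] (C : Code Unit) {g N : ℕ} (P : Prog k V) (σ : ℝ) (hσ : |σ| = 1) :
    ∀ (R : ℕ) (u : V) (S : Set (Fin (g + 1) → Fin N → Bool)), IsCyl S →
    (∀ b ∈ S, AccIn C P R u b → gsign Finset.univ b = σ) →
    ((Finset.univ.filter (fun b => b ∈ S ∧ AccIn C P R u b)).card : ℝ) ≤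
      ((g + 1 : ℝ) * Fintype.card V) ^ R * (g + 1) * ((2 ^ N : ℝ) ^ (g + 1) * (mu g) ^ N) := by
  intro R
  induction R with
  | zero =>
    intro u S hS hb
    obtain ⟨S', hS'⟩ : ∃ S' : Fin (g + 1) → Set (Fin (g + 1) → Fin N → Bool),
        ∀ r, S' r = S ∩ {b | ∃ v ∈ P.acc, Ph P (N * (C.x₁.length + 1) + 1) (C.W b) r u v} :=
      ⟨_, fun _ => rfl⟩
    have hsub : (Finset.univ.filter (fun b => b ∈ S ∧ AccIn C P 0 u b)) ⊆
        (Finset.univ : Finset (Fin (g + 1))).biUnion
          (fun r => Finset.univ.filter (fun b => b ∈ S' r)) := by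
      intro b hb'
      rw [Finset.mem_filter] at hb'
      obtain ⟨_, hbS, r, v, hv, hT⟩ := hb'
      rw [Finset.mem_biUnion]
      refine ⟨r, Finset.mem_univ _, ?_⟩
      rw [Finset.mem_filter, hS']
      exact ⟨Finset.mem_univ _, hbS, v, hv, hT⟩
    have h1 := (Finset.card_le_card hsub).trans Finset.card_biUnion_le
    have h2 : ∀ r ∈ (Finset.univ : Finset (Fin (g + 1))),
        ((Finset.univ.filter (fun b => b ∈ S' r)).card : ℝ) ≤ (2 ^ N : ℝ) ^ (g + 1) * (mu g) ^ N := by
      intro r _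
      refine cyl_card ?_ σ hσ ?_
      · rw [hS']
        apply hS.inter r
        rintro b b' hbb ⟨v, hv, hT⟩
        exact ⟨v, hv, ph_indep C P r b b' hbb hT⟩
      · intro b hbS
        rw [hS'] at hbS
        obtain ⟨h3, v, hv, hT⟩ := hbS
        exact hb b h3 ⟨r, v, hv, hT⟩
    have h3 : ((Finset.univ.filter (fun b => b ∈ S ∧ AccIn C P 0 u b)).card : ℝ) ≤
        ∑ r : Fin (g + 1), ((Finset.univ.filter (fun b => b ∈ S' r)).card : ℝ) := by
      rw [← Nat.cast_sum]
      exact Nat.cast_le.mpr h1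
    refine h3.trans ((Finset.sum_le_sum h2).trans (le_of_eq ?_))
    rw [Finset.sum_const, nsmul_eq_mul, Finset.card_univ, Fintype.card_fin]
    push_cast
    ring
  | succ R ih =>
    intro u S hS hb
    obtain ⟨S', hS'⟩ : ∃ S' : Fin (g + 1) × V → Set (Fin (g + 1) → Fin N → Bool),
        ∀ x, S' x = S ∩ {b | Ph P (N * (C.x₁.length + 1) + 1) (C.W b) x.1 u x.2} := ⟨_, fun _ => rfl⟩
    obtain ⟨G, hG⟩ : ∃ G : Fin (g + 1) × V → Finset (Fin (g + 1) → Fin N → Bool),
        ∀ x, G x = Finset.univ.filter (fun b => b ∈ S' x ∧ AccIn C P R x.2 b) := ⟨_, fun _ => rfl⟩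
    have hsub : (Finset.univ.filter (fun b => b ∈ S ∧ AccIn C P (R + 1) u b)) ⊆
        (Finset.univ : Finset (Fin (g + 1) × V)).biUnion G := by
      intro b hb'
      rw [Finset.mem_filter] at hb'
      obtain ⟨_, hbS, r, v, hT, hacc⟩ := hb'
      rw [Finset.mem_biUnion]
      refine ⟨(r, v), Finset.mem_univ _, ?_⟩
      rw [hG, Finset.mem_filter]
      refine ⟨Finset.mem_univ _, ?_, hacc⟩
      rw [hS']
      exact ⟨hbS, hT⟩
    have h1 := (Finset.card_le_card hsub).trans Finset.card_biUnion_le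
    have h2 : ∀ x ∈ (Finset.univ : Finset (Fin (g + 1) × V)), ((G x).card : ℝ) ≤
          ((g + 1 : ℝ) * Fintype.card V) ^ R * (g + 1) * ((2 ^ N : ℝ) ^ (g + 1) * (mu g) ^ N) := by
      intro x _
      rw [hG]
      refine ih x.2 (S' x) ?_ ?_
      · rw [hS']
        apply hS.inter x.1
        intro b b' hbb hT
        exact ph_indep C P x.1 b b' hbb hT
      · intro b hbS hacc
        rw [hS'] at hbS
        exact hb b hbS.1 ⟨x.1, x.2, hbS.2, hacc⟩
    have h3 : ((Finset.univ.filter (fun b => b ∈ S ∧ AccIn C P (R + 1) u b)).card : ℝ) ≤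
        ∑ x : Fin (g + 1) × V, ((G x).card : ℝ) := by
      rw [← Nat.cast_sum]
      exact Nat.cast_le.mpr h1
    refine h3.trans ((Finset.sum_le_sum h2).trans (le_of_eq ?_))
    rw [Finset.sum_const, nsmul_eq_mul, Finset.card_univ, Fintype.card_prod, Fintype.card_fin]
    push_cast
    ring

/-- Positions stay close to the positions at the beginning. -/
theorem pos_near {P : Prog k V} {w : List (Fin 4)} {ρ : ℕ → V} {t : ℕ} :
    ∀ m, (∀ s, t ≤ s → s < t + m → P.Step w (ρ s) (ρ (s + 1))) →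
      ∀ i, ∃ j, P.pos (ρ (t + m)) i ≤ P.pos (ρ t) j + m ∧ P.pos (ρ t) j ≤ P.pos (ρ (t + m)) i + m := by
  intro m
  induction m with
  | zero => intro _ i; exact ⟨i, le_rfl, le_rfl⟩
  | succ m ih =>
    intro h1 i
    obtain ⟨j', h2, h3⟩ := P.near _ _ _ (h1 (t + m) (by omega) (by omega)) i
    obtain ⟨j, h4, h5⟩ := ih (fun s hs hs' => h1 s hs (by omega)) j'
    rw [show t + m + 1 = t + (m + 1) by ring] at h2 h3
    exact ⟨j, by omega, by omega⟩

theorem ph_of_run {P : Prog k V} {D : ℕ} {w : List (Fin 4)} {r : ℕ} {ρ : ℕ → V} :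
    ∀ m t, (∀ s, t ≤ s → s < t + m → P.Step w (ρ s) (ρ (s + 1))) →
      (∀ s, t ≤ s → s < t + m → ∀ i, P.pos (ρ s) i / D ≠ r + 1) → Ph P D w r (ρ t) (ρ (t + m)) := by
  intro m
  induction m with
  | zero => intro t _ _; exact Ph.refl _
  | succ m ih =>
    intro t h1 h2
    refine Ph.head _ (ρ (t + 1)) _ (h2 t le_rfl (by omega)) (h1 t le_rfl (by omega)) ?_
    rw [show t + (m + 1) = t + 1 + m by ring]
    exact ih (t + 1) (fun s hs hs' => h1 s (by omega) (by omega))
      (fun s hs hs' => h2 s (by omega) (by omega))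

/-- Short pieces avoid a row. -/
theorem ph_short {P : Prog k V} {D : ℕ} (hD : 0 < D) {w : List (Fin 4)} {ρ : ℕ → V} (t m : ℕ)
    (hm : m ≤ D) (h1 : ∀ s, t ≤ s → s < t + m → P.Step w (ρ s) (ρ (s + 1))) :
    ∃ r : Fin (3 * k + 1), Ph P D w r (ρ t) (ρ (t + m)) := by
  obtain ⟨r, hr⟩ := exists_row (fun (i : Fin k) (e : Fin 3) => P.pos (ρ t) i / D + e.val - 1)
  refine ⟨r, ph_of_run m t h1 ?_⟩
  intro s hs hs' i hblk
  obtain ⟨m', rfl⟩ := Nat.exists_eq_add_of_le hs
  obtain ⟨j, a1, a2⟩ := pos_near m' (fun s hs hs'' => h1 s hs (by omega)) i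
  have e0 := hr j 0
  have e1 := hr j 1
  have e2 := hr j 2
  simp only [Fin.val_zero, Fin.val_one, Fin.val_two] at e0 e1 e2
  have hq1 : P.pos (ρ (t + m')) i / D ≤ P.pos (ρ t) j / D + 1 := by
    calc P.pos (ρ (t + m')) i / D ≤ (P.pos (ρ t) j + D) / D := Nat.div_le_div_right (by omega)
      _ = P.pos (ρ t) j / D + 1 := Nat.add_div_right _ hD
  have hq2 : P.pos (ρ t) j / D ≤ P.pos (ρ (t + m')) i / D + 1 := by
    calc P.pos (ρ t) j / D ≤ (P.pos (ρ (t + m')) i + D) / D := Nat.div_le_div_right (by omega)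
      _ = P.pos (ρ (t + m')) i / D + 1 := Nat.add_div_right _ hD
  omega

/-- A computation of length at most `(R + 1) ℓ` has `R + 1` pieces. -/
theorem accIn_of_run (C : Code Unit) (P : Prog k V) {N : ℕ} (b : Fin (3 * k + 1) → Fin N → Bool)
    {T : ℕ} {ρ : ℕ → V} (hst : ∀ t < T, P.Step (C.W b) (ρ t) (ρ (t + 1))) (hF : ρ T ∈ P.acc) :
    ∀ R t, t ≤ T → T ≤ t + (R + 1) * (N * (C.x₁.length + 1) + 1) → AccIn C P R (ρ t) b := by
  intro R
  induction R with
  | zero =>
    intro t ht hT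
    obtain ⟨m, hm⟩ := Nat.exists_eq_add_of_le ht
    obtain ⟨r, hr⟩ := ph_short (P := P) (D := N * (C.x₁.length + 1) + 1) (by omega) t m
      (by omega) (fun s _ hs' => hst s (by omega))
    refine ⟨r, ρ T, hF, ?_⟩
    rw [hm]
    exact hr
  | succ R ih =>
    intro t ht hT
    by_cases h : T ≤ t + (R + 1) * (N * (C.x₁.length + 1) + 1)
    · exact (ih t ht h).mono
    · have h2 : t + (N * (C.x₁.length + 1) + 1) ≤ T := by nlinarith
      obtain ⟨r, hr⟩ := ph_short (P := P) (D := N * (C.x₁.length + 1) + 1) (by omega) t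
        (N * (C.x₁.length + 1) + 1) le_rfl (fun s _ hs' => hst s (by omega))
      refine ⟨r, ρ (t + (N * (C.x₁.length + 1) + 1)), hr, ih _ h2 ?_⟩
      calc T ≤ _ := hT
        _ = _ := by ring

/-- Paths are computations. -/
theorem run_of_path {P : Prog k V} {w : List (Fin 4)} {v : V} (hv : v ∈ P.acc)
    (h : Relation.ReflTransGen (P.Step w) P.start v) : ∃ T ρ, P.AccRun w T ρ := by
  have key : ∃ (T : ℕ) (ρ : ℕ → V), ρ 0 = P.start ∧
      (∀ t < T, P.Step w (ρ t) (ρ (t + 1))) ∧ ρ T = v := by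
    clear hv
    induction h with
    | refl => exact ⟨0, fun _ => _, rfl, by intro t ht; omega, rfl⟩
    | @tail d e _ h2 ih =>
      obtain ⟨T, ρ, h3, h4, h5⟩ := ih
      refine ⟨T + 1, fun t => if t ≤ T then ρ t else e, by simp [h3], ?_, by simp⟩
      intro t ht
      by_cases htT : t = T
      · subst htT
        simp only [le_refl, if_true]
        rw [if_neg (by omega), h5]
        exact h2
      · have h6 : t ≤ T := by omega
        have h7 : t + 1 ≤ T := by omega
        simp only [h6, h7, if_true]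
        exact h4 t (by omega)
  obtain ⟨T, ρ, h3, h4, h5⟩ := key
  exact ⟨T, ρ, h3, h4, by rw [h5]; exact hv⟩

end Pool.Agent.TH393.LB
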