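import Pool.Agent.TH393.LB2
import Pool.Agent.H867R4.NLower

set_option autoImplicit false

namespace Pool.Agent.TH393.LB

open Finset
open Pool.Agent.H541R2 (rd mv gsign theLang)
open Pool.Agent.H867R4 (Code NMach NCfg W_mem exists_code pos_close)

variable {k : ℕ} {Q : Type}

/-- A multi-head automaton on words of length `n` as a program. -/
def ofN (M : NMach (Fin 4) k Q) (n : ℕ) : Prog k (Q × (Fin k → Fin (n + 2))) where
  pos v i := (v.2 i : ℕ)
  E u x v := ∃ y ∈ M.δ u.1 x, v.1 = y.1 ∧ ∀ i, (v.2 i : ℕ) = mv n (y.2 i) (u.2 i)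
  near := by
    rintro u x v ⟨y, _, _, h⟩ i
    refine ⟨i, ?_⟩
    rw [h i]
    have := (u.2 i).isLt
    unfold mv
    split_ifs <;> omega
  start := (M.q₀, fun _ => 0)
  acc := {v | v.1 ∈ M.F}

theorem ofN_accepts {M : NMach (Fin 4) k Q} {n : ℕ} {w : List (Fin 4)} (hw : w.length = n)
    (h : (ofN M n).Accepts w) : M.Accepts w := by
  obtain ⟨T, ρ, h0, h1, h2⟩ := h
  refine ⟨T, fun t => ⟨(ρ t).1, fun i => ((ρ t).2 i : ℕ)⟩, ?_, ?_, h2⟩
  · simp only [h0]
    rfl
  · intro t ht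
    obtain ⟨y, h3, h4, h5⟩ := h1 t ht
    refine ⟨y, h3, h4, fun i => ?_⟩
    rw [hw]
    exact h5 i

theorem ofN_run {M : NMach (Fin 4) k Q} {n : ℕ} {w : List (Fin 4)} (hw : w.length = n) {T : ℕ}
    {ρ : ℕ → NCfg k Q} (h : M.AccRun w T ρ) : ∃ ρ', (ofN M n).AccRun w T ρ' := by
  obtain ⟨h0, h1, h2⟩ := h
  have hpos : ∀ t, t ≤ T → ∀ i, (ρ t).p i ≤ n + 1 := by
    intro t ht i
    have := (pos_close (M := M) (w := w) (ρ := ρ) (t := 0) t
      (fun s _ hs' => h1 s (by omega)) (by rw [h0]; intro i; simp) i).2.2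
    rwa [Nat.zero_add, hw] at this
  refine ⟨fun t => ((ρ t).q, fun i => ⟨min ((ρ t).p i) (n + 1), by omega⟩), ?_, ?_, h2⟩
  · simp only [h0]
    refine Prod.ext rfl ?_
    funext i
    apply Fin.ext
    simp [ofN]
  · intro t ht
    obtain ⟨y, h3, h4, h5⟩ := h1 t ht
    refine ⟨y, ?_, h4, fun i => ?_⟩
    · have e : (fun i => rd w ((ofN M n).pos ((ρ t).q, fun i => ⟨min ((ρ t).p i) (n + 1), by omega⟩) i))
          = fun i => rd w ((ρ t).p i) := by
        funext i
        show rd w (min ((ρ t).p i) (n + 1)) = _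
        rw [min_eq_left (hpos t ht.le i)]
      rw [e]
      exact h3
    · show min ((ρ (t + 1)).p i) (n + 1) = mv n (y.2 i) (min ((ρ t).p i) (n + 1))
      rw [min_eq_left (hpos t ht.le i), min_eq_left (hpos (t + 1) ht i), h5 i, hw]

/-- Multi-head automata with any number of states. -/
theorem automata_of_hard {c : ℝ} (hc : 0 < c) {n : ℕ} (hn : 2 ≤ n) {L : Set (List (Fin 4))}
    (h : Hard k c n L) (Q : Type) [Fintype Q] (M : NMach (Fin 4) k Q)
    (hM : ∀ w : List (Fin 4), w.length = n → (w ∈ L ↔ M.Accepts w)) :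
    ∃ w ∈ L, w.length = n ∧ ∀ (T : ℕ) (ρ : ℕ → NCfg k Q), M.AccRun w T ρ →
      c / (2 * k + 1) * (n : ℝ) ^ 2 ≤ T * (Real.log (Fintype.card Q) + Real.log n) := by
  classical
  obtain ⟨H, hne, hfin, hHL, hH⟩ := h
  have h1 := hH (Q × (Fin k → Fin (n + 2))) inferInstance (ofN M n)
    (fun w hw hacc => (hM w hw).mpr (ofN_accepts hw hacc))
  have hcard : 0 < H.ncard := (Set.ncard_pos hfin).mpr hne
  have hex : ∃ w ∈ H, ¬ ∃ T ρ, (ofN M n).AccRun w T ρ ∧
      T * Real.log (Fintype.card (Q × (Fin k → Fin (n + 2))) + 1) < c * (n : ℝ) ^ 2 := by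
    by_contra hcon
    push Not at hcon
    have e : {w ∈ H | ∃ T ρ, (ofN M n).AccRun w T ρ ∧
        T * Real.log (Fintype.card (Q × (Fin k → Fin (n + 2))) + 1) < c * (n : ℝ) ^ 2} = H := by
      ext w
      constructor
      · exact fun h => h.1
      · exact fun h => ⟨h, hcon w h⟩
    rw [e] at h1
    have h2 : Real.exp (-(c * n)) < 1 := by
      rw [Real.exp_lt_one_iff]
      have : (0 : ℝ) < n := by
        have : 0 < n := by omega
        exact_mod_cast this
      have := mul_pos hc this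
      linarith
    have h3 : (0 : ℝ) < H.ncard := by exact_mod_cast hcard
    nlinarith
  obtain ⟨w, hw, hw2⟩ := hex
  refine ⟨w, (hHL w hw).2, (hHL w hw).1, fun T ρ hρ => ?_⟩
  obtain ⟨ρ', hρ'⟩ := ofN_run (hHL w hw).1 hρ
  have h4 : c * (n : ℝ) ^ 2 ≤ T * Real.log (Fintype.card (Q × (Fin k → Fin (n + 2))) + 1) := by
    by_contra hlt
    exact hw2 ⟨T, ρ', hρ', not_le.mp hlt⟩
  have hQ : (1 : ℝ) ≤ Fintype.card Q := by
    have : 0 < Fintype.card Q := Fintype.card_pos_iff.mpr ⟨M.q₀⟩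
    exact_mod_cast this
  have hn2 : (2 : ℝ) ≤ n := by exact_mod_cast hn
  have hlog2 : 0 < Real.log 2 := Real.log_pos (by norm_num)
  have hlogn : Real.log 2 ≤ Real.log n := Real.log_le_log (by norm_num) hn2
  have hlogQ : 0 ≤ Real.log (Fintype.card Q) := Real.log_nonneg hQ
  have hlogn2 : Real.log ((n : ℝ) + 2) ≤ 2 * Real.log n := by
    have : 2 * Real.log n = Real.log (n ^ 2) := by rw [Real.log_pow]; norm_num
    rw [this]
    apply Real.log_le_log (by positivity)
    nlinarith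
  have h5 : Real.log (Fintype.card (Q × (Fin k → Fin (n + 2))) + 1) ≤
      (2 * k + 1) * (Real.log (Fintype.card Q) + Real.log n) := by
    have e : (Fintype.card (Q × (Fin k → Fin (n + 2))) : ℝ) =
        Fintype.card Q * ((n : ℝ) + 2) ^ k := by
      simp [Fintype.card_prod]
    have h6 : (1 : ℝ) ≤ ((n : ℝ) + 2) ^ k := one_le_pow₀ (by linarith)
    have h7 : (1 : ℝ) ≤ Fintype.card Q * ((n : ℝ) + 2) ^ k := by nlinarith
    rw [e]
    calc Real.log (Fintype.card Q * ((n : ℝ) + 2) ^ k + 1)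
        ≤ Real.log (2 * (Fintype.card Q * ((n : ℝ) + 2) ^ k)) :=
          Real.log_le_log (by positivity) (by linarith)
      _ = Real.log 2 + (Real.log (Fintype.card Q) + k * Real.log ((n : ℝ) + 2)) := by
          rw [Real.log_mul (by norm_num) (by positivity), Real.log_mul (by positivity) (by positivity),
            Real.log_pow]
      _ ≤ Real.log n + (Real.log (Fintype.card Q) + k * (2 * Real.log n)) := by
          gcongr
      _ ≤ (2 * k + 1) * (Real.log (Fintype.card Q) + Real.log n) := by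
          have : 0 ≤ (k : ℝ) * Real.log (Fintype.card Q) := by positivity
          nlinarith
  have hk : (0 : ℝ) < 2 * k + 1 := by positivity
  rw [div_mul_eq_mul_div, div_le_iff₀ hk]
  calc c * (n : ℝ) ^ 2 ≤ T * Real.log (Fintype.card (Q × (Fin k → Fin (n + 2))) + 1) := h4
    _ ≤ T * ((2 * k + 1) * (Real.log (Fintype.card Q) + Real.log n)) := by gcongr
    _ = _ := by ring

theorem hard_both (k : ℕ) : ∃ c : ℝ, 0 < c ∧ ∀ n₀ : ℕ, ∃ n : ℕ, n₀ ≤ n ∧
    Hard k c n theLang ∧ Hard k c n theLangᶜ := by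
  obtain ⟨C⟩ := exists_code Unit
  obtain ⟨c, hc, h⟩ := hard_aux k C
  refine ⟨c, hc, fun n₀ => ?_⟩
  obtain ⟨n, hn, N, _, h2⟩ := h n₀
  refine ⟨n, hn, h2 (-1) (Or.inr rfl) _ (fun b => W_mem C b), h2 1 (Or.inl rfl) _ (fun b => ?_)⟩
  rw [Set.mem_compl_iff, W_mem C b]
  have := Pool.Agent.H541R2.gsign_abs Finset.univ b
  rcases eq_or_eq_neg_of_abs_eq this with h | h <;> rw [h] <;> norm_num

end Pool.Agent.TH393.LB
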