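import Pool.Agent.TH393.LB9
import Pool.Agent.TH393.LB3

set_option autoImplicit false

namespace Pool.Agent.TH393.LB

open Finset
open Pool.Agent.H541R2 (rd mv gsign theLang)
open Pool.Agent.H867R4 (Code NMach NCfg W_mem exists_code)
open Pool.Agent.H38R3.MH (simple_path)

variable {k : ℕ} {Q : Type}

theorem HardS.mono {δ δ' : ℝ} {n : ℕ} {L : Set (List (Fin 4))} (h : HardS k δ n L) (hδ : δ' ≤ δ) :
    HardS k δ' n L := by
  obtain ⟨H, h1, h2, h3, h4⟩ := h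
  refine ⟨H, h1, h2, h3, fun V _ P hP => ?_⟩
  refine le_trans ?_ ((h4 V inferInstance P hP).trans ?_)
  · apply Nat.cast_le.mpr
    apply Set.ncard_le_ncard _ (h2.subset (fun w hw => hw.1))
    rintro w ⟨hw, T, ρ, hρ, hT⟩
    exact ⟨hw, T, ρ, hρ, lt_of_lt_of_le hT (by gcongr)⟩
  · gcongr

/-- Some word is only accepted slowly. -/
theorem exists_slow {δ : ℝ} (hδ : 0 < δ) {n : ℕ} (hn : 1 ≤ n) {L : Set (List (Fin 4))}
    (h : HardS k δ n L) (V : Type) [Fintype V] (P : Prog k V)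
    (hP : ∀ w : List (Fin 4), w.length = n → P.Accepts w → w ∈ L) :
    ∃ w ∈ L, w.length = n ∧ ∀ T ρ, P.AccRun w T ρ →
      δ * (n : ℝ) ^ 2 ≤ T * Real.log (2 + Fintype.card V / (n : ℝ) ^ 2) := by
  classical
  obtain ⟨H, hne, hfin, hHL, hH⟩ := h
  have h1 := hH V inferInstance P hP
  have hcard : 0 < H.ncard := (Set.ncard_pos hfin).mpr hne
  have hex : ∃ w ∈ H, ¬ ∃ T ρ, P.AccRun w T ρ ∧
      T * Real.log (2 + Fintype.card V / (n : ℝ) ^ 2) < δ * (n : ℝ) ^ 2 := by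
    by_contra hcon
    push Not at hcon
    have e : {w ∈ H | ∃ T ρ, P.AccRun w T ρ ∧
        T * Real.log (2 + Fintype.card V / (n : ℝ) ^ 2) < δ * (n : ℝ) ^ 2} = H := by
      ext w
      constructor
      · exact fun h => h.1
      · exact fun h => ⟨h, hcon w h⟩
    rw [e] at h1
    have h2 : Real.exp (-(δ * n)) < 1 := by
      rw [Real.exp_lt_one_iff]
      have : (0 : ℝ) < n := by exact_mod_cast hn
      have := mul_pos hδ this
      linarith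
    have h3 : (0 : ℝ) < H.ncard := by exact_mod_cast hcard
    nlinarith
  obtain ⟨w, hw, hw2⟩ := hex
  refine ⟨w, (hHL w hw).2, (hHL w hw).1, fun T ρ hρ => ?_⟩
  by_contra hlt
  exact hw2 ⟨T, ρ, hρ, not_le.mp hlt⟩

/-- Programs need a quadratic number of nodes. -/
theorem size_of_hardS {δ : ℝ} (hδ : 0 < δ) (hδ1 : δ ≤ 1) {n : ℕ} (hn : 1 ≤ n)
    {L : Set (List (Fin 4))} (h : HardS k δ n L) (V : Type) [Fintype V] (P : Prog k V)
    (hP : ∀ w : List (Fin 4), w.length = n → (w ∈ L ↔ P.Accepts w)) :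
    δ / 2 * (n : ℝ) ^ 2 ≤ Fintype.card V := by
  classical
  obtain ⟨w, hwL, hwn, hw⟩ := exists_slow hδ hn h V P (fun w hw hacc => (hP w hw).mpr hacc)
  obtain ⟨T, ρ, h0, h1, h2⟩ := (hP w hwn).mp hwL
  obtain ⟨R₀, _, p, hp0, hp1, hp2, hp3⟩ := simple_path (fun u v => P.Step w u v)
    (fun v => v ∈ P.acc) P.start T ⟨ρ, h0, h1, h2⟩
  have hR : R₀ ≤ Fintype.card V := by
    have hinj : Function.Injective (fun i : Fin (R₀ + 1) => p i) := by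
      intro i j hij
      exact Fin.ext (hp3 _ _ (by omega) (by omega) hij)
    have := Fintype.card_le_of_injective _ hinj
    rw [Fintype.card_fin] at this
    omega
  have h3 := hw R₀ p ⟨hp0, hp1, hp2⟩
  obtain ⟨y, hy⟩ : ∃ y : ℝ, y = Fintype.card V := ⟨_, rfl⟩
  have hRy : (R₀ : ℝ) ≤ y := by rw [hy]; exact_mod_cast hR
  rw [← hy] at h3 ⊢
  have hy0 : 0 ≤ y := by rw [hy]; positivity
  by_contra hlt
  rw [not_le] at hlt
  have hn0 : (0 : ℝ) < n := by exact_mod_cast hn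
  have hn2 : (0 : ℝ) < (n : ℝ) ^ 2 := by positivity
  have h4 : y / (n : ℝ) ^ 2 ≤ 1 / 2 := by
    rw [div_le_iff₀ hn2]
    have : δ / 2 * (n : ℝ) ^ 2 ≤ 1 / 2 * (n : ℝ) ^ 2 := by gcongr
    linarith
  have h5 : Real.log (2 + y / (n : ℝ) ^ 2) ≤ 1 := by
    rw [Real.log_le_iff_le_exp (by positivity)]
    have := Real.exp_one_gt_d9
    linarith
  have h6 : (0 : ℝ) ≤ Real.log (2 + y / (n : ℝ) ^ 2) := by
    apply Real.log_nonneg
    have : 0 ≤ y / (n : ℝ) ^ 2 := by positivity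
    linarith
  have h7 : (R₀ : ℝ) * Real.log (2 + y / (n : ℝ) ^ 2) ≤ y * 1 := by gcongr
  have h8 : 0 < δ * (n : ℝ) ^ 2 := by positivity
  linarith

/-- Multi-head automata with any number of states. -/
theorem automata_of_hardS {δ : ℝ} (hδ : 0 < δ) {n : ℕ} (hn : 1 ≤ n) {L : Set (List (Fin 4))}
    (h : HardS k δ n L) (Q : Type) [Fintype Q] (M : NMach (Fin 4) k Q)
    (hM : ∀ w : List (Fin 4), w.length = n → (w ∈ L ↔ M.Accepts w)) :
    ∃ w ∈ L, w.length = n ∧ ∀ (T : ℕ) (ρ : ℕ → NCfg k Q), M.AccRun w T ρ →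
      δ * (n : ℝ) ^ 2 ≤
        T * Real.log (2 + Fintype.card Q * ((n : ℝ) + 2) ^ k / (n : ℝ) ^ 2) := by
  classical
  obtain ⟨w, hwL, hwn, hw⟩ := exists_slow hδ hn h (Q × (Fin k → Fin (n + 2))) (ofN M n)
    (fun w hw hacc => (hM w hw).mpr (ofN_accepts hw hacc))
  refine ⟨w, hwL, hwn, fun T ρ hρ => ?_⟩
  obtain ⟨ρ', hρ'⟩ := ofN_run hwn hρ
  have h1 := hw T ρ' hρ'
  have e : (Fintype.card (Q × (Fin k → Fin (n + 2))) : ℝ) =
      Fintype.card Q * ((n : ℝ) + 2) ^ k := by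
    simp [Fintype.card_prod]
  rw [e] at h1
  exact h1

theorem five_le (k : ℕ) : (5 * k + 2 : ℝ) ≤ 8 ^ (k + 1) := by
  induction k with
  | zero => norm_num
  | succ k ih =>
    rw [pow_succ]
    push_cast
    have : (0 : ℝ) ≤ k := by positivity
    linarith

/-- The constants. -/
theorem consts (k v : ℕ) :
    8 * ((5 * k + 1 : ℝ) ^ 2 + 1) * 4 ^ (5 * k) ≤ ((2 ^ 45 * (v + 1) ^ 2 : ℕ) : ℝ) ^ (k + 1) ∧
    1 / ((2 ^ 45 * (v + 1) ^ 2 : ℕ) : ℝ) ^ (k + 1) ≤ δ₀ k v / 2 ∧ δ₀ k v ≤ 1 ∧ 0 < δ₀ k v := by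
  have hk0 : (0 : ℝ) ≤ k := by positivity
  have hv0 : (0 : ℝ) ≤ v := by positivity
  obtain ⟨m, hm⟩ : ∃ m : ℝ, m = 5 * k + 2 := ⟨_, rfl⟩
  have hm2 : 2 ≤ m := by rw [hm]; linarith
  have hm8 : m ≤ 8 ^ (k + 1) := by rw [hm]; exact five_le k
  obtain ⟨u, hu⟩ : ∃ u : ℝ, u = (v : ℝ) + 1 := ⟨_, rfl⟩
  have hu1 : 1 ≤ u := by rw [hu]; linarith
  have hC : ((2 ^ 45 * (v + 1) ^ 2 : ℕ) : ℝ) = 2 ^ 45 * u ^ 2 := by rw [hu]; push_cast; ring
  rw [hC]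
  have hu2 : 1 ≤ u ^ 2 := one_le_pow₀ hu1
  have hupow : u ^ 2 ≤ (u ^ 2) ^ (k + 1) := by
    calc u ^ 2 = (u ^ 2) ^ 1 := (pow_one _).symm
      _ ≤ (u ^ 2) ^ (k + 1) := pow_le_pow_right₀ hu2 (by omega)
  have h1u : 1 ≤ (u ^ 2) ^ (k + 1) := one_le_pow₀ hu2
  have h4k : (4 : ℝ) ^ (5 * k) ≤ (2 ^ 10) ^ (k + 1) := by
    have e : (4 : ℝ) ^ (5 * k) = (2 ^ 10) ^ k := by rw [pow_mul]; norm_num
    rw [e]
    exact pow_le_pow_right₀ (by norm_num) (by omega)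
  have h8 : (8 : ℝ) ^ (k + 1) = (2 ^ 3) ^ (k + 1) := by norm_num
  refine ⟨?_, ?_, ?_, ?_⟩
  · have h1 : (5 * (k : ℝ) + 1) ^ 2 + 1 ≤ m ^ 2 := by rw [hm]; nlinarith
    have h2 : m ^ 2 ≤ ((2 : ℝ) ^ 6) ^ (k + 1) := by
      calc m ^ 2 ≤ (8 ^ (k + 1)) ^ 2 := pow_le_pow_left₀ (by linarith) hm8 2
        _ = ((2 : ℝ) ^ 6) ^ (k + 1) := by rw [← pow_mul, mul_comm, pow_mul]; norm_num
    have h3 : (8 : ℝ) ≤ (2 ^ 3) ^ (k + 1) := by
      calc (8 : ℝ) = (2 ^ 3) ^ 1 := by norm_num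
        _ ≤ (2 ^ 3) ^ (k + 1) := pow_le_pow_right₀ (by norm_num) (by omega)
    calc 8 * ((5 * (k : ℝ) + 1) ^ 2 + 1) * 4 ^ (5 * k)
        ≤ (2 ^ 3) ^ (k + 1) * ((2 : ℝ) ^ 6) ^ (k + 1) * (2 ^ 10) ^ (k + 1) := by
          have := h1.trans h2
          gcongr
      _ = (2 ^ 19) ^ (k + 1) * 1 := by rw [← mul_pow, ← mul_pow]; norm_num
      _ ≤ (2 ^ 45) ^ (k + 1) * (u ^ 2) ^ (k + 1) := by
          have : ((2 : ℝ) ^ 19) ^ (k + 1) ≤ (2 ^ 45) ^ (k + 1) :=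
            pow_le_pow_left₀ (by positivity) (by norm_num) _
          exact mul_le_mul this h1u zero_le_one (by positivity)
      _ = _ := by rw [← mul_pow]
  · have hK : K₀ k v = 4 * (m - 1) ^ 2 * m ^ 2 * u * 4 ^ (5 * k) := by
      rw [K₀, hm, hu]; ring
    have hδ : δ₀ k v / 2 = 1 / (128 * ((m - 1) ^ 2 * m ^ 4) * u ^ 2 * (4 ^ (5 * k) * 4 ^ (5 * k))) := by
      rw [δ₀, hK, ← hu, ← hm, one_div, inv_pow]
      have : (4 : ℝ) ^ (5 * k) ≠ 0 := by positivity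
      have : u ≠ 0 := by linarith
      have : m - 1 ≠ 0 := by
        have : 0 < m - 1 := by linarith
        exact this.ne'
      have : m ≠ 0 := by linarith
      field_simp
      norm_num
    rw [hδ]
    have hm1 : 0 < m - 1 := by linarith
    apply one_div_le_one_div_of_le (by positivity)
    have h2 : (m - 1) ^ 2 * m ^ 4 ≤ ((2 : ℝ) ^ 18) ^ (k + 1) := by
      calc (m - 1) ^ 2 * m ^ 4 ≤ m ^ 2 * m ^ 4 := by
            gcongr
            linarith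
        _ = m ^ 6 := by ring
        _ ≤ (8 ^ (k + 1)) ^ 6 := pow_le_pow_left₀ (by linarith) hm8 6
        _ = ((2 : ℝ) ^ 18) ^ (k + 1) := by rw [← pow_mul, mul_comm, pow_mul]; norm_num
    have h3 : (128 : ℝ) ≤ (2 ^ 7) ^ (k + 1) := by
      calc (128 : ℝ) = (2 ^ 7) ^ 1 := by norm_num
        _ ≤ (2 ^ 7) ^ (k + 1) := pow_le_pow_right₀ (by norm_num) (by omega)
    calc 128 * ((m - 1) ^ 2 * m ^ 4) * u ^ 2 * (4 ^ (5 * k) * 4 ^ (5 * k))
        ≤ (2 ^ 7) ^ (k + 1) * ((2 : ℝ) ^ 18) ^ (k + 1) * (u ^ 2) ^ (k + 1) *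
          ((2 ^ 10) ^ (k + 1) * (2 ^ 10) ^ (k + 1)) := by gcongr
      _ = (2 ^ 45 * u ^ 2) ^ (k + 1) := by
          rw [← mul_pow, ← mul_pow, ← mul_pow, ← mul_pow]; congr 1; ring
  · rw [δ₀, div_le_one (by have := K₀_pos k v; positivity)]
    have h1 : ((1 : ℝ) / 4) ^ (5 * k) ≤ 1 := pow_le_one₀ (by norm_num) (by norm_num)
    refine h1.trans ?_
    have h2 := K₀_pos k v
    have h3 : (1 : ℝ) ≤ (5 * k + 2) ^ 2 := one_le_pow₀ (by linarith)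
    have h4 : (1 : ℝ) ≤ (v : ℝ) + 1 := by linarith
    have h5 := one_le_mul_of_one_le_of_one_le (one_le_mul_of_one_le_of_one_le h2 h3) h4
    calc (1 : ℝ) ≤ 16 * (K₀ k v * (5 * k + 2) ^ 2 * (v + 1)) := by linarith
      _ = _ := by ring
  · rw [δ₀]
    have := K₀_pos k v
    positivity

end Pool.Agent.TH393.LB
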