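import Pool.Agent.TH393.LB9
import Pool.Agent.TH393.LB3

set_option autoImplicit false

namespace Pool.Agent.TH393.LB

open Finset
open Pool.Agent.H541R2 (rd gsign mu mu_nonneg IsCyl isCyl_univ theLang gip_disc gsign_abs)
open Pool.Agent.H867R4 (Code W_mem)

variable {k : ℕ} {V : Type}

/-- Intersections of cylinder intersections. -/
theorem isCyl_inter {g N : ℕ} {S S' : Set (Fin g → Fin N → Bool)} (hS : IsCyl S) (hS' : IsCyl S') :
    IsCyl (S ∩ S') := by
  obtain ⟨D, h1, h2⟩ := hS
  obtain ⟨D', h1', h2'⟩ := hS'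
  refine ⟨fun i => D i ∩ D' i, ?_, ?_⟩
  · rintro i b b' hb ⟨a1, a2⟩
    exact ⟨h1 i b b' hb a1, h1' i b b' hb a2⟩
  · intro b
    constructor
    · rintro ⟨a1, a2⟩ i
      exact ⟨(h2 b).mp a1 i, (h2' b).mp a2 i⟩
    · intro h
      exact ⟨(h2 b).mpr (fun i => (h i).1), (h2' b).mpr (fun i => (h i).2)⟩

theorem isCyl_empty {g N : ℕ} : IsCyl (∅ : Set (Fin (g + 1) → Fin N → Bool)) :=
  ⟨fun _ => ∅, by simp, by simp⟩

open Classical in
/-- The signs are balanced on every cylinder intersection. -/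
theorem cyl_disc {g N : ℕ} {S : Set (Fin (g + 1) → Fin N → Bool)} (hS : IsCyl S) :
    |∑ b ∈ Finset.univ.filter (fun b => b ∈ S), gsign Finset.univ b| ≤
      (2 ^ N : ℝ) ^ (g + 1) * (mu g) ^ N := by
  obtain ⟨D, h1, h2⟩ := hS
  have key := gip_disc g N Finset.univ (fun i b => if b ∈ D i then (1 : ℝ) else 0)
    (by intro i x; split_ifs <;> simp)
    (by
      intro i x y hxy
      have : x ∈ D i ↔ y ∈ D i := ⟨h1 i x y hxy, h1 i y x (fun j hj => (hxy j hj).symm)⟩
      by_cases hx : x ∈ D i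
      · rw [if_pos hx, if_pos (this.mp hx)]
      · rw [if_neg hx, if_neg (fun hy => hx (this.mpr hy))])
  have e : ∑ x : Fin (g + 1) → (Fin N → Bool), gsign Finset.univ x *
      ∏ i, (if x ∈ D i then (1 : ℝ) else 0) =
      ∑ b ∈ Finset.univ.filter (fun b => b ∈ S), gsign Finset.univ b := by
    rw [Finset.sum_filter]
    apply Finset.sum_congr rfl
    intro x _
    by_cases hx : x ∈ S
    · have : ∀ i, x ∈ D i := (h2 x).mp hx
      rw [if_pos hx]
      simp [this]
    · rw [if_neg hx]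
      have : ∃ i, x ∉ D i := by
        by_contra hh
        push Not at hh
        exact hx ((h2 x).mpr hh)
      obtain ⟨i, hi⟩ := this
      have : ∏ i, (if x ∈ D i then (1 : ℝ) else 0) = 0 :=
        Finset.prod_eq_zero (Finset.mem_univ i) (by simp [hi])
      rw [this]; simp
  rw [e] at key
  simpa using key

open Classical in
/-- A set on which the sign is constant contains little more than half of a cylinder intersection. -/
theorem cyl_half {g N : ℕ} {S : Set (Fin (g + 1) → Fin N → Bool)} (hS : IsCyl S)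
    (E : Finset (Fin (g + 1) → Fin N → Bool)) (hE : ∀ b ∈ E, b ∈ S) (σ : ℝ) (hσ : σ = 1 ∨ σ = -1)
    (hEσ : ∀ b ∈ E, gsign Finset.univ b = σ) :
    2 * (E.card : ℝ) ≤ ((Finset.univ.filter (fun b => b ∈ S)).card : ℝ) +
      (2 ^ N : ℝ) ^ (g + 1) * (mu g) ^ N := by
  obtain ⟨F, hF⟩ : ∃ F : Finset (Fin (g + 1) → Fin N → Bool),
    F = Finset.univ.filter (fun b => b ∈ S) := ⟨_, rfl⟩
  have hEF : E ⊆ F := by
    intro b hb
    rw [hF, Finset.mem_filter]
    exact ⟨Finset.mem_univ _, hE b hb⟩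
  have h1 := cyl_disc hS
  rw [← hF] at h1 ⊢
  have h2 : |σ * ∑ b ∈ F, gsign Finset.univ b| ≤ (2 ^ N : ℝ) ^ (g + 1) * (mu g) ^ N := by
    rw [abs_mul]
    have : |σ| = 1 := by rcases hσ with h | h <;> rw [h] <;> norm_num
    rw [this, one_mul]; exact h1
  have h3 : σ * ∑ b ∈ F, gsign Finset.univ b ≤ (2 ^ N : ℝ) ^ (g + 1) * (mu g) ^ N :=
    (le_abs_self _).trans h2
  rw [← Finset.sum_sdiff hEF, mul_add] at h3
  have hσσ : σ * σ = 1 := by rcases hσ with h | h <;> rw [h] <;> norm_num
  have h4 : σ * ∑ b ∈ E, gsign Finset.univ b = E.card := by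
    rw [Finset.sum_congr rfl hEσ, Finset.sum_const, nsmul_eq_mul]
    calc σ * (E.card * σ) = E.card * (σ * σ) := by ring
      _ = E.card := by rw [hσσ, mul_one]
  have h5 : -((F \ E).card : ℝ) ≤ σ * ∑ b ∈ F \ E, gsign Finset.univ b := by
    have h6 : |σ * ∑ b ∈ F \ E, gsign Finset.univ b| ≤ ((F \ E).card : ℝ) := by
      rw [abs_mul]
      have : |σ| = 1 := by rcases hσ with h | h <;> rw [h] <;> norm_num
      rw [this, one_mul]
      refine (Finset.abs_sum_le_sum_abs _ _).trans ?_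
      have : ∀ b ∈ F \ E, |gsign Finset.univ b| = 1 := fun b _ => gsign_abs _ _
      rw [Finset.sum_congr rfl this]
      simp
    exact (abs_le.mp h6).1
  have h7 : ((F \ E).card : ℝ) = F.card - E.card := by
    rw [Finset.card_sdiff_of_subset hEF, Nat.cast_sub (Finset.card_le_card hEF)]
  linarith

open Classical in
/-- The size of a set of matrices. -/
noncomputable def sz {g N : ℕ} (S : Set (Fin g → Fin N → Bool)) : ℝ :=
  ((Finset.univ.filter (fun b => b ∈ S)).card : ℝ)

theorem sz_eq {g N : ℕ} (S : Set (Fin g → Fin N → Bool)) [DecidablePred (fun b => b ∈ S)] :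
    sz S = ((Finset.univ.filter (fun b => b ∈ S)).card : ℝ) := by
  unfold sz
  congr!

theorem sz_nonneg {g N : ℕ} (S : Set (Fin g → Fin N → Bool)) : 0 ≤ sz S := by
  unfold sz; positivity

/-- Boolean combinations of sets which are, inside every cylinder intersection, covered by large
cylinder intersections cannot compute the sign. -/
theorem greedy {g N m : ℕ} (A : Fin m → Set (Fin (g + 1) → Fin N → Bool)) (θ : ℝ) (hθ0 : 0 < θ)
    (hθ1 : θ ≤ 1)
    (hA : ∀ i (Z : Set (Fin (g + 1) → Fin N → Bool)), IsCyl Z → ∃ Z' : Set (Fin (g + 1) → Fin N → Bool),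
      IsCyl Z' ∧ Z' ⊆ Z ∩ A i ∧ θ * (4 * m) * sz (Z ∩ A i) ≤ sz Z')
    (B : (Fin m → Prop) → Prop)
    (hB : ∀ b : Fin (g + 1) → Fin N → Bool, gsign Finset.univ b = -1 ↔ B (fun i => b ∈ A i)) :
    θ ^ m ≤ 2 * (mu g) ^ N := by
  classical
  obtain ⟨Pw, hPw⟩ : ∃ Pw : ℝ, Pw = (2 ^ N : ℝ) ^ (g + 1) := ⟨_, rfl⟩
  have hPw0 : 0 < Pw := by rw [hPw]; positivity
  obtain ⟨Good, hGood⟩ : ∃ Good : ℕ → Prop, Good = fun j => ∃ (S : Finset (Fin m))
      (Z : Set (Fin (g + 1) → Fin N → Bool)), S.card = j ∧ IsCyl Z ∧ θ ^ j * Pw ≤ sz Z ∧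
        ∀ i ∈ S, Z ⊆ A i := ⟨_, rfl⟩
  have huniv : sz (Set.univ : Set (Fin (g + 1) → Fin N → Bool)) = Pw := by
    rw [hPw]
    unfold sz
    simp [Fintype.card_fin, Fintype.card_bool, ← pow_mul]
  have h0 : Good 0 := by
    rw [hGood]
    exact ⟨∅, Set.univ, rfl, isCyl_univ, by rw [pow_zero, one_mul, huniv], by simp⟩
  have hle : ∀ j, Good j → j ≤ m := by
    intro j hj
    rw [hGood] at hj
    obtain ⟨S, _, h1, _⟩ := hj
    rw [← h1]
    exact (Finset.card_le_univ S).trans (by simp)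
  obtain ⟨j, hj, hmax⟩ : ∃ j, Good j ∧ ∀ j', Good j' → j' ≤ j := by
    refine ⟨Nat.findGreatest Good m, Nat.findGreatest_spec (Nat.zero_le m) h0, fun j' hj' =>
      Nat.le_findGreatest (hle j' hj') hj'⟩
  have hjm := hle j hj
  rw [hGood] at hj
  obtain ⟨S, Z, hS, hZ, hZsz, hZA⟩ := hj
  have hsmall : ∀ i, i ∉ S → (4 * m : ℝ) * sz (Z ∩ A i) < sz Z := by
    intro i hi
    by_contra hcon
    rw [not_lt] at hcon
    obtain ⟨Z', h1, h2, h3⟩ := hA i Z hZ
    have h4 : Good (j + 1) := by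
      rw [hGood]
      refine ⟨insert i S, Z', by rw [Finset.card_insert_of_notMem hi, hS], h1, ?_, ?_⟩
      · calc θ ^ (j + 1) * Pw = θ * (θ ^ j * Pw) := by ring
          _ ≤ θ * sz Z := mul_le_mul_of_nonneg_left hZsz hθ0.le
          _ ≤ θ * ((4 * m) * sz (Z ∩ A i)) := mul_le_mul_of_nonneg_left hcon hθ0.le
          _ = θ * (4 * m) * sz (Z ∩ A i) := by ring
          _ ≤ sz Z' := h3
      · intro i' hi'
        rw [Finset.mem_insert] at hi'
        rcases hi' with rfl | hi'
        · exact fun b hb => (h2 hb).2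
        · exact fun b hb => hZA i' hi' (h2 hb).1
    have := hmax _ h4
    omega
  have hZpos : 0 < sz Z := lt_of_lt_of_le (by positivity) hZsz
  -- most of `Z` has the pattern `S`
  obtain ⟨E, hE⟩ : ∃ E : Finset (Fin (g + 1) → Fin N → Bool),
      E = Finset.univ.filter (fun b => b ∈ Z ∧ ∀ i, i ∉ S → b ∉ A i) := ⟨_, rfl⟩
  have hpat : ∀ b ∈ E, (fun i => b ∈ A i) = fun i => i ∈ S := by
    intro b hb
    rw [hE, Finset.mem_filter] at hb
    funext i
    apply propext
    by_cases hi : i ∈ S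
    · exact ⟨fun _ => hi, fun _ => hZA i hi hb.2.1⟩
    · exact ⟨fun h => absurd h (hb.2.2 i hi), fun h => absurd h hi⟩
  have hEcard : 3 / 4 * sz Z ≤ (E.card : ℝ) := by
    have hsub : (Finset.univ.filter (fun b => b ∈ Z)) ⊆
        E ∪ (Finset.univ.filter (fun i => i ∉ S)).biUnion
          (fun i => Finset.univ.filter (fun b => b ∈ Z ∩ A i)) := by
      intro b hb
      rw [Finset.mem_filter] at hb
      rw [Finset.mem_union]
      by_cases h : ∀ i, i ∉ S → b ∉ A i
      · left
        rw [hE, Finset.mem_filter]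
        exact ⟨Finset.mem_univ _, hb.2, h⟩
      · right
        push Not at h
        obtain ⟨i, hi, hbi⟩ := h
        rw [Finset.mem_biUnion]
        exact ⟨i, by simp [hi], by rw [Finset.mem_filter]; exact ⟨Finset.mem_univ _, hb.2, hbi⟩⟩
    have h1 := (Finset.card_le_card hsub).trans (Finset.card_union_le _ _)
    have h2 : sz Z ≤ E.card + ∑ i ∈ Finset.univ.filter (fun i => i ∉ S), sz (Z ∩ A i) := by
      have h3 : (((Finset.univ.filter (fun i => i ∉ S)).biUnion
          (fun i => Finset.univ.filter (fun b => b ∈ Z ∩ A i))).card : ℝ) ≤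
          ∑ i ∈ Finset.univ.filter (fun i => i ∉ S), sz (Z ∩ A i) := by
        have e : ∀ i, sz (Z ∩ A i) = ((Finset.univ.filter (fun b => b ∈ Z ∩ A i)).card : ℝ) :=
          fun i => sz_eq _
        simp only [e]
        rw [← Nat.cast_sum]
        exact Nat.cast_le.mpr Finset.card_biUnion_le
      have h4 : sz Z ≤ ((E.card + ((Finset.univ.filter (fun i => i ∉ S)).biUnion
          (fun i => Finset.univ.filter (fun b => b ∈ Z ∩ A i))).card : ℕ) : ℝ) := by
        unfold sz
        exact Nat.cast_le.mpr h1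
      push_cast at h4
      linarith
    have h5 : (4 : ℝ) * ∑ i ∈ Finset.univ.filter (fun i => i ∉ S), sz (Z ∩ A i) ≤ sz Z := by
      by_cases hm : m = 0
      · subst hm
        have : (Finset.univ.filter (fun i : Fin 0 => i ∉ S)) = ∅ := by
          ext i; exact i.elim0
        rw [this]
        simp [hZpos.le]
      · have hm0 : (0 : ℝ) < m := by
          have : 0 < m := Nat.pos_of_ne_zero hm
          exact_mod_cast this
        have h6 : ∑ i ∈ Finset.univ.filter (fun i => i ∉ S), sz (Z ∩ A i) ≤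
            ∑ i ∈ Finset.univ.filter (fun i => i ∉ S), sz Z / (4 * m) := by
          apply Finset.sum_le_sum
          intro i hi
          rw [le_div_iff₀ (by positivity)]
          have := hsmall i (Finset.mem_filter.mp hi).2
          linarith
        rw [Finset.sum_const, nsmul_eq_mul] at h6
        have h7 : ((Finset.univ.filter (fun i => i ∉ S)).card : ℝ) ≤ m := by
          have : (Finset.univ.filter (fun i => i ∉ S)).card ≤ m :=
            (Finset.card_le_univ _).trans (by simp)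
          exact_mod_cast this
        have h8 : ((Finset.univ.filter (fun i => i ∉ S)).card : ℝ) * (sz Z / (4 * m)) ≤
            m * (sz Z / (4 * m)) := mul_le_mul_of_nonneg_right h7 (by positivity)
        have h9 : (m : ℝ) * (sz Z / (4 * m)) = sz Z / 4 := by field_simp
        linarith
    linarith
  have hfinal : sz Z ≤ 2 * (Pw * (mu g) ^ N) := by
    by_cases hBS : B (fun i => i ∈ S)
    · have h1 := cyl_half hZ E (fun b hb => by rw [hE, Finset.mem_filter] at hb; exact hb.2.1) (-1)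
        (Or.inr rfl) (fun b hb => (hB b).mpr (by rw [hpat b hb]; exact hBS))
      rw [← hPw] at h1
      have h2 : ((Finset.univ.filter (fun b => b ∈ Z)).card : ℝ) = sz Z := rfl
      rw [h2] at h1
      linarith
    · have h1 := cyl_half hZ E (fun b hb => by rw [hE, Finset.mem_filter] at hb; exact hb.2.1) 1
        (Or.inl rfl) (fun b hb => by
          rcases eq_or_eq_neg_of_abs_eq (gsign_abs Finset.univ b) with h | h
          · exact h
          · exfalso
            have := (hB b).mp h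
            rw [hpat b hb] at this
            exact hBS this)
      rw [← hPw] at h1
      have h2 : ((Finset.univ.filter (fun b => b ∈ Z)).card : ℝ) = sz Z := rfl
      rw [h2] at h1
      linarith
  have h1 : θ ^ m ≤ θ ^ j := pow_le_pow_of_le_one hθ0.le hθ1 hjm
  have h2 : θ ^ j * Pw ≤ (2 * (mu g) ^ N) * Pw := by
    calc θ ^ j * Pw ≤ sz Z := hZsz
      _ ≤ 2 * (Pw * (mu g) ^ N) := hfinal
      _ = _ := by ring
  exact h1.trans (le_of_mul_le_mul_right h2 hPw0)

open Classical in
/-- The set accepted by a program is covered by large cylinder intersections. -/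
theorem cert_piece [Fintype V] (C : Code Unit) {g N : ℕ} (P : Prog k V) {x κ W₀ : ℝ} (hx : 0 ≤ x)
    (hκ : 0 < κ) (hW₀ : 0 < W₀)
    (A : Set (Fin (g + 1) → Fin N → Bool))
    (hA : ∀ b, b ∈ A ↔ ∃ d ∈ P.acc, Relation.ReflTransGen (P.Step (C.W b)) P.start d)
    (hW : ∑ f : V → Option (Fin (g + 1) × Fin (g + 1)), wt x P.start f ≤ W₀)
    (hcert : ∀ b ∈ A, κ ≤ ∑ f ∈ (Finset.univ :
      Finset (V → Option (Fin (g + 1) × Fin (g + 1)))).filter
      (fun f => f P.start ≠ none ∧ b ∈ Cert C P (g + 1) N f), wt x P.start f)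
    (Z : Set (Fin (g + 1) → Fin N → Bool)) (hZ : IsCyl Z) :
    ∃ Z' : Set (Fin (g + 1) → Fin N → Bool), IsCyl Z' ∧ Z' ⊆ Z ∩ A ∧
      κ / (2 * W₀) * sz (Z ∩ A) ≤ sz Z' := by
  by_contra hcon
  push Not at hcon
  have hempty := hcon ∅ isCyl_empty (Set.empty_subset _)
  have hsz0 : sz (∅ : Set (Fin (g + 1) → Fin N → Bool)) = 0 := by simp [sz]
  rw [hsz0] at hempty
  have hpos : 0 < sz (Z ∩ A) := by
    by_contra h
    have : sz (Z ∩ A) = 0 := le_antisymm (not_lt.mp h) (sz_nonneg _)
    rw [this, mul_zero] at hempty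
    exact lt_irrefl _ hempty
  have hf : ∀ f : V → Option (Fin (g + 1) × Fin (g + 1)), f P.start ≠ none →
      sz (Z ∩ Cert C P (g + 1) N f) ≤ κ / (2 * W₀) * sz (Z ∩ A) := by
    intro f hfs
    refine (hcon (Z ∩ Cert C P (g + 1) N f) (isCyl_inter hZ (isCyl_cert C P (g + 1) N f)) ?_).le
    rintro b ⟨h1, h2⟩
    exact ⟨h1, (hA b).mpr (reach_of_cert hfs h2)⟩
  have h1 : sz (Z ∩ A) * κ ≤ ∑ b ∈ Finset.univ.filter (fun b => b ∈ Z ∩ A),
      ∑ f : V → Option (Fin (g + 1) × Fin (g + 1)),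
      (if f P.start ≠ none ∧ b ∈ Cert C P (g + 1) N f then wt x P.start f else 0) := by
    rw [sz_eq (Z ∩ A), ← nsmul_eq_mul]
    apply Finset.card_nsmul_le_sum
    intro b hb'
    refine (hcert b (Finset.mem_filter.mp hb').2.2).trans (le_of_eq ?_)
    rw [Finset.sum_filter]
  rw [Finset.sum_comm] at h1
  have h2 : ∀ f : V → Option (Fin (g + 1) × Fin (g + 1)),
      (∑ b ∈ Finset.univ.filter (fun b => b ∈ Z ∩ A),
        (if f P.start ≠ none ∧ b ∈ Cert C P (g + 1) N f then wt x P.start f else 0)) ≤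
        wt x P.start f * (κ / (2 * W₀) * sz (Z ∩ A)) := by
    intro f
    have hw := wt_nonneg hx P.start f
    by_cases hfs : f P.start ≠ none
    · have h4 : (∑ b ∈ Finset.univ.filter (fun b => b ∈ Z ∩ A),
          (if f P.start ≠ none ∧ b ∈ Cert C P (g + 1) N f then wt x P.start f else 0)) ≤
          ∑ b : Fin (g + 1) → Fin N → Bool,
            (if b ∈ Z ∩ Cert C P (g + 1) N f then wt x P.start f else 0) := by
        rw [Finset.sum_filter]
        apply Finset.sum_le_sum
        intro b _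
        by_cases hb1 : b ∈ Z ∩ A
        · rw [if_pos hb1]
          by_cases hb2 : b ∈ Cert C P (g + 1) N f
          · rw [if_pos ⟨hfs, hb2⟩, if_pos ⟨hb1.1, hb2⟩]
          · rw [if_neg (fun h => hb2 h.2), if_neg (fun h => hb2 h.2)]
        · rw [if_neg hb1]
          split_ifs
          · exact hw
          · exact le_rfl
      refine h4.trans ?_
      rw [← Finset.sum_filter, Finset.sum_const, nsmul_eq_mul, mul_comm,
        ← sz_eq (Z ∩ Cert C P (g + 1) N f)]
      exact mul_le_mul_of_nonneg_left (hf f hfs) hw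
    · have h4 : (∑ b ∈ Finset.univ.filter (fun b => b ∈ Z ∩ A),
          (if f P.start ≠ none ∧ b ∈ Cert C P (g + 1) N f then wt x P.start f else 0)) = 0 := by
        apply Finset.sum_eq_zero
        intro b _
        rw [if_neg (fun h => hfs h.1)]
      rw [h4]
      positivity
  have h3 := h1.trans (Finset.sum_le_sum (fun f _ => h2 f))
  rw [← Finset.sum_mul] at h3
  have h4 : (∑ f : V → Option (Fin (g + 1) × Fin (g + 1)), wt x P.start f) *
      (κ / (2 * W₀) * sz (Z ∩ A)) ≤ W₀ * (κ / (2 * W₀) * sz (Z ∩ A)) :=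
    mul_le_mul_of_nonneg_right hW (by positivity)
  have h5 : W₀ * (κ / (2 * W₀) * sz (Z ∩ A)) = sz (Z ∩ A) * κ / 2 := by
    field_simp
  have h6 : 0 < sz (Z ∩ A) * κ := by positivity
  linarith

end Pool.Agent.TH393.LB
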