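import Pool.Agent.TH393.LB11

set_option autoImplicit false

namespace Pool.Agent.TH393.LB

open Finset
open Pool.Agent.H541R2 (rd mv gsign mu mu_nonneg IsCyl isCyl_univ theLang)
open Pool.Agent.H867R4 (Code NMach NCfg W_mem exists_code)

variable {k : ℕ} {V : Type}

theorem path_of_run {P : Prog k V} {w : List (Fin 4)} {T : ℕ} {ρ : ℕ → V} (h : P.AccRun w T ρ) :
    ∃ d ∈ P.acc, Relation.ReflTransGen (P.Step w) P.start d := by
  obtain ⟨h0, h1, h2⟩ := h
  have key : ∀ t, t ≤ T → Relation.ReflTransGen (P.Step w) (ρ 0) (ρ t) := by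
    intro t
    induction t with
    | zero => intro _; exact Relation.ReflTransGen.refl
    | succ t ih => intro ht; exact (ih (by omega)).tail (h1 t (by omega))
  refine ⟨ρ T, h2, ?_⟩
  have := key T le_rfl
  rwa [h0] at this

theorem accepts_iff {P : Prog k V} {w : List (Fin 4)} :
    P.Accepts w ↔ ∃ d ∈ P.acc, Relation.ReflTransGen (P.Step w) P.start d := by
  constructor
  · rintro ⟨T, ρ, h⟩
    exact path_of_run h
  · rintro ⟨d, hd, h⟩
    exact run_of_path hd h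

/-- The language `L` is hard on words of length `n` for Boolean combinations of nondeterministic
programs with `k` heads: if `m` programs with at most `s` nodes accept every word of length `n` which
they accept by a computation of length at most `T`, and if the answer whether a word of length `n` is in
`L` is any Boolean function `B` of the answers of the programs, then
`δ n ^ 2 ≤ m (n log (m + 1) + T log (2 + m s / n ^ 2))`. -/
def HardComb (k : ℕ) (δ : ℝ) (n : ℕ) (L : Set (List (Fin 4))) : Prop :=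
  ∀ (m s T : ℕ) (V : Fin m → Type) (_ : ∀ i, Fintype (V i)) (P : ∀ i, Prog k (V i))
    (B : (Fin m → Prop) → Prop), 1 ≤ m → (∀ i, Fintype.card (V i) ≤ s) →
    (∀ i, ∀ w : List (Fin 4), w.length = n → (P i).Accepts w →
      ∃ T' ≤ T, ∃ ρ, (P i).AccRun w T' ρ) →
    (∀ w : List (Fin 4), w.length = n → (w ∈ L ↔ B (fun i => (P i).Accepts w))) →
    δ * (n : ℝ) ^ 2 ≤ m * (n * Real.log (m + 1) + T * Real.log (2 + m * s / (n : ℝ) ^ 2))

theorem comb_aux (C : Code Unit) (k : ℕ) : ∃ δ : ℝ, 0 < δ ∧ ∀ N n : ℕ,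
    (4 : ℝ) ^ (5 * k) ≤ N → n + 1 = (5 * k + 2) * (N * (C.x₁.length + 1) + 1) →
    HardComb k δ n theLang := by
  classical
  obtain ⟨v, hv⟩ : ∃ v, v = C.x₁.length + 1 := ⟨_, rfl⟩
  have hv1 : 1 ≤ v := by omega
  have hv1' : (1 : ℝ) ≤ v := by exact_mod_cast hv1
  obtain ⟨η, hη⟩ : ∃ η : ℝ, η = (1 / 4) ^ (5 * k) := ⟨_, rfl⟩
  have hη0 : 0 < η := by rw [hη]; positivity
  have hη1 : η ≤ 1 := by rw [hη]; exact pow_le_one₀ (by norm_num) (by norm_num)
  have hη4 : η * 4 ^ (5 * k) = 1 := by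
    rw [hη, ← mul_pow]; norm_num
  obtain ⟨gg, hgg⟩ : ∃ gg : ℝ, gg = 5 * k + 2 := ⟨_, rfl⟩
  have hk0 : (0 : ℝ) ≤ k := by positivity
  have hgg2 : 2 ≤ gg := by rw [hgg]; linarith
  obtain ⟨G2, hG2⟩ : ∃ G2 : ℝ, G2 = (5 * k + 1) ^ 2 := ⟨_, rfl⟩
  have hG21 : 1 ≤ G2 := by rw [hG2]; exact one_le_pow₀ (by linarith)
  obtain ⟨K, hK⟩ : ∃ K : ℝ, K = K₀ k v := ⟨_, rfl⟩
  have hK1 : 1 ≤ K := by rw [hK]; exact K₀_pos k v
  have hKeq : K = 4 * G2 * (gg ^ 2 * (v + 1)) / η := by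
    rw [hK, K₀, hG2, hgg, eq_div_iff hη0.ne']
    calc 4 * (5 * (k : ℝ) + 1) ^ 2 * (5 * k + 2) ^ 2 * (v + 1) * 4 ^ (5 * k) * η
        = 4 * (5 * (k : ℝ) + 1) ^ 2 * (5 * k + 2) ^ 2 * (v + 1) * (η * 4 ^ (5 * k)) := by ring
      _ = _ := by rw [hη4]; ring
  have hlog2 : 0 < Real.log 2 := Real.log_pos (by norm_num)
  obtain ⟨B₂, hB₂⟩ : ∃ B₂ : ℝ, B₂ = 1 + Real.log (8 * (1 + G2)) / Real.log 2 := ⟨_, rfl⟩
  have hlog8 : 0 ≤ Real.log (8 * (1 + G2)) := Real.log_nonneg (by linarith)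
  have hB₂1 : 1 ≤ B₂ := by
    rw [hB₂]
    have : 0 ≤ Real.log (8 * (1 + G2)) / Real.log 2 := by positivity
    linarith
  obtain ⟨δ, hδ⟩ : ∃ δ : ℝ, δ = min (η / (96 * K * gg ^ 2 * (v + 1))) (η / (16 * B₂ * gg * (v + 1))) :=
    ⟨_, rfl⟩
  have hδ0 : 0 < δ := by rw [hδ]; exact lt_min (by positivity) (by positivity)
  have hδ1 : δ ≤ η / (96 * K * gg ^ 2 * (v + 1)) := by rw [hδ]; exact min_le_left _ _
  have hδ2 : δ ≤ η / (16 * B₂ * gg * (v + 1)) := by rw [hδ]; exact min_le_right _ _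
  refine ⟨δ, hδ0, fun N n hN hn1 => ?_⟩
  intro m s T V _ P B hm hs hT hB
  by_contra hcon
  rw [not_le] at hcon
  have hηN : 1 ≤ η * N := by
    calc (1 : ℝ) = η * 4 ^ (5 * k) := hη4.symm
      _ ≤ η * N := mul_le_mul_of_nonneg_left hN hη0.le
  have hN1' : (1 : ℝ) ≤ N := by
    have h1 : η * N ≤ 1 * N := mul_le_mul_of_nonneg_right hη1 (by positivity)
    linarith
  have hN0 : (0 : ℝ) < N := by linarith
  obtain ⟨D, hD⟩ : ∃ D, D = N * (C.x₁.length + 1) + 1 := ⟨_, rfl⟩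
  have hDv : D = N * v + 1 := by rw [hD, hv]
  rw [← hD] at hn1
  have hDN : (N : ℝ) ≤ D := by
    rw [hDv]; push_cast
    have := mul_le_mul_of_nonneg_left hv1' hN0.le
    linarith
  have hD0 : (0 : ℝ) < D := by linarith
  have hDle : (D : ℝ) ≤ (v + 1) * N := by
    rw [hDv]; push_cast; linarith
  have hn1' : (n : ℝ) + 1 = gg * D := by
    rw [hgg]; exact_mod_cast hn1
  have hnle : (n : ℝ) ≤ gg * D := by linarith
  have hn0 : (0 : ℝ) < n := by
    have := mul_le_mul hgg2 (hN1'.trans hDN) zero_le_one (by linarith)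
    linarith
  have hlenW : ∀ b : Fin (5 * k + 1) → Fin N → Bool, (C.W b).length = n := by
    intro b
    have h1 := C.W_length b
    rw [← hD] at h1
    have h2 : (5 * k + 1 + 1) * D = (5 * k + 2) * D := by ring
    omega
  have hnn : (n : ℝ) ^ 2 ≤ gg ^ 2 * (D * D) := by
    calc (n : ℝ) ^ 2 ≤ (gg * D) ^ 2 := pow_le_pow_left₀ hn0.le hnle 2
      _ = _ := by ring
  have hnD : (n : ℝ) ^ 2 ≤ (gg ^ 2 * (v + 1)) * (N * D) := by
    calc (n : ℝ) ^ 2 ≤ gg ^ 2 * (D * D) := hnn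
      _ ≤ gg ^ 2 * (((v + 1) * N) * D) := by gcongr
      _ = _ := by ring
  have hm1 : (1 : ℝ) ≤ m := by exact_mod_cast hm
  have hs1 : (1 : ℝ) ≤ s := by
    have h1 : 0 < Fintype.card (V ⟨0, hm⟩) := Fintype.card_pos_iff.mpr ⟨(P ⟨0, hm⟩).start⟩
    have h2 : 1 ≤ s := le_trans h1 (hs _)
    exact_mod_cast h2
  obtain ⟨Λ, hΛ⟩ : ∃ Λ : ℝ, Λ = Real.log (2 + m * s / (n : ℝ) ^ 2) := ⟨_, rfl⟩
  have hz0 : 0 ≤ (m : ℝ) * s / (n : ℝ) ^ 2 := by positivity
  have hΛ0 : 0 < Λ := by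
    rw [hΛ]
    apply Real.log_pos
    linarith
  rw [← hΛ] at hcon
  have hlogm : 0 < Real.log ((m : ℝ) + 1) := Real.log_pos (by linarith)
  have ha : (m : ℝ) * T * Λ < δ * (n : ℝ) ^ 2 := by
    have h1 : 0 ≤ (m : ℝ) * (n * Real.log (m + 1)) := by positivity
    have h2 : (m : ℝ) * (n * Real.log (m + 1) + T * Λ) =
      m * (n * Real.log (m + 1)) + m * T * Λ := by ring
    linarith
  have hb : (m : ℝ) * Real.log (m + 1) < δ * n := by
    have h1 : 0 ≤ (m : ℝ) * T * Λ := by positivity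
    have h2 : (m : ℝ) * (n * Real.log (m + 1) + T * Λ) =
      (m * Real.log (m + 1)) * n + m * T * Λ := by ring
    have h3 : ((m : ℝ) * Real.log (m + 1)) * n < (δ * n) * n := by
      have h4 : (δ * n) * (n : ℝ) = δ * (n : ℝ) ^ 2 := by ring
      rw [h4]; linarith
    exact lt_of_mul_lt_mul_right h3 hn0.le
  -- the choice of `x`
  obtain ⟨x, hx0, hx1, hx2, hx3⟩ := choose_x (η := η) (N := N) (D := D) (y := 4 * (m * s)) (G2 := G2)
    (K := K) (n := n) (v := gg ^ 2 * (v + 1)) hη0 hη1 hN1' hDN (by positivity) hG21 hn0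
    (by positivity) (le_of_eq hKeq.symm) hK1 hnD
  have hx4 : -Real.log (D * x) ≤ 6 * K * Λ := by
    refine hx3.trans ?_
    have h1 : Real.log (2 + 4 * (m * s) / (n : ℝ) ^ 2) ≤ 3 * Λ := by
      have h2 : 3 * Λ = Real.log ((2 + m * s / (n : ℝ) ^ 2) ^ 3) := by
        rw [hΛ, Real.log_pow]; norm_num
      rw [h2]
      obtain ⟨z, hz⟩ : ∃ z : ℝ, z = (m : ℝ) * s / (n : ℝ) ^ 2 := ⟨_, rfl⟩
      have h3 : 4 * ((m : ℝ) * s) / (n : ℝ) ^ 2 = 4 * z := by rw [hz]; ring
      rw [h3, ← hz]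
      rw [← hz] at hz0
      apply Real.log_le_log (by linarith)
      have e : (2 + z) ^ 3 = 8 + 12 * z + 6 * z ^ 2 + z ^ 3 := by ring
      rw [e]
      have : 0 ≤ 6 * z ^ 2 + z ^ 3 := by positivity
      linarith
    calc 2 * K * Real.log (2 + 4 * (m * s) / (n : ℝ) ^ 2) ≤ 2 * K * (3 * Λ) := by gcongr
      _ = 6 * K * Λ := by ring
  obtain ⟨κ, hκ⟩ : ∃ κ : ℝ, κ = Real.exp (-((T : ℝ) / D * (6 * K * Λ))) := ⟨_, rfl⟩
  have hκ0 : 0 < κ := by rw [hκ]; exact Real.exp_pos _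
  obtain ⟨W₀, hW₀⟩ : ∃ W₀ : ℝ, W₀ = (1 + G2) * Real.exp (η * N / (16 * m)) := ⟨_, rfl⟩
  have hW₀0 : 0 < W₀ := by rw [hW₀]; positivity
  obtain ⟨A, hA⟩ : ∃ A : Fin m → Set (Fin (5 * k + 1) → Fin N → Bool), ∀ i, A i =
      {b | ∃ d ∈ (P i).acc, Relation.ReflTransGen ((P i).Step (C.W b)) (P i).start d} :=
    ⟨_, fun _ => rfl⟩
  have hAacc : ∀ i b, b ∈ A i ↔ (P i).Accepts (C.W b) := by
    intro i b
    rw [hA i, accepts_iff]
    rfl
  obtain ⟨θ, hθ⟩ : ∃ θ : ℝ, θ = κ / (2 * W₀) / (4 * m) := ⟨_, rfl⟩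
  have hm0 : (0 : ℝ) < m := by linarith
  have hθ0 : 0 < θ := by rw [hθ]; positivity
  have hθexp : θ = Real.exp (-((T : ℝ) / D * (6 * K * Λ) + η * N / (16 * m) +
      Real.log (8 * m * (1 + G2)))) := by
    rw [hθ, hκ, hW₀]
    have h1 : 8 * (m : ℝ) * (1 + G2) = Real.exp (Real.log (8 * m * (1 + G2))) :=
      (Real.exp_log (by positivity)).symm
    have h2 : Real.exp (-((T : ℝ) / D * (6 * K * Λ))) /
        (2 * ((1 + G2) * Real.exp (η * N / (16 * m)))) / (4 * m) =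
        Real.exp (-((T : ℝ) / D * (6 * K * Λ))) / (Real.exp (η * N / (16 * m)) *
          (8 * m * (1 + G2))) := by
      field_simp
      norm_num
    rw [h2]
    nth_rewrite 1 [h1]
    rw [← Real.exp_add, ← Real.exp_sub]
    congr 1
    ring
  have hθ1 : θ ≤ 1 := by
    rw [hθexp]
    apply Real.exp_le_one_iff.mpr
    have h1 : 0 ≤ Real.log (8 * m * (1 + G2)) := by
      apply Real.log_nonneg
      have := one_le_mul_of_one_le_of_one_le hm1 (show 1 ≤ 1 + G2 by linarith)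
      linarith
    have h2 : 0 ≤ (T : ℝ) / D * (6 * K * Λ) := by positivity
    have h3 : 0 ≤ η * N / (16 * m) := by positivity
    linarith
  have hgreedy := greedy (g := 5 * k) A θ hθ0 hθ1 (by
    intro i Z hZ
    have e : θ * (4 * m) = κ / (2 * W₀) := by rw [hθ]; field_simp
    rw [e]
    refine cert_piece C (P i) hx0.le hκ0 hW₀0 (A i) (fun b => by rw [hA i]; rfl) ?_ ?_ Z hZ
    · have h1 := sum_wt (G := Fin (5 * k + 1) × Fin (5 * k + 1)) hx0.le (P i).start
      have hcL : (Fintype.card (Fin (5 * k + 1) × Fin (5 * k + 1)) : ℝ) = G2 := by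
        rw [Fintype.card_prod, Fintype.card_fin, hG2]
        push_cast
        ring
      rw [hcL] at h1
      refine h1.trans ?_
      rw [hW₀]
      have h2 : G2 * x * Fintype.card (V i) ≤ η * N / (16 * m) := by
        have h3 : (Fintype.card (V i) : ℝ) ≤ s := by exact_mod_cast hs i
        have h4 : G2 * x * Fintype.card (V i) ≤ G2 * x * s := by gcongr
        refine h4.trans ?_
        rw [le_div_iff₀ (by positivity)]
        have h5 : G2 * x * s * (16 * m) = 4 * (G2 * x * (4 * (m * s))) := by ring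
        rw [h5]
        linarith
      gcongr
    · intro b hb
      rw [hAacc] at hb
      obtain ⟨T', hT', ρ, hρ⟩ := hT i _ (hlenW b) hb
      obtain ⟨R, hR1, hR2⟩ := many_certs C (P i) b hρ hx0 hx1
      refine le_trans ?_ hR2
      rw [← hD] at hR1 ⊢
      have h1 := power_bound (ηN := 8 * ((T : ℝ) / D * (6 * K * Λ))) (B := 6 * K) (Λ := Λ) (D := D)
        (x := x) (R := R) (by positivity) hx4 (by
          have h2 : (R : ℝ) * D ≤ T := by
            have : R * D ≤ T := hR1.trans hT'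
            exact_mod_cast this
          have h3 : (R : ℝ) ≤ T / D := by rw [le_div_iff₀ hD0]; exact h2
          have h4 : (R : ℝ) * (6 * K * Λ) ≤ T / D * (6 * K * Λ) :=
            mul_le_mul_of_nonneg_right h3 (by positivity)
          linarith)
      rw [hκ]
      have h5 : 8 * ((T : ℝ) / D * (6 * K * Λ)) / 8 = (T : ℝ) / D * (6 * K * Λ) := by ring
      rw [h5] at h1
      exact h1) B (by
    intro b
    rw [← W_mem C b, hB _ (hlenW b)]
    have e : (fun i => b ∈ A i) = fun i => (P i).Accepts (C.W b) := by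
      funext i
      exact propext (hAacc i b)
    rw [e])
  -- the final computation
  have hmuN : (mu (5 * k)) ^ N ≤ Real.exp (-(η * N)) := by
    rw [hη]; exact mu_pow_le (5 * k) N
  have h1 : Real.exp (-(3 * (η * N) / 16)) ≤ θ ^ m := by
    rw [hθexp, ← Real.exp_nat_mul]
    apply Real.exp_le_exp.mpr
    have e1 : (m : ℝ) * ((T : ℝ) / D * (6 * K * Λ)) ≤ η * N / 16 := by
      calc (m : ℝ) * ((T : ℝ) / D * (6 * K * Λ)) = 6 * K * (m * T * Λ) / D := by ring
        _ ≤ 6 * K * (δ * (n : ℝ) ^ 2) / D := by gcongr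
        _ ≤ 6 * K * (δ * (gg ^ 2 * (D * D))) / D := by gcongr
        _ = 6 * K * gg ^ 2 * D * δ := by field_simp
        _ ≤ 6 * K * gg ^ 2 * ((v + 1) * N) * (η / (96 * K * gg ^ 2 * (v + 1))) := by gcongr
        _ = η * N / 16 := by field_simp; norm_num
    have e2 : (m : ℝ) * (η * N / (16 * m)) = η * N / 16 := by field_simp
    have e3 : (m : ℝ) * Real.log (8 * m * (1 + G2)) ≤ η * N / 16 := by
      have e4 : Real.log (8 * m * (1 + G2)) ≤ B₂ * Real.log (m + 1) := by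
        have e5 : 8 * (m : ℝ) * (1 + G2) = m * (8 * (1 + G2)) := by ring
        rw [e5, Real.log_mul (by positivity) (by positivity), hB₂]
        have e6 : Real.log m ≤ Real.log (m + 1) := Real.log_le_log hm0 (by linarith)
        have e7 : Real.log 2 ≤ Real.log ((m : ℝ) + 1) := Real.log_le_log (by norm_num) (by linarith)
        have e8 : Real.log (8 * (1 + G2)) ≤ Real.log (8 * (1 + G2)) / Real.log 2 *
            Real.log (m + 1) := by
          rw [div_mul_eq_mul_div, le_div_iff₀ hlog2]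
          exact mul_le_mul_of_nonneg_left e7 hlog8
        have e9 : (1 + Real.log (8 * (1 + G2)) / Real.log 2) * Real.log ((m : ℝ) + 1) =
          Real.log (m + 1) + Real.log (8 * (1 + G2)) / Real.log 2 * Real.log (m + 1) := by ring
        rw [e9]
        linarith
      calc (m : ℝ) * Real.log (8 * m * (1 + G2)) ≤ m * (B₂ * Real.log (m + 1)) := by gcongr
        _ = B₂ * (m * Real.log (m + 1)) := by ring
        _ ≤ B₂ * (δ * n) := by gcongr
        _ ≤ B₂ * (η / (16 * B₂ * gg * (v + 1)) * (gg * ((v + 1) * N))) := by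
            have : (n : ℝ) ≤ gg * ((v + 1) * N) :=
              hnle.trans (mul_le_mul_of_nonneg_left hDle (by linarith))
            gcongr
        _ = η * N / 16 := by field_simp
    have e10 : (m : ℝ) * -((T : ℝ) / D * (6 * K * Λ) + η * N / (16 * m) +
      Real.log (8 * m * (1 + G2))) = -(m * ((T : ℝ) / D * (6 * K * Λ)) + m * (η * N / (16 * m)) +
        m * Real.log (8 * m * (1 + G2))) := by ring
    rw [e10, e2]
    linarith
  have h2 : Real.exp (-(3 * (η * N) / 16)) ≤ 2 * Real.exp (-(η * N)) := by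
    calc _ ≤ θ ^ m := h1
      _ ≤ 2 * (mu (5 * k)) ^ N := hgreedy
      _ ≤ _ := by linarith
  have h3 : Real.exp (13 * (η * N) / 16) ≤ 2 := by
    have e1 : Real.exp (13 * (η * N) / 16) = Real.exp (-(3 * (η * N) / 16)) * Real.exp (η * N) := by
      rw [← Real.exp_add]; congr 1; ring
    have e2 : (2 : ℝ) = 2 * Real.exp (-(η * N)) * Real.exp (η * N) := by
      rw [mul_assoc, ← Real.exp_add, neg_add_cancel, Real.exp_zero, mul_one]
    rw [e1]
    calc Real.exp (-(3 * (η * N) / 16)) * Real.exp (η * N)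
        ≤ 2 * Real.exp (-(η * N)) * Real.exp (η * N) := by gcongr
      _ = 2 := e2.symm
  have h4 : 13 * (η * N) / 16 ≤ Real.log 2 := by
    rwa [Real.le_log_iff_exp_le (by norm_num)]
  have h5 := Real.log_two_lt_d9
  linarith

end Pool.Agent.TH393.LB
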