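import Pool.Agent.TH393.LB12

set_option autoImplicit false

namespace Pool.Agent.TH393.LB

open Finset
open Pool.Agent.H541R2 (rd mv gsign theLang)
open Pool.Agent.H867R4 (Code NMach NCfg W_mem exists_code)

theorem comb_hard (k : ℕ) : ∃ δ : ℝ, 0 < δ ∧ ∀ n₀ : ℕ, ∃ n : ℕ, n₀ ≤ n ∧ HardComb k δ n theLang := by
  obtain ⟨C⟩ := exists_code Unit
  obtain ⟨δ, hδ, h⟩ := comb_aux C k
  refine ⟨δ, hδ, fun n₀ => ?_⟩
  obtain ⟨N, hN⟩ : ∃ N : ℕ, N = max n₀ (4 ^ (5 * k)) := ⟨_, rfl⟩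
  obtain ⟨n, hn⟩ : ∃ n, n = (5 * k + 2) * (N * (C.x₁.length + 1) + 1) - 1 := ⟨_, rfl⟩
  have h1 : 1 * (N * 1 + 1) ≤ (5 * k + 2) * (N * (C.x₁.length + 1) + 1) := by
    apply Nat.mul_le_mul (by omega)
    have := Nat.mul_le_mul (le_refl N) (show 1 ≤ C.x₁.length + 1 by omega)
    omega
  have h2 : n₀ ≤ N := by rw [hN]; exact le_max_left _ _
  have h3 : 4 ^ (5 * k) ≤ N := by rw [hN]; exact le_max_right _ _
  refine ⟨n, by omega, h N n ?_ (by omega)⟩
  exact_mod_cast h3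

/-- Boolean combinations of two-head automata. -/
theorem comb_automata : ∃ δ : ℝ, 0 < δ ∧ ∀ n₀ : ℕ, ∃ n : ℕ, n₀ ≤ n ∧
    ∀ (m q T : ℕ) (Q : Fin m → Type) (_ : ∀ i, Fintype (Q i)) (M : ∀ i, NMach (Fin 4) 2 (Q i))
      (B : (Fin m → Prop) → Prop), 1 ≤ m → (∀ i, Fintype.card (Q i) ≤ q) →
      (∀ i, ∀ w : List (Fin 4), w.length = n → (M i).Accepts w →
        ∃ T' ≤ T, ∃ ρ, (M i).AccRun w T' ρ) →
      (∀ w : List (Fin 4), w.length = n → (w ∈ theLang ↔ B (fun i => (M i).Accepts w))) →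
      δ * (n : ℝ) ^ 2 ≤ m * (n * Real.log (m + 1) + T * Real.log (2 + m * q)) := by
  obtain ⟨δ, hδ, h⟩ := comb_hard 2
  refine ⟨δ / 3, by positivity, fun n₀ => ?_⟩
  obtain ⟨n, hn, hc⟩ := h (max n₀ 2)
  have hn2 : 2 ≤ n := le_trans (le_max_right _ _) hn
  refine ⟨n, le_trans (le_max_left _ _) hn, ?_⟩
  intro m q T Q _ M B hm hq hT hB
  have hacc : ∀ i (w : List (Fin 4)), w.length = n →
      ((ofN (M i) n).Accepts w ↔ (M i).Accepts w) := by
    intro i w hw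
    constructor
    · exact ofN_accepts hw
    · rintro ⟨T', ρ, hρ⟩
      obtain ⟨ρ', hρ'⟩ := ofN_run hw hρ
      exact ⟨T', ρ', hρ'⟩
  have h1 := hc m (q * (n + 2) ^ 2) T (fun i => Q i × (Fin 2 → Fin (n + 2))) (fun i => inferInstance)
    (fun i => ofN (M i) n) B hm (by
      intro i
      have e : Fintype.card (Q i × (Fin 2 → Fin (n + 2))) = Fintype.card (Q i) * (n + 2) ^ 2 := by
        simp [Fintype.card_prod]
      rw [e]
      exact Nat.mul_le_mul_right _ (hq i)) (by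
      intro i w hw ha
      obtain ⟨T', hT', ρ, hρ⟩ := hT i w hw ((hacc i w hw).mp ha)
      obtain ⟨ρ', hρ'⟩ := ofN_run hw hρ
      exact ⟨T', hT', ρ', hρ'⟩) (by
      intro w hw
      rw [hB w hw]
      have e : (fun i => (M i).Accepts w) = fun i => (ofN (M i) n).Accepts w := by
        funext i
        exact propext (hacc i w hw).symm
      rw [e])
  have hn2' : (2 : ℝ) ≤ n := by exact_mod_cast hn2
  have hn0 : (0 : ℝ) < n := by linarith
  have h2 : Real.log (2 + m * (q * (n + 2) ^ 2 : ℕ) / (n : ℝ) ^ 2) ≤ 3 * Real.log (2 + m * q) := by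
    obtain ⟨z, hz⟩ : ∃ z : ℝ, z = (m : ℝ) * q := ⟨_, rfl⟩
    have hz0 : 0 ≤ z := by rw [hz]; positivity
    have h3 : (m : ℝ) * (q * (n + 2) ^ 2 : ℕ) / (n : ℝ) ^ 2 ≤ 4 * z := by
      rw [div_le_iff₀ (by positivity), hz]
      push_cast
      have h4 : ((n : ℝ) + 2) ^ 2 ≤ 4 * (n : ℝ) ^ 2 := by
        have : ((n : ℝ) + 2) ^ 2 ≤ (2 * n) ^ 2 := pow_le_pow_left₀ (by linarith) (by linarith) 2
        calc ((n : ℝ) + 2) ^ 2 ≤ (2 * n) ^ 2 := this
          _ = _ := by ring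
      have h5 : (m : ℝ) * q * ((n : ℝ) + 2) ^ 2 ≤ (m : ℝ) * q * (4 * (n : ℝ) ^ 2) :=
        mul_le_mul_of_nonneg_left h4 (by positivity)
      linarith
    rw [← hz]
    have h6 : 3 * Real.log (2 + z) = Real.log ((2 + z) ^ 3) := by
      rw [Real.log_pow]; norm_num
    rw [h6]
    apply Real.log_le_log (by positivity)
    have e : (2 + z) ^ 3 = 8 + 12 * z + 6 * z ^ 2 + z ^ 3 := by ring
    rw [e]
    have : 0 ≤ 6 * z ^ 2 + z ^ 3 := by positivity
    linarith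
  have hlogm : 0 ≤ Real.log ((m : ℝ) + 1) := Real.log_nonneg (by
    have : (0 : ℝ) ≤ m := by positivity
    linarith)
  have h7 : δ * (n : ℝ) ^ 2 ≤ m * (n * Real.log (m + 1) + T * (3 * Real.log (2 + m * q))) := by
    refine h1.trans ?_
    gcongr
  have h8 : (m : ℝ) * (n * Real.log (m + 1) + T * (3 * Real.log (2 + m * q))) ≤
      3 * (m * (n * Real.log (m + 1) + T * Real.log (2 + m * q))) := by
    have : 0 ≤ (m : ℝ) * (n * Real.log (m + 1)) := by positivity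
    have e1 : (m : ℝ) * (n * Real.log (m + 1) + T * (3 * Real.log (2 + m * q))) =
      m * (n * Real.log (m + 1)) + 3 * (m * (T * Real.log (2 + m * q))) := by ring
    have e2 : 3 * ((m : ℝ) * (n * Real.log (m + 1) + T * Real.log (2 + m * q))) =
      3 * (m * (n * Real.log (m + 1))) + 3 * (m * (T * Real.log (2 + m * q))) := by ring
    rw [e1, e2]
    linarith
  linarith

end Pool.Agent.TH393.LB
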