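import Pool.Agent.TH393.LB4

set_option autoImplicit false

namespace Pool.Agent.TH393.LB

open Finset
open Pool.Agent.H867R4 (Code exists_row)

variable {k : ℕ} {V : Type}

/-- Every head moves at most one cell per step. -/
def NoJump (P : Prog k V) : Prop :=
  ∀ u x v, P.E u x v → ∀ i, P.pos v i ≤ P.pos u i + 1 ∧ P.pos u i ≤ P.pos v i + 1

/-- Some head is at a marker. -/
def MarkC (P : Prog k V) (D c : ℕ) (v : V) : Prop := ∃ i, D ∣ P.pos v i + c

/-- If the blocks of the heads are nearly constant, then a row is avoided. -/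
theorem phase {P : Prog k V} {D : ℕ} {w : List (Fin 4)} {ρ : ℕ → V} (t m : ℕ) (β : Fin k → ℕ)
    (h1 : ∀ s, t ≤ s → s < t + m → P.Step w (ρ s) (ρ (s + 1)))
    (h2 : ∀ s, t ≤ s → s < t + m → ∀ i,
      P.pos (ρ s) i / D ≤ β i + 1 ∧ β i ≤ P.pos (ρ s) i / D + 1) :
    ∃ r : Fin (3 * k + 1), Ph P D w r (ρ t) (ρ (t + m)) := by
  obtain ⟨r, hr⟩ := exists_row (fun (i : Fin k) (e : Fin 3) => β i + e.val - 1)
  refine ⟨r, ph_of_run m t h1 ?_⟩
  intro s hs hs' i hblk
  obtain ⟨a1, a2⟩ := h2 s hs hs' i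
  have e0 := hr i 0
  have e1 := hr i 1
  have e2 := hr i 2
  simp only [Fin.val_zero, Fin.val_one, Fin.val_two] at e0 e1 e2
  omega

theorem block_le {D c p : ℕ} : p / D ≤ (p + c) / D := Nat.div_le_div_right (by omega)

theorem le_block {D c p : ℕ} (hD : 0 < D) (hc : c < D) : (p + c) / D ≤ p / D + 1 := by
  calc (p + c) / D ≤ (p + D) / D := Nat.div_le_div_right (by omega)
    _ = p / D + 1 := Nat.add_div_right _ hD

/-- A gap between marked nodes avoids a row. -/
theorem gapC {P : Prog k V} (hP : NoJump P) {D c : ℕ} (hD : 0 < D) (hc : c < D)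
    {w : List (Fin 4)} {ρ : ℕ → V} (t m : ℕ)
    (h1 : ∀ s, t ≤ s → s < t + m → P.Step w (ρ s) (ρ (s + 1)))
    (h3 : ∀ s, t < s → s < t + m → ¬ MarkC P D c (ρ s)) :
    ∃ r : Fin (3 * k + 1), Ph P D w r (ρ t) (ρ (t + m)) := by
  have hconst : ∀ e, t + 1 + e < t + m → ∀ i,
      (P.pos (ρ (t + 1 + e)) i + c) / D = (P.pos (ρ (t + 1)) i + c) / D := by
    intro e
    induction e with
    | zero => intro _ i; rfl
    | succ e ih =>
      intro he i
      obtain ⟨h4, h5⟩ := hP _ _ _ (h1 (t + 1 + e) (by omega) (by omega)) i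
      rw [← ih (by omega) i]
      exact same_div (by rw [show t + 1 + (e + 1) = t + 1 + e + 1 by ring]; omega)
        (by rw [show t + 1 + (e + 1) = t + 1 + e + 1 by ring]; omega)
        (fun hd => h3 (t + 1 + e + 1) (by omega) (by omega) ⟨i, hd⟩)
        (fun hd => h3 (t + 1 + e) (by omega) (by omega) ⟨i, hd⟩)
  by_cases hm : m ≤ 1
  · refine phase t m (fun i => P.pos (ρ t) i / D) h1 (fun s hs hs' i => ?_)
    have : s = t := by omega
    subst this
    exact ⟨Nat.le_succ _, Nat.le_succ _⟩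
  · refine phase t m (fun i => (P.pos (ρ (t + 1)) i + c) / D) h1 (fun s hs hs' i => ?_)
    by_cases hst : s = t
    · subst hst
      obtain ⟨h4, h5⟩ := hP _ _ _ (h1 s le_rfl (by omega)) i
      refine ⟨(close_div hD h5).trans (Nat.add_le_add_right block_le 1), ?_⟩
      have hnd : ¬ D ∣ P.pos (ρ (s + 1)) i + c := fun hd => h3 (s + 1) (by omega) (by omega) ⟨i, hd⟩
      obtain ⟨x, hx⟩ : ∃ x, P.pos (ρ (s + 1)) i + c = x + 1 := by
        refine ⟨P.pos (ρ (s + 1)) i + c - 1, ?_⟩
        by_contra hcon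
        have : P.pos (ρ (s + 1)) i + c = 0 := by omega
        rw [this] at hnd
        exact hnd (dvd_zero D)
      have h6 : (P.pos (ρ (s + 1)) i + c) / D = x / D := by
        rw [hx] at hnd ⊢
        rw [Nat.succ_div, if_neg hnd, Nat.add_zero]
      show (P.pos (ρ (s + 1)) i + c) / D ≤ _
      rw [h6]
      exact (Nat.div_le_div_right (by omega)).trans (le_block hD hc)
    · have h6 := hconst (s - t - 1) (by omega) i
      rw [show t + 1 + (s - t - 1) = s by omega] at h6
      show _ ≤ (P.pos (ρ (t + 1)) i + c) / D + 1 ∧ (P.pos (ρ (t + 1)) i + c) / D ≤ _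
      rw [← h6]
      exact ⟨block_le.trans (Nat.le_succ _), le_block hD hc⟩

/-- Chains of length `G` from the last marked node before the time `a`. -/
def Ok (C : Code Unit) (P : Prog k V) {g N : ℕ} (K : Finset V) (b : Fin g → Fin N → Bool) (c : ℕ)
    (ρ : ℕ → V) (a G : ℕ) : Prop :=
  ∀ t, t ≤ a → ρ t ∈ K →
    (∀ s, t < s → s < a → ¬ MarkC P (N * (C.x₁.length + 1) + 1) c (ρ s)) → AccS C P K b G (ρ t)

section Chains

variable {C : Code Unit} {P : Prog k V} (hP : NoJump P) {N : ℕ} {b : Fin (3 * k + 1) → Fin N → Bool}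
  {K : Finset V} {c : ℕ} (hc : c < N * (C.x₁.length + 1) + 1) {T : ℕ} {ρ : ℕ → V}
  (hst : ∀ t < T, P.Step (C.W b) (ρ t) (ρ (t + 1)))
  (hK : ∀ s ≤ T, MarkC P (N * (C.x₁.length + 1) + 1) c (ρ s) → ρ s ∈ K)

include hP hc hst in
theorem ok_last (hF : ρ T ∈ P.acc) : Ok C P K b c ρ T 0 := by
  intro t ht _ htm
  obtain ⟨m, hm⟩ := Nat.exists_eq_add_of_le ht
  obtain ⟨r, hr⟩ := gapC hP (D := N * (C.x₁.length + 1) + 1) (by omega) hc t m
    (fun s _ hs' => hst s (by omega)) (fun s hs hs' => htm s hs (by omega))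
  refine ⟨r, ρ T, hF, ?_⟩
  rw [hm]
  exact hr

omit hP hc hst hK in
theorem Ok.add {a G : ℕ} (h : Ok C P K b c ρ a G) (e : ℕ) : Ok C P K b c ρ a (G + e) := by
  intro t ht htK htm
  rw [show G + e = e + G from Nat.add_comm _ _]
  exact AccS.mono_add htK (h t ht htK htm) e

include hP hc hst hK in
theorem ok_step {a a' G : ℕ} (haa' : a ≤ a') (ha'T : a' ≤ T)
    (hsub : ∀ f l, a ≤ f → f ≤ l → l ≤ a' →
      ∃ r : Fin (3 * k + 1), Ph P (N * (C.x₁.length + 1) + 1) (C.W b) r (ρ f) (ρ l))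
    (h : Ok C P K b c ρ a' G) : Ok C P K b c ρ a (G + 2) := by
  classical
  intro t hta htK htm
  by_cases hex : ∃ s, a ≤ s ∧ s ≤ a' ∧ MarkC P (N * (C.x₁.length + 1) + 1) c (ρ s)
  · obtain ⟨f, ⟨hf1, hf2, hf3⟩, hfmin⟩ : ∃ f, (a ≤ f ∧ f ≤ a' ∧
        MarkC P (N * (C.x₁.length + 1) + 1) c (ρ f)) ∧
        ∀ s, s < f → ¬ (a ≤ s ∧ s ≤ a' ∧ MarkC P (N * (C.x₁.length + 1) + 1) c (ρ s)) :=
      ⟨Nat.find hex, Nat.find_spec hex, fun s hs => Nat.find_min hex hs⟩
    obtain ⟨l, hl1, hl2, hl3, hl4⟩ : ∃ l, f ≤ l ∧ l ≤ a' ∧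
        MarkC P (N * (C.x₁.length + 1) + 1) c (ρ l) ∧
        ∀ s, l < s → s ≤ a' → ¬ MarkC P (N * (C.x₁.length + 1) + 1) c (ρ s) := by
      refine ⟨Nat.findGreatest (fun s => MarkC P (N * (C.x₁.length + 1) + 1) c (ρ s)) a',
        Nat.le_findGreatest hf2 hf3,
        Nat.findGreatest_le _, ?_, fun s hs hs' => Nat.findGreatest_is_greatest hs hs'⟩
      exact Nat.findGreatest_spec
        (P := fun s => MarkC P (N * (C.x₁.length + 1) + 1) c (ρ s)) hf2 hf3
    obtain ⟨m₁, hm₁⟩ := Nat.exists_eq_add_of_le (show t ≤ f by omega)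
    obtain ⟨r₁, hr₁⟩ := gapC hP (D := N * (C.x₁.length + 1) + 1) (by omega) hc t m₁
      (fun s _ hs' => hst s (by omega)) (by
        intro s hs hs' hm
        by_cases hsa : s < a
        · exact htm s hs hsa hm
        · exact hfmin s (by omega) ⟨by omega, by omega, hm⟩)
    obtain ⟨r₂, hr₂⟩ := hsub f l hf1 hl1 hl2
    rw [← hm₁] at hr₁
    refine ⟨r₁, ρ f, hK f (by omega) hf3, hr₁, r₂, ρ l, hK l (by omega) hl3, hr₂, ?_⟩
    exact h l hl2 (hK l (by omega) hl3) (fun s hs hs' => hl4 s hs hs'.le)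
  · rw [show G + 2 = 2 + G by ring]
    apply AccS.mono_add htK
    apply h t (by omega) htK
    intro s hs hs' hm
    by_cases hsa : s < a
    · exact htm s hs hsa hm
    · exact hex ⟨s, by omega, hs'.le, hm⟩

include hP hc hst hK in
/-- Short pieces. -/
theorem ok_short : ∀ (j a a' G : ℕ), a ≤ a' → a' ≤ T → a' ≤ a + j * (N * (C.x₁.length + 1) + 1) →
    Ok C P K b c ρ a' G → Ok C P K b c ρ a (G + 2 * j) := by
  intro j
  induction j with
  | zero =>
    intro a a' G haa' _ h1 h
    have : a = a' := by omega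
    subst this
    exact h
  | succ j ih =>
    intro a a' G haa' ha'T h1 h
    obtain ⟨a'', ha''⟩ : ∃ a'', a'' = min a' (a + (N * (C.x₁.length + 1) + 1)) := ⟨_, rfl⟩
    have e : (j + 1) * (N * (C.x₁.length + 1) + 1) =
        j * (N * (C.x₁.length + 1) + 1) + (N * (C.x₁.length + 1) + 1) := by ring
    rw [e] at h1
    have hle1 : a'' ≤ a' := by rw [ha'']; exact min_le_left _ _
    have hle2 : a'' ≤ a + (N * (C.x₁.length + 1) + 1) := by rw [ha'']; exact min_le_right _ _
    have hge : a ≤ a'' := by rw [ha'']; exact le_min haa' (by omega)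
    have hlast : a' ≤ a'' + j * (N * (C.x₁.length + 1) + 1) := by
      rcases le_total a' (a + (N * (C.x₁.length + 1) + 1)) with h2 | h2
      · rw [ha'', min_eq_left h2]; omega
      · rw [ha'', min_eq_right h2]; omega
    have h3 := ih a'' a' G hle1 ha'T hlast h
    have h4 := ok_step hP hc hst hK hge (hle1.trans ha'T) (by
      intro f l hf hfl hl
      obtain ⟨m, rfl⟩ := Nat.exists_eq_add_of_le hfl
      exact ph_short (P := P) (D := N * (C.x₁.length + 1) + 1) (by omega) f m
        (by omega) (fun s _ hs' => hst s (by omega))) h3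
    rw [show G + 2 * (j + 1) = G + 2 * j + 2 by ring]
    exact h4

/-- The potential of a head. -/
def pot (P : Prog k V) (D c M : ℕ) (up : Fin k → Bool) (v : V) (i : Fin k) : ℕ :=
  if up i then M - (P.pos v i + c) / D else (P.pos v i + c) / D

omit hP hc hst hK in
theorem mono_le {f : ℕ → ℕ} {a a' : ℕ} (h : ∀ s, a ≤ s → s < a' → f s ≤ f (s + 1)) :
    ∀ s, a ≤ s → s ≤ a' → f a ≤ f s := by
  intro s hs
  induction s, hs using Nat.le_induction with
  | base => intro _; exact le_rfl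
  | succ s hs ih => intro hs'; exact (ih (by omega)).trans (h s hs (by omega))

omit hP hc hst hK in
theorem anti_le {f : ℕ → ℕ} {a a' : ℕ} (h : ∀ s, a ≤ s → s < a' → f (s + 1) ≤ f s) :
    ∀ s, a ≤ s → s ≤ a' → f s ≤ f a := by
  intro s hs
  induction s, hs using Nat.le_induction with
  | base => intro _; exact le_rfl
  | succ s hs ih => intro hs'; exact (h s hs (by omega)).trans (ih (by omega))

include hP hc hst hK in
/-- Monotone pieces. -/
theorem ok_mono {M : ℕ} (hM : ∀ v i, (P.pos v i + c) / (N * (C.x₁.length + 1) + 1) ≤ M)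
    (up : Fin k → Bool) {a' G : ℕ} (ha'T : a' ≤ T) (h : Ok C P K b c ρ a' G) :
    ∀ (Φ a : ℕ), a ≤ a' →
      (∀ i, up i = true → ∀ s, a ≤ s → s < a' → P.pos (ρ s) i ≤ P.pos (ρ (s + 1)) i) →
      (∀ i, up i = false → ∀ s, a ≤ s → s < a' → P.pos (ρ (s + 1)) i ≤ P.pos (ρ s) i) →
      ∑ i, pot P (N * (C.x₁.length + 1) + 1) c M up (ρ a) i ≤ Φ →
      Ok C P K b c ρ a (G + 2 * (Φ + 1)) := by
  classical
  intro Φ
  induction Φ with
  | zero =>
    intro a haa' h1 h2 h3
    -- the potential is zero, so the blocks are constant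
    by_cases hex : ∃ s, a ≤ s ∧ s ≤ a' ∧ ∃ i, (P.pos (ρ s) i + c) / (N * (C.x₁.length + 1) + 1) ≠
        (P.pos (ρ a) i + c) / (N * (C.x₁.length + 1) + 1)
    · exfalso
      obtain ⟨s, hs, hs', i, hi⟩ := hex
      have h4 : pot P (N * (C.x₁.length + 1) + 1) c M up (ρ a) i = 0 := by
        have : pot P (N * (C.x₁.length + 1) + 1) c M up (ρ a) i ≤
            ∑ i, pot P (N * (C.x₁.length + 1) + 1) c M up (ρ a) i :=
          Finset.single_le_sum (f := fun i =>
            pot P (N * (C.x₁.length + 1) + 1) c M up (ρ a) i) (fun _ _ => Nat.zero_le _)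
            (Finset.mem_univ i)
        omega
      have h5 := hM (ρ s) i
      have h6 := hM (ρ a) i
      unfold pot at h4
      cases hup : up i with
      | true =>
        rw [hup] at h4
        simp only [if_true] at h4
        have h7 := mono_le (f := fun s => P.pos (ρ s) i) (h1 i hup) s hs hs'
        have h8 : (P.pos (ρ a) i + c) / (N * (C.x₁.length + 1) + 1) ≤
          (P.pos (ρ s) i + c) / (N * (C.x₁.length + 1) + 1) := Nat.div_le_div_right (by omega)
        omega
      | false =>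
        rw [hup] at h4
        simp only [Bool.false_eq_true, if_false] at h4
        have h7 := anti_le (f := fun s => P.pos (ρ s) i) (h2 i hup) s hs hs'
        have h8 : (P.pos (ρ s) i + c) / (N * (C.x₁.length + 1) + 1) ≤
          (P.pos (ρ a) i + c) / (N * (C.x₁.length + 1) + 1) := Nat.div_le_div_right (by omega)
        apply hi
        rw [h4] at h8 ⊢
        exact Nat.le_zero.mp h8
    · refine ok_step hP hc hst hK haa' ha'T ?_ h
      intro f l hf hfl hl
      obtain ⟨m, rfl⟩ := Nat.exists_eq_add_of_le hfl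
      refine phase f m (fun i => (P.pos (ρ a) i + c) / (N * (C.x₁.length + 1) + 1))
        (fun s _ hs' => hst s (by omega)) (fun s hs hs' i => ?_)
      have h4 : (P.pos (ρ s) i + c) / (N * (C.x₁.length + 1) + 1) =
          (P.pos (ρ a) i + c) / (N * (C.x₁.length + 1) + 1) := by
        by_contra hcon
        exact hex ⟨s, by omega, by omega, i, hcon⟩
      show _ ≤ (P.pos (ρ a) i + c) / (N * (C.x₁.length + 1) + 1) + 1 ∧
        (P.pos (ρ a) i + c) / (N * (C.x₁.length + 1) + 1) ≤ _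
      rw [← h4]
      exact ⟨block_le.trans (Nat.le_succ _), le_block (by omega) hc⟩
  | succ Φ ih =>
    intro a haa' h1 h2 h3
    by_cases hex : ∃ s, a ≤ s ∧ s ≤ a' ∧ ∃ i, (P.pos (ρ s) i + c) / (N * (C.x₁.length + 1) + 1) ≠
        (P.pos (ρ a) i + c) / (N * (C.x₁.length + 1) + 1)
    · obtain ⟨s₀, ⟨hs1, hs2, i₀, hi₀⟩, hmin⟩ : ∃ s, (a ≤ s ∧ s ≤ a' ∧
          ∃ i, (P.pos (ρ s) i + c) / (N * (C.x₁.length + 1) + 1) ≠
            (P.pos (ρ a) i + c) / (N * (C.x₁.length + 1) + 1)) ∧
          ∀ s', s' < s → ¬ (a ≤ s' ∧ s' ≤ a' ∧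
            ∃ i, (P.pos (ρ s') i + c) / (N * (C.x₁.length + 1) + 1) ≠
              (P.pos (ρ a) i + c) / (N * (C.x₁.length + 1) + 1)) :=
        ⟨Nat.find hex, Nat.find_spec hex, fun s hs => Nat.find_min hex hs⟩
      have hpot : ∀ i, pot P (N * (C.x₁.length + 1) + 1) c M up (ρ s₀) i ≤
          pot P (N * (C.x₁.length + 1) + 1) c M up (ρ a) i ∧
          (i = i₀ → pot P (N * (C.x₁.length + 1) + 1) c M up (ρ s₀) i <
            pot P (N * (C.x₁.length + 1) + 1) c M up (ρ a) i) := by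
        intro i
        have h5 := hM (ρ s₀) i
        have h6 := hM (ρ a) i
        unfold pot
        cases hup : up i with
        | true =>
          simp only [if_true]
          have h7 := mono_le (f := fun s => P.pos (ρ s) i) (h1 i hup) s₀ hs1 hs2
          have h8 : (P.pos (ρ a) i + c) / (N * (C.x₁.length + 1) + 1) ≤
            (P.pos (ρ s₀) i + c) / (N * (C.x₁.length + 1) + 1) := Nat.div_le_div_right (by omega)
          refine ⟨by omega, fun hii => ?_⟩
          subst hii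
          omega
        | false =>
          simp only [Bool.false_eq_true, if_false]
          have h7 := anti_le (f := fun s => P.pos (ρ s) i) (h2 i hup) s₀ hs1 hs2
          have h8 : (P.pos (ρ s₀) i + c) / (N * (C.x₁.length + 1) + 1) ≤
            (P.pos (ρ a) i + c) / (N * (C.x₁.length + 1) + 1) := Nat.div_le_div_right (by omega)
          refine ⟨by omega, fun hii => ?_⟩
          subst hii
          omega
      have hsum : ∑ i, pot P (N * (C.x₁.length + 1) + 1) c M up (ρ s₀) i <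
          ∑ i, pot P (N * (C.x₁.length + 1) + 1) c M up (ρ a) i :=
        Finset.sum_lt_sum (fun i _ => (hpot i).1) ⟨i₀, Finset.mem_univ _, (hpot i₀).2 rfl⟩
      have h4 := ih s₀ hs2 (fun i hi s hs hs' => h1 i hi s (by omega) hs')
        (fun i hi s hs hs' => h2 i hi s (by omega) hs') (by omega)
      have h5 := ok_step hP hc hst hK hs1 (hs2.trans ha'T) (by
        intro f l hf hfl hl
        obtain ⟨m, rfl⟩ := Nat.exists_eq_add_of_le hfl
        refine phase f m (fun i => (P.pos (ρ a) i + c) / (N * (C.x₁.length + 1) + 1))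
          (fun s _ hs' => hst s (by omega)) (fun s hs hs' i => ?_)
        have h4 : (P.pos (ρ s) i + c) / (N * (C.x₁.length + 1) + 1) =
            (P.pos (ρ a) i + c) / (N * (C.x₁.length + 1) + 1) := by
          by_contra hcon
          exact hmin s (by omega) ⟨by omega, by omega, i, hcon⟩
        show _ ≤ (P.pos (ρ a) i + c) / (N * (C.x₁.length + 1) + 1) + 1 ∧
          (P.pos (ρ a) i + c) / (N * (C.x₁.length + 1) + 1) ≤ _
        rw [← h4]
        exact ⟨block_le.trans (Nat.le_succ _), le_block (by omega) hc⟩) h4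
      rw [show G + 2 * (Φ + 1 + 1) = G + 2 * (Φ + 1) + 2 by ring]
      exact h5
    · have h5 := ok_step hP hc hst hK haa' ha'T (by
        intro f l hf hfl hl
        obtain ⟨m, rfl⟩ := Nat.exists_eq_add_of_le hfl
        refine phase f m (fun i => (P.pos (ρ a) i + c) / (N * (C.x₁.length + 1) + 1))
          (fun s _ hs' => hst s (by omega)) (fun s hs hs' i => ?_)
        have h4 : (P.pos (ρ s) i + c) / (N * (C.x₁.length + 1) + 1) =
            (P.pos (ρ a) i + c) / (N * (C.x₁.length + 1) + 1) := by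
          by_contra hcon
          exact hex ⟨s, by omega, by omega, i, hcon⟩
        show _ ≤ (P.pos (ρ a) i + c) / (N * (C.x₁.length + 1) + 1) + 1 ∧
          (P.pos (ρ a) i + c) / (N * (C.x₁.length + 1) + 1) ≤ _
        rw [← h4]
        exact ⟨block_le.trans (Nat.le_succ _), le_block (by omega) hc⟩) h
      have := Ok.add h5 (2 * (Φ + 1))
      rw [show G + 2 * (Φ + 1 + 1) = G + 2 + 2 * (Φ + 1) by ring]
      exact this

end Chains

end Pool.Agent.TH393.LB
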