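import Pool.Agent.TH393.LB14
import Pool.Agent.TH393.LB3

set_option autoImplicit false

namespace Pool.Agent.TH393.LB

open Finset
open Pool.Agent.H541R2 (rd mv gsign mu mu_nonneg mu_lt_one theLang sign_card)
open Pool.Agent.H867R4 (Code NMach NCfg W_mem exists_code pos_close)

/-- The time up to `T` is split into `I` pieces, each of which has at most `n` steps, or is such that
every head moves in one direction only during the piece; `pos t i` is the position of head `i` at the
time `t`. -/
def Splits {k : ℕ} (n : ℕ) (pos : ℕ → Fin k → ℕ) (T I : ℕ) : Prop :=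
  ∃ t : ℕ → ℕ, t 0 = 0 ∧ t I = T ∧ ∀ j < I, t j ≤ t (j + 1) ∧
    (t (j + 1) ≤ t j + n ∨ ∀ i, (∀ s, t j ≤ s → s < t (j + 1) → pos s i ≤ pos (s + 1) i) ∨
      (∀ s, t j ≤ s → s < t (j + 1) → pos (s + 1) i ≤ pos s i))

/-- There is a set `H` of words of length `n` in `L` which is hard for programs with `k` heads: let `P` be
such a program, of any size, in which the heads are at the positions `0, …, n + 1` only and move at most
one cell per step. If `P` accepts no word of length `n` outside `L`, then it accepts only a fraction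
`exp (-δ n)` of the words in `H` by computations which can be split into `I ≥ 1` pieces, each with at
most `n` steps or with every head moving in one direction only, where `I log (2 + |V| / n ^ 2) < δ n`. -/
def HardR (k : ℕ) (δ : ℝ) (n : ℕ) (L : Set (List (Fin 4))) : Prop :=
  ∃ H : Set (List (Fin 4)), H.Nonempty ∧ H.Finite ∧ (∀ w ∈ H, w.length = n ∧ w ∈ L) ∧
    ∀ (V : Type) (_ : Fintype V) (P : Prog k V), NoJump P → (∀ v i, P.pos v i ≤ n + 1) →
      (∀ w : List (Fin 4), w.length = n → P.Accepts w → w ∈ L) →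
      (({w ∈ H | ∃ T ρ I, P.AccRun w T ρ ∧ 0 < I ∧ Splits n (fun t => P.pos (ρ t)) T I ∧
          I * Real.log (2 + Fintype.card V / (n : ℝ) ^ 2) < δ * (n : ℝ)}.ncard : ℕ) : ℝ) ≤
        Real.exp (-(δ * n)) * H.ncard

variable {k : ℕ} {V : Type}

theorem splits_mono {t : ℕ → ℕ} {I : ℕ} (h : ∀ j < I, t j ≤ t (j + 1)) :
    ∀ m ≤ I, t (I - m) ≤ t I := by
  intro m
  induction m with
  | zero => intro _; exact le_rfl
  | succ m ih =>
    intro hm
    have h1 := h (I - (m + 1)) (by omega)
    rw [show I - (m + 1) + 1 = I - m by omega] at h1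
    exact h1.trans (ih (by omega))

theorem pot_le {P : Prog k V} {D c M : ℕ} {up : Fin k → Bool} {v : V}
    (hM : ∀ v i, (P.pos v i + c) / D ≤ M) (i : Fin k) : pot P D c M up v i ≤ M := by
  unfold pot
  split_ifs
  · exact Nat.sub_le _ _
  · exact hM v i

theorem accS_of_splits {C : Code Unit} {P : Prog k V} (hP : NoJump P) {N : ℕ}
    {b : Fin (3 * k + 1) → Fin N → Bool} {K : Finset V} {c : ℕ}
    (hc : c < N * (C.x₁.length + 1) + 1) {T : ℕ} {ρ : ℕ → V}
    (hst : ∀ t < T, P.Step (C.W b) (ρ t) (ρ (t + 1)))
    (hK : ∀ s ≤ T, MarkC P (N * (C.x₁.length + 1) + 1) c (ρ s) → ρ s ∈ K) (hF : ρ T ∈ P.acc)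
    {M J n I : ℕ} (hM : ∀ v i, (P.pos v i + c) / (N * (C.x₁.length + 1) + 1) ≤ M)
    (hn : n ≤ J * (N * (C.x₁.length + 1) + 1)) (hs : Splits n (fun t => P.pos (ρ t)) T I)
    (h0 : ρ 0 ∈ K) : AccS C P K b (I * (2 * (J + k * M + 1))) (ρ 0) := by
  classical
  obtain ⟨t, ht0, htI, ht⟩ := hs
  have key : ∀ m ≤ I, Ok C P K b c ρ (t (I - m)) (m * (2 * (J + k * M + 1))) := by
    intro m
    induction m with
    | zero =>
      intro _
      rw [Nat.sub_zero, htI, Nat.zero_mul]
      exact ok_last hP hc hst hF
    | succ m ih =>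
      intro hm
      have h1 := ih (by omega)
      have hj : I - (m + 1) + 1 = I - m := by omega
      obtain ⟨h2, h3⟩ := ht (I - (m + 1)) (by omega)
      rw [hj] at h2 h3
      have hT : t (I - m) ≤ T := by
        rw [← htI]; exact splits_mono (fun j hj => (ht j hj).1) m (by omega)
      rcases h3 with h3 | h3
      · have h4 := ok_short hP hc hst hK J (t (I - (m + 1))) (t (I - m)) _ h2 hT (by omega) h1
        have h5 := Ok.add h4 (2 * (k * M + 1))
        rw [show (m + 1) * (2 * (J + k * M + 1)) =
          m * (2 * (J + k * M + 1)) + 2 * J + 2 * (k * M + 1) by ring]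
        exact h5
      · obtain ⟨up, hup⟩ : ∃ up : Fin k → Bool, ∀ i, up i = true ↔
            ∀ s, t (I - (m + 1)) ≤ s → s < t (I - m) → P.pos (ρ s) i ≤ P.pos (ρ (s + 1)) i :=
          ⟨fun i => decide (∀ s, t (I - (m + 1)) ≤ s → s < t (I - m) →
            P.pos (ρ s) i ≤ P.pos (ρ (s + 1)) i), fun i => decide_eq_true_iff⟩
        have h4 := ok_mono hP hc hst hK hM up hT h1 (k * M) (t (I - (m + 1))) h2
          (fun i hi => (hup i).mp hi) (fun i hi => by
            rcases h3 i with h5 | h5
            · have := (hup i).mpr h5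
              rw [hi] at this
              exact absurd this (by simp)
            · exact h5) (by
            calc ∑ i, pot P (N * (C.x₁.length + 1) + 1) c M up (ρ (t (I - (m + 1)))) i
                ≤ ∑ _i : Fin k, M := Finset.sum_le_sum (fun i _ => pot_le hM i)
              _ = k * M := by simp)
        have h5 := Ok.add h4 (2 * J)
        rw [show (m + 1) * (2 * (J + k * M + 1)) =
          m * (2 * (J + k * M + 1)) + 2 * (k * M + 1) + 2 * J by ring]
        exact h5
  have h1 := key I le_rfl
  rw [Nat.sub_self, ht0] at h1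
  exact h1 0 le_rfl h0 (fun s hs hs' => by omega)

open Classical in
/-- Few nodes are marked, for a suitable position of the markers. -/
theorem exists_shift [Fintype V] (P : Prog k V) {D : ℕ} (hD : 0 < D) :
    ∃ c < D, D * (Finset.univ.filter (fun v => MarkC P D c v ∨ v = P.start)).card ≤
      k * Fintype.card V + D := by
  have h1 : ∑ c ∈ Finset.range D, (Finset.univ.filter (fun v => MarkC P D c v)).card ≤
      k * Fintype.card V := by
    have h2 : ∀ c, (Finset.univ.filter (fun v => MarkC P D c v)).card ≤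
        ∑ v : V, ∑ i : Fin k, (if D ∣ P.pos v i + c then 1 else 0) := by
      intro c
      rw [Finset.card_filter]
      apply Finset.sum_le_sum
      intro v _
      split_ifs with h
      · obtain ⟨i, hi⟩ := h
        calc 1 = (if D ∣ P.pos v i + c then 1 else 0) := by rw [if_pos hi]
          _ ≤ _ := Finset.single_le_sum (f := fun i => if D ∣ P.pos v i + c then 1 else 0)
            (fun _ _ => Nat.zero_le _) (Finset.mem_univ i)
      · exact Nat.zero_le _
    refine (Finset.sum_le_sum (fun c _ => h2 c)).trans ?_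
    rw [Finset.sum_comm]
    have h3 : ∀ v : V, ∑ c ∈ Finset.range D, ∑ i : Fin k, (if D ∣ P.pos v i + c then 1 else 0) ≤ k := by
      intro v
      rw [Finset.sum_comm]
      have h4 : ∀ i : Fin k, ∑ c ∈ Finset.range D, (if D ∣ P.pos v i + c then 1 else 0) ≤ 1 := by
        intro i
        rw [← Finset.card_filter, Finset.card_le_one]
        intro c hc c' hc'
        rw [Finset.mem_filter, Finset.mem_range] at hc hc'
        have h5 : P.pos v i + c ≡ P.pos v i + c' [MOD D] :=
          ((Nat.modEq_zero_iff_dvd.mpr hc.2).trans (Nat.modEq_zero_iff_dvd.mpr hc'.2).symm)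
        exact Nat.ModEq.eq_of_lt_of_lt (Nat.ModEq.add_left_cancel' _ h5) hc.1 hc'.1
      calc ∑ i : Fin k, ∑ c ∈ Finset.range D, (if D ∣ P.pos v i + c then 1 else 0)
          ≤ ∑ _i : Fin k, 1 := Finset.sum_le_sum (fun i _ => h4 i)
        _ = k := by simp
    calc ∑ v : V, ∑ c ∈ Finset.range D, ∑ i : Fin k, (if D ∣ P.pos v i + c then 1 else 0)
        ≤ ∑ _v : V, k := Finset.sum_le_sum (fun v _ => h3 v)
      _ = k * Fintype.card V := by simp [Finset.card_univ, mul_comm]
  by_contra hcon
  push Not at hcon
  have h2 : ∀ c ∈ Finset.range D, k * Fintype.card V <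
      D * (Finset.univ.filter (fun v => MarkC P D c v)).card := by
    intro c hc
    rw [Finset.mem_range] at hc
    have h3 := hcon c hc
    have h4 : (Finset.univ.filter (fun v => MarkC P D c v ∨ v = P.start)).card ≤
        (Finset.univ.filter (fun v => MarkC P D c v)).card + 1 := by
      rw [Finset.filter_or]
      refine (Finset.card_union_le _ _).trans ?_
      gcongr
      rw [Finset.card_le_one]
      intro a ha a' ha'
      rw [Finset.mem_filter] at ha ha'
      rw [ha.2, ha'.2]
    have h5 := Nat.mul_le_mul_left D h4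
    rw [Nat.mul_add, Nat.mul_one] at h5
    omega
  have h3 := Finset.sum_lt_sum_of_nonempty (s := Finset.range D) ⟨0, Finset.mem_range.mpr hD⟩ h2
  have h5 : ∑ _c ∈ Finset.range D, k * Fintype.card V = D * (k * Fintype.card V) := by simp
  have h6 : ∑ c ∈ Finset.range D, D * (Finset.univ.filter (fun v => MarkC P D c v)).card =
      D * ∑ c ∈ Finset.range D, (Finset.univ.filter (fun v => MarkC P D c v)).card :=
    (Finset.mul_sum _ _ _).symm
  rw [h5, h6] at h3
  have h4 := Nat.mul_le_mul_left D h1
  exact absurd h3 (not_lt.mpr h4)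

end Pool.Agent.TH393.LB
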