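import Pool.Agent.TH393.LB15

set_option autoImplicit false

namespace Pool.Agent.TH393.LB

open Finset
open Pool.Agent.H541R2 (rd mv gsign mu mu_nonneg mu_lt_one theLang sign_card)
open Pool.Agent.H867R4 (Code NMach NCfg W_mem exists_code pos_close)

theorem hardR_aux (k : ℕ) (C : Code Unit) : ∃ δ : ℝ, 0 < δ ∧ ∀ n₀ : ℕ, ∃ n : ℕ, n₀ ≤ n ∧
    ∀ σ : ℝ, (σ = 1 ∨ σ = -1) → ∀ L : Set (List (Fin 4)),
      (∀ N : ℕ, ∀ b : Fin (3 * k + 1) → Fin N → Bool, C.W b ∈ L ↔ gsign Finset.univ b = σ) →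
      HardR k δ n L := by
  classical
  obtain ⟨V₁, hV₁⟩ : ∃ V, V = C.x₁.length + 1 := ⟨_, rfl⟩
  have hV1 : 1 ≤ V₁ := by omega
  obtain ⟨g, hg⟩ : ∃ g, g = 3 * k := ⟨_, rfl⟩
  obtain ⟨W, hW⟩ : ∃ W, W = 2 * ((g + 2) + k * (g + 2) + 1) := ⟨_, rfl⟩
  obtain ⟨μ', hμ'⟩ : ∃ μ' : ℝ, μ' = max (mu g) (1 / 2) := ⟨_, rfl⟩
  have hμ'1 : μ' < 1 := by rw [hμ']; exact max_lt (mu_lt_one g) (by norm_num)
  have hμ'0 : 0 < μ' := by rw [hμ']; exact lt_of_lt_of_le (by norm_num) (le_max_right _ _)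
  obtain ⟨lam, hlam⟩ : ∃ lam : ℝ, lam = -Real.log μ' := ⟨_, rfl⟩
  have hlam0 : 0 < lam := by
    have := Real.log_neg hμ'0 hμ'1
    linarith
  have hmulam : ∀ N : ℕ, μ' ^ N = Real.exp (-(lam * N)) := by
    intro N
    have e2 : μ' = Real.exp (-lam) := by rw [hlam, neg_neg, Real.exp_log hμ'0]
    nth_rewrite 1 [e2]
    rw [← Real.exp_nat_mul]
    congr 1
    ring
  have hlog2 : 0 < Real.log 2 := Real.log_pos (by norm_num)
  obtain ⟨C4, hC4⟩ : ∃ C4 : ℝ, C4 = (g + 2) * (V₁ + 1) := ⟨_, rfl⟩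
  have hC40 : 1 ≤ C4 := by
    rw [hC4]
    have h1 : (1 : ℝ) ≤ V₁ := by exact_mod_cast hV1
    have h2 : (0 : ℝ) ≤ g := by positivity
    exact one_le_mul_of_one_le_of_one_le (by linarith) (by linarith)
  obtain ⟨C6, hC6⟩ : ∃ C6 : ℝ, C6 = k * C4 ^ 2 + 1 := ⟨_, rfl⟩
  have hC60 : 1 ≤ C6 := by rw [hC6]; have : 0 ≤ (k : ℝ) * C4 ^ 2 := by positivity
                           linarith
  obtain ⟨x₀, hx₀⟩ : ∃ x₀ : ℝ, x₀ = min 1 (lam / (4 * ((g : ℝ) + 1) ^ 2 * C6)) := ⟨_, rfl⟩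
  have hx00 : 0 < x₀ := by rw [hx₀]; exact lt_min one_pos (by positivity)
  have hx01 : x₀ ≤ 1 := by rw [hx₀]; exact min_le_left _ _
  have hx02 : ((g : ℝ) + 1) ^ 2 * x₀ * C6 ≤ lam / 4 := by
    have h1 : x₀ ≤ lam / (4 * ((g : ℝ) + 1) ^ 2 * C6) := by rw [hx₀]; exact min_le_right _ _
    rw [le_div_iff₀ (by positivity)] at h1
    linarith
  have hlogx0 : Real.log x₀ ≤ 0 := Real.log_nonpos hx00.le hx01
  obtain ⟨B, hB⟩ : ∃ B : ℝ, B = 1 + (-Real.log x₀) / Real.log 2 := ⟨_, rfl⟩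
  have hB1 : 1 ≤ B := by
    rw [hB]
    have : 0 ≤ (-Real.log x₀) / Real.log 2 := div_nonneg (by linarith) hlog2.le
    linarith
  obtain ⟨δ, hδ⟩ : ∃ δ : ℝ, δ = lam / (4 * B * C4 * (W + 1)) := ⟨_, rfl⟩
  have hδ0 : 0 < δ := by rw [hδ]; positivity
  refine ⟨δ, hδ0, fun n₀ => ?_⟩
  -- choose `N`
  have hev : ∀ᶠ N : ℕ in Filter.atTop, μ' ^ N < 1 / 2 ∧
      4 * Real.exp (-(lam / 4 * N)) < 1 ∧ n₀ ≤ N ∧ 1 ≤ N := by
    have t2 := tendsto_pow_atTop_nhds_zero_of_lt_one hμ'0.le hμ'1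
    have t3 : Filter.Tendsto (fun N : ℕ => 4 * Real.exp (-(lam / 4 * N)))
        Filter.atTop (nhds 0) := by
      have h1 : Filter.Tendsto (fun N : ℕ => lam / 4 * (N : ℝ)) Filter.atTop Filter.atTop :=
        Filter.Tendsto.const_mul_atTop (by positivity) tendsto_natCast_atTop_atTop
      have h2 := (Real.tendsto_exp_neg_atTop_nhds_zero.comp h1).const_mul 4
      simpa using h2
    filter_upwards [t2.eventually (gt_mem_nhds (show (0:ℝ) < 1/2 by norm_num)),
      t3.eventually (gt_mem_nhds (show (0:ℝ) < 1 by norm_num)),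
      Filter.eventually_ge_atTop n₀, Filter.eventually_ge_atTop 1] with N a1 a2 a3 a4
    exact ⟨a1, a2, a3, a4⟩
  obtain ⟨N, hN1, hN2, hN3, hN4⟩ := hev.exists
  obtain ⟨D, hD⟩ : ∃ D, D = N * (C.x₁.length + 1) + 1 := ⟨_, rfl⟩
  have hDpos : 0 < D := by omega
  obtain ⟨n, hn⟩ : ∃ n, n = (g + 2) * D - 1 := ⟨_, rfl⟩
  have hn1 : n + 1 = (g + 2) * D := by
    have : 1 ≤ (g + 2) * D := Nat.one_le_iff_ne_zero.mpr (by positivity)
    omega
  have hNV : N ≤ N * V₁ := Nat.le_mul_of_pos_right _ (by omega)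
  have hND : N + 1 ≤ D := by rw [hD, ← hV₁]; omega
  have hDn : D ≤ n + 1 := by
    rw [hn1]; exact Nat.le_mul_of_pos_left _ (by omega)
  have hnN : N ≤ n := by omega
  have hlenW : ∀ b : Fin (3 * k + 1) → Fin N → Bool, (C.W b).length = n := by
    intro b
    have := C.W_length b
    rw [← hD] at this
    have e : (3 * k + 1 + 1) * D = (g + 2) * D := by rw [hg]
    omega
  refine ⟨n, by omega, ?_⟩
  intro σ hσ L hL
  have hσ1 : |σ| = 1 := by rcases hσ with h | h <;> rw [h] <;> norm_num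
  have hN1' : (1 : ℝ) ≤ N := by exact_mod_cast hN4
  have hN0 : (0 : ℝ) < N := by linarith
  have hDR : (D : ℝ) = N * V₁ + 1 := by rw [hD, ← hV₁]; push_cast; ring
  have hnC : (n : ℝ) ≤ C4 * N := by
    have h1 : (n : ℝ) + 1 = ((g : ℝ) + 2) * D := by exact_mod_cast hn1
    have h3 : ((g : ℝ) + 2) * (N * V₁ + 1) ≤ (g + 2) * (N * V₁ + N) := by gcongr
    have h4 : ((g : ℝ) + 2) * (N * V₁ + N) = C4 * N := by rw [hC4]; ring
    rw [hDR] at h1
    linarith
  obtain ⟨A, hA⟩ : ∃ A : Finset (Fin (3 * k + 1) → Fin N → Bool),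
      A = Finset.univ.filter (fun b => gsign Finset.univ b = σ) := ⟨_, rfl⟩
  obtain ⟨Pw, hPw⟩ : ∃ Pw : ℝ, Pw = (2 ^ N : ℝ) ^ (3 * k + 1) := ⟨_, rfl⟩
  have hPw0 : 0 < Pw := by rw [hPw]; positivity
  have hmu0 := mu_nonneg (3 * k)
  have hmuN' : (mu (3 * k)) ^ N ≤ μ' ^ N :=
    pow_le_pow_left₀ (mu_nonneg _) (by rw [hμ', hg]; exact le_max_left _ _) N
  have hmuN : (mu (3 * k)) ^ N ≤ Real.exp (-(lam * N)) := by
    rw [← hmulam]; exact hmuN'
  have hAcard : Pw / 4 ≤ (A.card : ℝ) := by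
    have h4 : (2 ^ N : ℝ) ^ (3 * k + 1) * (1 - (mu (3 * k)) ^ N) / 2 ≤ (A.card : ℝ) := by
      rw [hA]; convert sign_card (3 * k) N σ hσ
    rw [← hPw] at h4
    have : (mu (3 * k)) ^ N ≤ 1 / 2 := hmuN'.trans hN1.le
    have h6 := mul_le_mul_of_nonneg_left this hPw0.le
    linarith
  have hHcard : ((fun b => C.W b) '' (A : Set (Fin (3 * k + 1) → Fin N → Bool))).ncard = A.card := by
    rw [Set.ncard_image_of_injective _ (W_inj C), Set.ncard_coe_finset]
  refine ⟨(fun b => C.W b) '' (A : Set (Fin (3 * k + 1) → Fin N → Bool)), ?_, ?_, ?_, ?_⟩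
  · have : A.Nonempty := by
      rw [← Finset.card_pos]
      have : (0 : ℝ) < A.card := lt_of_lt_of_le (by positivity) hAcard
      exact_mod_cast this
    obtain ⟨b, hb⟩ := this
    exact ⟨C.W b, b, by exact_mod_cast hb, rfl⟩
  · exact (Finset.finite_toSet A).image _
  · rintro w ⟨b, hb, rfl⟩
    refine ⟨hlenW b, (hL N b).mpr ?_⟩
    have hb' : b ∈ A := by exact_mod_cast hb
    rw [hA, Finset.mem_filter] at hb'
    exact hb'.2
  intro V _ P hPJ hpos hP
  have hnpos : (0 : ℝ) < n := by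
    have : 0 < n := by omega
    exact_mod_cast this
  obtain ⟨y, hy⟩ : ∃ y : ℝ, y = 2 + Fintype.card V / (n : ℝ) ^ 2 := ⟨_, rfl⟩
  have hy2 : 2 ≤ y := by
    rw [hy]
    have : 0 ≤ (Fintype.card V : ℝ) / (n : ℝ) ^ 2 := by positivity
    linarith
  obtain ⟨Λ, hΛ⟩ : ∃ Λ : ℝ, Λ = Real.log y := ⟨_, rfl⟩
  have hΛ2 : Real.log 2 ≤ Λ := by
    rw [hΛ]; exact Real.log_le_log (by norm_num) hy2
  have hΛ0 : 0 < Λ := lt_of_lt_of_le hlog2 hΛ2
  -- correctness
  have hcorr : ∀ b : Fin (3 * k + 1) → Fin N → Bool,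
      (∃ d ∈ P.acc, Relation.ReflTransGen (P.Step (C.W b)) P.start d) →
        gsign Finset.univ b = σ := by
    rintro b ⟨d, hd, hpath⟩
    rw [← hL N b]
    exact hP _ (hlenW b) (run_of_path hd hpath)
  obtain ⟨Y, hY⟩ : ∃ Y : Finset (Fin (3 * k + 1) → Fin N → Bool),
      Y = Finset.univ.filter (fun b => ∃ T ρ I, P.AccRun (C.W b) T ρ ∧ 0 < I ∧
        Splits n (fun t => P.pos (ρ t)) T I ∧ I * Λ < δ * (n : ℝ)) :=
    ⟨_, rfl⟩
  have hle : (({w ∈ (fun b => C.W b) '' (A : Set (Fin (3 * k + 1) → Fin N → Bool)) |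
      ∃ T ρ I, P.AccRun w T ρ ∧ 0 < I ∧ Splits n (fun t => P.pos (ρ t)) T I ∧
        I * Real.log (2 + Fintype.card V / (n : ℝ) ^ 2) < δ * (n : ℝ)}.ncard : ℕ) : ℝ)
      ≤ Y.card := by
    have hsub : {w ∈ (fun b => C.W b) '' (A : Set (Fin (3 * k + 1) → Fin N → Bool)) |
        ∃ T ρ I, P.AccRun w T ρ ∧ 0 < I ∧ Splits n (fun t => P.pos (ρ t)) T I ∧
        I * Real.log (2 + Fintype.card V / (n : ℝ) ^ 2) < δ * (n : ℝ)} ⊆
        (fun b => C.W b) '' (Y : Set (Fin (3 * k + 1) → Fin N → Bool)) := by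
      rintro w ⟨⟨b, _, rfl⟩, T, ρ, I, hρ, hI, hs, hT⟩
      refine ⟨b, ?_, rfl⟩
      rw [hY]
      simp only [Finset.coe_filter, Finset.mem_univ, true_and, Set.mem_ofPred_eq]
      exact ⟨T, ρ, I, hρ, hI, hs, by rw [hΛ, hy]; exact hT⟩
    have h1 := Set.ncard_le_ncard hsub ((Finset.finite_toSet Y).image _)
    rw [Set.ncard_image_of_injective _ (W_inj C), Set.ncard_coe_finset] at h1
    exact_mod_cast h1
  have hδn : δ * n ≤ lam * N / (4 * B * (W + 1)) := by
    calc δ * (n : ℝ) ≤ δ * (C4 * N) := by gcongr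
      _ = lam * N / (4 * B * (W + 1)) := by rw [hδ]; field_simp
  have hδn4 : δ * n ≤ lam * N / 4 := by
    refine hδn.trans ?_
    apply div_le_div_of_nonneg_left (by positivity) (by norm_num)
    have h1 : (1 : ℝ) ≤ W + 1 := by
      have : (0 : ℝ) ≤ W := by positivity
      linarith
    have := one_le_mul_of_one_le_of_one_le hB1 h1
    linarith
  have hmain : (Y.card : ℝ) ≤ Pw * Real.exp (-(lam * N / 2)) := by
    by_cases hYe : Y = ∅
    · rw [hYe]
      simp only [Finset.card_empty, Nat.cast_zero]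
      positivity
    obtain ⟨Imax, hImax⟩ : ∃ I : ℕ, I = ⌊δ * (n : ℝ) / Λ⌋₊ := ⟨_, rfl⟩
    have hI1 : (Imax : ℝ) * Λ ≤ δ * n := by
      have h1 : (Imax : ℝ) ≤ δ * (n : ℝ) / Λ := by
        rw [hImax]; exact Nat.floor_le (by positivity)
      rwa [le_div_iff₀ hΛ0] at h1
    have hI2 : ∀ I : ℕ, I * Λ < δ * (n : ℝ) → I ≤ Imax := by
      intro I hI
      rw [hImax]
      apply Nat.le_floor
      rw [le_div_iff₀ hΛ0]
      exact hI.le
    have hI3 : 1 ≤ Imax := by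
      obtain ⟨b, hb⟩ := Finset.nonempty_iff_ne_empty.mpr hYe
      rw [hY, Finset.mem_filter] at hb
      obtain ⟨_, T, ρ, I, _, hI, _, hT⟩ := hb
      exact le_trans hI (hI2 I hT)
    obtain ⟨c, hc, hcK⟩ := exists_shift P hDpos
    obtain ⟨K, hK⟩ : ∃ K : Finset V, K = Finset.univ.filter (fun v => MarkC P D c v ∨ v = P.start) :=
      ⟨_, rfl⟩
    rw [← hK] at hcK
    have hstart : P.start ∈ K := by
      rw [hK, Finset.mem_filter]
      exact ⟨Finset.mem_univ _, Or.inr rfl⟩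
    have hKcard : (K.card : ℝ) ≤ C6 * N * y := by
      have h1 : (D : ℝ) * K.card ≤ k * Fintype.card V + D := by exact_mod_cast hcK
      have hD0 : (0 : ℝ) < D := by exact_mod_cast hDpos
      have hDN : (N : ℝ) ≤ D := by exact_mod_cast (show N ≤ D by omega)
      have h2 : (K.card : ℝ) ≤ k * Fintype.card V / N + 1 := by
        have h3 : (K.card : ℝ) ≤ (k * Fintype.card V + D) / D := by
          rw [le_div_iff₀ hD0]; linarith
        have h4 : ((k : ℝ) * Fintype.card V + D) / D = k * Fintype.card V / D + 1 := by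
          field_simp
        rw [h4] at h3
        refine h3.trans ?_
        gcongr
      have h3 : (k : ℝ) * Fintype.card V / N ≤ k * C4 ^ 2 * N * (Fintype.card V / (n : ℝ) ^ 2) := by
        have h5 : (n : ℝ) ^ 2 ≤ (C4 * N) ^ 2 := pow_le_pow_left₀ hnpos.le hnC 2
        rw [div_le_iff₀ hN0]
        have h6 : (k : ℝ) * C4 ^ 2 * N * (Fintype.card V / (n : ℝ) ^ 2) * N =
          k * Fintype.card V * ((C4 * N) ^ 2 / (n : ℝ) ^ 2) := by ring
        rw [h6]
        have h7 : 1 ≤ (C4 * N) ^ 2 / (n : ℝ) ^ 2 := by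
          rw [le_div_iff₀ (by positivity)]; linarith
        exact le_mul_of_one_le_right (by positivity) h7
      have h4 : (Fintype.card V : ℝ) / (n : ℝ) ^ 2 ≤ y := by rw [hy]; linarith
      calc (K.card : ℝ) ≤ k * Fintype.card V / N + 1 := h2
        _ ≤ k * C4 ^ 2 * N * y + 1 * N * y := by
            have h8 : (1 : ℝ) ≤ 1 * N * y := by
              rw [one_mul]; exact one_le_mul_of_one_le_of_one_le hN1' (by linarith)
            have h9 : (k : ℝ) * C4 ^ 2 * N * (Fintype.card V / (n : ℝ) ^ 2) ≤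
              k * C4 ^ 2 * N * y := by gcongr
            linarith
        _ = C6 * N * y := by rw [hC6]; ring
    obtain ⟨x, hx⟩ : ∃ x : ℝ, x = x₀ / y := ⟨_, rfl⟩
    have hy0 : 0 < y := by linarith
    have hx0 : 0 < x := by rw [hx]; positivity
    have hx1 : x ≤ 1 := by
      rw [hx, div_le_one hy0]; linarith
    have h5 := accS_card C P K P.start hstart σ hσ1 (Imax * W) hcorr x hx0 hx1
    have hYsub : (Y.card : ℝ) ≤ ((Finset.univ.filter (fun b : Fin (3 * k + 1) → Fin N → Bool =>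
        AccS C P K b (Imax * W) P.start)).card : ℝ) := by
      apply Nat.cast_le.mpr
      apply Finset.card_le_card
      intro b hb
      rw [hY, Finset.mem_filter] at hb
      obtain ⟨_, T, ρ, I, hρ, hI, hs, hT⟩ := hb
      rw [Finset.mem_filter]
      refine ⟨Finset.mem_univ _, ?_⟩
      have hM : ∀ v i, (P.pos v i + c) / (N * (C.x₁.length + 1) + 1) ≤ g + 2 := by
        intro v i
        rw [← hD]
        have h6 : P.pos v i + c < (g + 3) * D := by
          have h7 := hpos v i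
          have h8 : (g + 3) * D = (g + 2) * D + D := by ring
          omega
        have h7 := Nat.div_lt_of_lt_mul (show P.pos v i + c < D * (g + 3) by
          rw [mul_comm D]; exact h6)
        omega
      have h6 := accS_of_splits hPJ (K := K) (b := b) (c := c) (by rw [← hD]; exact hc) hρ.2.1
        (by
          intro s _ hm
          rw [hK, Finset.mem_filter, hD]
          exact ⟨Finset.mem_univ _, Or.inl hm⟩) hρ.2.2 hM (J := g + 2) (n := n)
        (by rw [← hD]; omega) hs (by rw [hρ.1]; exact hstart)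
      rw [hρ.1, ← hW] at h6
      have h7 := hI2 I hT
      obtain ⟨e, he⟩ := Nat.exists_eq_add_of_le h7
      have h8 := AccS.mono_add hstart h6 (e * W)
      rw [show Imax * W = e * W + I * W by rw [he]; ring]
      exact h8
    have hexp : Real.exp ((((3 * k : ℕ) : ℝ) + 1) ^ 2 * x * K.card) ≤
        Real.exp (lam * N / 4) := by
      apply Real.exp_le_exp.mpr
      rw [← hg]
      calc ((g : ℝ) + 1) ^ 2 * x * K.card
          ≤ ((g : ℝ) + 1) ^ 2 * x * (C6 * N * y) := by gcongr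
        _ = (((g : ℝ) + 1) ^ 2 * x₀ * C6) * N := by
            rw [hx]; field_simp
        _ ≤ (lam / 4) * N := by gcongr
        _ = _ := by ring
    have hlogx : -Real.log x ≤ B * Λ := by
      rw [hx, Real.log_div (by positivity) (by positivity), hB, ← hΛ]
      have h3 : -Real.log x₀ ≤ (-Real.log x₀) / Real.log 2 * Λ := by
        rw [div_mul_eq_mul_div, le_div_iff₀ hlog2]
        exact mul_le_mul_of_nonneg_left hΛ2 (by linarith)
      linarith
    have hxpow : Real.exp (-(lam * N / 4)) ≤ x ^ (Imax * W + 1) := by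
      have e1 : x ^ (Imax * W + 1) = Real.exp ((Imax * W + 1 : ℕ) * Real.log x) := by
        rw [← Real.log_pow, Real.exp_log (by positivity)]
      rw [e1]
      apply Real.exp_le_exp.mpr
      push_cast
      have h7 : ((Imax : ℝ) * W + 1) * (-Real.log x) ≤ lam * N / 4 := by
        have h8 : (1 : ℝ) ≤ Imax := by exact_mod_cast hI3
        calc ((Imax : ℝ) * W + 1) * (-Real.log x) ≤ ((Imax : ℝ) * W + 1) * (B * Λ) := by gcongr
          _ ≤ ((Imax : ℝ) * W + Imax) * (B * Λ) := by gcongr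
          _ = (B * (W + 1)) * (Imax * Λ) := by ring
          _ ≤ (B * (W + 1)) * (lam * N / (4 * B * (W + 1))) := by
              gcongr
              exact hI1.trans hδn
          _ = lam * N / 4 := by field_simp
      linarith
    have h9 : (Y.card : ℝ) * Real.exp (-(lam * N / 4)) ≤
        Real.exp (lam * N / 4) * (Pw * Real.exp (-(lam * N))) := by
      calc (Y.card : ℝ) * Real.exp (-(lam * N / 4)) ≤
          ((Finset.univ.filter (fun b : Fin (3 * k + 1) → Fin N → Bool =>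
            AccS C P K b (Imax * W) P.start)).card : ℝ) * x ^ (Imax * W + 1) := by gcongr
        _ ≤ Real.exp ((((3 * k : ℕ) : ℝ) + 1) ^ 2 * x * K.card) *
            (Pw * (mu (3 * k)) ^ N) := by rw [hPw]; convert h5
        _ ≤ _ := by gcongr
    have h11 : (Y.card : ℝ) = ((Y.card : ℝ) * Real.exp (-(lam * N / 4))) * Real.exp (lam * N / 4) := by
      rw [mul_assoc, ← Real.exp_add, neg_add_cancel, Real.exp_zero, mul_one]
    rw [h11]
    calc ((Y.card : ℝ) * Real.exp (-(lam * N / 4))) * Real.exp (lam * N / 4)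
        ≤ (Real.exp (lam * N / 4) * (Pw * Real.exp (-(lam * N)))) * Real.exp (lam * N / 4) := by
          gcongr
      _ = Pw * (Real.exp (lam * N / 4) * Real.exp (-(lam * N)) * Real.exp (lam * N / 4)) := by ring
      _ = Pw * Real.exp (-(lam * N / 2)) := by
          rw [← Real.exp_add, ← Real.exp_add]; congr 2; ring
  rw [hHcard]
  have hsmall : Real.exp (-(lam * N / 2)) ≤ Real.exp (-(δ * n)) / 4 := by
    have e1 : Real.exp (-(lam * N / 2)) =
        (4 * Real.exp (-(lam / 4 * N))) * (Real.exp (-(lam * N / 4)) / 4) := by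
      have : Real.exp (-(lam * N / 2)) = Real.exp (-(lam / 4 * N)) * Real.exp (-(lam * N / 4)) := by
        rw [← Real.exp_add]; congr 1; ring
      rw [this]; ring
    rw [e1]
    calc (4 * Real.exp (-(lam / 4 * N))) * (Real.exp (-(lam * N / 4)) / 4)
        ≤ 1 * (Real.exp (-(δ * n)) / 4) := by gcongr
      _ = _ := by ring
  calc _ ≤ (Y.card : ℝ) := hle
    _ ≤ Pw * Real.exp (-(lam * N / 2)) := hmain
    _ ≤ Pw * (Real.exp (-(δ * n)) / 4) := by gcongr
    _ = Real.exp (-(δ * n)) * (Pw / 4) := by ring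
    _ ≤ Real.exp (-(δ * n)) * A.card := by gcongr

theorem hardR_both (k : ℕ) : ∃ δ : ℝ, 0 < δ ∧ ∀ n₀ : ℕ, ∃ n : ℕ, n₀ ≤ n ∧
    HardR k δ n theLang ∧ HardR k δ n theLangᶜ := by
  obtain ⟨C⟩ := exists_code Unit
  obtain ⟨δ, hδ, h⟩ := hardR_aux k C
  refine ⟨δ, hδ, fun n₀ => ?_⟩
  obtain ⟨n, hn, h2⟩ := h n₀
  refine ⟨n, hn, h2 (-1) (Or.inr rfl) _ (fun N b => W_mem C b), h2 1 (Or.inl rfl) _ (fun N b => ?_)⟩
  rw [Set.mem_compl_iff, W_mem C b]
  have := Pool.Agent.H541R2.gsign_abs Finset.univ b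
  rcases eq_or_eq_neg_of_abs_eq this with h | h <;> rw [h] <;> norm_num

end Pool.Agent.TH393.LB
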