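import Pool.Agent.TH393.LB15

set_option autoImplicit false

namespace Pool.Agent.TH393.LB

open Finset
open Pool.Agent.H541R2 (rd mv gsign mu mu_nonneg mu_lt_one theLang sign_card)
open Pool.Agent.H867R4 (Code NMach NCfg W_mem exists_code pos_close)

/-- The time up to `T` is split into `I` pieces, each of which has at most `n` steps, or is such that
every head stays within distance `r` of its place at the beginning of the piece, or is such that every
head moves in one direction only during the piece; `pos t i` is the position of head `i` at the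
time `t`. -/
def SplitsW {k : ℕ} (n r : ℕ) (pos : ℕ → Fin k → ℕ) (T I : ℕ) : Prop :=
  ∃ t : ℕ → ℕ, t 0 = 0 ∧ t I = T ∧ ∀ j < I, t j ≤ t (j + 1) ∧
    (t (j + 1) ≤ t j + n ∨
      (∀ s i, t j ≤ s → s ≤ t (j + 1) → pos s i ≤ pos (t j) i + r ∧ pos (t j) i ≤ pos s i + r) ∨
      ∀ i, (∀ s, t j ≤ s → s < t (j + 1) → pos s i ≤ pos (s + 1) i) ∨
        (∀ s, t j ≤ s → s < t (j + 1) → pos (s + 1) i ≤ pos s i))

/-- There is a set `H` of words of length `n` in `L` which is hard for programs with `k` heads: let `P` be
such a program, of any size, in which the heads are at the positions `0, …, n + 1` only and move at most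
one cell per step. If `P` accepts no word of length `n` outside `L`, then it accepts only a fraction
`exp (-δ n)` of the words in `H` by computations which can be split into `I ≥ 1` pieces, each with at
most `n` steps, or with every head staying within `n / (3 k + 3)` cells of its place at the beginning of
the piece, or with every head moving in one direction only, where `I log (2 + |V| / n ^ 2) < δ n`. -/
def HardW (k : ℕ) (δ : ℝ) (n : ℕ) (L : Set (List (Fin 4))) : Prop :=
  ∃ H : Set (List (Fin 4)), H.Nonempty ∧ H.Finite ∧ (∀ w ∈ H, w.length = n ∧ w ∈ L) ∧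
    ∀ (V : Type) (_ : Fintype V) (P : Prog k V), NoJump P → (∀ v i, P.pos v i ≤ n + 1) →
      (∀ w : List (Fin 4), w.length = n → P.Accepts w → w ∈ L) →
      (({w ∈ H | ∃ T ρ I, P.AccRun w T ρ ∧ 0 < I ∧
          SplitsW n (n / (3 * k + 3)) (fun t => P.pos (ρ t)) T I ∧
          I * Real.log (2 + Fintype.card V / (n : ℝ) ^ 2) < δ * (n : ℝ)}.ncard : ℕ) : ℝ) ≤
        Real.exp (-(δ * n)) * H.ncard

variable {k : ℕ} {V : Type}

theorem accS_of_splitsW {C : Code Unit} {P : Prog k V} (hP : NoJump P) {N : ℕ}
    {b : Fin (3 * k + 1) → Fin N → Bool} {K : Finset V} {c : ℕ}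
    (hc : c < N * (C.x₁.length + 1) + 1) {T : ℕ} {ρ : ℕ → V}
    (hst : ∀ t < T, P.Step (C.W b) (ρ t) (ρ (t + 1)))
    (hK : ∀ s ≤ T, MarkC P (N * (C.x₁.length + 1) + 1) c (ρ s) → ρ s ∈ K) (hF : ρ T ∈ P.acc)
    {M J n I r : ℕ} (hM : ∀ v i, (P.pos v i + c) / (N * (C.x₁.length + 1) + 1) ≤ M)
    (hn : n ≤ J * (N * (C.x₁.length + 1) + 1)) (hr : r ≤ N * (C.x₁.length + 1) + 1)
    (hs : SplitsW n r (fun t => P.pos (ρ t)) T I)
    (h0 : ρ 0 ∈ K) : AccS C P K b (I * (2 * (J + k * M + 1))) (ρ 0) := by
  classical
  obtain ⟨t, ht0, htI, ht⟩ := hs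
  have key : ∀ m ≤ I, Ok C P K b c ρ (t (I - m)) (m * (2 * (J + k * M + 1))) := by
    intro m
    induction m with
    | zero =>
      intro _
      rw [Nat.sub_zero, htI, Nat.zero_mul]
      exact ok_last hP hc hst hF
    | succ m ih =>
      intro hm
      have h1 := ih (by omega)
      have hj : I - (m + 1) + 1 = I - m := by omega
      obtain ⟨h2, h3⟩ := ht (I - (m + 1)) (by omega)
      rw [hj] at h2 h3
      have hT : t (I - m) ≤ T := by
        rw [← htI]; exact splits_mono (fun j hj => (ht j hj).1) m (by omega)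
      rcases h3 with h3 | h3 | h3
      · have h4 := ok_short hP hc hst hK J (t (I - (m + 1))) (t (I - m)) _ h2 hT (by omega) h1
        have h5 := Ok.add h4 (2 * (k * M + 1))
        rw [show (m + 1) * (2 * (J + k * M + 1)) =
          m * (2 * (J + k * M + 1)) + 2 * J + 2 * (k * M + 1) by ring]
        exact h5
      · have h4 := ok_step hP hc hst hK h2 hT (by
          intro f l hf hfl hl
          obtain ⟨m', rfl⟩ := Nat.exists_eq_add_of_le hfl
          refine phase f m' (fun i => P.pos (ρ (t (I - (m + 1)))) i / (N * (C.x₁.length + 1) + 1))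
            (fun s _ hs' => hst s (by omega)) (fun s hs hs' i => ?_)
          obtain ⟨a1, a2⟩ := h3 s i (by omega) (by omega)
          have a1' : P.pos (ρ s) i ≤ P.pos (ρ (t (I - (m + 1)))) i + r := a1
          have a2' : P.pos (ρ (t (I - (m + 1)))) i ≤ P.pos (ρ s) i + r := a2
          constructor
          · calc P.pos (ρ s) i / (N * (C.x₁.length + 1) + 1)
                ≤ (P.pos (ρ (t (I - (m + 1)))) i + (N * (C.x₁.length + 1) + 1)) /
                    (N * (C.x₁.length + 1) + 1) := Nat.div_le_div_right (by omega)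
              _ = _ := Nat.add_div_right _ (by omega)
          · calc P.pos (ρ (t (I - (m + 1)))) i / (N * (C.x₁.length + 1) + 1)
                ≤ (P.pos (ρ s) i + (N * (C.x₁.length + 1) + 1)) /
                    (N * (C.x₁.length + 1) + 1) := Nat.div_le_div_right (by omega)
              _ = _ := Nat.add_div_right _ (by omega)) h1
        have h5 := Ok.add h4 (2 * (J + k * M))
        rw [show (m + 1) * (2 * (J + k * M + 1)) =
          m * (2 * (J + k * M + 1)) + 2 + 2 * (J + k * M) by ring]
        exact h5
      · obtain ⟨up, hup⟩ : ∃ up : Fin k → Bool, ∀ i, up i = true ↔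
            ∀ s, t (I - (m + 1)) ≤ s → s < t (I - m) → P.pos (ρ s) i ≤ P.pos (ρ (s + 1)) i :=
          ⟨fun i => decide (∀ s, t (I - (m + 1)) ≤ s → s < t (I - m) →
            P.pos (ρ s) i ≤ P.pos (ρ (s + 1)) i), fun i => decide_eq_true_iff⟩
        have h4 := ok_mono hP hc hst hK hM up hT h1 (k * M) (t (I - (m + 1))) h2
          (fun i hi => (hup i).mp hi) (fun i hi => by
            rcases h3 i with h5 | h5
            · have := (hup i).mpr h5
              rw [hi] at this
              exact absurd this (by simp)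
            · exact h5) (by
            calc ∑ i, pot P (N * (C.x₁.length + 1) + 1) c M up (ρ (t (I - (m + 1)))) i
                ≤ ∑ _i : Fin k, M := Finset.sum_le_sum (fun i _ => pot_le hM i)
              _ = k * M := by simp)
        have h5 := Ok.add h4 (2 * J)
        rw [show (m + 1) * (2 * (J + k * M + 1)) =
          m * (2 * (J + k * M + 1)) + 2 * (k * M + 1) + 2 * J by ring]
        exact h5
  have h1 := key I le_rfl
  rw [Nat.sub_self, ht0] at h1
  exact h1 0 le_rfl h0 (fun s hs hs' => by omega)

end Pool.Agent.TH393.LB
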