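import Pool.Agent.TH393.LB1

set_option autoImplicit false

namespace Pool.Agent.TH393.LB

open Finset
open Pool.Agent.H541R2 (rd mv mv_le le_mv gsign mu mu_nonneg mu_lt_one IsCyl isCyl_univ cyl_card theLang
  sign_card)
open Pool.Agent.H867R4 (Code Out rd_out out_of_block W_mem exists_row rowsOf)

/-- The program accepts `w`. -/
def Prog.Accepts {k : ℕ} {V : Type} (P : Prog k V) (w : List (Fin 4)) : Prop :=
  ∃ T ρ, P.AccRun w T ρ

/-- There is a set `H` of words of length `n` in `L` which is hard for programs with `k` heads: whenever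
such a program, of any size, accepts no word of length `n` outside `L`, then it accepts only a fraction
`exp (-c n)` of the words in `H` by computations of length `T` with `T log (size + 1) < c n ^ 2`. -/
def Hard (k : ℕ) (c : ℝ) (n : ℕ) (L : Set (List (Fin 4))) : Prop :=
  ∃ H : Set (List (Fin 4)), H.Nonempty ∧ H.Finite ∧ (∀ w ∈ H, w.length = n ∧ w ∈ L) ∧
    ∀ (V : Type) (_ : Fintype V) (P : Prog k V),
      (∀ w : List (Fin 4), w.length = n → P.Accepts w → w ∈ L) →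
      (({w ∈ H | ∃ T ρ, P.AccRun w T ρ ∧ T * Real.log (Fintype.card V + 1) < c * (n : ℝ) ^ 2}.ncard : ℕ)
        : ℝ) ≤ Real.exp (-(c * n)) * H.ncard

theorem v_inj (C : Code Unit) {x y : Bool} (h : C.v x = C.v y) : x = y := by
  unfold Code.v at h
  have h1 := List.append_cancel_right h
  cases x <;> cases y
  · rfl
  · simp only [if_true, Bool.false_eq_true, if_false] at h1
    exact absurd h1 C.ne
  · simp only [if_true, Bool.false_eq_true, if_false] at h1
    exact absurd h1.symm C.ne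
  · rfl

theorem zone_inj (C : Code Unit) : ∀ l l' : List Bool, l.length = l'.length →
    C.zone l = C.zone l' → l = l' := by
  intro l
  induction l with
  | nil =>
    intro l' h _
    exact (List.length_eq_zero_iff.mp h.symm).symm
  | cons x l ih =>
    intro l' h h2
    cases l' with
    | nil => simp at h
    | cons y l' =>
      have e1 : C.zone (x :: l) = C.v x ++ C.zone l := by simp [Code.zone]
      have e2 : C.zone (y :: l') = C.v y ++ C.zone l' := by simp [Code.zone]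
      rw [e1, e2] at h2
      obtain ⟨h3, h4⟩ := List.append_inj h2 (by rw [C.v_length, C.v_length])
      rw [v_inj C h3, ih l' (by simpa using h) h4]

theorem W_inj (C : Code Unit) {g N : ℕ} : Function.Injective
    (fun b : Fin g → Fin N → Bool => C.W b) := by
  intro b b' h
  funext i
  simp only at h
  rw [C.W_split b i, C.W_split b' i, List.append_assoc, List.append_assoc] at h
  obtain ⟨_, h2⟩ := List.append_inj h
    (by rw [C.U_length b i i.isLt.le, C.U_length b' i i.isLt.le])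
  obtain ⟨h3, _⟩ := List.append_inj h2 (by rw [C.zone_length, C.zone_length]; simp)
  exact List.ofFn_injective (zone_inj C _ _ (by simp) h3)

theorem hard_aux (k : ℕ) (C : Code Unit) : ∃ c : ℝ, 0 < c ∧ ∀ n₀ : ℕ, ∃ n : ℕ, n₀ ≤ n ∧ ∃ N : ℕ,
    (∀ b : Fin (3 * k + 1) → Fin N → Bool, (C.W b).length = n) ∧
    ∀ σ : ℝ, (σ = 1 ∨ σ = -1) → ∀ L : Set (List (Fin 4)),
      (∀ b : Fin (3 * k + 1) → Fin N → Bool, C.W b ∈ L ↔ gsign Finset.univ b = σ) →
      Hard k c n L := by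
  classical
  obtain ⟨V₁, hV₁⟩ : ∃ V, V = C.x₁.length + 1 := ⟨_, rfl⟩
  have hV1 : 1 ≤ V₁ := by omega
  obtain ⟨g, hg⟩ : ∃ g, g = 3 * k := ⟨_, rfl⟩
  obtain ⟨μ', hμ'⟩ : ∃ μ' : ℝ, μ' = max (mu g) (1 / 2) := ⟨_, rfl⟩
  have hμ'1 : μ' < 1 := by rw [hμ']; exact max_lt (mu_lt_one g) (by norm_num)
  have hμ'0 : 0 < μ' := by rw [hμ']; exact lt_of_lt_of_le (by norm_num) (le_max_right _ _)
  obtain ⟨lam, hlam⟩ : ∃ lam : ℝ, lam = -Real.log μ' := ⟨_, rfl⟩
  have hlam0 : 0 < lam := by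
    have := Real.log_neg hμ'0 hμ'1
    linarith
  have hmulam : ∀ N : ℕ, μ' ^ N = Real.exp (-(lam * N)) := by
    intro N
    have e2 : μ' = Real.exp (-lam) := by rw [hlam, neg_neg, Real.exp_log hμ'0]
    nth_rewrite 1 [e2]
    rw [← Real.exp_nat_mul]
    congr 1
    ring
  have hlog2 : 0 < Real.log 2 := Real.log_pos (by norm_num)
  have hg1 : (1 : ℝ) ≤ g + 1 := by
    have : (0 : ℝ) ≤ g := by positivity
    linarith
  have hlogg : 0 ≤ Real.log ((g : ℝ) + 1) := Real.log_nonneg hg1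
  obtain ⟨C4, hC4⟩ : ∃ C4 : ℝ, C4 = (g + 2) * (V₁ + 1) := ⟨_, rfl⟩
  have hC40 : 1 ≤ C4 := by
    rw [hC4]
    have h1 : (1 : ℝ) ≤ V₁ := by exact_mod_cast hV1
    nlinarith
  obtain ⟨C2, hC2⟩ : ∃ C2 : ℝ, C2 = Real.log ((g : ℝ) + 1) / Real.log 2 + 1 := ⟨_, rfl⟩
  have hC20 : 1 ≤ C2 := by
    rw [hC2]
    have : 0 ≤ Real.log ((g : ℝ) + 1) / Real.log 2 := by positivity
    linarith
  obtain ⟨c, hc⟩ : ∃ c : ℝ, c = lam / (4 * C4 ^ 2 * C2) := ⟨_, rfl⟩
  have hc0 : 0 < c := by rw [hc]; positivity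
  refine ⟨c, hc0, fun n₀ => ?_⟩
  -- choose `N`
  have hev : ∀ᶠ N : ℕ in Filter.atTop, μ' ^ N < 1 / 2 ∧
      4 * ((g : ℝ) + 1) * Real.exp (-(lam / 2 * N)) < 1 ∧ n₀ ≤ N ∧ 1 ≤ N := by
    have t2 := tendsto_pow_atTop_nhds_zero_of_lt_one hμ'0.le hμ'1
    have t3 : Filter.Tendsto (fun N : ℕ => 4 * ((g : ℝ) + 1) * Real.exp (-(lam / 2 * N)))
        Filter.atTop (nhds 0) := by
      have h1 : Filter.Tendsto (fun N : ℕ => lam / 2 * (N : ℝ)) Filter.atTop Filter.atTop :=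
        Filter.Tendsto.const_mul_atTop (by positivity) tendsto_natCast_atTop_atTop
      have h2 := (Real.tendsto_exp_neg_atTop_nhds_zero.comp h1).const_mul (4 * ((g : ℝ) + 1))
      simpa using h2
    filter_upwards [t2.eventually (gt_mem_nhds (show (0:ℝ) < 1/2 by norm_num)),
      t3.eventually (gt_mem_nhds (show (0:ℝ) < 1 by norm_num)),
      Filter.eventually_ge_atTop n₀, Filter.eventually_ge_atTop 1] with N a1 a2 a3 a4
    exact ⟨a1, a2, a3, a4⟩
  obtain ⟨N, hN1, hN2, hN3, hN4⟩ := hev.exists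
  obtain ⟨n, hn⟩ : ∃ n, n = (g + 2) * (N * V₁ + 1) - 1 := ⟨_, rfl⟩
  have hn1 : n + 1 = (g + 2) * (N * V₁ + 1) := by
    have : 1 ≤ (g + 2) * (N * V₁ + 1) := Nat.one_le_iff_ne_zero.mpr (by positivity)
    omega
  have hNV : N ≤ N * V₁ := Nat.le_mul_of_pos_right _ (by omega)
  have hnN : N ≤ n := by
    have h1 : N * V₁ + 1 ≤ (g + 2) * (N * V₁ + 1) := Nat.le_mul_of_pos_left _ (by omega)
    omega
  refine ⟨n, by omega, N, ?_, ?_⟩
  · intro b
    have := C.W_length b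
    rw [← hV₁] at this
    have e : (3 * k + 1 + 1) * (N * V₁ + 1) = (g + 2) * (N * V₁ + 1) := by rw [hg]
    omega
  intro σ hσ L hL
  have hlenW : ∀ b : Fin (3 * k + 1) → Fin N → Bool, (C.W b).length = n := by
    intro b
    have := C.W_length b
    rw [← hV₁] at this
    have e : (3 * k + 1 + 1) * (N * V₁ + 1) = (g + 2) * (N * V₁ + 1) := by rw [hg]
    omega
  have hσ1 : |σ| = 1 := by rcases hσ with h | h <;> rw [h] <;> norm_num
  have hnC : (n : ℝ) ≤ C4 * N := by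
    have h1 : (n : ℝ) + 1 = ((g : ℕ) + 2) * (N * V₁ + 1) := by exact_mod_cast hn1
    have h2 : (1 : ℝ) ≤ N := by exact_mod_cast hN4
    have h3 : ((g : ℝ) + 2) * (N * V₁ + 1) ≤ (g + 2) * (N * V₁ + N) := by gcongr
    have h4 : ((g : ℝ) + 2) * (N * V₁ + N) = C4 * N := by rw [hC4]; ring
    linarith
  have hN0 : (0 : ℝ) < N := by exact_mod_cast hN4
  obtain ⟨A, hA⟩ : ∃ A : Finset (Fin (3 * k + 1) → Fin N → Bool),
      A = Finset.univ.filter (fun b => gsign Finset.univ b = σ) := ⟨_, rfl⟩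
  obtain ⟨Pw, hPw⟩ : ∃ Pw : ℝ, Pw = (2 ^ N : ℝ) ^ (3 * k + 1) := ⟨_, rfl⟩
  have hPw0 : 0 < Pw := by rw [hPw]; positivity
  have hmuN : (mu (3 * k)) ^ N ≤ μ' ^ N :=
    pow_le_pow_left₀ (mu_nonneg _) (by rw [hμ', hg]; exact le_max_left _ _) N
  have hAcard : Pw / 4 ≤ (A.card : ℝ) := by
    have h4 : (2 ^ N : ℝ) ^ (3 * k + 1) * (1 - (mu (3 * k)) ^ N) / 2 ≤ (A.card : ℝ) := by
      rw [hA]; convert sign_card (3 * k) N σ hσ
    rw [← hPw] at h4
    have : (mu (3 * k)) ^ N ≤ 1 / 2 := hmuN.trans hN1.le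
    nlinarith
  have hHcard : ((fun b => C.W b) '' (A : Set (Fin (3 * k + 1) → Fin N → Bool))).ncard = A.card := by
    rw [Set.ncard_image_of_injective _ (W_inj C), Set.ncard_coe_finset]
  refine ⟨(fun b => C.W b) '' (A : Set (Fin (3 * k + 1) → Fin N → Bool)), ?_, ?_, ?_, ?_⟩
  · have : A.Nonempty := by
      rw [← Finset.card_pos]
      have : (0 : ℝ) < A.card := lt_of_lt_of_le (by positivity) hAcard
      exact_mod_cast this
    obtain ⟨b, hb⟩ := this
    exact ⟨C.W b, b, by exact_mod_cast hb, rfl⟩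
  · exact (Finset.finite_toSet A).image _
  · rintro w ⟨b, hb, rfl⟩
    refine ⟨hlenW b, (hL b).mpr ?_⟩
    have hb' : b ∈ A := by exact_mod_cast hb
    rw [hA, Finset.mem_filter] at hb'
    exact hb'.2
  intro V _ P hP
  obtain ⟨D, hD⟩ : ∃ D, D = N * (C.x₁.length + 1) + 1 := ⟨_, rfl⟩
  have hD0 : (0 : ℝ) < D := by rw [hD]; positivity
  have hDN : (N : ℝ) ≤ D := by
    have : N ≤ D := by rw [hD, ← hV₁]; omega
    exact_mod_cast this
  have hVcard : (1 : ℝ) ≤ Fintype.card V := by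
    have : 0 < Fintype.card V := Fintype.card_pos_iff.mpr ⟨P.start⟩
    exact_mod_cast this
  obtain ⟨Λ, hΛ⟩ : ∃ Λ : ℝ, Λ = Real.log (Fintype.card V + 1) := ⟨_, rfl⟩
  have hΛ2 : Real.log 2 ≤ Λ := by
    rw [hΛ]; exact Real.log_le_log (by norm_num) (by linarith)
  have hΛ0 : 0 < Λ := lt_of_lt_of_le hlog2 hΛ2
  obtain ⟨R, hR⟩ : ∃ R : ℕ, R = ⌊c * (n : ℝ) ^ 2 / (Λ * D)⌋₊ := ⟨_, rfl⟩
  have hR1 : (R : ℝ) * Λ ≤ lam * N / (4 * C2) := by
    have h1 : (R : ℝ) ≤ c * (n : ℝ) ^ 2 / (Λ * D) := by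
      rw [hR]; exact Nat.floor_le (by positivity)
    have hn0 : (0 : ℝ) ≤ n := by positivity
    have h2 : (n : ℝ) ^ 2 ≤ (C4 * N) ^ 2 := pow_le_pow_left₀ hn0 hnC 2
    calc (R : ℝ) * Λ ≤ c * (n : ℝ) ^ 2 / (Λ * D) * Λ := by gcongr
      _ = c * (n : ℝ) ^ 2 / D := by field_simp
      _ ≤ c * (C4 * N) ^ 2 / N := by gcongr
      _ = lam * N / (4 * C2) := by rw [hc]; field_simp
  have hR2 : ∀ T : ℕ, T * Λ < c * (n : ℝ) ^ 2 → T ≤ 0 + (R + 1) * D := by
    intro T hT
    have h1 : c * (n : ℝ) ^ 2 / (Λ * D) < R + 1 := by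
      rw [hR]; exact Nat.lt_floor_add_one _
    rw [div_lt_iff₀ (by positivity)] at h1
    have h2 : (T : ℝ) * Λ < (R + 1) * D * Λ := by
      calc (T : ℝ) * Λ < c * (n : ℝ) ^ 2 := hT
        _ < (R + 1) * (Λ * D) := h1
        _ = _ := by ring
    have h3 : (T : ℝ) < (R + 1) * D := lt_of_mul_lt_mul_right h2 hΛ0.le
    have h4 : (T : ℝ) < (((R + 1) * D : ℕ) : ℝ) := by push_cast; exact h3
    have h5 : T < (R + 1) * D := by exact_mod_cast h4
    omega
  -- the words accepted early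
  obtain ⟨B, hB⟩ : ∃ B : Finset (Fin (3 * k + 1) → Fin N → Bool),
      B = Finset.univ.filter (fun b => b ∈ (Set.univ : Set (Fin (3 * k + 1) → Fin N → Bool)) ∧
        AccIn C P R P.start b) := ⟨_, rfl⟩
  have hBcard : (B.card : ℝ) ≤
      (((3 * k : ℕ) + 1 : ℝ) * Fintype.card V) ^ R * ((3 * k : ℕ) + 1) * (Pw * (mu (3 * k)) ^ N) := by
    rw [hB, hPw]
    have := accIn_card C P σ hσ1 R P.start (Set.univ : Set (Fin (3 * k + 1) → Fin N → Bool))
      isCyl_univ (by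
        intro b _ hacc
        rw [← hL b]
        apply hP _ (hlenW b)
        obtain ⟨v, hv, hpath⟩ := hacc.path
        exact run_of_path hv hpath)
    convert this
  have hsub : {w ∈ (fun b => C.W b) '' (A : Set (Fin (3 * k + 1) → Fin N → Bool)) |
      ∃ T ρ, P.AccRun w T ρ ∧ T * Real.log (Fintype.card V + 1) < c * (n : ℝ) ^ 2} ⊆
      (fun b => C.W b) '' (B : Set (Fin (3 * k + 1) → Fin N → Bool)) := by
    rintro w ⟨⟨b, _, rfl⟩, T, ρ, hρ, hT⟩
    refine ⟨b, ?_, rfl⟩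
    rw [hB]
    simp only [Finset.coe_filter, Finset.mem_univ, true_and, Set.mem_ofPred_eq, Set.mem_univ]
    rw [← hΛ] at hT
    have h1 := accIn_of_run C P b hρ.2.1 hρ.2.2 R 0 (by omega) (by rw [← hD]; exact hR2 T hT)
    rw [hρ.1] at h1
    exact h1
  have hle : ((({w ∈ (fun b => C.W b) '' (A : Set (Fin (3 * k + 1) → Fin N → Bool)) |
      ∃ T ρ, P.AccRun w T ρ ∧ T * Real.log (Fintype.card V + 1) < c * (n : ℝ) ^ 2}).ncard : ℕ) : ℝ)
      ≤ B.card := by
    have h1 := Set.ncard_le_ncard hsub ((Finset.finite_toSet B).image _)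
    rw [Set.ncard_image_of_injective _ (W_inj C), Set.ncard_coe_finset] at h1
    exact_mod_cast h1
  rw [hHcard]
  refine hle.trans (hBcard.trans ?_)
  have hpow : ((((3 * k : ℕ) : ℝ) + 1) * Fintype.card V) ^ R ≤ Real.exp (lam * N / 4) := by
    have h0 : (0 : ℝ) < (((3 * k : ℕ) : ℝ) + 1) * Fintype.card V := by positivity
    have h1 : Real.log ((((3 * k : ℕ) : ℝ) + 1) * Fintype.card V) ≤ C2 * Λ := by
      rw [Real.log_mul (by positivity) (by positivity), hC2, ← hg]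
      have h2 : Real.log (Fintype.card V) ≤ Λ := by
        rw [hΛ]; exact Real.log_le_log (by linarith) (by linarith)
      have h3 : Real.log ((g : ℝ) + 1) ≤ Real.log ((g : ℝ) + 1) / Real.log 2 * Λ := by
        rw [div_mul_eq_mul_div, le_div_iff₀ hlog2]
        exact mul_le_mul_of_nonneg_left hΛ2 hlogg
      linarith
    calc ((((3 * k : ℕ) : ℝ) + 1) * Fintype.card V) ^ R
        = Real.exp (R * Real.log ((((3 * k : ℕ) : ℝ) + 1) * Fintype.card V)) := by
          rw [← Real.log_pow, Real.exp_log (by positivity)]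
      _ ≤ Real.exp (lam * N / 4) := by
          apply Real.exp_le_exp.mpr
          calc (R : ℝ) * Real.log ((((3 * k : ℕ) : ℝ) + 1) * Fintype.card V) ≤ R * (C2 * Λ) := by
                gcongr
            _ = C2 * (R * Λ) := by ring
            _ ≤ C2 * (lam * N / (4 * C2)) := by gcongr
            _ = lam * N / 4 := by field_simp
  have hcn : c * n ≤ lam * N / 4 := by
    calc c * (n : ℝ) ≤ c * (C4 * N) := by gcongr
      _ = lam * N / (4 * (C4 * C2)) := by rw [hc]; field_simp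
      _ ≤ lam * N / (4 * 1) := by
          gcongr
          nlinarith
      _ = lam * N / 4 := by ring
  have hfin : Real.exp (lam * N / 4) * (((3 * k : ℕ) : ℝ) + 1) * (Pw * μ' ^ N) ≤
      Real.exp (-(c * n)) * (Pw / 4) := by
    rw [hmulam, ← hg]
    have e1 : Real.exp (lam * N / 4) * ((g : ℝ) + 1) * (Pw * Real.exp (-(lam * N))) =
        Pw / 4 * (4 * ((g : ℝ) + 1) * Real.exp (-(lam / 2 * N))) * Real.exp (-(lam * N / 4)) := by
      have : Real.exp (lam * N / 4) * Real.exp (-(lam * N)) =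
          Real.exp (-(lam / 2 * N)) * Real.exp (-(lam * N / 4)) := by
        rw [← Real.exp_add, ← Real.exp_add]
        congr 1
        ring
      calc Real.exp (lam * N / 4) * ((g : ℝ) + 1) * (Pw * Real.exp (-(lam * N)))
          = ((g : ℝ) + 1) * Pw * (Real.exp (lam * N / 4) * Real.exp (-(lam * N))) := by ring
        _ = _ := by rw [this]; ring
    rw [e1]
    calc Pw / 4 * (4 * ((g : ℝ) + 1) * Real.exp (-(lam / 2 * N))) * Real.exp (-(lam * N / 4))
        ≤ Pw / 4 * 1 * Real.exp (-(c * n)) := by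
          gcongr
      _ = _ := by ring
  have hmu0 : 0 ≤ Pw * mu (3 * k) ^ N := by
    have := mu_nonneg (3 * k)
    positivity
  calc ((((3 * k : ℕ) : ℝ) + 1) * Fintype.card V) ^ R * (((3 * k : ℕ) : ℝ) + 1) *
        (Pw * (mu (3 * k)) ^ N)
      ≤ Real.exp (lam * N / 4) * (((3 * k : ℕ) : ℝ) + 1) * (Pw * μ' ^ N) := by
        gcongr
    _ ≤ Real.exp (-(c * n)) * (Pw / 4) := hfin
    _ ≤ Real.exp (-(c * n)) * A.card := by gcongr

end Pool.Agent.TH393.LB
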