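import Pool.Agent.TH393.LB19
import Pool.Agent.TH393.LB17

set_option autoImplicit false

namespace Pool.Agent.TH393.LB

open Finset
open Pool.Agent.H541R2 (rd mv gsign theLang)
open Pool.Agent.H867R4 (Code NMach NCfg W_mem exists_code pos_close)

variable {k : ℕ} {Q : Type}

theorem splitsW_min {n r B T I : ℕ} {pos pos' : ℕ → Fin k → ℕ}
    (h : ∀ t i, pos' t i = min (pos t i) B)
    (hs : SplitsW n r pos T I) : SplitsW n r pos' T I := by
  obtain ⟨t, h0, h1, h2⟩ := hs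
  refine ⟨t, h0, h1, fun j hj => ⟨(h2 j hj).1, ?_⟩⟩
  rcases (h2 j hj).2 with h3 | h3 | h3
  · exact Or.inl h3
  · refine Or.inr (Or.inl fun s i hs hs' => ?_)
    obtain ⟨a1, a2⟩ := h3 s i hs hs'
    rw [h, h]
    omega
  · refine Or.inr (Or.inr fun i => ?_)
    rcases h3 i with h4 | h4
    · refine Or.inl fun s hs hs' => ?_
      rw [h, h]; exact min_le_min_right _ (h4 s hs hs')
    · refine Or.inr fun s hs hs' => ?_
      rw [h, h]; exact min_le_min_right _ (h4 s hs hs')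

/-- Automata with `k` heads and any number of states. -/
theorem automata_of_hardW {δ : ℝ} (hδ : 0 < δ) {n : ℕ} (hn : 1 ≤ n) {L : Set (List (Fin 4))}
    (h : HardW k δ n L) (Q : Type) [Fintype Q] (M : NMach (Fin 4) k Q)
    (hM : ∀ w : List (Fin 4), w.length = n → (w ∈ L ↔ M.Accepts w)) :
    ∃ w ∈ L, w.length = n ∧ ∀ (T : ℕ) (ρ : ℕ → NCfg k Q), M.AccRun w T ρ →
      ∀ I : ℕ, 0 < I → SplitsW n (n / (3 * k + 3)) (fun t => (ρ t).p) T I →
        δ * n ≤ I * Real.log (2 + Fintype.card Q * ((n : ℝ) + 2) ^ k / (n : ℝ) ^ 2) := by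
  classical
  obtain ⟨H, hne, hfin, hHL, hH⟩ := h
  have h1 := hH (Q × (Fin k → Fin (n + 2))) inferInstance (ofN M n) (ofN_noJump M n)
    (fun v i => by
      have := (v.2 i).isLt
      show (v.2 i : ℕ) ≤ n + 1
      omega)
    (fun w hw hacc => (hM w hw).mpr (ofN_accepts hw hacc))
  have ecard : (Fintype.card (Q × (Fin k → Fin (n + 2))) : ℝ) =
      Fintype.card Q * ((n : ℝ) + 2) ^ k := by
    simp [Fintype.card_prod]
  rw [ecard] at h1
  have hcard : 0 < H.ncard := (Set.ncard_pos hfin).mpr hne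
  have hex : ∃ w ∈ H, ¬ ∃ T ρ I, (ofN M n).AccRun w T ρ ∧ 0 < I ∧
      SplitsW n (n / (3 * k + 3)) (fun t => (ofN M n).pos (ρ t)) T I ∧
      I * Real.log (2 + Fintype.card Q * ((n : ℝ) + 2) ^ k / (n : ℝ) ^ 2) < δ * (n : ℝ) := by
    by_contra hcon
    push Not at hcon
    have e : {w ∈ H | ∃ T ρ I, (ofN M n).AccRun w T ρ ∧ 0 < I ∧
        SplitsW n (n / (3 * k + 3)) (fun t => (ofN M n).pos (ρ t)) T I ∧
        I * Real.log (2 + Fintype.card Q * ((n : ℝ) + 2) ^ k / (n : ℝ) ^ 2) < δ * (n : ℝ)} = H := by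
      ext w
      constructor
      · exact fun h => h.1
      · exact fun h => ⟨h, hcon w h⟩
    rw [e] at h1
    have h2 : Real.exp (-(δ * n)) < 1 := by
      rw [Real.exp_lt_one_iff]
      have : (0 : ℝ) < n := by exact_mod_cast hn
      have := mul_pos hδ this
      linarith
    have h3 : (0 : ℝ) < H.ncard := by exact_mod_cast hcard
    nlinarith
  obtain ⟨w, hw, hw2⟩ := hex
  refine ⟨w, (hHL w hw).2, (hHL w hw).1, fun T ρ hρ I hI hs => ?_⟩
  obtain ⟨ρ', hρ', hpos⟩ := ofN_run_pos (hHL w hw).1 hρ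
  by_contra hlt
  exact hw2 ⟨T, ρ', I, hρ', hI, splitsW_min hpos hs, not_le.mp hlt⟩

theorem splitsW_time {n r T : ℕ} (hn : 1 ≤ n) (pos : ℕ → Fin k → ℕ) : SplitsW n r pos T (T / n + 1) := by
  refine ⟨fun j => min (j * n) T, by simp, ?_, ?_⟩
  · have : T < (T / n + 1) * n := Nat.lt_mul_of_div_lt (Nat.lt_succ_self _) hn
    exact min_eq_right this.le
  · intro j _
    have e : (j + 1) * n = j * n + n := by ring
    simp only
    rw [e]
    refine ⟨by omega, Or.inl (by omega)⟩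

/-- Two heads. -/
theorem two_headsW {δ : ℝ} (hδ : 0 < δ) {n : ℕ} (hn : 1 ≤ n) {L : Set (List (Fin 4))}
    (h : HardW 2 δ n L) (Q : Type) [Fintype Q] (M : NMach (Fin 4) 2 Q)
    (hM : ∀ w : List (Fin 4), w.length = n → (w ∈ L ↔ M.Accepts w)) :
    ∃ w ∈ L, w.length = n ∧ ∀ (T : ℕ) (ρ : ℕ → NCfg 2 Q), M.AccRun w T ρ →
      (∀ I : ℕ, 0 < I → SplitsW n (n / 9) (fun t => (ρ t).p) T I →
        δ / 4 * n ≤ I * Real.log (Fintype.card Q + 1)) ∧
      δ / 4 * (n : ℝ) ^ 2 ≤ ((ρ '' {t | t ≤ T}).ncard + n) * Real.log (Fintype.card Q + 1) := by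
  obtain ⟨w, hwL, hwn, hw⟩ := automata_of_hardW hδ hn h Q M hM
  have hQ : (1 : ℝ) ≤ Fintype.card Q := by
    have : 0 < Fintype.card Q := Fintype.card_pos_iff.mpr ⟨M.q₀⟩
    exact_mod_cast this
  have hn1 : (1 : ℝ) ≤ n := by exact_mod_cast hn
  have hlog : 0 ≤ Real.log (Fintype.card Q + 1) := Real.log_nonneg (by linarith)
  have hl : Real.log (2 + Fintype.card Q * ((n : ℝ) + 2) ^ 2 / (n : ℝ) ^ 2) ≤
      4 * Real.log (Fintype.card Q + 1) := by
    have e : 4 * Real.log ((Fintype.card Q : ℝ) + 1) = Real.log (((Fintype.card Q : ℝ) + 1) ^ 4) := by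
      rw [Real.log_pow]; norm_num
    rw [e]
    apply Real.log_le_log (by positivity)
    have h1 : ((n : ℝ) + 2) ^ 2 / (n : ℝ) ^ 2 ≤ 9 := by
      rw [div_le_iff₀ (by positivity)]
      nlinarith
    have h2 : (Fintype.card Q : ℝ) * ((n : ℝ) + 2) ^ 2 / (n : ℝ) ^ 2 ≤ Fintype.card Q * 9 := by
      rw [mul_div_assoc]
      gcongr
    have h3 : 2 + (Fintype.card Q : ℝ) * 9 ≤ ((Fintype.card Q : ℝ) + 1) ^ 4 := by
      nlinarith [sq_nonneg ((Fintype.card Q : ℝ) - 1), mul_pos (lt_of_lt_of_le one_pos hQ)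
        (lt_of_lt_of_le one_pos hQ), pow_le_pow_left₀ zero_le_one hQ 2,
        pow_le_pow_left₀ zero_le_one hQ 3, pow_le_pow_left₀ zero_le_one hQ 4]
    linarith
  have key : ∀ (T : ℕ) (ρ : ℕ → NCfg 2 Q), M.AccRun w T ρ → ∀ I : ℕ, 0 < I →
      SplitsW n (n / 9) (fun t => (ρ t).p) T I → δ / 4 * n ≤ I * Real.log (Fintype.card Q + 1) := by
    intro T ρ hρ I hI hs
    have h1 := hw T ρ hρ I hI hs
    have h2 : (I : ℝ) * Real.log (2 + Fintype.card Q * ((n : ℝ) + 2) ^ 2 / (n : ℝ) ^ 2) ≤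
      I * (4 * Real.log (Fintype.card Q + 1)) := by gcongr
    linarith
  refine ⟨w, hwL, hwn, fun T ρ hρ => ⟨key T ρ hρ, ?_⟩⟩
  obtain ⟨T', ρ', hρ', hle⟩ := Pool.Agent.H38R3.MH.short_run hρ
  have h1 := key T' ρ' hρ' (T' / n + 1) (Nat.succ_pos _) (splitsW_time hn _)
  have h2 : (T' : ℝ) ≤ (ρ '' {t | t ≤ T}).ncard := by
    have : T' ≤ (ρ '' {t | t ≤ T}).ncard := by omega
    exact_mod_cast this
  have h3 : ((T' / n + 1 : ℕ) : ℝ) * n ≤ (ρ '' {t | t ≤ T}).ncard + n := by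
    have : (T' / n + 1) * n ≤ T' + n := by
      rw [Nat.add_mul, Nat.one_mul]
      exact Nat.add_le_add_right (Nat.div_mul_le_self _ _) _
    have h4 : ((T' / n + 1 : ℕ) : ℝ) * n ≤ T' + n := by exact_mod_cast this
    linarith
  calc δ / 4 * (n : ℝ) ^ 2 = (δ / 4 * n) * n := by ring
    _ ≤ (((T' / n + 1 : ℕ) : ℝ) * Real.log (Fintype.card Q + 1)) * n := by gcongr
    _ = (((T' / n + 1 : ℕ) : ℝ) * n) * Real.log (Fintype.card Q + 1) := by ring
    _ ≤ _ := by gcongr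

end Pool.Agent.TH393.LB
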