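import Pool.Agent.TH393.LB2
import Pool.Agent.H38R3.MH.Count

set_option autoImplicit false

namespace Pool.Agent.TH393.LB

open Finset
open Pool.Agent.H541R2 (rd mv mv_le le_mv gsign mu mu_nonneg mu_lt_one IsCyl isCyl_univ cyl_card theLang
  sign_card)
open Pool.Agent.H867R4 (Code Out rd_out out_of_block W_mem exists_row rowsOf)
open Pool.Agent.H38R3.MH (few_labels simple_path path_of_matchings matchings_of_path)

variable {k : ℕ} {V : Type}

/-- Some head is at a multiple of `D`. -/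
def Mark (P : Prog k V) (D : ℕ) (v : V) : Prop := ∃ i, D ∣ P.pos v i

theorem close_div {D p p' : ℕ} (hD : 0 < D) (h : p ≤ p' + 1) : p / D ≤ p' / D + 1 := by
  calc p / D ≤ (p' + D) / D := Nat.div_le_div_right (by omega)
    _ = p' / D + 1 := Nat.add_div_right _ hD

theorem same_div {D p p' : ℕ} (h1 : p ≤ p' + 1) (h2 : p' ≤ p + 1) (h3 : ¬ D ∣ p)
    (h4 : ¬ D ∣ p') : p / D = p' / D := by
  have hc : p = p' ∨ p = p' + 1 ∨ p' = p + 1 := by omega
  rcases hc with rfl | rfl | rfl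
  · rfl
  · rw [Nat.succ_div, if_neg h3, Nat.add_zero]
  · rw [Nat.succ_div, if_neg h4, Nat.add_zero]

/-- If no head is at a marker strictly between the times `t` and `t + m`, then the computation between
these times avoids a row. -/
theorem gap {P : Prog k V} {D : ℕ} (hD : 0 < D) {w : List (Fin 4)} {ρ : ℕ → V} (t m : ℕ)
    (h1 : ∀ s, t ≤ s → s < t + m → P.Step w (ρ s) (ρ (s + 1)))
    (h3 : ∀ s, t < s → s < t + m → ¬ Mark P D (ρ s)) :
    ∃ r : Fin (3 * k + 1), Ph P D w r (ρ t) (ρ (t + m)) := by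
  have hconst : ∀ e, t + 1 + e < t + m → ∀ i, ∃ j,
      P.pos (ρ (t + 1 + e)) i / D = P.pos (ρ (t + 1)) j / D := by
    intro e
    induction e with
    | zero => intro _ i; exact ⟨i, rfl⟩
    | succ e ih =>
      intro he i
      obtain ⟨j', h4, h5⟩ := P.near _ _ _ (h1 (t + 1 + e) (by omega) (by omega)) i
      obtain ⟨j, hj⟩ := ih (by omega) j'
      refine ⟨j, ?_⟩
      rw [← hj]
      exact same_div h4 h5 (fun hd => h3 (t + 1 + e + 1) (by omega) (by omega) ⟨i, hd⟩)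
        (fun hd => h3 (t + 1 + e) (by omega) (by omega) ⟨j', hd⟩)
  have hclose : ∀ s, t ≤ s → s < t + m → ∀ i, ∃ j, P.pos (ρ s) i / D ≤ P.pos (ρ t) j / D + 1 ∧
      P.pos (ρ t) j / D ≤ P.pos (ρ s) i / D + 1 := by
    intro s hs hs' i
    by_cases hst : s = t
    · subst hst; exact ⟨i, by omega, by omega⟩
    · obtain ⟨j', hj'⟩ := hconst (s - t - 1) (by omega) i
      rw [show t + 1 + (s - t - 1) = s by omega] at hj'
      obtain ⟨j, h4, h5⟩ := P.near _ _ _ (h1 t le_rfl (by omega)) j'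
      refine ⟨j, ?_, ?_⟩
      · rw [hj']; exact close_div hD h4
      · rw [hj']; exact close_div hD h5
  obtain ⟨r, hr⟩ := exists_row (fun (i : Fin k) (e : Fin 3) => P.pos (ρ t) i / D + e.val - 1)
  refine ⟨r, ph_of_run m t h1 ?_⟩
  intro s hs hs' i hblk
  obtain ⟨j, a1, a2⟩ := hclose s hs hs' i
  have e0 := hr j 0
  have e1 := hr j 1
  have e2 := hr j 2
  simp only [Fin.val_zero, Fin.val_one, Fin.val_two] at e0 e1 e2
  omega

/-- Acceptance along a chain of `R` pieces through nodes in `K` and a last piece to an accepting node. -/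
def AccS (C : Code Unit) (P : Prog k V) {g N : ℕ} (K : Finset V) (b : Fin g → Fin N → Bool) :
    ℕ → V → Prop
  | 0, u => ∃ r : Fin g, ∃ v ∈ P.acc, Ph P (N * (C.x₁.length + 1) + 1) (C.W b) r u v
  | (R + 1), u => ∃ r : Fin g, ∃ v ∈ K, Ph P (N * (C.x₁.length + 1) + 1) (C.W b) r u v ∧
      AccS C P K b R v

theorem AccS.mono {C : Code Unit} {P : Prog k V} {g N : ℕ} {K : Finset V}
    {b : Fin (g + 1) → Fin N → Bool} {R : ℕ} {u : V} (hu : u ∈ K) (h : AccS C P K b R u) :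
    AccS C P K b (R + 1) u :=
  ⟨0, u, hu, Ph.refl u, h⟩

theorem AccS.mono_add {C : Code Unit} {P : Prog k V} {g N : ℕ} {K : Finset V}
    {b : Fin (g + 1) → Fin N → Bool} {R : ℕ} {u : V} (hu : u ∈ K) (h : AccS C P K b R u)
    (e : ℕ) : AccS C P K b (e + R) u := by
  induction e with
  | zero => rw [Nat.zero_add]; exact h
  | succ e ih =>
    have := AccS.mono hu ih
    rwa [show e + R + 1 = e + 1 + R by ring] at this

theorem AccS.path {C : Code Unit} {P : Prog k V} {g N : ℕ} {K : Finset V}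
    {b : Fin g → Fin N → Bool} : ∀ (R : ℕ) (c : {c // c ∈ K}), AccS C P K b R c.1 →
    ∃ p : ℕ → {c // c ∈ K}, p 0 = c ∧
      (∀ i < R, ∃ r : Fin g, Ph P (N * (C.x₁.length + 1) + 1) (C.W b) r (p i).1 (p (i + 1)).1) ∧
      ∃ r : Fin g, ∃ d ∈ P.acc, Ph P (N * (C.x₁.length + 1) + 1) (C.W b) r (p R).1 d := by
  intro R
  induction R with
  | zero =>
    intro c h
    exact ⟨fun _ => c, rfl, by intro i hi; omega, h⟩
  | succ R ih =>
    rintro c ⟨r, d, hd, h1, h2⟩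
    obtain ⟨p, hp0, hp1, hp2⟩ := ih ⟨d, hd⟩ h2
    refine ⟨fun i => if i = 0 then c else p (i - 1), by simp, ?_, by simpa using hp2⟩
    intro i hi
    by_cases h0 : i = 0
    · subst h0
      refine ⟨r, ?_⟩
      simpa [hp0] using h1
    · obtain ⟨r', hr'⟩ := hp1 (i - 1) (by omega)
      refine ⟨r', ?_⟩
      simp only [h0, if_false, Nat.add_eq_zero_iff, one_ne_zero, and_false, Nat.add_sub_cancel]
      rw [show i - 1 + 1 = i by omega] at hr'
      exact hr'

/-- The matrices for which the labelling `f` is good. -/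
def X (C : Code Unit) (P : Prog k V) (g N : ℕ) (K : Finset V) (c₀ : {c // c ∈ K})
    (f : {c // c ∈ K} → Option (Fin g × Fin g)) : Set (Fin g → Fin N → Bool) :=
  {b | ∀ r : Fin g, ∃ φ : {c // c ∈ K} → Option {c // c ∈ K},
      (∀ a a' s s', f a = some (r, s) → f a' = some (r, s') → φ a = φ a' → a = a') ∧
      ∀ a s, f a = some (r, s) → (φ a = none ∧ ∃ d ∈ P.acc,
          Ph P (N * (C.x₁.length + 1) + 1) (C.W b) r a.1 d) ∨
        ∃ y, φ a = some y ∧ y ≠ c₀ ∧ (∃ s', f y = some (s', r)) ∧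
          Ph P (N * (C.x₁.length + 1) + 1) (C.W b) r a.1 y.1}

theorem isCyl_X (C : Code Unit) (P : Prog k V) (g N : ℕ) (K : Finset V)
    (c₀ : {c // c ∈ K}) (f : {c // c ∈ K} → Option (Fin g × Fin g)) : IsCyl (X C P g N K c₀ f) := by
  refine ⟨fun r => {b | ∃ φ : {c // c ∈ K} → Option {c // c ∈ K},
      (∀ a a' s s', f a = some (r, s) → f a' = some (r, s') → φ a = φ a' → a = a') ∧
      ∀ a s, f a = some (r, s) → (φ a = none ∧ ∃ d ∈ P.acc,
          Ph P (N * (C.x₁.length + 1) + 1) (C.W b) r a.1 d) ∨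
        ∃ y, φ a = some y ∧ y ≠ c₀ ∧ (∃ s', f y = some (s', r)) ∧
          Ph P (N * (C.x₁.length + 1) + 1) (C.W b) r a.1 y.1}, ?_,
    fun b => Iff.rfl⟩
  rintro r b b' hbb ⟨φ, h1, h2⟩
  refine ⟨φ, h1, fun a s ha => ?_⟩
  rcases h2 a s ha with ⟨h3, d, h4, h5⟩ | ⟨y, h3, h4, h5, h6⟩
  · exact Or.inl ⟨h3, d, h4, ph_indep C P r b b' hbb h5⟩
  · exact Or.inr ⟨y, h3, h4, h5, ph_indep C P r b b' hbb h6⟩

theorem reach_of_X {C : Code Unit} {P : Prog k V} {g N : ℕ} {K : Finset V}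
    {c₀ : {c // c ∈ K}} {f : {c // c ∈ K} → Option (Fin g × Fin g)} (hf : f c₀ ≠ none)
    {b : Fin g → Fin N → Bool} (hb : b ∈ X C P g N K c₀ f) :
    ∃ d ∈ P.acc, Relation.ReflTransGen (P.Step (C.W b)) c₀.1 d := by
  obtain ⟨a, r, h1, d, h2, h3⟩ := path_of_matchings
    (fun (r : Fin g) (a y : {c // c ∈ K}) => Ph P (N * (C.x₁.length + 1) + 1) (C.W b) r a.1 y.1)
    (fun (r : Fin g) a => ∃ d ∈ P.acc, Ph P (N * (C.x₁.length + 1) + 1) (C.W b) r a.1 d) c₀ f hf hb
  refine ⟨d, h2, ?_⟩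
  refine Relation.ReflTransGen.trans ?_ h3.path
  clear h3
  induction h1 with
  | refl => exact Relation.ReflTransGen.refl
  | tail _ h4 ih =>
    obtain ⟨r', h4⟩ := h4
    exact ih.trans h4.path

open Classical in
/-- Few matrices are accepted along short chains. -/
theorem accS_card (C : Code Unit) {g N : ℕ} (P : Prog k V) (K : Finset V)
    (c₀ : V) (hc₀ : c₀ ∈ K) (σ : ℝ) (hσ : |σ| = 1) (R : ℕ)
    (hb : ∀ b : Fin (g + 1) → Fin N → Bool,
      (∃ d ∈ P.acc, Relation.ReflTransGen (P.Step (C.W b)) c₀ d) →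
        gsign Finset.univ b = σ) (x : ℝ) (hx0 : 0 < x) (hx1 : x ≤ 1) :
    ((Finset.univ.filter (fun b : Fin (g + 1) → Fin N → Bool => AccS C P K b R c₀)).card : ℝ) *
      x ^ (R + 1) ≤ Real.exp ((g + 1 : ℝ) ^ 2 * x * K.card) *
        ((2 ^ N : ℝ) ^ (g + 1) * (mu g) ^ N) := by
  obtain ⟨F, hF⟩ : ∃ F : Finset ({c // c ∈ K} → Option (Fin (g + 1) × Fin (g + 1))),
      F = Finset.univ.filter (fun f => f ⟨c₀, hc₀⟩ ≠ none ∧
        ∃ A : Finset {c // c ∈ K}, A.card ≤ R + 1 ∧ ∀ a, f a ≠ none → a ∈ A) := ⟨_, rfl⟩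
  have h1 := few_labels x hx0 hx1 (R + 1) F (by
    intro f hf
    rw [hF, Finset.mem_filter] at hf
    exact hf.2.2)
  have hsub : (Finset.univ.filter (fun b : Fin (g + 1) → Fin N → Bool => AccS C P K b R c₀)) ⊆
      F.biUnion (fun f => Finset.univ.filter (fun b => b ∈ X C P (g + 1) N K ⟨c₀, hc₀⟩ f)) := by
    intro b hb'
    rw [Finset.mem_filter] at hb'
    obtain ⟨R', hR', p, hp0, hp1, hp2, hp3⟩ := simple_path
      (fun a y : {c // c ∈ K} => ∃ r : Fin (g + 1),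
        Ph P (N * (C.x₁.length + 1) + 1) (C.W b) r a.1 y.1)
      (fun a => ∃ r : Fin (g + 1), ∃ d ∈ P.acc,
        Ph P (N * (C.x₁.length + 1) + 1) (C.W b) r a.1 d) ⟨c₀, hc₀⟩ R
      (AccS.path R ⟨c₀, hc₀⟩ hb'.2)
    obtain ⟨f, hf1, ⟨A, hA1, hA2⟩, hf3⟩ := matchings_of_path
      (fun (r : Fin (g + 1)) (a y : {c // c ∈ K}) =>
        Ph P (N * (C.x₁.length + 1) + 1) (C.W b) r a.1 y.1)
      (fun (r : Fin (g + 1)) a => ∃ d ∈ P.acc,
        Ph P (N * (C.x₁.length + 1) + 1) (C.W b) r a.1 d) ⟨c₀, hc₀⟩ R' p hp0 hp1 hp2 hp3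
    rw [Finset.mem_biUnion]
    refine ⟨f, ?_, ?_⟩
    · rw [hF, Finset.mem_filter]
      exact ⟨Finset.mem_univ _, hf1, A, by omega, hA2⟩
    · rw [Finset.mem_filter]
      exact ⟨Finset.mem_univ _, hf3⟩
  have h2 := (Finset.card_le_card hsub).trans Finset.card_biUnion_le
  have h3 : ∀ f ∈ F, ((Finset.univ.filter
      (fun b => b ∈ X C P (g + 1) N K ⟨c₀, hc₀⟩ f)).card : ℝ) ≤
        (2 ^ N : ℝ) ^ (g + 1) * (mu g) ^ N := by
    intro f hf
    rw [hF, Finset.mem_filter] at hf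
    exact cyl_card (isCyl_X C P (g + 1) N K ⟨c₀, hc₀⟩ f) σ hσ
      (fun b hbX => hb b (reach_of_X hf.2.1 hbX))
  have h4 : ((Finset.univ.filter
      (fun b : Fin (g + 1) → Fin N → Bool => AccS C P K b R c₀)).card : ℝ) ≤
        F.card * ((2 ^ N : ℝ) ^ (g + 1) * (mu g) ^ N) := by
    have h5 : ((Finset.univ.filter
      (fun b : Fin (g + 1) → Fin N → Bool => AccS C P K b R c₀)).card : ℝ) ≤
        ∑ f ∈ F, ((Finset.univ.filter
          (fun b => b ∈ X C P (g + 1) N K ⟨c₀, hc₀⟩ f)).card : ℝ) := by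
      rw [← Nat.cast_sum]
      exact Nat.cast_le.mpr h2
    refine h5.trans ((Finset.sum_le_sum h3).trans (le_of_eq ?_))
    rw [Finset.sum_const, nsmul_eq_mul]
  have hmu := mu_nonneg g
  have hcL : (Fintype.card (Fin (g + 1) × Fin (g + 1)) : ℝ) = (g + 1 : ℝ) ^ 2 := by
    rw [Fintype.card_prod, Fintype.card_fin]
    push_cast
    ring
  have hcK : Fintype.card {c // c ∈ K} = K.card := Fintype.card_coe K
  rw [hcL, hcK] at h1
  calc _ ≤ (F.card * ((2 ^ N : ℝ) ^ (g + 1) * (mu g) ^ N)) * x ^ (R + 1) := by gcongr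
    _ = (F.card * x ^ (R + 1)) * ((2 ^ N : ℝ) ^ (g + 1) * (mu g) ^ N) := by ring
    _ ≤ _ := by gcongr

/-- From a computation to a chain of pieces through marked nodes: `ρ t` is the last marked node (or the
start), and no node strictly between `t` and `a` is marked. -/
theorem accS_of_run (C : Code Unit) (P : Prog k V) {N : ℕ} (b : Fin (3 * k + 1) → Fin N → Bool)
    (K : Finset V) {T : ℕ} {ρ : ℕ → V} (hst : ∀ t < T, P.Step (C.W b) (ρ t) (ρ (t + 1)))
    (hF : ρ T ∈ P.acc)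
    (hK : ∀ s ≤ T, Mark P (N * (C.x₁.length + 1) + 1) (ρ s) → ρ s ∈ K) :
    ∀ G a, a ≤ T → T ≤ a + G * (N * (C.x₁.length + 1) + 1) →
      ∀ t, t ≤ a → ρ t ∈ K → (∀ s, t < s → s < a → ¬ Mark P (N * (C.x₁.length + 1) + 1) (ρ s)) →
        AccS C P K b (2 * G) (ρ t) := by
  classical
  obtain ⟨D, hD⟩ : ∃ D, D = N * (C.x₁.length + 1) + 1 := ⟨_, rfl⟩
  have hD0 : 0 < D := by omega
  rw [← hD] at hK
  intro G
  induction G with
  | zero =>
    intro a ha haT t hta _ htm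
    have haT' : a = T := by omega
    subst haT'
    obtain ⟨m, hm⟩ := Nat.exists_eq_add_of_le hta
    obtain ⟨r, hr⟩ := gap (P := P) (D := N * (C.x₁.length + 1) + 1) (by omega) t m
      (fun s _ hs' => hst s (by omega)) (fun s hs hs' => htm s hs (by omega))
    refine ⟨r, ρ a, hF, ?_⟩
    rw [hm]
    exact hr
  | succ G ih =>
    intro a ha haT t hta htK htm
    obtain ⟨a', ha'⟩ : ∃ a', a' = min T (a + (N * (C.x₁.length + 1) + 1)) := ⟨_, rfl⟩
    have haa' : a ≤ a' := by rw [ha']; omega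
    have ha'T : a' ≤ T := by rw [ha']; exact min_le_left _ _
    have ha'a : a' ≤ a + (N * (C.x₁.length + 1) + 1) := by rw [ha']; exact min_le_right _ _
    have ha'G : T ≤ a' + G * (N * (C.x₁.length + 1) + 1) := by
      have e : (G + 1) * (N * (C.x₁.length + 1) + 1) =
        G * (N * (C.x₁.length + 1) + 1) + (N * (C.x₁.length + 1) + 1) := by ring
      rw [e] at haT
      rcases le_total T (a + (N * (C.x₁.length + 1) + 1)) with h | h
      · rw [ha', min_eq_left h]; omega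
      · rw [ha', min_eq_right h]; omega
    have e2 : 2 * (G + 1) = 2 * G + 1 + 1 := by ring
    by_cases h : ∃ s, a ≤ s ∧ s ≤ a' ∧ Mark P (N * (C.x₁.length + 1) + 1) (ρ s)
    · obtain ⟨f, ⟨hf1, hf2, hf3⟩, hfmin⟩ : ∃ f, (a ≤ f ∧ f ≤ a' ∧
          Mark P (N * (C.x₁.length + 1) + 1) (ρ f)) ∧
          ∀ s, s < f → ¬ (a ≤ s ∧ s ≤ a' ∧ Mark P (N * (C.x₁.length + 1) + 1) (ρ s)) :=
        ⟨Nat.find h, Nat.find_spec h, fun s hs => Nat.find_min h hs⟩
      obtain ⟨l, hl1, hl2, hl3, hl4⟩ : ∃ l, f ≤ l ∧ l ≤ a' ∧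
          Mark P (N * (C.x₁.length + 1) + 1) (ρ l) ∧
          ∀ s, l < s → s ≤ a' → ¬ Mark P (N * (C.x₁.length + 1) + 1) (ρ s) := by
        refine ⟨Nat.findGreatest (fun s => Mark P (N * (C.x₁.length + 1) + 1) (ρ s)) a',
          Nat.le_findGreatest hf2 hf3,
          Nat.findGreatest_le _, ?_, fun s hs hs' => Nat.findGreatest_is_greatest hs hs'⟩
        exact Nat.findGreatest_spec
          (P := fun s => Mark P (N * (C.x₁.length + 1) + 1) (ρ s)) hf2 hf3
      obtain ⟨m₁, hm₁⟩ := Nat.exists_eq_add_of_le (show t ≤ f by omega)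
      obtain ⟨m₂, hm₂⟩ := Nat.exists_eq_add_of_le hl1
      obtain ⟨r₁, hr₁⟩ := gap (P := P) (D := N * (C.x₁.length + 1) + 1) (by omega) t m₁
        (fun s _ hs' => hst s (by omega)) (by
          intro s hs hs' hm
          by_cases hsa : s < a
          · exact htm s hs hsa hm
          · exact hfmin s (by omega) ⟨by omega, by omega, hm⟩)
      obtain ⟨r₂, hr₂⟩ := ph_short (P := P) (D := N * (C.x₁.length + 1) + 1) (by omega) f m₂
        (by omega) (fun s _ hs' => hst s (by omega))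
      rw [← hm₁] at hr₁
      rw [← hm₂] at hr₂
      rw [e2]
      refine ⟨r₁, ρ f, hK f (by omega) (by rw [hD]; exact hf3), hr₁, r₂, ρ l,
        hK l (by omega) (by rw [hD]; exact hl3), hr₂, ?_⟩
      exact ih a' ha'T ha'G l hl2 (hK l (by omega) (by rw [hD]; exact hl3))
        (fun s hs hs' => hl4 s hs hs'.le)
    · rw [show 2 * (G + 1) = 2 + 2 * G by ring]
      apply AccS.mono_add htK
      apply ih a' ha'T ha'G t (by omega) htK
      intro s hs hs' hm
      by_cases hsa : s < a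
      · exact htm s hs hsa hm
      · exact h ⟨s, by omega, hs'.le, hm⟩

end Pool.Agent.TH393.LB
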