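import Pool.Agent.TH393.LB4

set_option autoImplicit false

namespace Pool.Agent.TH393.LB

open Finset
open Pool.Agent.H541R2 (rd mv mv_le le_mv gsign mu mu_nonneg mu_lt_one IsCyl isCyl_univ cyl_card theLang
  sign_card)
open Pool.Agent.H867R4 (Code Out rd_out out_of_block W_mem exists_row rowsOf)

/-- There is a set `H` of words of length `n` in `L` which is hard for programs with two heads: let `P` be
such a program, with heads at the positions `0, …, n + 1` only, in which at most `q` nodes have the same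
pair of head positions. If `P` accepts no word of length `n` outside `L`, then it accepts only a fraction
`exp (-c n)` of the words in `H` by computations of length `T` with `T log (q + 1) < c n ^ 2`. -/
def Hard2 (c : ℝ) (n : ℕ) (L : Set (List (Fin 4))) : Prop :=
  ∃ H : Set (List (Fin 4)), H.Nonempty ∧ H.Finite ∧ (∀ w ∈ H, w.length = n ∧ w ∈ L) ∧
    ∀ (q : ℕ) (V : Type) (_ : Fintype V) (P : Prog 2 V), (∀ v i, P.pos v i ≤ n + 1) →
      (∀ p : Fin 2 → ℕ, {v | P.pos v = p}.ncard ≤ q) →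
      (∀ w : List (Fin 4), w.length = n → P.Accepts w → w ∈ L) →
      (({w ∈ H | ∃ T ρ, P.AccRun w T ρ ∧ T * Real.log (q + 1) < c * (n : ℝ) ^ 2}.ncard : ℕ)
        : ℝ) ≤ Real.exp (-(c * n)) * H.ncard

open Classical in
/-- The marked nodes and the start. -/
noncomputable def marked {V : Type} [Fintype V] (P : Prog 2 V) (D : ℕ) : Finset V :=
  Finset.univ.filter (fun v => Mark P D v ∨ v = P.start)

theorem marked_card {V : Type} [Fintype V] (P : Prog 2 V) {D J n q : ℕ} (hJ : n + 1 < J * D)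
    (hpos : ∀ v i, P.pos v i ≤ n + 1) (hq : ∀ p : Fin 2 → ℕ, {v | P.pos v = p}.ncard ≤ q) :
    (marked P D).card ≤ 1 + 2 * (J * (n + 2)) * q := by
  classical
  obtain ⟨Ps, hPs⟩ : ∃ Ps : Finset (Fin 2 → ℕ), Ps = ((Finset.univ : Finset (Fin 2)) ×ˢ
    Finset.range J ×ˢ Finset.range (n + 2)).image
      (fun x => fun j => if j = x.1 then x.2.1 * D else x.2.2) := ⟨_, rfl⟩
  have hPcard : Ps.card ≤ 2 * (J * (n + 2)) := by
    rw [hPs]
    refine Finset.card_image_le.trans ?_
    simp [Finset.card_product]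
  have hsub : marked P D ⊆ {P.start} ∪ Ps.biUnion (fun p => Finset.univ.filter (fun v => P.pos v = p)) := by
    intro v hv
    unfold marked at hv
    rw [Finset.mem_filter] at hv
    rw [Finset.mem_union]
    rcases hv.2 with ⟨i, m, hm⟩ | h
    · right
      rw [Finset.mem_biUnion]
      refine ⟨P.pos v, ?_, by simp⟩
      rw [hPs, Finset.mem_image]
      refine ⟨(i, m, P.pos v (1 - i)), ?_, ?_⟩
      · simp only [Finset.mem_product, Finset.mem_univ, Finset.mem_range, true_and]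
        constructor
        · have h4 := hpos v i
          rw [hm] at h4
          by_contra hlt
          rw [not_lt] at hlt
          have : J * D ≤ D * m := by rw [Nat.mul_comm D m]; exact Nat.mul_le_mul_right _ hlt
          omega
        · have := hpos v (1 - i); omega
      · funext j
        by_cases hj : j = i
        · subst hj
          simp only [if_true]
          rw [hm, Nat.mul_comm]
        · simp only [hj, if_false]
          congr 1
          omega
    · left; rw [h]; simp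
  refine (Finset.card_le_card hsub).trans ((Finset.card_union_le _ _).trans ?_)
  rw [Finset.card_singleton]
  have h1 : (Ps.biUnion (fun p => Finset.univ.filter (fun v => P.pos v = p))).card ≤ Ps.card * q := by
    refine Finset.card_biUnion_le_card_mul _ _ _ ?_
    intro p _
    have := hq p
    rw [← Set.ncard_coe_finset]
    simpa using this
  have h2 : Ps.card * q ≤ 2 * (J * (n + 2)) * q := Nat.mul_le_mul_right _ hPcard
  omega

theorem hard2_aux (C : Code Unit) : ∃ c : ℝ, 0 < c ∧ ∀ n₀ : ℕ, ∃ n : ℕ, n₀ ≤ n ∧ ∃ N : ℕ,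
    (∀ b : Fin (3 * 2 + 1) → Fin N → Bool, (C.W b).length = n) ∧
    ∀ σ : ℝ, (σ = 1 ∨ σ = -1) → ∀ L : Set (List (Fin 4)),
      (∀ b : Fin (3 * 2 + 1) → Fin N → Bool, C.W b ∈ L ↔ gsign Finset.univ b = σ) →
      Hard2 c n L := by
  classical
  obtain ⟨V₁, hV₁⟩ : ∃ V, V = C.x₁.length + 1 := ⟨_, rfl⟩
  have hV1 : 1 ≤ V₁ := by omega
  obtain ⟨μ', hμ'⟩ : ∃ μ' : ℝ, μ' = max (mu (3 * 2)) (1 / 2) := ⟨_, rfl⟩
  have hμ'1 : μ' < 1 := by rw [hμ']; exact max_lt (mu_lt_one _) (by norm_num)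
  have hμ'0 : 0 < μ' := by rw [hμ']; exact lt_of_lt_of_le (by norm_num) (le_max_right _ _)
  obtain ⟨lam, hlam⟩ : ∃ lam : ℝ, lam = -Real.log μ' := ⟨_, rfl⟩
  have hlam0 : 0 < lam := by
    have := Real.log_neg hμ'0 hμ'1
    linarith
  have hmulam : ∀ N : ℕ, μ' ^ N = Real.exp (-(lam * N)) := by
    intro N
    have e2 : μ' = Real.exp (-lam) := by rw [hlam, neg_neg, Real.exp_log hμ'0]
    nth_rewrite 1 [e2]
    rw [← Real.exp_nat_mul]
    congr 1
    ring
  have hlog2 : 0 < Real.log 2 := Real.log_pos (by norm_num)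
  obtain ⟨C4, hC4⟩ : ∃ C4 : ℝ, C4 = 8 * (V₁ + 1) := ⟨_, rfl⟩
  have hC40 : 1 ≤ C4 := by
    rw [hC4]
    have h1 : (1 : ℝ) ≤ V₁ := by exact_mod_cast hV1
    linarith
  obtain ⟨C5, hC5⟩ : ∃ C5 : ℝ, C5 = 2 * (9 * (C4 + 2)) + 1 := ⟨_, rfl⟩
  have hC50 : 1 ≤ C5 := by rw [hC5]; linarith
  obtain ⟨x₀, hx₀⟩ : ∃ x₀ : ℝ, x₀ = min 1 (lam / (4 * 7 ^ 2 * C5)) := ⟨_, rfl⟩
  have hx00 : 0 < x₀ := by rw [hx₀]; exact lt_min one_pos (by positivity)
  have hx01 : x₀ ≤ 1 := by rw [hx₀]; exact min_le_left _ _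
  have hx02 : 7 ^ 2 * x₀ * C5 ≤ lam / 4 := by
    have h1 : x₀ ≤ lam / (4 * 7 ^ 2 * C5) := by rw [hx₀]; exact min_le_right _ _
    rw [le_div_iff₀ (by positivity)] at h1
    linarith
  have hlogx0 : Real.log x₀ ≤ 0 := Real.log_nonpos hx00.le hx01
  obtain ⟨B, hB⟩ : ∃ B : ℝ, B = 1 + (-Real.log x₀) / Real.log 2 := ⟨_, rfl⟩
  have hB1 : 1 ≤ B := by
    rw [hB]
    have : 0 ≤ (-Real.log x₀) / Real.log 2 := div_nonneg (by linarith) hlog2.le
    linarith
  obtain ⟨c, hc⟩ : ∃ c : ℝ, c = lam / (24 * B * C4 ^ 2) := ⟨_, rfl⟩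
  have hc0 : 0 < c := by rw [hc]; positivity
  refine ⟨c, hc0, fun n₀ => ?_⟩
  -- choose `N`
  have hev : ∀ᶠ N : ℕ in Filter.atTop, μ' ^ N < 1 / 2 ∧
      4 * 7 * Real.exp (-(lam / 4 * N)) < 1 ∧ n₀ ≤ N ∧ 1 ≤ N := by
    have t2 := tendsto_pow_atTop_nhds_zero_of_lt_one hμ'0.le hμ'1
    have t3 : Filter.Tendsto (fun N : ℕ => 4 * 7 * Real.exp (-(lam / 4 * N)))
        Filter.atTop (nhds 0) := by
      have h1 : Filter.Tendsto (fun N : ℕ => lam / 4 * (N : ℝ)) Filter.atTop Filter.atTop :=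
        Filter.Tendsto.const_mul_atTop (by positivity) tendsto_natCast_atTop_atTop
      have h2 := (Real.tendsto_exp_neg_atTop_nhds_zero.comp h1).const_mul (4 * 7)
      simpa using h2
    filter_upwards [t2.eventually (gt_mem_nhds (show (0:ℝ) < 1/2 by norm_num)),
      t3.eventually (gt_mem_nhds (show (0:ℝ) < 1 by norm_num)),
      Filter.eventually_ge_atTop n₀, Filter.eventually_ge_atTop 1] with N a1 a2 a3 a4
    exact ⟨a1, a2, a3, a4⟩
  obtain ⟨N, hN1, hN2, hN3, hN4⟩ := hev.exists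
  obtain ⟨n, hn⟩ : ∃ n, n = 8 * (N * V₁ + 1) - 1 := ⟨_, rfl⟩
  have hn1 : n + 1 = 8 * (N * V₁ + 1) := by omega
  have hNV : N ≤ N * V₁ := Nat.le_mul_of_pos_right _ (by omega)
  have hnN : N ≤ n := by omega
  have hlenW : ∀ b : Fin (3 * 2 + 1) → Fin N → Bool, (C.W b).length = n := by
    intro b
    have := C.W_length b
    rw [← hV₁] at this
    omega
  refine ⟨n, by omega, N, hlenW, ?_⟩
  intro σ hσ L hL
  have hσ1 : |σ| = 1 := by rcases hσ with h | h <;> rw [h] <;> norm_num
  have hN1' : (1 : ℝ) ≤ N := by exact_mod_cast hN4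
  have hnC : (n : ℝ) ≤ C4 * N := by
    have h1 : (n : ℝ) + 1 = 8 * (N * V₁ + 1) := by exact_mod_cast hn1
    rw [hC4]
    linarith
  have hN0 : (0 : ℝ) < N := by linarith
  obtain ⟨A, hA⟩ : ∃ A : Finset (Fin (3 * 2 + 1) → Fin N → Bool),
      A = Finset.univ.filter (fun b => gsign Finset.univ b = σ) := ⟨_, rfl⟩
  obtain ⟨Pw, hPw⟩ : ∃ Pw : ℝ, Pw = (2 ^ N : ℝ) ^ (3 * 2 + 1) := ⟨_, rfl⟩
  have hPw0 : 0 < Pw := by rw [hPw]; positivity
  have hmu0 := mu_nonneg (3 * 2)
  have hmuN : (mu (3 * 2)) ^ N ≤ Real.exp (-(lam * N)) := by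
    rw [← hmulam]
    exact pow_le_pow_left₀ hmu0 (by rw [hμ']; exact le_max_left _ _) N
  have hAcard : Pw / 4 ≤ (A.card : ℝ) := by
    have h4 : (2 ^ N : ℝ) ^ (3 * 2 + 1) * (1 - (mu (3 * 2)) ^ N) / 2 ≤ (A.card : ℝ) := by
      rw [hA]; convert sign_card (3 * 2) N σ hσ
    rw [← hPw] at h4
    have : (mu (3 * 2)) ^ N ≤ 1 / 2 := by
      rw [hmulam] at hN1
      linarith
    have h6 := mul_le_mul_of_nonneg_left this hPw0.le
    linarith
  have hHcard : ((fun b => C.W b) '' (A : Set (Fin (3 * 2 + 1) → Fin N → Bool))).ncard = A.card := by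
    rw [Set.ncard_image_of_injective _ (W_inj C), Set.ncard_coe_finset]
  refine ⟨(fun b => C.W b) '' (A : Set (Fin (3 * 2 + 1) → Fin N → Bool)), ?_, ?_, ?_, ?_⟩
  · have : A.Nonempty := by
      rw [← Finset.card_pos]
      have : (0 : ℝ) < A.card := lt_of_lt_of_le (by positivity) hAcard
      exact_mod_cast this
    obtain ⟨b, hb⟩ := this
    exact ⟨C.W b, b, by exact_mod_cast hb, rfl⟩
  · exact (Finset.finite_toSet A).image _
  · rintro w ⟨b, hb, rfl⟩
    refine ⟨hlenW b, (hL b).mpr ?_⟩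
    have hb' : b ∈ A := by exact_mod_cast hb
    rw [hA, Finset.mem_filter] at hb'
    exact hb'.2
  intro q V _ P hpos hq hP
  obtain ⟨D, hD⟩ : ∃ D, D = N * (C.x₁.length + 1) + 1 := ⟨_, rfl⟩
  have hD0 : (0 : ℝ) < D := by rw [hD]; positivity
  have hDNn : N ≤ D := by rw [hD, ← hV₁]; omega
  have hDN : (N : ℝ) ≤ D := by exact_mod_cast hDNn
  have hq1 : 1 ≤ q := by
    refine le_trans ?_ (hq (P.pos P.start))
    rw [Nat.one_le_iff_ne_zero, Ne, Set.ncard_eq_zero]
    intro h
    have : P.start ∈ ({v | P.pos v = P.pos P.start} : Set V) := rfl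
    rw [h] at this
    exact this
  have hq1' : (1 : ℝ) ≤ q := by exact_mod_cast hq1
  obtain ⟨Λ, hΛ⟩ : ∃ Λ : ℝ, Λ = Real.log (q + 1) := ⟨_, rfl⟩
  have hΛ2 : Real.log 2 ≤ Λ := by
    rw [hΛ]; exact Real.log_le_log (by norm_num) (by linarith)
  have hΛ0 : 0 < Λ := lt_of_lt_of_le hlog2 hΛ2
  have hn0 : (0 : ℝ) ≤ n := by positivity
  have hn2 : (n : ℝ) ^ 2 ≤ (C4 * N) ^ 2 := pow_le_pow_left₀ hn0 hnC 2
  -- correctness
  have hcorr : ∀ b : Fin (3 * 2 + 1) → Fin N → Bool,
      (∃ d ∈ P.acc, Relation.ReflTransGen (P.Step (C.W b)) P.start d) →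
        gsign Finset.univ b = σ := by
    rintro b ⟨d, hd, hpath⟩
    rw [← hL b]
    exact hP _ (hlenW b) (run_of_path hd hpath)
  obtain ⟨Y, hY⟩ : ∃ Y : Finset (Fin (3 * 2 + 1) → Fin N → Bool),
      Y = Finset.univ.filter (fun b => ∃ T ρ, P.AccRun (C.W b) T ρ ∧ T * Λ < c * (n : ℝ) ^ 2) :=
    ⟨_, rfl⟩
  have hle : ((({w ∈ (fun b => C.W b) '' (A : Set (Fin (3 * 2 + 1) → Fin N → Bool)) |
      ∃ T ρ, P.AccRun w T ρ ∧ T * Real.log (q + 1) < c * (n : ℝ) ^ 2}).ncard : ℕ) : ℝ)
      ≤ Y.card := by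
    have hsub : {w ∈ (fun b => C.W b) '' (A : Set (Fin (3 * 2 + 1) → Fin N → Bool)) |
        ∃ T ρ, P.AccRun w T ρ ∧ T * Real.log (q + 1) < c * (n : ℝ) ^ 2} ⊆
        (fun b => C.W b) '' (Y : Set (Fin (3 * 2 + 1) → Fin N → Bool)) := by
      rintro w ⟨⟨b, _, rfl⟩, T, ρ, hρ, hT⟩
      refine ⟨b, ?_, rfl⟩
      rw [hY]
      simp only [Finset.coe_filter, Finset.mem_univ, true_and, Set.mem_ofPred_eq]
      exact ⟨T, ρ, hρ, by rw [hΛ]; exact hT⟩
    have h1 := Set.ncard_le_ncard hsub ((Finset.finite_toSet Y).image _)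
    rw [Set.ncard_image_of_injective _ (W_inj C), Set.ncard_coe_finset] at h1
    exact_mod_cast h1
  have hcn : c * n ≤ lam * N / 4 := by
    calc c * (n : ℝ) ≤ c * (C4 * N) := by gcongr
      _ = lam * N / (4 * (6 * B * C4)) := by rw [hc]; field_simp; norm_num
      _ ≤ lam * N / (4 * 1) := by
          gcongr
          have := one_le_mul_of_one_le_of_one_le hB1 hC40
          linarith
      _ = lam * N / 4 := by ring
  have hsmall : Real.exp (-(lam * N / 2)) * 7 ≤ Real.exp (-(c * n)) / 4 := by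
    have e1 : Real.exp (-(lam * N / 2)) * 7 =
        (4 * 7 * Real.exp (-(lam / 4 * N))) * (Real.exp (-(lam * N / 4)) / 4) := by
      have : Real.exp (-(lam * N / 2)) = Real.exp (-(lam / 4 * N)) * Real.exp (-(lam * N / 4)) := by
        rw [← Real.exp_add]; congr 1; ring
      rw [this]; ring
    rw [e1]
    calc (4 * 7 * Real.exp (-(lam / 4 * N))) * (Real.exp (-(lam * N / 4)) / 4)
        ≤ 1 * (Real.exp (-(c * n)) / 4) := by gcongr
      _ = _ := by ring
  have hmain : (Y.card : ℝ) ≤ Pw * (Real.exp (-(lam * N / 2)) * 7) := by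
    by_cases hcase : 3 * B * Λ ≤ lam * N / 8
    · -- few states
      obtain ⟨G, hG⟩ : ∃ G : ℕ, G = ⌊c * (n : ℝ) ^ 2 / (Λ * D)⌋₊ + 1 := ⟨_, rfl⟩
      have hG1 : (G : ℝ) ≤ c * (n : ℝ) ^ 2 / (Λ * D) + 1 := by
        rw [hG]
        push_cast
        have := Nat.floor_le (a := c * (n : ℝ) ^ 2 / (Λ * D)) (by positivity)
        linarith
      have hG2 : ∀ T : ℕ, T * Λ < c * (n : ℝ) ^ 2 → T ≤ 0 + G * D := by
        intro T hT
        have h1 : c * (n : ℝ) ^ 2 / (Λ * D) < G := by
          rw [hG]; push_cast; exact Nat.lt_floor_add_one _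
        rw [div_lt_iff₀ (by positivity)] at h1
        have h2 : (T : ℝ) * Λ < G * D * Λ := by
          calc (T : ℝ) * Λ < c * (n : ℝ) ^ 2 := hT
            _ < G * (Λ * D) := h1
            _ = _ := by ring
        have h3 : (T : ℝ) < G * D := lt_of_mul_lt_mul_right h2 hΛ0.le
        have h4 : (T : ℝ) < ((G * D : ℕ) : ℝ) := by push_cast; exact h3
        have h5 : T < G * D := by exact_mod_cast h4
        omega
      obtain ⟨x, hx⟩ : ∃ x : ℝ, x = x₀ / q := ⟨_, rfl⟩
      have hx0 : 0 < x := by rw [hx]; positivity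
      have hx1 : x ≤ 1 := by
        rw [hx, div_le_one (by linarith)]; linarith
      have hDJ : n + 1 < 9 * D := by
        rw [hD, ← hV₁]; omega
      have hKcard : ((marked P D).card : ℝ) ≤ q * (C5 * N) := by
        have h1 := marked_card P hDJ hpos hq
        have h2 : ((marked P D).card : ℝ) ≤ 1 + 2 * (9 * (n + 2)) * q := by exact_mod_cast h1
        have h3 : (n : ℝ) + 2 ≤ (C4 + 2) * N := by linarith
        calc ((marked P D).card : ℝ) ≤ 1 + 2 * (9 * (n + 2)) * q := h2
          _ ≤ q * N + 2 * (9 * ((C4 + 2) * N)) * q := by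
              gcongr
              exact one_le_mul_of_one_le_of_one_le hq1' hN1'
          _ = q * (C5 * N) := by rw [hC5]; ring
      have hstart : P.start ∈ marked P D := by
        unfold marked
        rw [Finset.mem_filter]
        exact ⟨Finset.mem_univ _, Or.inr rfl⟩
      have h5 := accS_card C P (marked P D) P.start hstart σ hσ1 (2 * G) hcorr x hx0 hx1
      have hYsub : (Y.card : ℝ) ≤ ((Finset.univ.filter (fun b : Fin (3 * 2 + 1) → Fin N → Bool =>
          AccS C P (marked P D) b (2 * G) P.start)).card : ℝ) := by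
        apply Nat.cast_le.mpr
        apply Finset.card_le_card
        intro b hb
        rw [hY, Finset.mem_filter] at hb
        obtain ⟨_, T, ρ, hρ, hT⟩ := hb
        rw [Finset.mem_filter]
        refine ⟨Finset.mem_univ _, ?_⟩
        have h1 := accS_of_run C P b (marked P D) hρ.2.1 hρ.2.2 (by
          intro s _ hm
          unfold marked
          rw [Finset.mem_filter, hD]
          exact ⟨Finset.mem_univ _, Or.inl hm⟩) G 0 (by omega) (by rw [← hD]; exact hG2 T hT) 0
          le_rfl (by rw [hρ.1]; exact hstart) (by intro s hs hs'; omega)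
        rw [hρ.1] at h1
        exact h1
      have hexp : Real.exp ((((3 * 2 : ℕ) : ℝ) + 1) ^ 2 * x * (marked P D).card) ≤
          Real.exp (lam * N / 4) := by
        apply Real.exp_le_exp.mpr
        calc (((3 * 2 : ℕ) : ℝ) + 1) ^ 2 * x * (marked P D).card
            ≤ (((3 * 2 : ℕ) : ℝ) + 1) ^ 2 * x * (q * (C5 * N)) := by gcongr
          _ = (7 ^ 2 * x₀ * C5) * N := by
              rw [hx]; push_cast; field_simp; ring
          _ ≤ (lam / 4) * N := by gcongr
          _ = _ := by ring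
      have hlogx : -Real.log x ≤ B * Λ := by
        rw [hx, Real.log_div (by positivity) (by positivity), hB]
        have h2 : Real.log q ≤ Λ := by
          rw [hΛ]; exact Real.log_le_log (by linarith) (by linarith)
        have h3 : -Real.log x₀ ≤ (-Real.log x₀) / Real.log 2 * Λ := by
          rw [div_mul_eq_mul_div, le_div_iff₀ hlog2]
          exact mul_le_mul_of_nonneg_left hΛ2 (by linarith)
        linarith
      have hxpow : Real.exp (-(lam * N / 4)) ≤ x ^ (2 * G + 1) := by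
        have e1 : x ^ (2 * G + 1) = Real.exp ((2 * G + 1 : ℕ) * Real.log x) := by
          rw [← Real.log_pow, Real.exp_log (by positivity)]
        rw [e1]
        apply Real.exp_le_exp.mpr
        push_cast
        have h7 : (2 * (G : ℝ) + 1) * (-Real.log x) ≤ lam * N / 4 := by
          calc (2 * (G : ℝ) + 1) * (-Real.log x) ≤ (2 * (G : ℝ) + 1) * (B * Λ) := by gcongr
            _ ≤ (2 * (c * (n : ℝ) ^ 2 / (Λ * D) + 1) + 1) * (B * Λ) := by gcongr
            _ = 2 * B * (c * (n : ℝ) ^ 2) / D + 3 * B * Λ := by field_simp; ring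
            _ ≤ 2 * B * (c * (C4 * N) ^ 2) / N + lam * N / 8 := by gcongr
            _ = lam * N / 12 + lam * N / 8 := by rw [hc]; field_simp; norm_num
            _ ≤ lam * N / 4 := by linarith [mul_pos hlam0 hN0]
        linarith
      have h9 : (Y.card : ℝ) * Real.exp (-(lam * N / 4)) ≤
          Real.exp (lam * N / 4) * (Pw * Real.exp (-(lam * N))) := by
        calc (Y.card : ℝ) * Real.exp (-(lam * N / 4)) ≤
            ((Finset.univ.filter (fun b : Fin (3 * 2 + 1) → Fin N → Bool =>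
              AccS C P (marked P D) b (2 * G) P.start)).card : ℝ) * x ^ (2 * G + 1) := by gcongr
          _ ≤ Real.exp ((((3 * 2 : ℕ) : ℝ) + 1) ^ 2 * x * (marked P D).card) *
              (Pw * (mu (3 * 2)) ^ N) := by rw [hPw]; convert h5
          _ ≤ _ := by gcongr
      have h11 : (Y.card : ℝ) = ((Y.card : ℝ) * Real.exp (-(lam * N / 4))) * Real.exp (lam * N / 4) := by
        rw [mul_assoc, ← Real.exp_add, neg_add_cancel, Real.exp_zero, mul_one]
      rw [h11]
      calc ((Y.card : ℝ) * Real.exp (-(lam * N / 4))) * Real.exp (lam * N / 4)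
          ≤ (Real.exp (lam * N / 4) * (Pw * Real.exp (-(lam * N)))) * Real.exp (lam * N / 4) := by
            gcongr
        _ = Pw * (Real.exp (lam * N / 4) * Real.exp (-(lam * N)) * Real.exp (lam * N / 4)) := by ring
        _ = Pw * (Real.exp (-(lam * N / 2)) * 1) := by
            rw [← Real.exp_add, ← Real.exp_add, mul_one]; congr 2; ring
        _ ≤ Pw * (Real.exp (-(lam * N / 2)) * 7) := by gcongr; norm_num
    · -- many states: a single piece
      rw [not_le] at hcase
      have hT : ∀ T : ℕ, T * Λ < c * (n : ℝ) ^ 2 → T ≤ 0 + (0 + 1) * D := by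
        intro T hT
        have h1 : (T : ℝ) * (lam * N / 8) < D * (lam * N / 8) := by
          calc (T : ℝ) * (lam * N / 8) ≤ T * (3 * B * Λ) := by gcongr
            _ = 3 * B * (T * Λ) := by ring
            _ < 3 * B * (c * (n : ℝ) ^ 2) := by gcongr
            _ ≤ 3 * B * (c * (C4 * N) ^ 2) := by gcongr
            _ = N * (lam * N / 8) := by rw [hc]; field_simp; norm_num
            _ ≤ D * (lam * N / 8) := by gcongr
        have h2 : (T : ℝ) < D := lt_of_mul_lt_mul_right h1 (by positivity)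
        have h3 : T < D := by exact_mod_cast h2
        omega
      have h5 := accIn_card C P σ hσ1 0 P.start (Set.univ : Set (Fin (3 * 2 + 1) → Fin N → Bool))
        isCyl_univ (by
          intro b _ hacc
          obtain ⟨v, hv, hpath⟩ := hacc.path
          exact hcorr b ⟨v, hv, hpath⟩)
      have hYsub : (Y.card : ℝ) ≤ ((Finset.univ.filter (fun b : Fin (3 * 2 + 1) → Fin N → Bool =>
          b ∈ (Set.univ : Set (Fin (3 * 2 + 1) → Fin N → Bool)) ∧ AccIn C P 0 P.start b)).card : ℝ) := by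
        apply Nat.cast_le.mpr
        apply Finset.card_le_card
        intro b hb
        rw [hY, Finset.mem_filter] at hb
        obtain ⟨_, T, ρ, hρ, hT'⟩ := hb
        rw [Finset.mem_filter]
        refine ⟨Finset.mem_univ _, Set.mem_univ _, ?_⟩
        have h1 := accIn_of_run C P b hρ.2.1 hρ.2.2 0 0 (by omega) (by rw [← hD]; exact hT T hT')
        rw [hρ.1] at h1
        exact h1
      calc (Y.card : ℝ) ≤ _ := hYsub
        _ ≤ ((((3 * 2 : ℕ) : ℝ) + 1) * Fintype.card V) ^ 0 * (((3 * 2 : ℕ) : ℝ) + 1) *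
            ((2 ^ N : ℝ) ^ (3 * 2 + 1) * (mu (3 * 2)) ^ N) := by convert h5
        _ = 7 * (Pw * (mu (3 * 2)) ^ N) := by rw [pow_zero, hPw]; push_cast; ring
        _ ≤ 7 * (Pw * Real.exp (-(lam * N / 2))) := by
            have : Real.exp (-(lam * N)) ≤ Real.exp (-(lam * N / 2)) := by
              apply Real.exp_le_exp.mpr
              linarith [mul_pos hlam0 hN0]
            gcongr
            exact hmuN.trans this
        _ = _ := by ring
  rw [hHcard]
  calc _ ≤ (Y.card : ℝ) := hle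
    _ ≤ Pw * (Real.exp (-(lam * N / 2)) * 7) := hmain
    _ ≤ Pw * (Real.exp (-(c * n)) / 4) := by gcongr
    _ = Real.exp (-(c * n)) * (Pw / 4) := by ring
    _ ≤ Real.exp (-(c * n)) * A.card := by gcongr

end Pool.Agent.TH393.LB
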