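import Pool.Agent.TH393.LB5
import Pool.Agent.TH393.LB3
import Pool.Agent.H38R3.MH.Final

set_option autoImplicit false

namespace Pool.Agent.TH393.LB

open Finset
open Pool.Agent.H541R2 (rd mv gsign theLang)
open Pool.Agent.H867R4 (Code NMach NCfg W_mem exists_code pos_close)

variable {Q : Type}

theorem ofN_mult [Fintype Q] (M : NMach (Fin 4) 2 Q) (n : ℕ) (p : Fin 2 → ℕ) :
    {v | (ofN M n).pos v = p}.ncard ≤ Fintype.card Q := by
  classical
  rw [← Nat.card_eq_fintype_card, ← Set.ncard_univ]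
  refine Set.ncard_le_ncard_of_injOn Prod.fst (fun _ _ => Set.mem_univ _) ?_ (Set.toFinite _)
  intro v hv v' hv' h
  refine Prod.ext h ?_
  funext i
  apply Fin.ext
  have h1 : (ofN M n).pos v i = (ofN M n).pos v' i := by
    have e1 : (ofN M n).pos v = p := hv
    have e2 : (ofN M n).pos v' = p := hv'
    rw [e1, e2]
  exact h1

/-- Two-head automata with any number of states. -/
theorem automata_of_hard2 {c : ℝ} (hc : 0 < c) {n : ℕ} (hn : 1 ≤ n) {L : Set (List (Fin 4))}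
    (h : Hard2 c n L) (Q : Type) [Fintype Q] (M : NMach (Fin 4) 2 Q)
    (hM : ∀ w : List (Fin 4), w.length = n → (w ∈ L ↔ M.Accepts w)) :
    ∃ w ∈ L, w.length = n ∧ ∀ (T : ℕ) (ρ : ℕ → NCfg 2 Q), M.AccRun w T ρ →
      c * (n : ℝ) ^ 2 ≤ T * Real.log (Fintype.card Q + 1) ∧
      c * (n : ℝ) ^ 2 ≤ (ρ '' {t | t ≤ T}).ncard * Real.log (Fintype.card Q + 1) := by
  classical
  obtain ⟨H, hne, hfin, hHL, hH⟩ := h
  have h1 := hH (Fintype.card Q) (Q × (Fin 2 → Fin (n + 2))) inferInstance (ofN M n)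
    (fun v i => by
      have := (v.2 i).isLt
      show (v.2 i : ℕ) ≤ n + 1
      omega)
    (ofN_mult M n) (fun w hw hacc => (hM w hw).mpr (ofN_accepts hw hacc))
  have hcard : 0 < H.ncard := (Set.ncard_pos hfin).mpr hne
  have hex : ∃ w ∈ H, ¬ ∃ T ρ, (ofN M n).AccRun w T ρ ∧
      T * Real.log (Fintype.card Q + 1) < c * (n : ℝ) ^ 2 := by
    by_contra hcon
    push Not at hcon
    have e : {w ∈ H | ∃ T ρ, (ofN M n).AccRun w T ρ ∧
        T * Real.log (Fintype.card Q + 1) < c * (n : ℝ) ^ 2} = H := by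
      ext w
      constructor
      · exact fun h => h.1
      · exact fun h => ⟨h, hcon w h⟩
    rw [e] at h1
    have h2 : Real.exp (-(c * n)) < 1 := by
      rw [Real.exp_lt_one_iff]
      have : (0 : ℝ) < n := by exact_mod_cast hn
      have := mul_pos hc this
      linarith
    have h3 : (0 : ℝ) < H.ncard := by exact_mod_cast hcard
    nlinarith
  obtain ⟨w, hw, hw2⟩ := hex
  have key : ∀ (T : ℕ) (ρ : ℕ → NCfg 2 Q), M.AccRun w T ρ →
      c * (n : ℝ) ^ 2 ≤ T * Real.log (Fintype.card Q + 1) := by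
    intro T ρ hρ
    obtain ⟨ρ', hρ'⟩ := ofN_run (hHL w hw).1 hρ
    by_contra hlt
    exact hw2 ⟨T, ρ', hρ', not_le.mp hlt⟩
  refine ⟨w, (hHL w hw).2, (hHL w hw).1, fun T ρ hρ => ⟨key T ρ hρ, ?_⟩⟩
  obtain ⟨T', ρ', hρ', hle⟩ := Pool.Agent.H38R3.MH.short_run hρ
  have h1 := key T' ρ' hρ'
  have h2 : (T' : ℝ) ≤ (ρ '' {t | t ≤ T}).ncard := by
    have : T' ≤ (ρ '' {t | t ≤ T}).ncard := by omega
    exact_mod_cast this
  have hlog : 0 ≤ Real.log (Fintype.card Q + 1) :=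
    Real.log_nonneg (by
      have : (0 : ℝ) ≤ Fintype.card Q := by positivity
      linarith)
  exact h1.trans (mul_le_mul_of_nonneg_right h2 hlog)

theorem hard2_both : ∃ c : ℝ, 0 < c ∧ ∀ n₀ : ℕ, ∃ n : ℕ, n₀ ≤ n ∧
    Hard2 c n theLang ∧ Hard2 c n theLangᶜ := by
  obtain ⟨C⟩ := exists_code Unit
  obtain ⟨c, hc, h⟩ := hard2_aux C
  refine ⟨c, hc, fun n₀ => ?_⟩
  obtain ⟨n, hn, N, _, h2⟩ := h n₀
  refine ⟨n, hn, h2 (-1) (Or.inr rfl) _ (fun b => W_mem C b), h2 1 (Or.inl rfl) _ (fun b => ?_)⟩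
  rw [Set.mem_compl_iff, W_mem C b]
  have := Pool.Agent.H541R2.gsign_abs Finset.univ b
  rcases eq_or_eq_neg_of_abs_eq this with h | h <;> rw [h] <;> norm_num

end Pool.Agent.TH393.LB
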