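import Pool.Agent.TH393.LB4

set_option autoImplicit false

namespace Pool.Agent.TH393.LB

open Finset
open Pool.Agent.H541R2 (rd mv mv_le le_mv gsign mu mu_nonneg mu_lt_one IsCyl isCyl_univ cyl_card theLang
  sign_card)
open Pool.Agent.H867R4 (Code Out rd_out out_of_block W_mem rowsOf)
open Pool.Agent.H38R3.MH (simple_path path_of_matchings)

variable {k : ℕ} {V : Type}

/-- Some row avoids `5 k` given blocks. -/
theorem exists_row5 (f : Fin k → Fin 5 → ℕ) : ∃ r : Fin (5 * k + 1), ∀ i e, f i e ≠ r.val + 1 := by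
  classical
  by_contra hh
  push Not at hh
  choose a e hf using hh
  have hinj : Function.Injective (fun r : Fin (5 * k + 1) => (a r, e r)) := by
    intro r r' h
    have h1 := hf r
    have h2 := hf r'
    rw [Prod.mk.injEq] at h
    rw [h.1, h.2] at h1
    rw [h1] at h2
    exact Fin.ext (by omega)
  have := Fintype.card_le_of_injective _ hinj
  simp only [Fintype.card_prod, Fintype.card_fin] at this
  omega

/-- Pieces of length at most `2 D` avoid a row. -/
theorem ph_long {P : Prog k V} {D : ℕ} (hD : 0 < D) {w : List (Fin 4)} {ρ : ℕ → V} (t m : ℕ)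
    (hm : m ≤ 2 * D) (h1 : ∀ s, t ≤ s → s < t + m → P.Step w (ρ s) (ρ (s + 1))) :
    ∃ r : Fin (5 * k + 1), Ph P D w r (ρ t) (ρ (t + m)) := by
  obtain ⟨r, hr⟩ := exists_row5 (fun (i : Fin k) (e : Fin 5) => P.pos (ρ t) i / D + e.val - 2)
  refine ⟨r, ph_of_run m t h1 ?_⟩
  intro s hs hs' i hblk
  obtain ⟨m', rfl⟩ := Nat.exists_eq_add_of_le hs
  obtain ⟨j, a1, a2⟩ := pos_near m' (fun s hs hs'' => h1 s hs (by omega)) i
  have e0 := hr j 0
  have e1 := hr j 1
  have e2 := hr j 2
  have e3 := hr j 3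
  have e4 := hr j 4
  have v3 : ((3 : Fin 5) : ℕ) = 3 := rfl
  have v4 : ((4 : Fin 5) : ℕ) = 4 := rfl
  simp only [Fin.val_zero, Fin.val_one, Fin.val_two, v3, v4] at e0 e1 e2 e3 e4
  have hq1 : P.pos (ρ (t + m')) i / D ≤ P.pos (ρ t) j / D + 2 := by
    calc P.pos (ρ (t + m')) i / D ≤ (P.pos (ρ t) j + 2 * D) / D := Nat.div_le_div_right (by omega)
      _ = P.pos (ρ t) j / D + 2 := Nat.add_mul_div_right _ _ hD
  have hq2 : P.pos (ρ t) j / D ≤ P.pos (ρ (t + m')) i / D + 2 := by
    calc P.pos (ρ t) j / D ≤ (P.pos (ρ (t + m')) i + 2 * D) / D := Nat.div_le_div_right (by omega)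
      _ = P.pos (ρ (t + m')) i / D + 2 := Nat.add_mul_div_right _ _ hD
  omega

/-- A simple path gives matchings; the domain of the labelling is the path. -/
theorem matchings_of_path' {κ G : Type} (E : G → κ → κ → Prop) (Z : G → κ → Prop) (c : κ)
    (R : ℕ) (p : ℕ → κ) (h0 : p 0 = c) (h1 : ∀ i < R, ∃ r, E r (p i) (p (i + 1)))
    (h2 : ∃ r, Z r (p R)) (h3 : ∀ i j, i ≤ R → j ≤ R → p i = p j → i = j) :
    ∃ f : κ → Option (G × G), (∀ a, f a ≠ none ↔ ∃ i, i ≤ R ∧ p i = a) ∧
      ∀ r : G, ∃ φ : κ → Option κ,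
      (∀ a a' s s', f a = some (r, s) → f a' = some (r, s') → φ a = φ a' → a = a') ∧
      ∀ a s, f a = some (r, s) → (φ a = none ∧ Z r a) ∨
        ∃ y, φ a = some y ∧ y ≠ c ∧ (∃ s', f y = some (s', r)) ∧ E r a y := by
  classical
  have hr : ∀ i, ∃ r : G, (i < R → E r (p i) (p (i + 1))) ∧ (i = R → Z r (p R)) := by
    intro i
    by_cases hi : i < R
    · obtain ⟨r, hr⟩ := h1 i hi
      exact ⟨r, fun _ => hr, fun h => by omega⟩
    · obtain ⟨r, hr⟩ := h2
      exact ⟨r, fun h => absurd h hi, fun _ => hr⟩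
  choose rr hrE hrZ using hr
  obtain ⟨f, hf⟩ : ∃ f : κ → Option (G × G), f = fun a =>
      if h : ∃ i, i ≤ R ∧ p i = a then some (rr h.choose, rr (h.choose - 1)) else none := ⟨_, rfl⟩
  obtain ⟨φ, hφ⟩ : ∃ φ : κ → Option κ, φ = fun a =>
      if h : ∃ i, i ≤ R ∧ p i = a then (if h.choose < R then some (p (h.choose + 1)) else none)
      else none := ⟨_, rfl⟩
  have hidx : ∀ i, i ≤ R → ∀ h : ∃ j, j ≤ R ∧ p j = p i, h.choose = i := by
    intro i hi h
    exact h3 _ _ h.choose_spec.1 hi h.choose_spec.2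
  have hfp : ∀ i, i ≤ R → f (p i) = some (rr i, rr (i - 1)) := by
    intro i hi
    have hex : ∃ j, j ≤ R ∧ p j = p i := ⟨i, hi, rfl⟩
    rw [hf]
    simp only [dif_pos hex, hidx i hi hex]
  have hφp : ∀ i, i ≤ R → φ (p i) = if i < R then some (p (i + 1)) else none := by
    intro i hi
    have hex : ∃ j, j ≤ R ∧ p j = p i := ⟨i, hi, rfl⟩
    rw [hφ]
    simp only [dif_pos hex, hidx i hi hex]
  have hfn : ∀ a, f a ≠ none → ∃ i, i ≤ R ∧ p i = a := by
    intro a ha
    by_contra hh
    apply ha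
    rw [hf]
    simp only [dif_neg hh]
  refine ⟨f, fun a => ⟨hfn a, ?_⟩, ?_⟩
  · rintro ⟨i, hi, rfl⟩
    rw [hfp i hi]; simp
  · intro r
    refine ⟨φ, ?_, ?_⟩
    · intro a a' s s' ha ha' hφa
      obtain ⟨i, hi, rfl⟩ := hfn a (by rw [ha]; simp)
      obtain ⟨j, hj, rfl⟩ := hfn a' (by rw [ha']; simp)
      rw [hφp i hi, hφp j hj] at hφa
      by_cases h4 : i < R
      · by_cases h5 : j < R
        · rw [if_pos h4, if_pos h5] at hφa
          have := h3 _ _ (by omega) (by omega) (Option.some.inj hφa)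
          have : i = j := by omega
          rw [this]
        · rw [if_pos h4, if_neg h5] at hφa
          cases hφa
      · by_cases h5 : j < R
        · rw [if_neg h4, if_pos h5] at hφa
          cases hφa
        · have : i = j := by omega
          rw [this]
    · intro a s ha
      obtain ⟨i, hi, rfl⟩ := hfn a (by rw [ha]; simp)
      rw [hfp i hi] at ha
      have hri : rr i = r := by
        have := Option.some.inj ha
        exact (Prod.mk.injEq _ _ _ _ ▸ this).1
      rw [hφp i hi]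
      by_cases h4 : i < R
      · right
        rw [if_pos h4]
        refine ⟨p (i + 1), rfl, ?_, ⟨rr (i + 1), ?_⟩, ?_⟩
        · intro h5
          rw [← h0] at h5
          have := h3 _ _ (by omega) (by omega) h5
          omega
        · rw [hfp (i + 1) (by omega), Nat.add_sub_cancel, hri]
        · rw [← hri]; exact hrE i h4
      · left
        rw [if_neg h4]
        have : i = R := by omega
        refine ⟨rfl, ?_⟩
        rw [← hri, this]
        exact hrZ R rfl

/-- The matrices for which the labelling `f` is a certificate of acceptance. -/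
def Cert (C : Code Unit) (P : Prog k V) (g N : ℕ)
    (f : V → Option (Fin g × Fin g)) : Set (Fin g → Fin N → Bool) :=
  {b | ∀ r : Fin g, ∃ φ : V → Option V,
      (∀ a a' s s', f a = some (r, s) → f a' = some (r, s') → φ a = φ a' → a = a') ∧
      ∀ a s, f a = some (r, s) → (φ a = none ∧ ∃ d ∈ P.acc,
          Ph P (N * (C.x₁.length + 1) + 1) (C.W b) r a d) ∨
        ∃ y, φ a = some y ∧ y ≠ P.start ∧ (∃ s', f y = some (s', r)) ∧
          Ph P (N * (C.x₁.length + 1) + 1) (C.W b) r a y}

theorem isCyl_cert (C : Code Unit) (P : Prog k V) (g N : ℕ)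
    (f : V → Option (Fin g × Fin g)) : IsCyl (Cert C P g N f) := by
  refine ⟨fun r => {b | ∃ φ : V → Option V,
      (∀ a a' s s', f a = some (r, s) → f a' = some (r, s') → φ a = φ a' → a = a') ∧
      ∀ a s, f a = some (r, s) → (φ a = none ∧ ∃ d ∈ P.acc,
          Ph P (N * (C.x₁.length + 1) + 1) (C.W b) r a d) ∨
        ∃ y, φ a = some y ∧ y ≠ P.start ∧ (∃ s', f y = some (s', r)) ∧
          Ph P (N * (C.x₁.length + 1) + 1) (C.W b) r a y}, ?_,
    fun b => Iff.rfl⟩
  rintro r b b' hbb ⟨φ, h1, h2⟩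
  refine ⟨φ, h1, fun a s ha => ?_⟩
  rcases h2 a s ha with ⟨h3, d, h4, h5⟩ | ⟨y, h3, h4, h5, h6⟩
  · exact Or.inl ⟨h3, d, h4, ph_indep C P r b b' hbb h5⟩
  · exact Or.inr ⟨y, h3, h4, h5, ph_indep C P r b b' hbb h6⟩

theorem reach_of_cert [Finite V] {C : Code Unit} {P : Prog k V} {g N : ℕ}
    {f : V → Option (Fin g × Fin g)} (hf : f P.start ≠ none)
    {b : Fin g → Fin N → Bool} (hb : b ∈ Cert C P g N f) :
    ∃ d ∈ P.acc, Relation.ReflTransGen (P.Step (C.W b)) P.start d := by
  obtain ⟨a, r, h1, d, h2, h3⟩ := path_of_matchings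
    (fun (r : Fin g) (a y : V) => Ph P (N * (C.x₁.length + 1) + 1) (C.W b) r a y)
    (fun (r : Fin g) a => ∃ d ∈ P.acc, Ph P (N * (C.x₁.length + 1) + 1) (C.W b) r a d) P.start f hf hb
  refine ⟨d, h2, ?_⟩
  refine Relation.ReflTransGen.trans ?_ h3.path
  clear h3
  induction h1 with
  | refl => exact Relation.ReflTransGen.refl
  | tail _ h4 ih =>
    obtain ⟨r', h4⟩ := h4
    exact ih.trans h4.path

open Classical in
/-- The weight of a labelling. -/
noncomputable def wt {G : Type} [Fintype V] (x : ℝ) (s : V) (f : V → Option G) : ℝ :=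
  ∏ a, (if a = s then 1 else (f a).elim 1 (fun _ => x))

theorem wt_nonneg {G : Type} [Fintype V] {x : ℝ} (hx : 0 ≤ x) (s : V) (f : V → Option G) :
    0 ≤ wt x s f := by
  unfold wt
  apply Finset.prod_nonneg
  intro a _
  split_ifs
  · exact zero_le_one
  · cases f a
    · exact zero_le_one
    · exact hx

open Classical in
theorem sum_wt {G : Type} [Fintype G] [Fintype V] {x : ℝ} (hx : 0 ≤ x) (s : V) :
    ∑ f : V → Option G, wt x s f ≤
      (1 + Fintype.card G) * Real.exp (Fintype.card G * x * Fintype.card V) := by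
  have h5 : ∑ f : V → Option G, wt x s f =
      ∏ a, ∑ o : Option G, (if a = s then 1 else o.elim 1 (fun _ => x)) := by
    rw [Finset.prod_univ_sum]
    simp [wt]
  rw [h5]
  have h6 : ∀ a, (∑ o : Option G, (if a = s then (1 : ℝ) else o.elim 1 (fun _ => x))) ≤
      (if a = s then (1 + (Fintype.card G : ℝ)) else 1) * (1 + Fintype.card G * x) := by
    intro a
    have hG : (0 : ℝ) ≤ Fintype.card G := by positivity
    have hGx : (0 : ℝ) ≤ Fintype.card G * x := by positivity
    by_cases ha : a = s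
    · simp only [ha, if_true]
      rw [Finset.sum_const, Finset.card_univ, Fintype.card_option, nsmul_eq_mul, mul_one]
      push_cast
      nlinarith
    · simp only [ha, if_false]
      rw [Fintype.sum_option]
      simp
  refine (Finset.prod_le_prod (fun a _ => ?_) (fun a _ => h6 a)).trans ?_
  · apply Finset.sum_nonneg
    intro o _
    split_ifs
    · exact zero_le_one
    · cases o
      · exact zero_le_one
      · exact hx
  rw [Finset.prod_mul_distrib, Finset.prod_ite_eq' Finset.univ s, if_pos (Finset.mem_univ s),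
    Finset.prod_const, Finset.card_univ]
  have hG : (0 : ℝ) ≤ Fintype.card G := by positivity
  have hGx : (0 : ℝ) ≤ Fintype.card G * x := by positivity
  have h7 : 1 + (Fintype.card G : ℝ) * x ≤ Real.exp (Fintype.card G * x) := by
    have := Real.add_one_le_exp ((Fintype.card G : ℝ) * x)
    linarith
  have h8 : (1 + (Fintype.card G : ℝ) * x) ^ Fintype.card V ≤
      Real.exp (Fintype.card G * x * Fintype.card V) := by
    calc (1 + (Fintype.card G : ℝ) * x) ^ Fintype.card V
        ≤ (Real.exp (Fintype.card G * x)) ^ Fintype.card V := by gcongr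
      _ = _ := by rw [← Real.exp_nat_mul]; congr 1; ring
  gcongr

open Classical in
/-- Double counting of certificates. -/
theorem cert_count [Fintype V] (C : Code Unit) {g N : ℕ} (P : Prog k V) (σ : ℝ) (hσ : |σ| = 1)
    (hb : ∀ b : Fin (g + 1) → Fin N → Bool,
      (∃ d ∈ P.acc, Relation.ReflTransGen (P.Step (C.W b)) P.start d) →
        gsign Finset.univ b = σ) {x : ℝ} (hx : 0 ≤ x)
    (Y : Finset (Fin (g + 1) → Fin N → Bool)) (κ : ℝ)
    (hY : ∀ b ∈ Y, κ ≤ ∑ f ∈ (Finset.univ : Finset (V → Option (Fin (g + 1) × Fin (g + 1)))).filter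
      (fun f => f P.start ≠ none ∧ b ∈ Cert C P (g + 1) N f), wt x P.start f) :
    (Y.card : ℝ) * κ ≤ (1 + (g + 1 : ℝ) ^ 2) * Real.exp ((g + 1 : ℝ) ^ 2 * x * Fintype.card V) *
      ((2 ^ N : ℝ) ^ (g + 1) * (mu g) ^ N) := by
  have hM : 0 ≤ (2 ^ N : ℝ) ^ (g + 1) * (mu g) ^ N := by
    have := mu_nonneg g
    positivity
  have h1 : (Y.card : ℝ) * κ ≤ ∑ b ∈ Y, ∑ f : V → Option (Fin (g + 1) × Fin (g + 1)),
      (if f P.start ≠ none ∧ b ∈ Cert C P (g + 1) N f then wt x P.start f else 0) := by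
    rw [← nsmul_eq_mul]
    apply Finset.card_nsmul_le_sum
    intro b hb'
    refine (hY b hb').trans (le_of_eq ?_)
    rw [Finset.sum_filter]
  rw [Finset.sum_comm] at h1
  refine h1.trans ?_
  have h2 : ∀ f : V → Option (Fin (g + 1) × Fin (g + 1)),
      (∑ b ∈ Y, (if f P.start ≠ none ∧ b ∈ Cert C P (g + 1) N f then wt x P.start f else 0)) ≤
        wt x P.start f * ((2 ^ N : ℝ) ^ (g + 1) * (mu g) ^ N) := by
    intro f
    have hw := wt_nonneg hx P.start f
    by_cases hf : f P.start ≠ none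
    · have h3 := cyl_card (isCyl_cert C P (g + 1) N f) σ hσ
        (fun b hbX => hb b (reach_of_cert hf hbX))
      have h4 : (∑ b ∈ Y, (if f P.start ≠ none ∧ b ∈ Cert C P (g + 1) N f then wt x P.start f
          else 0)) ≤ ∑ b : Fin (g + 1) → Fin N → Bool,
            (if b ∈ Cert C P (g + 1) N f then wt x P.start f else 0) := by
        refine (Finset.sum_le_sum_of_subset_of_nonneg (Finset.subset_univ Y) ?_).trans
          (Finset.sum_le_sum ?_)
        · intro b _ _
          split_ifs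
          · exact hw
          · exact le_rfl
        · intro b _
          by_cases hbX : b ∈ Cert C P (g + 1) N f
          · rw [if_pos ⟨hf, hbX⟩, if_pos hbX]
          · rw [if_neg (fun h => hbX h.2), if_neg hbX]
      refine h4.trans ?_
      rw [← Finset.sum_filter, Finset.sum_const, nsmul_eq_mul, mul_comm]
      exact mul_le_mul_of_nonneg_left h3 hw
    · have h4 : (∑ b ∈ Y, (if f P.start ≠ none ∧ b ∈ Cert C P (g + 1) N f then wt x P.start f
          else 0)) = 0 := by
        apply Finset.sum_eq_zero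
        intro b _
        rw [if_neg (fun h => hf h.1)]
      rw [h4]
      exact mul_nonneg hw hM
  refine (Finset.sum_le_sum (fun f _ => h2 f)).trans ?_
  rw [← Finset.sum_mul]
  refine mul_le_mul_of_nonneg_right ?_ hM
  have h5 := sum_wt (G := Fin (g + 1) × Fin (g + 1)) hx P.start
  have hcL : (Fintype.card (Fin (g + 1) × Fin (g + 1)) : ℝ) = (g + 1 : ℝ) ^ 2 := by
    rw [Fintype.card_prod, Fintype.card_fin]
    push_cast
    ring
  rw [hcL] at h5
  exact h5

end Pool.Agent.TH393.LB
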