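import Pool.Agent.TH393.LB7

set_option autoImplicit false

namespace Pool.Agent.TH393.LB

open Finset
open Pool.Agent.H541R2 (rd mv mv_le le_mv gsign mu mu_nonneg mu_lt_one IsCyl isCyl_univ cyl_card theLang
  sign_card)
open Pool.Agent.H867R4 (Code Out rd_out out_of_block W_mem rowsOf)
open Pool.Agent.H38R3.MH (simple_path path_of_matchings)

variable {k : ℕ} {V : Type}

/-- The times of the checkpoints: `0` and one time in each of the first `R` windows of length `D`. -/
def tt {R D : ℕ} (τ : Fin R → Fin D) : ℕ → ℕ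
  | 0 => 0
  | j + 1 => if h : j < R then 1 + j * D + (τ ⟨j, h⟩).val else 0

theorem tt_succ {R D : ℕ} (τ : Fin R → Fin D) {j : ℕ} (h : j < R) :
    tt τ (j + 1) = 1 + j * D + (τ ⟨j, h⟩).val := by
  simp only [tt, dif_pos h]

theorem tt_window {R D : ℕ} (τ : Fin R → Fin D) {j : ℕ} (h : j < R) :
    1 + j * D ≤ tt τ (j + 1) ∧ tt τ (j + 1) ≤ (j + 1) * D := by
  rw [tt_succ τ h]
  have h1 := (τ ⟨j, h⟩).isLt
  have h2 : (j + 1) * D = j * D + D := by ring
  omega

theorem tt_step {R D : ℕ} (τ : Fin R → Fin D) {i : ℕ} (h : i < R) :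
    tt τ i < tt τ (i + 1) ∧ tt τ (i + 1) ≤ tt τ i + 2 * D := by
  cases i with
  | zero =>
    have h1 := tt_window τ h
    have h2 : tt τ 0 = 0 := rfl
    omega
  | succ j =>
    have h1 := tt_window τ h
    have h2 := tt_window τ (show j < R by omega)
    have h3 : (j + 1 + 1) * D = j * D + 2 * D := by ring
    have h4 : (j + 1) * D = j * D + D := by ring
    omega

theorem tt_strict {R D : ℕ} (τ : Fin R → Fin D) : ∀ m i, i + m + 1 ≤ R →
    tt τ i < tt τ (i + m + 1) := by
  intro m
  induction m with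
  | zero => intro i h; exact (tt_step τ (by omega)).1
  | succ m ih =>
    intro i h
    have h1 := ih i (by omega)
    have h2 := (tt_step τ (show i + m + 1 < R by omega)).1
    rw [show i + (m + 1) + 1 = i + m + 1 + 1 by ring]
    omega

theorem tt_inj {R D : ℕ} (τ : Fin R → Fin D) {i j : ℕ} (hi : i ≤ R) (hj : j ≤ R)
    (h : tt τ i = tt τ j) : i = j := by
  rcases lt_trichotomy i j with h1 | h1 | h1
  · have := tt_strict τ (j - i - 1) i (by omega)
    rw [show i + (j - i - 1) + 1 = j by omega] at this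
    omega
  · exact h1
  · have := tt_strict τ (i - j - 1) j (by omega)
    rw [show j + (i - j - 1) + 1 = i by omega] at this
    omega

theorem tt_last {R D R₀ : ℕ} (τ : Fin R → Fin D) (hD : 0 < D) (h1 : R * D ≤ R₀)
    (h2 : R₀ < (R + 1) * D) : tt τ R ≤ R₀ ∧ R₀ ≤ tt τ R + 2 * D := by
  cases R with
  | zero =>
    have h3 : tt τ 0 = 0 := rfl
    rw [h3]
    omega
  | succ j =>
    have h3 := tt_window τ (show j < j + 1 by omega)
    have h4 : (j + 1 + 1) * D = j * D + 2 * D := by ring
    omega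

theorem tt_le {R D R₀ : ℕ} (τ : Fin R → Fin D) (hD : 0 < D) (h1 : R * D ≤ R₀)
    (h2 : R₀ < (R + 1) * D) {i : ℕ} (hi : i ≤ R) : tt τ i ≤ R₀ := by
  have h3 := (tt_last τ hD h1 h2).1
  by_cases h : i = R
  · rw [h]; exact h3
  · have := tt_strict τ (R - i - 1) i (by omega)
    rw [show i + (R - i - 1) + 1 = R by omega] at this
    omega

open Classical in
/-- An accepting computation of length `T` has many certificates. -/
theorem many_certs [Fintype V] (C : Code Unit) (P : Prog k V) {N : ℕ}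
    (b : Fin (5 * k + 1) → Fin N → Bool) {T : ℕ} {ρ : ℕ → V} (hρ : P.AccRun (C.W b) T ρ)
    {x : ℝ} (hx0 : 0 < x) (hx1 : x ≤ 1) :
    ∃ R : ℕ, R * (N * (C.x₁.length + 1) + 1) ≤ T ∧
      (((N * (C.x₁.length + 1) + 1 : ℕ) : ℝ) * x) ^ R ≤
      ∑ f ∈ (Finset.univ : Finset (V → Option (Fin (5 * k + 1) × Fin (5 * k + 1)))).filter
        (fun f => f P.start ≠ none ∧ b ∈ Cert C P (5 * k + 1) N f), wt x P.start f := by
  obtain ⟨h0, h1, h2⟩ := hρ
  obtain ⟨R₀, hR₀, p, hp0, hp1, hp2, hp3⟩ := simple_path (fun u v => P.Step (C.W b) u v)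
    (fun v => v ∈ P.acc) P.start T ⟨ρ, h0, h1, h2⟩
  obtain ⟨D, hD⟩ : ∃ D, D = N * (C.x₁.length + 1) + 1 := ⟨_, rfl⟩
  have hD0 : 0 < D := by omega
  obtain ⟨R, hR⟩ : ∃ R, R = R₀ / D := ⟨_, rfl⟩
  have hR1 : R * D ≤ R₀ := by rw [hR]; exact Nat.div_mul_le_self _ _
  have hR2 : R₀ < (R + 1) * D := by
    rw [hR]; exact Nat.lt_mul_of_div_lt (Nat.lt_succ_self _) hD0
  rw [← hD]
  refine ⟨R, by omega, ?_⟩
  have hlong : ∀ t t', t ≤ t' → t' ≤ R₀ → t' ≤ t + 2 * D → ∃ r : Fin (5 * k + 1),
      Ph P (N * (C.x₁.length + 1) + 1) (C.W b) r (p t) (p t') := by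
    intro t t' h3 h4 h5
    obtain ⟨m, rfl⟩ := Nat.exists_eq_add_of_le h3
    obtain ⟨r, hr⟩ := ph_long (P := P) hD0 (w := C.W b) (ρ := p) t m (by omega)
      (fun s _ hs' => hp1 s (by omega))
    exact ⟨r, by rw [← hD]; exact hr⟩
  have hex : ∀ τ : Fin R → Fin D, ∃ f : V → Option (Fin (5 * k + 1) × Fin (5 * k + 1)),
      (∀ a, f a ≠ none ↔ ∃ i, i ≤ R ∧ p (tt τ i) = a) ∧ b ∈ Cert C P (5 * k + 1) N f := by
    intro τ
    obtain ⟨f, hf1, hf2⟩ := matchings_of_path'
      (fun (r : Fin (5 * k + 1)) (a y : V) => Ph P (N * (C.x₁.length + 1) + 1) (C.W b) r a y)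
      (fun (r : Fin (5 * k + 1)) a => ∃ d ∈ P.acc,
        Ph P (N * (C.x₁.length + 1) + 1) (C.W b) r a d) P.start R (fun i => p (tt τ i))
      hp0
      (fun i hi => hlong _ _ (tt_step τ hi).1.le (tt_le τ hD0 hR1 hR2 hi) (tt_step τ hi).2)
      (by
        obtain ⟨r, hr⟩ := hlong (tt τ R) R₀ (tt_last τ hD0 hR1 hR2).1 le_rfl
          (tt_last τ hD0 hR1 hR2).2
        exact ⟨r, p R₀, hp2, hr⟩)
      (fun i j hi hj hij => tt_inj τ hi hj
        (hp3 _ _ (tt_le τ hD0 hR1 hR2 hi) (tt_le τ hD0 hR1 hR2 hj) hij))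
    exact ⟨f, hf1, hf2⟩
  choose F hF1 hF2 using hex
  have hFinj : Function.Injective F := by
    intro τ τ' h
    funext j
    have h3 : F τ (p (tt τ (j + 1))) ≠ none := (hF1 τ _).mpr ⟨j + 1, j.isLt, rfl⟩
    rw [h, hF1 τ'] at h3
    obtain ⟨i, hi, h4⟩ := h3
    have h5 := hp3 _ _ (tt_le τ' hD0 hR1 hR2 hi) (tt_le τ hD0 hR1 hR2 (show j.val + 1 ≤ R from j.isLt)) h4
    have h6 := tt_window τ j.isLt
    cases i with
    | zero =>
      have : tt τ' 0 = 0 := rfl
      omega
    | succ i =>
      have h7 := tt_window τ' (show i < R by omega)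
      have hij : i = j.val := by
        rcases lt_trichotomy i j.val with h8 | h8 | h8
        · have : (i + 1) * D ≤ j.val * D := Nat.mul_le_mul_right _ h8
          omega
        · exact h8
        · have : (j.val + 1) * D ≤ i * D := Nat.mul_le_mul_right _ h8
          omega
      subst hij
      rw [tt_succ τ' j.isLt, tt_succ τ j.isLt] at h5
      have h8 : (τ' j).val = (τ j).val := by
        have : (⟨j.val, j.isLt⟩ : Fin R) = j := rfl
        rw [this] at h5
        omega
      exact (Fin.ext h8).symm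
  have hstart : p (tt (fun _ => ⟨0, hD0⟩ : Fin R → Fin D) 0) = P.start := hp0
  have hw : ∀ τ, x ^ R ≤ wt x P.start (F τ) := by
    intro τ
    obtain ⟨A, hA⟩ : ∃ A : Finset V, A = (Finset.range R).image (fun i => p (tt τ (i + 1))) := ⟨_, rfl⟩
    have hAc : A.card ≤ R := by
      rw [hA]; exact Finset.card_image_le.trans (by simp)
    have h3 : ∏ a, (if a ∈ A then x else 1) ≤ wt x P.start (F τ) := by
      unfold wt
      apply Finset.prod_le_prod
      · intro a _; split_ifs
        · exact hx0.le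
        · exact zero_le_one
      · intro a _
        by_cases ha : a = P.start
        · simp only [ha, if_true]
          split_ifs
          · exact hx1
          · exact le_rfl
        · simp only [ha, if_false]
          cases hfa : F τ a with
          | none =>
            simp only [Option.elim_none]
            split_ifs
            · exact hx1
            · exact le_rfl
          | some y =>
            obtain ⟨i, hi, h4⟩ := (hF1 τ a).mp (by rw [hfa]; simp)
            have hi0 : i ≠ 0 := by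
              rintro rfl
              exact ha (h4.symm.trans hp0)
            have : a ∈ A := by
              rw [hA, Finset.mem_image]
              refine ⟨i - 1, by simp; omega, ?_⟩
              rw [show i - 1 + 1 = i by omega]
              exact h4
            simp [this]
    refine le_trans ?_ h3
    rw [Finset.prod_ite_mem, Finset.univ_inter, Finset.prod_const]
    exact pow_le_pow_of_le_one hx0.le hx1 hAc
  have hsub : (Finset.univ : Finset (Fin R → Fin D)).image F ⊆
      (Finset.univ : Finset (V → Option (Fin (5 * k + 1) × Fin (5 * k + 1)))).filter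
        (fun f => f P.start ≠ none ∧ b ∈ Cert C P (5 * k + 1) N f) := by
    intro f hf
    rw [Finset.mem_image] at hf
    obtain ⟨τ, _, rfl⟩ := hf
    rw [Finset.mem_filter]
    exact ⟨Finset.mem_univ _, (hF1 τ _).mpr ⟨0, by omega, hp0⟩, hF2 τ⟩
  refine le_trans ?_ (Finset.sum_le_sum_of_subset_of_nonneg hsub
    (fun f _ _ => wt_nonneg hx0.le P.start f))
  rw [Finset.sum_image (fun τ _ τ' _ h => hFinj h)]
  calc ((D : ℝ) * x) ^ R = (Finset.univ : Finset (Fin R → Fin D)).card • x ^ R := by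
        rw [Finset.card_univ, Fintype.card_fun, Fintype.card_fin, Fintype.card_fin, nsmul_eq_mul,
          mul_pow]
        push_cast
        ring
    _ ≤ ∑ τ : Fin R → Fin D, wt x P.start (F τ) :=
        Finset.card_nsmul_le_sum _ _ _ (fun τ _ => hw τ)

end Pool.Agent.TH393.LB
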