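import Pool.Agent.TH393.LB8

set_option autoImplicit false

namespace Pool.Agent.TH393.LB

open Finset
open Pool.Agent.H541R2 (rd mv mv_le le_mv gsign mu mu_nonneg mu_lt_one IsCyl isCyl_univ cyl_card theLang
  sign_card)
open Pool.Agent.H867R4 (Code Out rd_out out_of_block W_mem rowsOf)

/-- There is a set `H` of words of length `n` in `L` which is hard for programs with `k` heads: whenever
such a program, with a set `V` of nodes of any size, accepts no word of length `n` outside `L`, then it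
accepts only a fraction `exp (-δ n)` of the words in `H` by computations of length `T` with
`T log (2 + |V| / n ^ 2) < δ n ^ 2`. -/
def HardS (k : ℕ) (δ : ℝ) (n : ℕ) (L : Set (List (Fin 4))) : Prop :=
  ∃ H : Set (List (Fin 4)), H.Nonempty ∧ H.Finite ∧ (∀ w ∈ H, w.length = n ∧ w ∈ L) ∧
    ∀ (V : Type) (_ : Fintype V) (P : Prog k V),
      (∀ w : List (Fin 4), w.length = n → P.Accepts w → w ∈ L) →
      (({w ∈ H | ∃ T ρ, P.AccRun w T ρ ∧
          T * Real.log (2 + Fintype.card V / (n : ℝ) ^ 2) < δ * (n : ℝ) ^ 2}.ncard : ℕ) : ℝ) ≤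
        Real.exp (-(δ * n)) * H.ncard

theorem mu_le (g : ℕ) : mu g ≤ 1 - (1 / 4) ^ g := by
  induction g with
  | zero => simp [mu]
  | succ g ih =>
    have h1 : (0 : ℝ) ≤ (1 / 4) ^ g := by positivity
    have h2 : ((1 : ℝ) / 4) ^ g ≤ 1 := pow_le_one₀ (by norm_num) (by norm_num)
    have e : ((1 : ℝ) / 4) ^ (g + 1) = (1 / 4) ^ g * (1 / 4) := pow_succ _ _
    rw [mu, Real.sqrt_le_left (by rw [e]; linarith), e]
    nlinarith

theorem mu_pow_le (g N : ℕ) : mu g ^ N ≤ Real.exp (-((1 / 4) ^ g * N)) := by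
  have h1 : mu g ≤ Real.exp (-((1 / 4) ^ g)) := by
    have h2 := mu_le g
    have h3 := Real.add_one_le_exp (-((1 / 4 : ℝ) ^ g))
    linarith
  calc mu g ^ N ≤ (Real.exp (-((1 / 4) ^ g))) ^ N := pow_le_pow_left₀ (mu_nonneg g) h1 N
    _ = _ := by rw [← Real.exp_nat_mul]; congr 1; ring

/-- The numbers used in the bound. -/
noncomputable def K₀ (k v : ℕ) : ℝ := 4 * (5 * k + 1) ^ 2 * (5 * k + 2) ^ 2 * (v + 1) * 4 ^ (5 * k)

noncomputable def δ₀ (k v : ℕ) : ℝ := (1 / 4) ^ (5 * k) / (16 * K₀ k v * (5 * k + 2) ^ 2 * (v + 1))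

theorem K₀_pos (k v : ℕ) : 1 ≤ K₀ k v := by
  unfold K₀
  have h1 : (1 : ℝ) ≤ (5 * k + 1) ^ 2 := one_le_pow₀ (by
    have : (0 : ℝ) ≤ k := by positivity
    linarith)
  have h2 : (1 : ℝ) ≤ (5 * k + 2) ^ 2 := one_le_pow₀ (by
    have : (0 : ℝ) ≤ k := by positivity
    linarith)
  have h3 : (1 : ℝ) ≤ (v : ℝ) + 1 := by
    have : (0 : ℝ) ≤ v := by positivity
    linarith
  have h4 : (1 : ℝ) ≤ 4 ^ (5 * k) := one_le_pow₀ (by norm_num)
  have h5 := one_le_mul_of_one_le_of_one_le h1 h2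
  have h6 := one_le_mul_of_one_le_of_one_le h5 h3
  have h7 := one_le_mul_of_one_le_of_one_le h6 h4
  calc (1 : ℝ) ≤ 4 * (((5 * k + 1) ^ 2 * (5 * k + 2) ^ 2 * (v + 1)) * 4 ^ (5 * k)) := by linarith
    _ = _ := by ring

/-- The number of certificates of a word that is accepted quickly, in terms of `x`. -/
theorem power_bound {ηN B Λ D x : ℝ} {R : ℕ} (hDx0 : 0 < D * x)
    (hlog : -Real.log (D * x) ≤ B * Λ) (hR : (R : ℝ) * (B * Λ) ≤ ηN / 8) :
    Real.exp (-(ηN / 8)) ≤ (D * x) ^ R := by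
  have e1 : (D * x) ^ R = Real.exp (R * Real.log (D * x)) := by
    rw [← Real.log_pow, Real.exp_log (by positivity)]
  rw [e1]
  apply Real.exp_le_exp.mpr
  have h1 : (R : ℝ) * (-Real.log (D * x)) ≤ R * (B * Λ) :=
    mul_le_mul_of_nonneg_left hlog (by positivity)
  linarith

/-- The choice of `x`. -/
theorem choose_x {η N D y G2 K n : ℝ} {v : ℝ} (hη : 0 < η) (hη1 : η ≤ 1) (hN : 1 ≤ N) (hD : N ≤ D)
    (hy : 0 < y) (hG : 1 ≤ G2) (hn : 0 < n) (hv : 0 ≤ v)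
    (hK : 4 * G2 * v / η ≤ K) (hK1 : 1 ≤ K) (hnD : n ^ 2 ≤ v * (N * D)) :
    ∃ x : ℝ, 0 < x ∧ x ≤ 1 ∧ G2 * x * y ≤ η * N / 4 ∧
      -Real.log (D * x) ≤ 2 * K * Real.log (2 + y / n ^ 2) := by
  have hD0 : 0 < D := by linarith
  have hN0 : 0 < N := by linarith
  have hG0 : 0 < G2 := by linarith
  obtain ⟨x, hx⟩ : ∃ x : ℝ, x = min (1 / D) (η * N / (4 * G2 * y)) := ⟨_, rfl⟩
  have hx0 : 0 < x := by rw [hx]; exact lt_min (by positivity) (by positivity)
  have hx1 : x ≤ 1 / D := by rw [hx]; exact min_le_left _ _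
  have hx2 : x ≤ η * N / (4 * G2 * y) := by rw [hx]; exact min_le_right _ _
  refine ⟨x, hx0, ?_, ?_, ?_⟩
  · refine hx1.trans ?_
    rw [div_le_one hD0]; linarith
  · rw [le_div_iff₀ (by positivity)] at hx2
    linarith
  · have hlog2 : (1 / 2 : ℝ) ≤ Real.log 2 := by
      have := Real.log_two_gt_d9
      linarith
    have hy2 : 0 ≤ y / n ^ 2 := by positivity
    have hΛ : Real.log 2 ≤ Real.log (2 + y / n ^ 2) := Real.log_le_log (by norm_num) (by linarith)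
    -- `1 / (D x) ≤ K (2 + y / n ^ 2)`
    have h1 : 1 ≤ D * x * (K * (2 + y / n ^ 2)) := by
      rcases min_choice (1 / D) (η * N / (4 * G2 * y)) with h | h
      · have : D * x = 1 := by rw [hx, h]; field_simp
        rw [this, one_mul]
        nlinarith
      · have e : D * x = η * N * D / (4 * G2 * y) := by rw [hx, h]; ring
        have h2 : η * N * D / (4 * G2 * y) * (4 * G2 * v / η * (y / n ^ 2)) = v * (N * D) / n ^ 2 := by
          field_simp
        have h3 : 1 ≤ v * (N * D) / n ^ 2 := by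
          rw [le_div_iff₀ (by positivity)]; linarith
        have h4 : 4 * G2 * v / η * (y / n ^ 2) ≤ K * (2 + y / n ^ 2) := by
          have h5 : 4 * G2 * v / η * (y / n ^ 2) ≤ K * (y / n ^ 2) :=
            mul_le_mul_of_nonneg_right hK hy2
          nlinarith
        have h6 : 0 ≤ η * N * D / (4 * G2 * y) := by positivity
        rw [e]
        calc (1 : ℝ) ≤ v * (N * D) / n ^ 2 := h3
          _ = η * N * D / (4 * G2 * y) * (4 * G2 * v / η * (y / n ^ 2)) := h2.symm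
          _ ≤ _ := mul_le_mul_of_nonneg_left h4 h6
    have hDx : 0 < D * x := by positivity
    have h2 : 0 ≤ Real.log (D * x * (K * (2 + y / n ^ 2))) := Real.log_nonneg h1
    have hK0 : 0 < K := by linarith
    have e1 : Real.log (D * x * (K * (2 + y / n ^ 2))) =
        Real.log (D * x) + Real.log (K * (2 + y / n ^ 2)) :=
      Real.log_mul hDx.ne' (by positivity)
    have e2 : Real.log (K * (2 + y / n ^ 2)) = Real.log K + Real.log (2 + y / n ^ 2) :=
      Real.log_mul hK0.ne' (by positivity)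
    rw [e1, e2] at h2
    have h3 : Real.log K ≤ K - 1 := Real.log_le_sub_one_of_pos (by linarith)
    have h4 : (K - 1) * (1 / 2) ≤ (K - 1) * Real.log (2 + y / n ^ 2) :=
      mul_le_mul_of_nonneg_left (by linarith) (by linarith)
    linarith

theorem hardS_aux (C : Code Unit) (k N n : ℕ)
    (hN : 8 * ((5 * k + 1 : ℝ) ^ 2 + 1) * 4 ^ (5 * k) ≤ N)
    (hn1 : n + 1 = (5 * k + 2) * (N * (C.x₁.length + 1) + 1))
    (σ : ℝ) (hσ : σ = 1 ∨ σ = -1) (L : Set (List (Fin 4)))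
    (hL : ∀ b : Fin (5 * k + 1) → Fin N → Bool, C.W b ∈ L ↔ gsign Finset.univ b = σ) :
    HardS k (δ₀ k (C.x₁.length + 1)) n L := by
  classical
  obtain ⟨v, hv⟩ : ∃ v, v = C.x₁.length + 1 := ⟨_, rfl⟩
  rw [← hv] at hn1 ⊢
  have hv1 : 1 ≤ v := by omega
  have hv1' : (1 : ℝ) ≤ v := by exact_mod_cast hv1
  obtain ⟨η, hη⟩ : ∃ η : ℝ, η = (1 / 4) ^ (5 * k) := ⟨_, rfl⟩
  have hη0 : 0 < η := by rw [hη]; positivity
  have hη1 : η ≤ 1 := by rw [hη]; exact pow_le_one₀ (by norm_num) (by norm_num)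
  have hη4 : η * 4 ^ (5 * k) = 1 := by
    rw [hη, ← mul_pow]; norm_num
  obtain ⟨gg, hgg⟩ : ∃ gg : ℝ, gg = 5 * k + 2 := ⟨_, rfl⟩
  have hk0 : (0 : ℝ) ≤ k := by positivity
  have hgg2 : 2 ≤ gg := by rw [hgg]; linarith
  obtain ⟨G2, hG2⟩ : ∃ G2 : ℝ, G2 = (5 * k + 1) ^ 2 := ⟨_, rfl⟩
  have hG21 : 1 ≤ G2 := by rw [hG2]; exact one_le_pow₀ (by linarith)
  obtain ⟨K, hK⟩ : ∃ K : ℝ, K = K₀ k v := ⟨_, rfl⟩
  have hK1 : 1 ≤ K := by rw [hK]; exact K₀_pos k v
  have hKeq : K = 4 * G2 * (gg ^ 2 * (v + 1)) / η := by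
    rw [hK, K₀, hG2, hgg, eq_div_iff hη0.ne']
    calc 4 * (5 * (k : ℝ) + 1) ^ 2 * (5 * k + 2) ^ 2 * (v + 1) * 4 ^ (5 * k) * η
        = 4 * (5 * (k : ℝ) + 1) ^ 2 * (5 * k + 2) ^ 2 * (v + 1) * (η * 4 ^ (5 * k)) := by ring
      _ = _ := by rw [hη4]; ring
  obtain ⟨δ, hδ⟩ : ∃ δ : ℝ, δ = δ₀ k v := ⟨_, rfl⟩
  have hδeq : δ = η / (16 * K * gg ^ 2 * (v + 1)) := by
    rw [hδ, δ₀, hη, hK, hgg]
  have hδ0 : 0 < δ := by rw [hδeq]; positivity
  rw [← hδ]
  have hηN : 8 * (G2 + 1) ≤ η * N := by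
    calc 8 * (G2 + 1) = η * (8 * (G2 + 1) * 4 ^ (5 * k)) := by
          rw [show η * (8 * (G2 + 1) * 4 ^ (5 * k)) = 8 * (G2 + 1) * (η * 4 ^ (5 * k)) by ring, hη4]
          ring
      _ ≤ η * N := by
          apply mul_le_mul_of_nonneg_left _ hη0.le
          rw [hG2]; exact hN
  have hN1' : (1 : ℝ) ≤ N := by
    have h1 : η * N ≤ 1 * N := mul_le_mul_of_nonneg_right hη1 (by positivity)
    linarith
  have hN0 : (0 : ℝ) < N := by linarith
  obtain ⟨D, hD⟩ : ∃ D, D = N * (C.x₁.length + 1) + 1 := ⟨_, rfl⟩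
  have hDv : D = N * v + 1 := by rw [hD, hv]
  rw [← hDv] at hn1
  have hDN : (N : ℝ) ≤ D := by
    rw [hDv]; push_cast; nlinarith
  have hD0 : (0 : ℝ) < D := by linarith
  have hDle : (D : ℝ) ≤ (v + 1) * N := by
    rw [hDv]; push_cast; linarith
  have hn1' : (n : ℝ) + 1 = gg * D := by
    rw [hgg]; exact_mod_cast hn1
  have hnle : (n : ℝ) ≤ gg * D := by linarith
  have hn0 : (0 : ℝ) < n := by nlinarith
  have hlenW : ∀ b : Fin (5 * k + 1) → Fin N → Bool, (C.W b).length = n := by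
    intro b
    have h1 := C.W_length b
    rw [← hD] at h1
    have h2 : (5 * k + 1 + 1) * D = (5 * k + 2) * D := by ring
    omega
  have hσ1 : |σ| = 1 := by rcases hσ with h | h <;> rw [h] <;> norm_num
  have hnn : (n : ℝ) ^ 2 ≤ gg ^ 2 * (D * D) := by
    calc (n : ℝ) ^ 2 ≤ (gg * D) ^ 2 := pow_le_pow_left₀ hn0.le hnle 2
      _ = _ := by ring
  have hnD : (n : ℝ) ^ 2 ≤ (gg ^ 2 * (v + 1)) * (N * D) := by
    calc (n : ℝ) ^ 2 ≤ gg ^ 2 * (D * D) := hnn
      _ ≤ gg ^ 2 * (((v + 1) * N) * D) := by gcongr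
      _ = _ := by ring
  obtain ⟨A, hA⟩ : ∃ A : Finset (Fin (5 * k + 1) → Fin N → Bool),
      A = Finset.univ.filter (fun b => gsign Finset.univ b = σ) := ⟨_, rfl⟩
  obtain ⟨Pw, hPw⟩ : ∃ Pw : ℝ, Pw = (2 ^ N : ℝ) ^ (5 * k + 1) := ⟨_, rfl⟩
  have hPw0 : 0 < Pw := by rw [hPw]; positivity
  have hmu0 := mu_nonneg (5 * k)
  have hmuN : (mu (5 * k)) ^ N ≤ Real.exp (-(η * N)) := by
    rw [hη]; exact mu_pow_le (5 * k) N
  have hexp1 : Real.exp (-(η * N)) ≤ 1 / 2 := by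
    rw [Real.exp_neg, inv_le_comm₀ (Real.exp_pos _) (by norm_num)]
    have := Real.add_one_le_exp (η * N)
    linarith
  have hAcard : Pw / 4 ≤ (A.card : ℝ) := by
    have h4 : (2 ^ N : ℝ) ^ (5 * k + 1) * (1 - (mu (5 * k)) ^ N) / 2 ≤ (A.card : ℝ) := by
      rw [hA]; convert sign_card (5 * k) N σ hσ
    rw [← hPw] at h4
    have h6 := mul_le_mul_of_nonneg_left (hmuN.trans hexp1) hPw0.le
    linarith
  have hHcard : ((fun b => C.W b) '' (A : Set (Fin (5 * k + 1) → Fin N → Bool))).ncard = A.card := by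
    rw [Set.ncard_image_of_injective _ (W_inj C), Set.ncard_coe_finset]
  refine ⟨(fun b => C.W b) '' (A : Set (Fin (5 * k + 1) → Fin N → Bool)), ?_, ?_, ?_, ?_⟩
  · have : A.Nonempty := by
      rw [← Finset.card_pos]
      have : (0 : ℝ) < A.card := lt_of_lt_of_le (by positivity) hAcard
      exact_mod_cast this
    obtain ⟨b, hb⟩ := this
    exact ⟨C.W b, b, by exact_mod_cast hb, rfl⟩
  · exact (Finset.finite_toSet A).image _
  · rintro w ⟨b, hb, rfl⟩
    refine ⟨hlenW b, (hL b).mpr ?_⟩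
    have hb' : b ∈ A := by exact_mod_cast hb
    rw [hA, Finset.mem_filter] at hb'
    exact hb'.2
  intro V _ P hP
  obtain ⟨y, hy⟩ : ∃ y : ℝ, y = Fintype.card V := ⟨_, rfl⟩
  have hy1 : 0 < y := by
    rw [hy]
    have : 0 < Fintype.card V := Fintype.card_pos_iff.mpr ⟨P.start⟩
    exact_mod_cast this
  rw [← hy]
  obtain ⟨Λ, hΛ⟩ : ∃ Λ : ℝ, Λ = Real.log (2 + y / (n : ℝ) ^ 2) := ⟨_, rfl⟩
  have hΛ0 : 0 < Λ := by
    rw [hΛ]
    apply Real.log_pos
    have : 0 ≤ y / (n : ℝ) ^ 2 := by positivity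
    linarith
  have hcorr : ∀ b : Fin (5 * k + 1) → Fin N → Bool,
      (∃ d ∈ P.acc, Relation.ReflTransGen (P.Step (C.W b)) P.start d) →
        gsign Finset.univ b = σ := by
    rintro b ⟨d, hd, hpath⟩
    rw [← hL b]
    exact hP _ (hlenW b) (run_of_path hd hpath)
  obtain ⟨Y, hY⟩ : ∃ Y : Finset (Fin (5 * k + 1) → Fin N → Bool),
      Y = Finset.univ.filter (fun b => ∃ T ρ, P.AccRun (C.W b) T ρ ∧ T * Λ < δ * (n : ℝ) ^ 2) :=
    ⟨_, rfl⟩
  have hle : ((({w ∈ (fun b => C.W b) '' (A : Set (Fin (5 * k + 1) → Fin N → Bool)) |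
      ∃ T ρ, P.AccRun w T ρ ∧ T * Real.log (2 + y / (n : ℝ) ^ 2) < δ * (n : ℝ) ^ 2}).ncard : ℕ) : ℝ)
      ≤ Y.card := by
    have hsub : {w ∈ (fun b => C.W b) '' (A : Set (Fin (5 * k + 1) → Fin N → Bool)) |
        ∃ T ρ, P.AccRun w T ρ ∧ T * Real.log (2 + y / (n : ℝ) ^ 2) < δ * (n : ℝ) ^ 2} ⊆
        (fun b => C.W b) '' (Y : Set (Fin (5 * k + 1) → Fin N → Bool)) := by
      rintro w ⟨⟨b, _, rfl⟩, T, ρ, hρ, hT⟩
      refine ⟨b, ?_, rfl⟩
      rw [hY]
      simp only [Finset.coe_filter, Finset.mem_univ, true_and, Set.mem_ofPred_eq]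
      exact ⟨T, ρ, hρ, by rw [hΛ]; exact hT⟩
    have h1 := Set.ncard_le_ncard hsub ((Finset.finite_toSet Y).image _)
    rw [Set.ncard_image_of_injective _ (W_inj C), Set.ncard_coe_finset] at h1
    exact_mod_cast h1
  obtain ⟨x, hx0, hx1, hx2, hx3⟩ := choose_x (η := η) (N := N) (D := D) (y := y) (G2 := G2) (K := K)
    (n := n) (v := gg ^ 2 * (v + 1)) hη0 hη1 hN1' hDN hy1 hG21 hn0 (by positivity)
    (le_of_eq hKeq.symm) hK1 hnD
  rw [← hΛ] at hx3
  have hcerts : ∀ b ∈ Y, Real.exp (-(η * N / 8)) ≤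
      ∑ f ∈ (Finset.univ : Finset (V → Option (Fin (5 * k + 1) × Fin (5 * k + 1)))).filter
        (fun f => f P.start ≠ none ∧ b ∈ Cert C P (5 * k + 1) N f), wt x P.start f := by
    intro b hb
    rw [hY, Finset.mem_filter] at hb
    obtain ⟨_, T, ρ, hρ, hT⟩ := hb
    obtain ⟨R, hR1, hR2⟩ := many_certs C P b hρ hx0 hx1
    refine le_trans ?_ hR2
    rw [← hD] at hR1 ⊢
    refine power_bound (B := 2 * K) (Λ := Λ) (by positivity) hx3 ?_
    have hR1' : (R : ℝ) * D ≤ T := by exact_mod_cast hR1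
    have h1 : (R : ℝ) * D * Λ ≤ T * Λ := mul_le_mul_of_nonneg_right hR1' hΛ0.le
    have h2 : (R : ℝ) * D * Λ ≤ δ * (gg ^ 2 * (D * D)) :=
      (h1.trans hT.le).trans (mul_le_mul_of_nonneg_left hnn hδ0.le)
    have h3 : (R : ℝ) * Λ * D ≤ (δ * gg ^ 2 * D) * D := by
      calc (R : ℝ) * Λ * D = (R : ℝ) * D * Λ := by ring
        _ ≤ δ * (gg ^ 2 * (D * D)) := h2
        _ = _ := by ring
    have h4 : (R : ℝ) * Λ ≤ δ * gg ^ 2 * D := le_of_mul_le_mul_right h3 hD0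
    calc (R : ℝ) * (2 * K * Λ) = 2 * K * (R * Λ) := by ring
      _ ≤ 2 * K * (δ * gg ^ 2 * D) := by gcongr
      _ ≤ 2 * K * (δ * gg ^ 2 * ((v + 1) * N)) := by gcongr
      _ = η * N / 8 := by rw [hδeq]; field_simp; norm_num
  have h5 := cert_count C P σ hσ1 hcorr hx0.le Y _ hcerts
  have hG2' : (((5 * k : ℕ) : ℝ) + 1) ^ 2 = G2 := by rw [hG2]; push_cast; ring
  rw [hG2', ← hPw, ← hy] at h5
  have hYle : (Y.card : ℝ) ≤ (1 + G2) * Pw * Real.exp (-(η * N / 2)) := by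
    have h6 : (Y.card : ℝ) * Real.exp (-(η * N / 8)) ≤
        (1 + G2) * Real.exp (η * N / 4) * (Pw * Real.exp (-(η * N))) := by
      refine h5.trans ?_
      gcongr
    have h11 : (Y.card : ℝ) = ((Y.card : ℝ) * Real.exp (-(η * N / 8))) * Real.exp (η * N / 8) := by
      rw [mul_assoc, ← Real.exp_add, neg_add_cancel, Real.exp_zero, mul_one]
    rw [h11]
    calc ((Y.card : ℝ) * Real.exp (-(η * N / 8))) * Real.exp (η * N / 8)
        ≤ ((1 + G2) * Real.exp (η * N / 4) * (Pw * Real.exp (-(η * N)))) * Real.exp (η * N / 8) := by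
          gcongr
      _ = (1 + G2) * Pw * (Real.exp (η * N / 4) * Real.exp (-(η * N)) * Real.exp (η * N / 8)) := by
          ring
      _ ≤ (1 + G2) * Pw * Real.exp (-(η * N / 2)) := by
          have h12 : Real.exp (η * N / 4) * Real.exp (-(η * N)) * Real.exp (η * N / 8) ≤
              Real.exp (-(η * N / 2)) := by
            rw [← Real.exp_add, ← Real.exp_add]
            apply Real.exp_le_exp.mpr
            have : 0 ≤ η * N := by positivity
            linarith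
          gcongr
  have hδn : δ * n ≤ η * N / 4 := by
    calc δ * (n : ℝ) ≤ δ * (gg * ((v + 1) * N)) := by
          apply mul_le_mul_of_nonneg_left _ hδ0.le
          exact hnle.trans (mul_le_mul_of_nonneg_left hDle (by linarith))
      _ = η * N / (16 * K * gg) := by rw [hδeq]; field_simp
      _ ≤ η * N / 4 := by
          apply div_le_div_of_nonneg_left (by positivity) (by norm_num)
          have := one_le_mul_of_one_le_of_one_le hK1 (show 1 ≤ gg by linarith)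
          linarith
  have hsmall : (1 + G2) * Real.exp (-(η * N / 2)) ≤ Real.exp (-(δ * n)) / 4 := by
    have h7 : 4 * (1 + G2) * Real.exp (-(η * N / 4)) ≤ 1 := by
      rw [Real.exp_neg, ← div_eq_mul_inv, div_le_one (Real.exp_pos _)]
      have := Real.add_one_le_exp (η * N / 4)
      have h8 := Real.quadratic_le_exp_of_nonneg (show 0 ≤ η * N / 4 by positivity)
      have h9 : 2 * (G2 + 1) ≤ η * N / 4 := by linarith
      have h10 : 2 * (G2 + 1) * (2 * (G2 + 1)) ≤ (η * N / 4) * (η * N / 4) :=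
        mul_self_le_mul_self (by linarith) h9
      have h11 : 4 * (1 + G2) ≤ 2 * (G2 + 1) + 2 * (G2 + 1) * (2 * (G2 + 1)) / 2 := by nlinarith
      calc 4 * (1 + G2) ≤ 2 * (G2 + 1) + 2 * (G2 + 1) * (2 * (G2 + 1)) / 2 := h11
        _ ≤ η * N / 4 + (η * N / 4) * (η * N / 4) / 2 := by gcongr
        _ ≤ 1 + η * N / 4 + (η * N / 4) ^ 2 / 2 := by rw [sq]; linarith
        _ ≤ _ := h8
    have e1 : Real.exp (-(η * N / 2)) = Real.exp (-(η * N / 4)) * Real.exp (-(η * N / 4)) := by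
      rw [← Real.exp_add]; congr 1; ring
    rw [e1]
    calc (1 + G2) * (Real.exp (-(η * N / 4)) * Real.exp (-(η * N / 4)))
        = (4 * (1 + G2) * Real.exp (-(η * N / 4))) * (Real.exp (-(η * N / 4)) / 4) := by ring
      _ ≤ 1 * (Real.exp (-(δ * n)) / 4) := by gcongr
      _ = _ := by ring
  rw [hHcard]
  calc _ ≤ (Y.card : ℝ) := hle
    _ ≤ (1 + G2) * Pw * Real.exp (-(η * N / 2)) := hYle
    _ = Pw * ((1 + G2) * Real.exp (-(η * N / 2))) := by ring
    _ ≤ Pw * (Real.exp (-(δ * n)) / 4) := by gcongr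
    _ = Real.exp (-(δ * n)) * (Pw / 4) := by ring
    _ ≤ Real.exp (-(δ * n)) * A.card := by gcongr

end Pool.Agent.TH393.LB
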