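import Pool.Agent.TH393.LkSyz

set_option autoImplicit false
set_option linter.unusedSectionVars false

/-!
The signed contraction on real functions of finite sets.
-/

namespace Pool.Agent.TH393.Lk

open Module Submodule Finset

variable {n : ℕ}

/-- the sign of removing `j` -/
def sg (j : Fin n) (Y : Finset (Fin n)) : ℝ := (-1) ^ (Y.filter (· < j)).card

lemma sg_ne (j : Fin n) (Y : Finset (Fin n)) : sg j Y ≠ 0 := by
  unfold sg
  exact pow_ne_zero _ (by norm_num)

lemma sg_insert_lt {j l : Fin n} {Y : Finset (Fin n)} (h : l < j) (hl : l ∉ Y) :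
    sg j (insert l Y) = - sg j Y := by
  unfold sg
  rw [Finset.filter_insert, if_pos h, Finset.card_insert_of_notMem (by simp [hl]), pow_succ]
  ring

lemma sg_insert_ge {j l : Fin n} {Y : Finset (Fin n)} (h : ¬ l < j) :
    sg j (insert l Y) = sg j Y := by
  unfold sg
  rw [Finset.filter_insert, if_neg h]

/-- the contraction -/
def ct : (Fin n → ℝ) →ₗ[ℝ] (Finset (Fin n) → ℝ) →ₗ[ℝ] (Finset (Fin n) → ℝ) :=
  LinearMap.mk₂ ℝ
    (fun φ v => fun Y => ∑ j ∈ Yᶜ, φ j * sg j Y * v (insert j Y))
    (fun φ ψ v => by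
      funext Y
      simp only [Pi.add_apply, add_mul, Finset.sum_add_distrib])
    (fun r φ v => by
      funext Y
      simp only [Pi.smul_apply, smul_eq_mul, Finset.mul_sum, mul_assoc])
    (fun φ v w => by
      funext Y
      simp only [Pi.add_apply, mul_add, Finset.sum_add_distrib])
    (fun r φ v => by
      funext Y
      simp only [Pi.smul_apply, smul_eq_mul, Finset.mul_sum]
      exact Finset.sum_congr rfl fun j _ => by ring)

lemma ct_apply (φ : Fin n → ℝ) (v : Finset (Fin n) → ℝ) (Y : Finset (Fin n)) :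
    ct φ v Y = ∑ j ∈ Yᶜ, φ j * sg j Y * v (insert j Y) := rfl

lemma ct_ct (φ : Fin n → ℝ) (v : Finset (Fin n) → ℝ) : ct φ (ct φ v) = 0 := by
  funext Y
  rw [ct_apply]
  simp only [ct_apply, Finset.mul_sum]
  rw [Finset.sum_sigma']
  simp only [Pi.zero_apply]
  refine Finset.sum_involution (fun p _ => ⟨p.2, p.1⟩) ?_ ?_ ?_ ?_
  · rintro ⟨j, l⟩ hp
    simp only [Finset.mem_sigma, Finset.mem_compl, Finset.mem_insert, not_or] at hp
    obtain ⟨hj, hlj, hl⟩ := hp
    simp only
    rw [Finset.insert_comm j l Y]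
    rcases lt_or_gt_of_ne hlj with h | h
    · rw [sg_insert_ge (j := l) (l := j) (by exact not_lt.2 h.le), sg_insert_lt (j := j) (l := l) h hl]
      ring
    · rw [sg_insert_lt (j := l) (l := j) h hj, sg_insert_ge (j := j) (l := l) (by exact not_lt.2 h.le)]
      ring
  · rintro ⟨j, l⟩ hp _ h
    simp only [Finset.mem_sigma, Finset.mem_compl, Finset.mem_insert, not_or] at hp
    simp only [Sigma.mk.injEq, heq_eq_eq] at h
    exact hp.2.1 h.1
  · rintro ⟨j, l⟩ hp
    simp only [Finset.mem_sigma, Finset.mem_compl, Finset.mem_insert, not_or] at hp ⊢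
    exact ⟨hp.2.2, fun h => hp.2.1 h.symm, hp.1⟩
  · rintro ⟨j, l⟩ hp
    rfl

/-- functions supported on `k`-sets -/
def gr (n k : ℕ) : Submodule ℝ (Finset (Fin n) → ℝ) where
  carrier := {v | ∀ Y, Y.card ≠ k → v Y = 0}
  add_mem' := by
    intro v w hv hw Y hY
    simp [hv Y hY, hw Y hY]
  zero_mem' := by intro Y _; rfl
  smul_mem' := by
    intro r v hv Y hY
    simp [hv Y hY]

lemma mem_gr {k : ℕ} {v : Finset (Fin n) → ℝ} : v ∈ gr n k ↔ ∀ Y, Y.card ≠ k → v Y = 0 :=
  Iff.rfl

lemma ct_gr {k : ℕ} {v : Finset (Fin n) → ℝ} (hv : v ∈ gr n (k + 1)) (φ : Fin n → ℝ) :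
    ct φ v ∈ gr n k := by
  intro Y hY
  rw [ct_apply]
  apply Finset.sum_eq_zero
  intro j hj
  rw [Finset.mem_compl] at hj
  rw [hv (insert j Y) (by rw [Finset.card_insert_of_notMem hj]; omega), mul_zero]

lemma ct_gr0 {v : Finset (Fin n) → ℝ} (hv : v ∈ gr n 0) (φ : Fin n → ℝ) :
    ct φ v = 0 := by
  funext Y
  rw [ct_apply]
  apply Finset.sum_eq_zero
  intro j hj
  rw [Finset.mem_compl] at hj
  rw [hv (insert j Y) (by rw [Finset.card_insert_of_notMem hj]; omega), mul_zero]

lemma ct_ev (j : Fin n) (v : Finset (Fin n) → ℝ) (Y : Finset (Fin n)) (hj : j ∉ Y) :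
    ct (ev j) v Y = sg j Y * v (insert j Y) := by
  rw [ct_apply, Finset.sum_eq_single j]
  · simp [ev]
  · intro l _ hl
    simp [ev, Pi.single_apply, hl]
  · intro h
    rw [Finset.mem_compl] at h
    exact absurd hj h

lemma ct_inj {k : ℕ} {v : Finset (Fin n) → ℝ} (hv : v ∈ gr n (k + 1))
    (h : ∀ φ, ct φ v = 0) : v = 0 := by
  funext X
  by_cases hX : X.card = k + 1
  · have hne : X.Nonempty := by
      rw [← Finset.card_pos]; omega
    obtain ⟨j, hj⟩ := hne
    have h1 := congrFun (h (ev j)) (X.erase j)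
    rw [ct_ev j v _ (Finset.notMem_erase _ _), Finset.insert_erase hj] at h1
    simp only [Pi.zero_apply, mul_eq_zero] at h1
    rcases h1 with h1 | h1
    · exact absurd h1 (sg_ne _ _)
    · simpa using h1
  · exact hv X hX

/-- functions supported on a family -/
def sp (A : Finset (Finset (Fin n))) : Submodule ℝ (Finset (Fin n) → ℝ) where
  carrier := {v | ∀ Y, Y ∉ A → v Y = 0}
  add_mem' := by
    intro v w hv hw Y hY
    simp [hv Y hY, hw Y hY]
  zero_mem' := by intro Y _; rfl
  smul_mem' := by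
    intro r v hv Y hY
    simp [hv Y hY]

lemma sp_eq_span (A : Finset (Finset (Fin n))) :
    sp A = span ℝ (Set.range fun Y : A => (Pi.single Y.1 1 : Finset (Fin n) → ℝ)) := by
  apply le_antisymm
  · intro v hv
    have h1 : v = ∑ Y ∈ A, v Y • (Pi.single Y 1 : Finset (Fin n) → ℝ) := by
      funext X
      rw [Finset.sum_apply]
      simp only [Pi.smul_apply, smul_eq_mul, Pi.single_apply, mul_ite, mul_one, mul_zero,
        Finset.sum_ite_eq]
      split_ifs with hX
      · rfl
      · exact hv X hX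
    rw [h1]
    refine sum_mem fun Y hY => Submodule.smul_mem _ _ (subset_span ⟨⟨Y, hY⟩, rfl⟩)
  · rw [span_le]
    rintro _ ⟨⟨Y, hY⟩, rfl⟩ X hX
    simp only [Pi.single_apply]
    rw [if_neg]
    rintro rfl
    exact hX hY

lemma finrank_sp (A : Finset (Finset (Fin n))) : finrank ℝ (sp A) = A.card := by
  rw [sp_eq_span]
  rw [finrank_span_eq_card]
  · simp
  · have h1 := (Pi.basisFun ℝ (Finset (Fin n))).linearIndependent
    have h2 := h1.comp (fun Y : A => Y.1) Subtype.val_injective
    convert h2 using 1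
    funext Y
    simp

lemma bd_sp (A : Finset (Finset (Fin n))) : bd ct (sp A) = sp A.shadow := by
  apply le_antisymm
  · apply bd_le
    intro φ v hv Y hY
    rw [ct_apply]
    apply Finset.sum_eq_zero
    intro j hj
    rw [Finset.mem_compl] at hj
    rw [hv (insert j Y) ?_, mul_zero]
    intro hc
    exact hY (Finset.mem_shadow_iff_insert_mem.2 ⟨j, hj, hc⟩)
  · rw [sp_eq_span A.shadow, span_le]
    rintro _ ⟨⟨Y, hY⟩, rfl⟩
    obtain ⟨j, hj, hjY⟩ := Finset.mem_shadow_iff_insert_mem.1 hY
    have h1 : (Pi.single (insert j Y) 1 : Finset (Fin n) → ℝ) ∈ sp A := by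
      intro X hX
      simp only [Pi.single_apply]
      rw [if_neg]
      rintro rfl
      exact hX hjY
    have h2 : ct (ev j) (Pi.single (insert j Y) 1 : Finset (Fin n) → ℝ) =
        sg j Y • (Pi.single Y 1 : Finset (Fin n) → ℝ) := by
      funext X
      by_cases hjX : j ∈ X
      · rw [ct_apply, Finset.sum_eq_zero]
        · have : X ≠ Y := by rintro rfl; exact hj hjX
          simp [Pi.single_apply, this]
        · intro l hl
          rw [Finset.mem_compl] at hl
          have : l ≠ j := by rintro rfl; exact hl hjX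
          simp [ev, Pi.single_apply, this]
      · rw [ct_ev j _ X hjX]
        by_cases hXY : X = Y
        · subst hXY
          simp
        · have : insert j X ≠ insert j Y := by
            intro h
            apply hXY
            have := congrArg (fun Z => Finset.erase Z j) h
            simpa [Finset.erase_insert hjX, Finset.erase_insert hj] using this
          simp [Pi.single_apply, hXY, this]
    have h3 := mem_bd ct (ev j) h1
    rw [h2] at h3
    have h4 := Submodule.smul_mem _ (sg j Y)⁻¹ h3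
    rw [smul_smul, inv_mul_cancel₀ (sg_ne j Y), one_smul] at h4
    exact h4

lemma sp_le_gr {A : Finset (Finset (Fin n))} {k : ℕ} (h : ∀ X ∈ A, X.card = k) :
    sp A ≤ gr n k := by
  intro v hv Y hY
  exact hv Y fun hYA => hY (h Y hYA)

end Pool.Agent.TH393.Lk
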