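import Mathlib

set_option autoImplicit false
set_option linter.unusedSectionVars false

/-!
The minimum shadow function and the splitting inequality.
-/

namespace Pool.Agent.TH393.Lk

open Finset

/-- minimum shadow size of `t` sets of size `k` -/
noncomputable def Fm (k t : ℕ) : ℕ :=
  sInf {m : ℕ | ∃ 𝒜 : Finset (Finset ℕ), 𝒜.card = t ∧
          (∀ A ∈ 𝒜, A.card = k) ∧ (Finset.shadow 𝒜).card = m}

lemma Fm_le {k t : ℕ} (𝒜 : Finset (Finset ℕ)) (h1 : 𝒜.card = t) (h2 : ∀ A ∈ 𝒜, A.card = k) :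
    Fm k t ≤ (Finset.shadow 𝒜).card :=
  Nat.sInf_le ⟨𝒜, h1, h2, rfl⟩

lemma exists_fam (k t : ℕ) (hk : 1 ≤ k) :
    ∃ 𝒜 : Finset (Finset ℕ), 𝒜.card = t ∧ (∀ A ∈ 𝒜, A.card = k) := by
  have h1 : t ≤ (powersetCard k (range (t + k))).card := by
    rw [card_powersetCard, card_range]
    have h2 : (t + k).choose k = (t + k).choose t := by
      rw [Nat.choose_symm_add]
    rw [h2]
    calc t ≤ t + 1 := Nat.le_succ t
      _ = (t + 1).choose t := by simp
      _ ≤ (t + k).choose t := Nat.choose_mono t (by omega)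
  obtain ⟨𝒜, h𝒜, hc⟩ := Finset.exists_subset_card_eq h1
  exact ⟨𝒜, hc, fun A hA => (mem_powersetCard.1 (h𝒜 hA)).2⟩

lemma Fm_opt (k t : ℕ) (hk : 1 ≤ k) :
    ∃ 𝒜 : Finset (Finset ℕ), 𝒜.card = t ∧ (∀ A ∈ 𝒜, A.card = k) ∧
      (Finset.shadow 𝒜).card = Fm k t := by
  have h : {m : ℕ | ∃ 𝒜 : Finset (Finset ℕ), 𝒜.card = t ∧
          (∀ A ∈ 𝒜, A.card = k) ∧ (Finset.shadow 𝒜).card = m}.Nonempty := by
    obtain ⟨𝒜, h1, h2⟩ := exists_fam k t hk
    exact ⟨_, 𝒜, h1, h2, rfl⟩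
  exact Nat.sInf_mem h

lemma Fm_zero (t : ℕ) : Fm 0 t = 0 := by
  by_cases h : {m : ℕ | ∃ 𝒜 : Finset (Finset ℕ), 𝒜.card = t ∧
          (∀ A ∈ 𝒜, A.card = 0) ∧ (Finset.shadow 𝒜).card = m}.Nonempty
  · obtain ⟨𝒜, h1, h2, h3⟩ := Nat.sInf_mem h
    unfold Fm
    rw [← h3, card_eq_zero, eq_empty_iff_forall_notMem]
    intro Y hY
    obtain ⟨a, ha, hA⟩ := mem_shadow_iff_insert_mem.1 hY
    have := h2 _ hA
    simp at this
  · unfold Fm
    rw [Set.not_nonempty_iff_eq_empty.1 h, Nat.sInf_empty]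

lemma Fm_nil (k : ℕ) : Fm k 0 = 0 := by
  have := Fm_le (k := k) (t := 0) ∅ rfl (by simp)
  simpa using this

lemma Fm_mono (k : ℕ) : Monotone (Fm k) := by
  intro s t hst
  rcases Nat.eq_zero_or_pos k with rfl | hk
  · rw [Fm_zero, Fm_zero]
  · obtain ⟨𝒜, h1, h2, h3⟩ := Fm_opt k t hk
    obtain ⟨ℬ, hℬ, hc⟩ := Finset.exists_subset_card_eq (show s ≤ 𝒜.card by omega)
    rw [← h3]
    exact (Fm_le ℬ hc fun A hA => h2 A (hℬ hA)).trans (card_le_card (shadow_mono hℬ))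

lemma Fm_one_ge (k : ℕ) : k ≤ Fm k 1 := by
  rcases Nat.eq_zero_or_pos k with rfl | hk
  · exact Nat.zero_le _
  · obtain ⟨𝒜, h1, h2, h3⟩ := Fm_opt k 1 hk
    obtain ⟨A, rfl⟩ := Finset.card_eq_one.1 h1
    rw [← h3]
    have h4 : A.image (fun a => A.erase a) ⊆ shadow {A} := by
      intro Y hY
      obtain ⟨a, ha, rfl⟩ := mem_image.1 hY
      exact erase_mem_shadow (mem_singleton_self A) ha
    have h5 : (A.image (fun a => A.erase a)).card = k := by
      rw [card_image_of_injOn, h2 A (mem_singleton_self A)]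
      intro a ha b hb hab
      exact (erase_inj A ha).1 hab
    rw [← h5]
    exact card_le_card h4

lemma Fm_pos {k t : ℕ} (hk : 1 ≤ k) (ht : 1 ≤ t) : 1 ≤ Fm k t :=
  (hk.trans (Fm_one_ge k)).trans (Fm_mono k ht)

/-- map of a family along an embedding of the ground set -/
def fmap {α β : Type} (f : α ↪ β) (𝒜 : Finset (Finset α)) : Finset (Finset β) :=
  𝒜.map (mapEmbedding f).toEmbedding

lemma mem_fmap {α β : Type} {f : α ↪ β} {𝒜 : Finset (Finset α)} {B : Finset β} :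
    B ∈ fmap f 𝒜 ↔ ∃ A ∈ 𝒜, A.map f = B := by
  simp [fmap, mem_map]

lemma card_fmap {α β : Type} (f : α ↪ β) (𝒜 : Finset (Finset α)) :
    (fmap f 𝒜).card = 𝒜.card := card_map _

lemma shadow_fmap {α β : Type} [DecidableEq α] [DecidableEq β] (f : α ↪ β)
    (𝒜 : Finset (Finset α)) : (fmap f 𝒜).shadow = fmap f 𝒜.shadow := by
  ext Y
  rw [mem_shadow_iff, mem_fmap]
  constructor
  · rintro ⟨B, hB, b, hb, rfl⟩
    obtain ⟨A, hA, rfl⟩ := mem_fmap.1 hB
    obtain ⟨a, ha, rfl⟩ := mem_map.1 hb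
    exact ⟨A.erase a, erase_mem_shadow hA ha, map_erase f A a⟩
  · rintro ⟨A', hA', rfl⟩
    obtain ⟨A, hA, a, ha, rfl⟩ := mem_shadow_iff.1 hA'
    exact ⟨A.map f, mem_fmap.2 ⟨A, hA, rfl⟩, f a, mem_map_of_mem f ha, (map_erase f A a).symm⟩

/-- transfer to a finite ground set -/
lemma to_fin (𝒜 : Finset (Finset ℕ)) : ∃ N, ∀ n, N ≤ n →
    ∃ ℬ : Finset (Finset (Fin n)), fmap Fin.valEmbedding ℬ = 𝒜 := by
  refine ⟨(𝒜.sup id).sup id + 1, fun n hn => ?_⟩
  refine ⟨univ.filter fun B => B.map Fin.valEmbedding ∈ 𝒜, ?_⟩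
  ext A
  rw [mem_fmap]
  constructor
  · rintro ⟨B, hB, rfl⟩
    exact (mem_filter.1 hB).2
  · intro hA
    have hlt : ∀ a ∈ A, a < n := by
      intro a ha
      have h1 : a ∈ 𝒜.sup id := mem_sup.2 ⟨A, hA, ha⟩
      have h2 : a ≤ (𝒜.sup id).sup id := le_sup (f := id) h1
      omega
    have h3 : (univ.filter fun i : Fin n => (i : ℕ) ∈ A).map Fin.valEmbedding = A := by
      ext a
      simp only [mem_map, mem_filter, mem_univ, true_and, Fin.valEmbedding_apply]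
      constructor
      · rintro ⟨x, hx, rfl⟩; exact hx
      · intro ha
        exact ⟨⟨a, hlt a ha⟩, ha, rfl⟩
    exact ⟨_, mem_filter.2 ⟨mem_univ _, by rw [h3]; exact hA⟩, h3⟩

lemma sized_of_fmap {α β : Type} {f : α ↪ β} {𝒜 : Finset (Finset α)} {k : ℕ}
    (h : ∀ B ∈ fmap f 𝒜, B.card = k) : ∀ A ∈ 𝒜, A.card = k := by
  intro A hA
  have := h _ (mem_fmap.2 ⟨A, hA, rfl⟩)
  rwa [card_map] at this

lemma sized_fmap {α β : Type} {f : α ↪ β} {𝒜 : Finset (Finset α)} {k : ℕ}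
    (h : ∀ A ∈ 𝒜, A.card = k) : ∀ B ∈ fmap f 𝒜, B.card = k := by
  intro B hB
  obtain ⟨A, hA, rfl⟩ := mem_fmap.1 hB
  rw [card_map]
  exact h A hA

lemma Fm_le_fin {n k : ℕ} (𝒜 : Finset (Finset (Fin n))) (h2 : ∀ A ∈ 𝒜, A.card = k) :
    Fm k 𝒜.card ≤ (Finset.shadow 𝒜).card := by
  have := Fm_le (k := k) (fmap Fin.valEmbedding 𝒜) rfl (sized_fmap h2)
  rwa [shadow_fmap, card_fmap, card_fmap] at this

/-- initial segments of every size -/
lemma exists_initSeg (n r : ℕ) : ∀ c : ℕ, c ≤ (powersetCard r (univ : Finset (Fin n))).card →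
    ∃ 𝒞 : Finset (Finset (Fin n)), Colex.IsInitSeg 𝒞 r ∧ 𝒞.card = c := by
  intro c
  induction c with
  | zero =>
    intro _
    exact ⟨∅, Colex.isInitSeg_empty, rfl⟩
  | succ c ih =>
    intro hc
    obtain ⟨𝒞, h𝒞, hcard⟩ := ih (by omega)
    have hne : (powersetCard r (univ : Finset (Fin n)) \ 𝒞).Nonempty := by
      rw [← card_pos]
      have := le_card_sdiff 𝒞 (powersetCard r (univ : Finset (Fin n)))
      omega
    obtain ⟨A, hA, hmin⟩ := exists_min_image _ (fun A => toColex A) hne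
    rw [mem_sdiff, mem_powersetCard] at hA
    refine ⟨insert A 𝒞, ⟨?_, ?_⟩, ?_⟩
    · intro B hB
      rw [coe_insert, Set.mem_insert_iff] at hB
      rcases hB with rfl | hB
      · exact hA.1.2
      · exact h𝒞.1 hB
    · rintro s t hs ⟨hts, ht⟩
      rw [mem_insert] at hs
      rcases hs with rfl | hs
      · by_contra htn
        rw [mem_insert, not_or] at htn
        have := hmin t (mem_sdiff.2 ⟨mem_powersetCard.2 ⟨subset_univ _, ht⟩, htn.2⟩)
        exact absurd hts (not_lt.2 this)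
      · exact mem_insert_of_mem (h𝒞.2 hs ⟨hts, ht⟩)
    · rw [card_insert_of_notMem hA.2, hcard]

lemma card_le_choose {n k : ℕ} (𝒜 : Finset (Finset (Fin n))) (h2 : ∀ A ∈ 𝒜, A.card = k) :
    𝒜.card ≤ (powersetCard k (univ : Finset (Fin n))).card :=
  card_le_card fun A hA => mem_powersetCard.2 ⟨subset_univ _, h2 A hA⟩

/-- optimal nested pair on a common ground set -/
lemma nested {k b c : ℕ} (hk : 1 ≤ k) (h : Fm (k + 1) b ≤ c) :
    ∃ (n : ℕ) (ℬ 𝒞 : Finset (Finset (Fin n))), ℬ.card = b ∧ 𝒞.card = c ∧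
      (∀ B ∈ ℬ, B.card = k + 1) ∧ (∀ C ∈ 𝒞, C.card = k) ∧ ℬ.shadow ⊆ 𝒞 ∧
      𝒞.shadow.card ≤ Fm k c := by
  obtain ⟨𝒜₁, h1, h2, h3⟩ := Fm_opt (k + 1) b (by omega)
  obtain ⟨𝒜₂, g1, g2, g3⟩ := Fm_opt k c hk
  obtain ⟨N₁, hN₁⟩ := to_fin 𝒜₁
  obtain ⟨N₂, hN₂⟩ := to_fin 𝒜₂
  obtain ⟨𝒟₁, hD₁⟩ := hN₁ (max N₁ N₂) (le_max_left _ _)
  obtain ⟨𝒟₂, hD₂⟩ := hN₂ (max N₁ N₂) (le_max_right _ _)
  have s1 : ∀ A ∈ 𝒟₁, A.card = k + 1 := sized_of_fmap (f := Fin.valEmbedding) (by rw [hD₁]; exact h2)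
  have s2 : ∀ A ∈ 𝒟₂, A.card = k := sized_of_fmap (f := Fin.valEmbedding) (by rw [hD₂]; exact g2)
  have c1 : 𝒟₁.card = b := by rw [← card_fmap Fin.valEmbedding, hD₁, h1]
  have c2 : 𝒟₂.card = c := by rw [← card_fmap Fin.valEmbedding, hD₂, g1]
  have d1 : 𝒟₁.shadow.card = Fm (k + 1) b := by
    rw [← card_fmap Fin.valEmbedding, ← shadow_fmap, hD₁, h3]
  have d2 : 𝒟₂.shadow.card = Fm k c := by
    rw [← card_fmap Fin.valEmbedding, ← shadow_fmap, hD₂, g3]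
  obtain ⟨ℬ, hℬ, hℬc⟩ := exists_initSeg _ (k + 1) b (by rw [← c1]; exact card_le_choose _ s1)
  obtain ⟨𝒞, h𝒞, h𝒞c⟩ := exists_initSeg _ k c (by rw [← c2]; exact card_le_choose _ s2)
  have k1 : ℬ.shadow.card ≤ 𝒟₁.shadow.card :=
    kruskal_katona (fun A hA => s1 A hA) (by rw [hℬc, c1]) hℬ
  have k2 : 𝒞.shadow.card ≤ 𝒟₂.shadow.card :=
    kruskal_katona (fun A hA => s2 A hA) (by rw [h𝒞c, c2]) h𝒞
  refine ⟨_, ℬ, 𝒞, hℬc, h𝒞c, fun B hB => hℬ.1 hB, fun C hC => h𝒞.1 hC, ?_, by rw [← d2]; exact k2⟩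
  have hs := hℬ.shadow
  simp only [Nat.add_sub_cancel] at hs
  rcases hs.total h𝒞 with h4 | h4
  · exact h4
  · have h5 : 𝒞 = ℬ.shadow := eq_of_subset_of_card_le h4 (by rw [h𝒞c]; omega)
    rw [h5]

/-- the splitting inequality -/
lemma split_ineq (k b c : ℕ) (h : Fm (k + 1) b ≤ c) :
    Fm (k + 1) (b + c) ≤ c + Fm k c := by
  rcases Nat.eq_zero_or_pos k with rfl | hk
  · rcases Nat.eq_zero_or_pos c with rfl | hc
    · rcases Nat.eq_zero_or_pos b with rfl | hb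
      · simp [Fm_nil]
      · have := Fm_pos (k := 0 + 1) (by omega) hb
        omega
    · obtain ⟨𝒜, h1, h2⟩ := exists_fam 1 (b + c) le_rfl
      have h3 := Fm_le 𝒜 h1 h2
      have h4 : shadow 𝒜 ⊆ {∅} := by
        intro Y hY
        obtain ⟨a, ha, hA⟩ := mem_shadow_iff_insert_mem.1 hY
        have := h2 _ hA
        rw [card_insert_of_notMem ha] at this
        rw [mem_singleton, ← card_eq_zero]
        omega
      have h5 := card_le_card h4
      rw [card_singleton] at h5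
      simp only [zero_add] at *
      omega
  · obtain ⟨n, ℬ, 𝒞, hb, hc, sb, sc, hsub, hopt⟩ := nested hk h
    let f : Fin n ↪ ℕ := ⟨fun x => x.val + 1, fun x y hxy => by
      have : x.val = y.val := by simpa using hxy
      exact Fin.ext this⟩
    have hf0 : ∀ A : Finset (Fin n), (0 : ℕ) ∉ A.map f := by
      intro A hA
      obtain ⟨x, -, hx⟩ := mem_map.1 hA
      simp [f] at hx
    let 𝒢 : Finset (Finset ℕ) := (fmap f 𝒞).image (insert 0)
    have hinj : ∀ 𝒳 : Finset (Finset (Fin n)),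
        Set.InjOn (insert (0 : ℕ)) (fmap f 𝒳 : Set (Finset ℕ)) := by
      intro 𝒳 X hX Y hY hXY
      obtain ⟨X', -, rfl⟩ := mem_fmap.1 (mem_coe.1 hX)
      obtain ⟨Y', -, rfl⟩ := mem_fmap.1 (mem_coe.1 hY)
      have := congrArg (fun Z => Finset.erase Z 0) hXY
      simpa [erase_insert (hf0 _)] using this
    have h𝒢 : 𝒢.card = c := by
      rw [card_image_of_injOn (hinj 𝒞), card_fmap, hc]
    have hdisj : Disjoint (fmap f ℬ) 𝒢 := by
      rw [disjoint_left]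
      intro X hX hX'
      obtain ⟨X', -, rfl⟩ := mem_fmap.1 hX
      obtain ⟨Z, -, hZ⟩ := mem_image.1 hX'
      exact hf0 X' (by rw [← hZ]; exact mem_insert_self _ _)
    have hcard : (fmap f ℬ ∪ 𝒢).card = b + c := by
      rw [card_union_of_disjoint hdisj, card_fmap, hb, h𝒢]
    have hsz : ∀ A ∈ fmap f ℬ ∪ 𝒢, A.card = k + 1 := by
      intro A hA
      rcases mem_union.1 hA with hA | hA
      · exact sized_fmap sb A hA
      · obtain ⟨Z, hZ, rfl⟩ := mem_image.1 hA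
        obtain ⟨Z', hZ', rfl⟩ := mem_fmap.1 hZ
        rw [card_insert_of_notMem (hf0 _), card_map, sc Z' hZ']
    have hsh : shadow (fmap f ℬ ∪ 𝒢) ⊆ fmap f 𝒞 ∪ (fmap f 𝒞.shadow).image (insert 0) := by
      intro Y hY
      obtain ⟨A, hA, a, ha, rfl⟩ := mem_shadow_iff.1 hY
      rcases mem_union.1 hA with hA | hA
      · apply mem_union_left
        have h1 : A.erase a ∈ (fmap f ℬ).shadow := erase_mem_shadow hA ha
        rw [shadow_fmap] at h1
        obtain ⟨Z, hZ, hZ'⟩ := mem_fmap.1 h1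
        exact mem_fmap.2 ⟨Z, hsub hZ, hZ'⟩
      · obtain ⟨Z, hZ, rfl⟩ := mem_image.1 hA
        rcases mem_insert.1 ha with rfl | haZ
        · apply mem_union_left
          obtain ⟨Z', hZ', rfl⟩ := mem_fmap.1 hZ
          rw [erase_insert (hf0 _)]
          exact hZ
        · apply mem_union_right
          have hZ0 : (0:ℕ) ∉ Z := by
            obtain ⟨Z', hZ', rfl⟩ := mem_fmap.1 hZ
            exact hf0 _
          have hane : a ≠ 0 := by rintro rfl; exact hZ0 haZ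
          rw [erase_insert_of_ne (Ne.symm hane)]
          apply mem_image_of_mem
          rw [← shadow_fmap]
          exact erase_mem_shadow hZ haZ
    calc Fm (k + 1) (b + c) ≤ (shadow (fmap f ℬ ∪ 𝒢)).card := Fm_le _ hcard hsz
      _ ≤ (fmap f 𝒞 ∪ (fmap f 𝒞.shadow).image (insert 0)).card := card_le_card hsh
      _ ≤ (fmap f 𝒞).card + ((fmap f 𝒞.shadow).image (insert 0)).card := card_union_le _ _
      _ ≤ c + Fm k c := by
          rw [card_fmap, hc]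
          have := card_image_le (s := fmap f 𝒞.shadow) (f := insert (0:ℕ))
          rw [card_fmap] at this
          omega

end Pool.Agent.TH393.Lk
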