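import Mathlib

set_option autoImplicit false

/-!
Generic contraction for anticommuting operators on a finite dimensional real space.
-/

namespace Pool.Agent.TH393.Lk

open Module Submodule

variable {n : ℕ} {M : Type} [NormedAddCommGroup M] [NormedSpace ℝ M] [FiniteDimensional ℝ M]

/-- The boundary of a subspace: the span of all contractions of its members. -/
def bd (i : (Fin n → ℝ) →ₗ[ℝ] M →ₗ[ℝ] M) (V : Submodule ℝ M) : Submodule ℝ M :=
  Submodule.map₂ i ⊤ V

variable (i : (Fin n → ℝ) →ₗ[ℝ] M →ₗ[ℝ] M)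

lemma mem_bd {V : Submodule ℝ M} (α : Fin n → ℝ) {v : M} (hv : v ∈ V) : i α v ∈ bd i V :=
  Submodule.apply_mem_map₂ i (by trivial) hv

lemma bd_le {V U : Submodule ℝ M} (h : ∀ α : Fin n → ℝ, ∀ v ∈ V, i α v ∈ U) : bd i V ≤ U :=
  Submodule.map₂_le.2 fun α _ v hv => h α v hv

lemma bd_mono {V U : Submodule ℝ M} (h : V ≤ U) : bd i V ≤ bd i U :=
  Submodule.map₂_le_map₂_right h

/-- `φ` is generic for `V`. -/
def Gen (V : Submodule ℝ M) (φ : Fin n → ℝ) : Prop :=
  ∀ ψ : Fin n → ℝ, ∀ v ∈ V, i φ v = 0 → i ψ v ∈ V.map (i φ)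

/-- preimages of a basis of the image -/
lemma exists_preim (V : Submodule ℝ M) (φ : Fin n → ℝ) :
    ∃ w : Fin (finrank ℝ (V.map (i φ))) → M, (∀ j, w j ∈ V) ∧
      LinearIndependent ℝ (fun j => i φ (w j)) ∧
      span ℝ (Set.range fun j => i φ (w j)) = V.map (i φ) := by
  classical
  let b := finBasis ℝ (V.map (i φ))
  have h : ∀ j, ∃ w : M, w ∈ V ∧ i φ w = (b j : M) := fun j => by
    have := (b j).2
    rw [Submodule.mem_map] at this
    obtain ⟨w, hw, hw'⟩ := this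
    exact ⟨w, hw, hw'⟩
  choose w hw hw' using h
  refine ⟨w, hw, ?_, ?_⟩
  · have : (fun j => i φ (w j)) = (V.map (i φ)).subtype ∘ b := by
      funext j; simp [hw']
    rw [this]
    exact b.linearIndependent.map' _ (Submodule.ker_subtype _)
  · have : (fun j => i φ (w j)) = (V.map (i φ)).subtype ∘ b := by
      funext j; simp [hw']
    rw [this, Set.range_comp, ← Submodule.map_span, b.span_eq]
    simp

/-- a family of independent vectors in the image bounds the rank -/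
lemma le_rank_of_indep (V : Submodule ℝ M) {m : ℕ} (w : Fin m → M) (hw : ∀ j, w j ∈ V)
    (h : LinearIndependent ℝ w) : m ≤ finrank ℝ V := by
  have h1 : span ℝ (Set.range w) ≤ V := by
    rw [span_le]
    rintro _ ⟨j, rfl⟩
    exact hw j
  have h2 := finrank_span_eq_card h
  rw [Fintype.card_fin] at h2
  rw [← h2]
  exact Submodule.finrank_mono h1

lemma perturb_indep {m : ℕ} (x y : Fin m → M) (h : LinearIndependent ℝ x) :
    ∀ᶠ ε in nhds (0 : ℝ), LinearIndependent ℝ (fun j => x j + ε • y j) := by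
  have hc : Continuous (fun ε : ℝ => (fun j => x j + ε • y j)) := by
    fun_prop
  have ho : IsOpen {f : Fin m → M | LinearIndependent ℝ f} := isOpen_setOf_linearIndependent
  have := (ho.preimage hc).mem_nhds (x := (0:ℝ)) (by simpa using h)
  exact this

/-- rank does not drop under small perturbation -/
lemma rank_semicont (V : Submodule ℝ M) (φ ψ : Fin n → ℝ) :
    ∀ᶠ ε in nhds (0 : ℝ), finrank ℝ (V.map (i φ)) ≤ finrank ℝ (V.map (i (φ + ε • ψ))) := by
  obtain ⟨w, hw, hli, -⟩ := exists_preim i V φ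
  filter_upwards [perturb_indep _ (fun j => i ψ (w j)) hli] with ε hε
  refine le_rank_of_indep _ _ ?_ hε
  intro j
  refine Submodule.mem_map.2 ⟨w j, hw j, ?_⟩
  simp

/-- rank rises under small perturbation if `φ` is not generic -/
lemma rank_rise (V : Submodule ℝ M) (φ ψ : Fin n → ℝ) (v : M) (hv : v ∈ V) (h0 : i φ v = 0)
    (h1 : i ψ v ∉ V.map (i φ)) :
    ∀ᶠ ε in nhds (0 : ℝ), ε ≠ 0 →
      finrank ℝ (V.map (i φ)) + 1 ≤ finrank ℝ (V.map (i (φ + ε • ψ))) := by
  obtain ⟨w, hw, hli, hsp⟩ := exists_preim i V φ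
  have hli' : LinearIndependent ℝ
      (Fin.cons (i ψ v) (fun j => i φ (w j)) : Fin (finrank ℝ (V.map (i φ)) + 1) → M) := by
    rw [linearIndependent_fin_cons]
    refine ⟨hli, ?_⟩
    rw [hsp]
    exact h1
  filter_upwards [perturb_indep _
    (Fin.cons 0 (fun j => i ψ (w j)) : Fin (finrank ℝ (V.map (i φ)) + 1) → M) hli'] with ε hε hne
  refine le_rank_of_indep _ _ ?_ hε
  intro j
  refine Fin.cases ?_ (fun j => ?_) j
  · refine Submodule.mem_map.2 ⟨ε⁻¹ • v, V.smul_mem _ hv, ?_⟩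
    simp [h0, smul_smul, hne]
  · refine Submodule.mem_map.2 ⟨w j, hw j, ?_⟩
    simp

/-- a common generic form exists for two subspaces -/
lemma exists_gen (V U : Submodule ℝ M) : ∃ φ : Fin n → ℝ, Gen i V φ ∧ Gen i U φ := by
  classical
  let g : (Fin n → ℝ) → ℕ := fun φ => finrank ℝ (V.map (i φ)) + finrank ℝ (U.map (i φ))
  have hb : ∀ φ, g φ ≤ finrank ℝ M + finrank ℝ M := fun φ =>
    add_le_add (Submodule.finrank_le _) (Submodule.finrank_le _)
  obtain ⟨φ, hφ⟩ : ∃ φ, ∀ φ', g φ' ≤ g φ := by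
    have hne : (Set.range g).Nonempty := ⟨g 0, ⟨0, rfl⟩⟩
    have hbd : BddAbove (Set.range g) := ⟨finrank ℝ M + finrank ℝ M, by
      rintro _ ⟨φ, rfl⟩; exact hb φ⟩
    obtain ⟨φ, hφ⟩ := Nat.sSup_mem hne hbd
    refine ⟨φ, fun φ' => ?_⟩
    rw [hφ]
    exact le_csSup hbd ⟨φ', rfl⟩
  have key : ∀ A B : Submodule ℝ M,
      (∀ φ', finrank ℝ (A.map (i φ')) + finrank ℝ (B.map (i φ')) ≤
        finrank ℝ (A.map (i φ)) + finrank ℝ (B.map (i φ))) → Gen i A φ := by
    intro A B hAB ψ v hv h0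
    by_contra h1
    have e1 := rank_rise i A φ ψ v hv h0 h1
    have e2 := rank_semicont i B φ ψ
    have e3 := (e1.and e2)
    have e4 : ∃ᶠ ε in nhdsWithin (0:ℝ) {0}ᶜ, ε ≠ 0 := by
      apply Filter.Eventually.frequently
      exact self_mem_nhdsWithin
    have e5 : ∀ᶠ ε in nhdsWithin (0:ℝ) {0}ᶜ, (ε ≠ 0 →
      finrank ℝ (A.map (i φ)) + 1 ≤ finrank ℝ (A.map (i (φ + ε • ψ)))) ∧
        finrank ℝ (B.map (i φ)) ≤ finrank ℝ (B.map (i (φ + ε • ψ))) :=
      e3.filter_mono nhdsWithin_le_nhds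
    obtain ⟨ε, hε, h6, h7⟩ := (e4.and_eventually e5).exists
    have := hAB (φ + ε • ψ)
    have := h6 hε
    omega
  refine ⟨φ, key V U hφ, key U V fun φ' => ?_⟩
  have := hφ φ'
  simp only [g] at this
  omega

end Pool.Agent.TH393.Lk
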