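import Pool.Agent.TH393.LkExt
import Pool.Agent.TH393.LkF

set_option autoImplicit false
set_option linter.unusedSectionVars false

/-!
Kruskal-Katona for subspaces, the recursion for the minimum shadow function, and its
values at cascades.
-/

namespace Pool.Agent.TH393.Lk

open Module Finset

variable {n : ℕ}

lemma map_gr {k : ℕ} {V : Submodule ℝ (Finset (Fin n) → ℝ)} (hV : V ≤ gr n (k + 1))
    (φ : Fin n → ℝ) : V.map (ct φ) ≤ gr n k := by
  rintro _ ⟨v, hv, rfl⟩
  exact ct_gr (hV hv) φ

lemma bd_gr {k : ℕ} {V : Submodule ℝ (Finset (Fin n) → ℝ)} (hV : V ≤ gr n (k + 1)) :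
    bd ct V ≤ gr n k :=
  bd_le ct fun α _ hv => ct_gr (hV hv) α

/-- Kruskal-Katona for subspaces -/
theorem kk (k : ℕ) : ∀ d : ℕ, ∀ V : Submodule ℝ (Finset (Fin n) → ℝ), V ≤ gr n k →
    finrank ℝ V = d → Fm k d ≤ finrank ℝ (bd ct V) := by
  induction k with
  | zero =>
    intro d V _ _
    rw [Fm_zero]
    exact Nat.zero_le _
  | succ k ihk =>
    intro d
    induction d using Nat.strong_induction_on with
    | _ d ihd =>
      intro V hV hd
      obtain ⟨φ, hg, -⟩ := exists_gen ct V V
      have h1 := finrank_split ct V φ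
      have h2 := split_bd ct ct_ct V φ
      have h3 := Submodule.finrank_mono (map_le_ker ct ct_ct V φ)
      have h4 := Submodule.finrank_mono (gen_bd_ker ct hg)
      have h5 := ihk _ (V.map (ct φ)) (map_gr hV φ) rfl
      rcases Nat.eq_zero_or_pos (finrank ℝ (V.map (ct φ))) with h0 | hpos
      · have h6 : V.map (ct φ) = ⊥ := Submodule.finrank_eq_zero.1 h0
        have h7 : V = ⊥ := by
          rw [Submodule.eq_bot_iff]
          intro v hv
          have h8 : ct φ v = 0 := by
            have : ct φ v ∈ V.map (ct φ) := Submodule.mem_map_of_mem hv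
            rw [h6] at this
            exact (Submodule.mem_bot ℝ).1 this
          apply ct_inj (hV hv)
          intro ψ
          have := hg ψ v hv h8
          rw [h6] at this
          exact (Submodule.mem_bot ℝ).1 this
        have h9 : d = 0 := by
          rw [← hd, h7, finrank_bot]
        rw [h9, Fm_nil]
        exact Nat.zero_le _
      · have h6 := ihd (finrank ℝ (V ⊓ LinearMap.ker (ct φ) : Submodule ℝ _)) (by omega)
          (V ⊓ LinearMap.ker (ct φ)) (inf_le_left.trans hV) rfl
        have h7 := split_ineq k _ _ (h6.trans h4)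
        have h8 : finrank ℝ (V ⊓ LinearMap.ker (ct φ) : Submodule ℝ _) +
          finrank ℝ (V.map (ct φ)) = d := by omega
        rw [h8] at h7
        omega

theorem kk' {k : ℕ} {V : Submodule ℝ (Finset (Fin n) → ℝ)} (hV : V ≤ gr n k) :
    Fm k (finrank ℝ V) ≤ finrank ℝ (bd ct V) := kk k _ V hV rfl

/-- the recursion -/
lemma split_exists (k t : ℕ) : ∃ e₀ e₁, e₀ + e₁ = t ∧ Fm (k + 1) e₀ ≤ e₁ ∧
    e₁ + Fm k e₁ ≤ Fm (k + 1) t := by
  obtain ⟨𝒜, h1, h2, h3⟩ := Fm_opt (k + 1) t (by omega)
  obtain ⟨N, hN⟩ := to_fin 𝒜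
  obtain ⟨𝒟, hD⟩ := hN N le_rfl
  have s1 : ∀ A ∈ 𝒟, A.card = k + 1 := sized_of_fmap (f := Fin.valEmbedding) (by rw [hD]; exact h2)
  have c1 : 𝒟.card = t := by rw [← card_fmap Fin.valEmbedding, hD, h1]
  have d1 : 𝒟.shadow.card = Fm (k + 1) t := by
    rw [← card_fmap Fin.valEmbedding, ← shadow_fmap, hD, h3]
  have hV : sp 𝒟 ≤ gr N (k + 1) := sp_le_gr s1
  obtain ⟨φ, hg, -⟩ := exists_gen ct (sp 𝒟) (sp 𝒟)
  have g1 := finrank_split ct (sp 𝒟) φ
  have g2 := split_bd ct ct_ct (sp 𝒟) φ
  have g3 := Submodule.finrank_mono (map_le_ker ct ct_ct (sp 𝒟) φ)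
  have g4 := Submodule.finrank_mono (gen_bd_ker ct hg)
  have g5 := kk' (map_gr hV φ)
  have g6 := kk' (show sp 𝒟 ⊓ LinearMap.ker (ct φ) ≤ gr N (k + 1) from inf_le_left.trans hV)
  have g7 : finrank ℝ (sp 𝒟) = t := by rw [finrank_sp, c1]
  have g8 : finrank ℝ (bd ct (sp 𝒟)) = Fm (k + 1) t := by rw [bd_sp, finrank_sp, d1]
  refine ⟨finrank ℝ (sp 𝒟 ⊓ LinearMap.ker (ct φ) : Submodule ℝ _),
    finrank ℝ ((sp 𝒟).map (ct φ)), by omega, by omega, by omega⟩

/-- the second numerical inequality -/
lemma second_ineq (k c : ℕ) :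
    Fm (k + 1) c + Fm k (Fm (k + 1) c) ≤ Fm (k + 1) (c + Fm (k + 1) c) := by
  obtain ⟨e₀, e₁, h1, h2, h3⟩ := split_exists k (c + Fm (k + 1) c)
  have h4 : Fm (k + 1) c ≤ e₁ := by
    by_contra h
    have h5 : c ≤ e₀ := by omega
    have := Fm_mono (k + 1) h5
    omega
  have := Fm_mono k h4
  omega

/-! ### cascades -/

/-- upper sum of a cascade -/
def TT (ρ m : ℕ) (β : ℕ → ℕ) : ℕ := ∑ j ∈ range m, (ρ + j + β j).choose (ρ + j + 1)

/-- lower sum of a cascade -/
def SS (ρ m : ℕ) (β : ℕ → ℕ) : ℕ := ∑ j ∈ range m, (ρ + j + β j).choose (ρ + j)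

lemma TT_succ' (ρ m : ℕ) (β : ℕ → ℕ) :
    TT ρ (m + 1) β = (ρ + β 0).choose (ρ + 1) + TT (ρ + 1) m (fun j => β (j + 1)) := by
  unfold TT
  rw [Finset.sum_range_succ', add_comm]
  congr 1
  apply Finset.sum_congr rfl
  intro j _
  congr 1 <;> ring

lemma SS_succ' (ρ m : ℕ) (β : ℕ → ℕ) :
    SS ρ (m + 1) β = (ρ + β 0).choose ρ + SS (ρ + 1) m (fun j => β (j + 1)) := by
  unfold SS
  rw [Finset.sum_range_succ', add_comm]
  congr 1
  apply Finset.sum_congr rfl
  intro j _
  congr 1 <;> ring

lemma SS_pascal (ρ m : ℕ) (β : ℕ → ℕ) : SS (ρ + 1) m β = TT ρ m β + SS ρ m β := by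
  unfold SS TT
  rw [← Finset.sum_add_distrib]
  apply Finset.sum_congr rfl
  intro j _
  have e1 : ρ + 1 + j + β j = (ρ + j + β j) + 1 := by ring
  have e2 : ρ + 1 + j = (ρ + j) + 1 := by ring
  rw [e1, e2, Nat.choose_succ_succ']
  ring

lemma SS_shift (ρ m : ℕ) (β : ℕ → ℕ) (h : ∀ j < m, 1 ≤ β j) :
    SS (ρ + 1) m (fun j => β j - 1) = TT ρ m β := by
  unfold SS TT
  apply Finset.sum_congr rfl
  intro j hj
  have := h j (Finset.mem_range.1 hj)
  have e1 : ρ + 1 + j + (β j - 1) = ρ + j + β j := by omega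
  have e2 : ρ + 1 + j = ρ + j + 1 := by ring
  simp only [e1]
  rw [e2]

lemma TT_pascal (ρ m : ℕ) (β : ℕ → ℕ) (h : ∀ j < m, 1 ≤ β j) :
    TT (ρ + 1) m β = TT (ρ + 1) m (fun j => β j - 1) + TT ρ m β := by
  rw [← SS_shift ρ m β h]
  unfold SS TT
  rw [← Finset.sum_add_distrib]
  apply Finset.sum_congr rfl
  intro j hj
  have := h j (Finset.mem_range.1 hj)
  have e1 : ρ + 1 + j + β j = (ρ + 1 + j + (β j - 1)) + 1 := by omega
  rw [e1, Nat.choose_succ_succ']
  simp only [Nat.add_sub_cancel]
  ring

/-- the jump after a cascade -/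
theorem jump : ∀ m ρ : ℕ, ∀ β : ℕ → ℕ, (∀ j, j + 1 < m → β j ≤ β (j + 1)) →
    SS ρ m β + ρ ≤ Fm (ρ + m) (TT ρ m β + 1) := by
  intro m
  induction m with
  | zero =>
    intro ρ β _
    simp only [SS, TT, Finset.range_zero, Finset.sum_empty, zero_add, add_zero]
    exact Fm_one_ge ρ
  | succ m ihm =>
    intro ρ
    induction ρ with
    | zero =>
      intro β hβ
      have h1 := ihm 1 (fun j => β (j + 1)) (fun j hj => hβ (j + 1) (by omega))
      rw [TT_succ', SS_succ']
      simp only [zero_add, Nat.choose_one_right, Nat.choose_zero_right, add_zero] at h1 ⊢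
      have h2 : Fm (1 + m) (TT 1 m (fun j => β (j + 1)) + 1) ≤
        Fm (m + 1) (β 0 + TT 1 m (fun j => β (j + 1)) + 1) := by
        rw [add_comm 1 m]
        apply Fm_mono
        omega
      omega
    | succ ρ ihρ =>
      have key : ∀ b : ℕ, ∀ β : ℕ → ℕ, β 0 = b → (∀ j, j + 1 < m + 1 → β j ≤ β (j + 1)) →
          SS (ρ + 1) (m + 1) β + (ρ + 1) ≤ Fm (ρ + 1 + (m + 1)) (TT (ρ + 1) (m + 1) β + 1) := by
        intro b
        induction b with
        | zero =>
          intro β h0 hβ
          have h1 := ihm (ρ + 1 + 1) (fun j => β (j + 1)) (fun j hj => hβ (j + 1) (by omega))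
          rw [TT_succ', SS_succ', h0]
          simp only [add_zero, Nat.choose_self, Nat.choose_succ_self, zero_add]
          have h2 : ρ + 1 + (m + 1) = ρ + 1 + 1 + m := by ring
          rw [h2]
          omega
        | succ b ihb =>
          intro β h0 hβ
          have hpos : ∀ j < m + 1, 1 ≤ β j := by
            intro j
            induction j with
            | zero => intro _; omega
            | succ j ihj =>
              intro hj
              exact (ihj (by omega)).trans (hβ j hj)
          have h1 := ihb (fun j => β j - 1) (by simp [h0]) (fun j hj => by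
            have := hβ j hj
            omega)
          have h2 := ihρ β hβ
          have e1 := SS_shift ρ (m + 1) β hpos
          have e2 := TT_pascal ρ (m + 1) β hpos
          have e3 := SS_pascal ρ (m + 1) β
          have e4 : ρ + 1 + (m + 1) = (ρ + (m + 1)) + 1 := by ring
          rw [e4] at h1 ⊢
          obtain ⟨e₀, e₁, g1, g2, g3⟩ := split_exists (ρ + (m + 1)) (TT (ρ + 1) (m + 1) β + 1)
          have h4 : TT ρ (m + 1) β + 1 ≤ e₁ := by
            by_contra h
            have h5 : TT (ρ + 1) (m + 1) (fun j => β j - 1) + 1 ≤ e₀ := by omega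
            have := Fm_mono (ρ + (m + 1) + 1) h5
            omega
          have h5 := Fm_mono (ρ + (m + 1)) h4
          omega
      intro β hβ
      exact key (β 0) β rfl hβ

/-- the cascade family -/
theorem cascade_fam (ρ : ℕ) (β : ℕ → ℕ) : ∀ m : ℕ, (∀ j, j + 1 < m → β j ≤ β (j + 1)) →
    ∃ 𝒜 : Finset (Finset ℕ), 𝒜.card = TT ρ m β ∧ (∀ A ∈ 𝒜, A.card = ρ + m) ∧
      (∀ N, (∀ j < m, ρ + j + β j < N) → ∀ A ∈ 𝒜, A ⊆ range N) ∧
      𝒜.shadow.card ≤ SS ρ m β := by
  intro m
  induction m with
  | zero =>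
    intro _
    exact ⟨∅, by simp [TT], by simp, by simp, by simp⟩
  | succ m ih =>
    intro hβ
    obtain ⟨𝒜, h1, h2, h3, h4⟩ := ih (fun j hj => hβ j (by omega))
    have hmono : ∀ j, j ≤ m → β j ≤ β m := by
      intro j hj
      induction m, hj using Nat.le_induction with
      | base => exact le_rfl
      | succ q hq ihq =>
        have hx : ∀ j, j + 1 < q + 1 → β j ≤ β (j + 1) := fun j hj => hβ j (by omega)
        have hstep := hβ q (by omega)
        refine le_trans ?_ hstep
        clear ih h1 h2 h3 h4 ihq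
        have : ∀ d, j + d ≤ q → β j ≤ β (j + d) := by
          intro d
          induction d with
          | zero => intro _; exact le_rfl
          | succ d ihd =>
            intro hd
            exact (ihd (by omega)).trans (hβ (j + d) (by omega))
        have h := this (q - j) (by omega)
        rwa [Nat.add_sub_cancel' hq] at h
    have hsub : ∀ A ∈ 𝒜, A ⊆ range (ρ + m + β m) := by
      apply h3
      intro j hj
      have := hmono j hj.le
      omega
    have hnot : ∀ A ∈ 𝒜, ρ + m + β m ∉ A := fun A hA h => by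
      have := mem_range.1 (hsub A hA h)
      omega
    let x := ρ + m + β m
    have hinj : Set.InjOn (insert x) (𝒜 : Set (Finset ℕ)) := by
      intro A hA B hB hAB
      have := congrArg (fun Z => Finset.erase Z x) hAB
      simpa [erase_insert (hnot A hA), erase_insert (hnot B hB), x] using this
    refine ⟨powersetCard (ρ + m + 1) (range x) ∪ 𝒜.image (insert x), ?_, ?_, ?_, ?_⟩
    · rw [card_union_of_disjoint, card_powersetCard, card_range, card_image_of_injOn hinj, h1]
      · unfold TT
        rw [Finset.sum_range_succ, add_comm]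
      · rw [disjoint_left]
        intro A hA hA'
        obtain ⟨B, -, rfl⟩ := mem_image.1 hA'
        have := (mem_powersetCard.1 hA).1 (mem_insert_self x B)
        simp at this
    · intro A hA
      rcases mem_union.1 hA with hA | hA
      · exact (mem_powersetCard.1 hA).2
      · obtain ⟨B, hB, rfl⟩ := mem_image.1 hA
        rw [card_insert_of_notMem (hnot B hB), h2 B hB]
        ring
    · intro N hN A hA
      have hx : x < N := hN m (by omega)
      have hr : range x ⊆ range N := range_subset_range.2 hx.le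
      rcases mem_union.1 hA with hA | hA
      · exact (mem_powersetCard.1 hA).1.trans hr
      · obtain ⟨B, hB, rfl⟩ := mem_image.1 hA
        rw [insert_subset_iff]
        exact ⟨mem_range.2 hx, (hsub B hB).trans hr⟩
    · have hsh : (powersetCard (ρ + m + 1) (range x) ∪ 𝒜.image (insert x)).shadow ⊆
          powersetCard (ρ + m) (range x) ∪ 𝒜.shadow.image (insert x) := by
        intro Y hY
        obtain ⟨A, hA, a, ha, rfl⟩ := mem_shadow_iff.1 hY
        rcases mem_union.1 hA with hA | hA
        · apply mem_union_left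
          rw [mem_powersetCard] at hA ⊢
          exact ⟨(erase_subset _ _).trans hA.1, by rw [card_erase_of_mem ha, hA.2]; simp⟩
        · obtain ⟨B, hB, rfl⟩ := mem_image.1 hA
          rcases mem_insert.1 ha with rfl | haB
          · apply mem_union_left
            rw [erase_insert (hnot B hB)]
            exact mem_powersetCard.2 ⟨hsub B hB, h2 B hB⟩
          · apply mem_union_right
            have hane : a ≠ x := by rintro rfl; exact hnot B hB haB
            rw [erase_insert_of_ne (Ne.symm hane)]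
            exact mem_image_of_mem _ (erase_mem_shadow hB haB)
      calc _ ≤ (powersetCard (ρ + m) (range x) ∪ 𝒜.shadow.image (insert x)).card :=
            card_le_card hsh
        _ ≤ (powersetCard (ρ + m) (range x)).card + (𝒜.shadow.image (insert x)).card :=
            card_union_le _ _
        _ ≤ x.choose (ρ + m) + SS ρ m β := by
            rw [card_powersetCard, card_range]
            exact Nat.add_le_add_left (card_image_le.trans h4) _
        _ = SS ρ (m + 1) β := by
            unfold SS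
            rw [Finset.sum_range_succ, add_comm]

theorem Fm_cascade (ρ m : ℕ) (β : ℕ → ℕ) (hβ : ∀ j, j + 1 < m → β j ≤ β (j + 1)) :
    Fm (ρ + m) (TT ρ m β) ≤ SS ρ m β := by
  obtain ⟨𝒜, h1, h2, -, h4⟩ := cascade_fam ρ β m hβ
  exact (Fm_le 𝒜 h1 h2).trans h4

end Pool.Agent.TH393.Lk
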