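import Pool.Agent.TH393.LkGen

set_option autoImplicit false
set_option linter.unusedSectionVars false

/-!
Splitting a subspace along a generic contraction, and the transfer of linear syzygies.
-/

namespace Pool.Agent.TH393.Lk

open Module Submodule

variable {n : ℕ} {M : Type} [NormedAddCommGroup M] [NormedSpace ℝ M] [FiniteDimensional ℝ M]

variable (i : (Fin n → ℝ) →ₗ[ℝ] M →ₗ[ℝ] M)

lemma anti (h : ∀ φ v, i φ (i φ v) = 0) (φ ψ : Fin n → ℝ) (v : M) :
    i φ (i ψ v) = - i ψ (i φ v) := by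
  have h1 := h (φ + ψ) v
  simp only [map_add, LinearMap.add_apply, h, zero_add, add_zero] at h1
  exact eq_neg_of_add_eq_zero_right h1

lemma map_bd (h : ∀ φ v, i φ (i φ v) = 0) (V : Submodule ℝ M) (φ : Fin n → ℝ) :
    (bd i V).map (i φ) = bd i (V.map (i φ)) := by
  apply le_antisymm
  · rw [Submodule.map_le_iff_le_comap]
    apply bd_le
    intro α v hv
    rw [Submodule.mem_comap, anti i h]
    exact neg_mem (mem_bd i α (Submodule.mem_map_of_mem hv))
  · apply bd_le
    rintro α _ ⟨v, hv, rfl⟩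
    rw [anti i h]
    exact neg_mem (Submodule.mem_map_of_mem (mem_bd i α hv))

lemma finrank_split (V : Submodule ℝ M) (φ : Fin n → ℝ) :
    finrank ℝ (V.map (i φ)) + finrank ℝ (V ⊓ LinearMap.ker (i φ) : Submodule ℝ M)
      = finrank ℝ V := by
  have h := LinearMap.finrank_range_add_finrank_ker ((i φ).domRestrict V)
  have h1 : LinearMap.range ((i φ).domRestrict V) = V.map (i φ) := by
    rw [LinearMap.range_domRestrict]
  have h2 : finrank ℝ (LinearMap.ker ((i φ).domRestrict V)) =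
      finrank ℝ (V ⊓ LinearMap.ker (i φ) : Submodule ℝ M) := by
    rw [LinearMap.ker_domRestrict]
    have h4 := (Submodule.comapSubtypeEquivOfLe (p := V ⊓ LinearMap.ker (i φ)) (q := V)
      inf_le_left).finrank_eq
    have h5 : (V ⊓ LinearMap.ker (i φ)).comap V.subtype = (LinearMap.ker (i φ)).comap V.subtype := by
      rw [Submodule.comap_inf]
      simp
    rw [← h4, h5]
  rw [h1, h2] at h
  exact h

/-- The kernel part of the boundary. -/
lemma split_bd (h : ∀ φ v, i φ (i φ v) = 0) (V : Submodule ℝ M) (φ : Fin n → ℝ) :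
    finrank ℝ (bd i V) = finrank ℝ (bd i (V.map (i φ))) +
      finrank ℝ (bd i V ⊓ LinearMap.ker (i φ) : Submodule ℝ M) := by
  rw [← finrank_split i (bd i V) φ, map_bd i h]

lemma gen_bd_ker {V : Submodule ℝ M} {φ : Fin n → ℝ} (hg : Gen i V φ) :
    bd i (V ⊓ LinearMap.ker (i φ)) ≤ V.map (i φ) := by
  apply bd_le
  rintro α v ⟨hv, hv0⟩
  exact hg α v hv hv0

lemma map_le_ker (h : ∀ φ v, i φ (i φ v) = 0) (V : Submodule ℝ M) (φ : Fin n → ℝ) :
    V.map (i φ) ≤ bd i V ⊓ LinearMap.ker (i φ) := by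
  rintro _ ⟨v, hv, rfl⟩
  exact ⟨mem_bd i φ hv, h φ v⟩

/-! ### syzygies -/

/-- coordinate vector -/
def ev (j : Fin n) : Fin n → ℝ := Pi.single j 1

lemma sum_ev (α : Fin n → ℝ) : ∑ j, α j • ev j = α := by
  funext k
  simp [ev, Finset.sum_apply, Pi.single_apply]

/-- the contraction of a tuple -/
def mu (c : Fin n → M) : M := ∑ j, i (ev j) (c j)

lemma mu_add (c d : Fin n → M) : mu i (c + d) = mu i c + mu i d := by
  simp [mu, Finset.sum_add_distrib]

lemma mu_smul (r : ℝ) (c : Fin n → M) : mu i (r • c) = r • mu i c := by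
  simp [mu, Finset.smul_sum]

lemma mu_tensor (α : Fin n → ℝ) (v : M) : mu i (fun j => α j • v) = i α v := by
  conv_rhs => rw [← sum_ev α]
  simp [mu]

/-- trivial syzygies of `B` -/
def triv (B : Submodule ℝ M) : Submodule ℝ (Fin n → M) :=
  span ℝ {x | ∃ α : Fin n → ℝ, ∃ v ∈ B, x = fun j => α j • i α v}

lemma gen_mem_triv {B : Submodule ℝ M} (α : Fin n → ℝ) {v : M} (hv : v ∈ B) :
    (fun j => α j • i α v) ∈ triv i B :=
  subset_span ⟨α, v, hv, rfl⟩

lemma mu_triv (h : ∀ φ v, i φ (i φ v) = 0) {B : Submodule ℝ M} {c : Fin n → M}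
    (hc : c ∈ triv i B) : mu i c = 0 := by
  unfold triv at hc
  induction hc using Submodule.span_induction with
  | mem x hx =>
    obtain ⟨α, v, -, rfl⟩ := hx
    rw [mu_tensor, h]
  | zero => simp [mu]
  | add x y _ _ hx hy => rw [mu_add, hx, hy, add_zero]
  | smul r x _ hx => rw [mu_smul, hx, smul_zero]

lemma triv_coord {B : Submodule ℝ M} {c : Fin n → M} (hc : c ∈ triv i B) (j : Fin n) :
    c j ∈ bd i B := by
  unfold triv at hc
  induction hc using Submodule.span_induction with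
  | mem x hx =>
    obtain ⟨α, v, hv, rfl⟩ := hx
    exact Submodule.smul_mem _ _ (mem_bd i α hv)
  | zero => simp
  | add x y _ _ hx hy => exact add_mem hx hy
  | smul r x _ hx => exact Submodule.smul_mem _ _ hx

lemma polar {B : Submodule ℝ M} (α β : Fin n → ℝ) {v : M} (hv : v ∈ B) :
    (fun j => α j • i β v + β j • i α v) ∈ triv i B := by
  have h1 := gen_mem_triv i (α + β) hv
  have h2 := gen_mem_triv i α hv
  have h3 := gen_mem_triv i β hv
  have h4 := sub_mem (sub_mem h1 h2) h3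
  convert h4 using 1
  funext j
  simp only [Pi.sub_apply, Pi.add_apply, map_add, LinearMap.add_apply, smul_add, add_smul]
  abel

lemma triv_lift (h : ∀ φ v, i φ (i φ v) = 0) {B : Submodule ℝ M} {φ : Fin n → ℝ}
    {c : Fin n → M} (hc : c ∈ triv i (B.map (i φ))) :
    ∃ d ∈ triv i B, ∀ j, c j = - i φ (d j) := by
  unfold triv at hc
  induction hc using Submodule.span_induction with
  | mem x hx =>
    obtain ⟨α, w, ⟨v, hv, rfl⟩, rfl⟩ := hx
    refine ⟨_, gen_mem_triv i α hv, fun j => ?_⟩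
    simp only [anti i h α φ, map_smul, smul_neg]
  | zero => exact ⟨0, zero_mem _, by simp⟩
  | add x y _ _ hx hy =>
    obtain ⟨d, hd, hd'⟩ := hx
    obtain ⟨e, he, he'⟩ := hy
    refine ⟨d + e, add_mem hd he, fun j => ?_⟩
    simp only [Pi.add_apply, map_add, hd' j, he' j, neg_add]
  | smul r x _ hx =>
    obtain ⟨d, hd, hd'⟩ := hx
    refine ⟨r • d, Submodule.smul_mem _ _ hd, fun j => ?_⟩
    simp only [Pi.smul_apply, map_smul, hd' j, smul_neg]

/-- all linear syzygies are trivial -/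
def Syz (B : Submodule ℝ M) : Prop :=
  ∀ c : Fin n → M, (∀ j, c j ∈ bd i B) → mu i c = 0 → c ∈ triv i B

lemma mu_mem {B : Submodule ℝ M} {u : Fin n → M} (hu : ∀ j, u j ∈ B) : mu i u ∈ bd i B :=
  sum_mem fun j _ => mem_bd i _ (hu j)

lemma mu_contr (h : ∀ φ v, i φ (i φ v) = 0) (φ : Fin n → ℝ) (u : Fin n → M) :
    mu i (fun j => i φ (u j)) = - i φ (mu i u) := by
  simp only [mu, map_sum, ← Finset.sum_neg_distrib]
  exact Finset.sum_congr rfl fun j _ => anti i h _ _ _

lemma syz_core (h : ∀ φ v, i φ (i φ v) = 0) {B : Submodule ℝ M} {φ : Fin n → ℝ}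
    (hker : bd i B ⊓ LinearMap.ker (i φ) ≤ B.map (i φ)) (hS : Syz i (B.map (i φ)))
    {c : Fin n → M} (hc : ∀ j, c j ∈ bd i B) (h0 : i φ (mu i c) = 0) :
    ∃ d ∈ triv i B, ∃ u : Fin n → M, (∀ j, u j ∈ B) ∧ ∀ j, c j + d j = i φ (u j) := by
  have h1 : (fun j => i φ (c j)) ∈ triv i (B.map (i φ)) := by
    apply hS
    · intro j
      rw [← map_bd i h]
      exact Submodule.mem_map_of_mem (hc j)
    · rw [mu_contr i h, h0, neg_zero]
  obtain ⟨d, hd, hd'⟩ := triv_lift i h h1
  have h2 : ∀ j, ∃ u, u ∈ B ∧ i φ u = c j + d j := by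
    intro j
    have h3 : c j + d j ∈ B.map (i φ) := by
      apply hker
      refine ⟨add_mem (hc j) (triv_coord i hd j), ?_⟩
      have h3 : i φ (c j) = - i φ (d j) := hd' j
      change i φ (c j + d j) = 0
      rw [map_add, h3, neg_add_cancel]
    exact Submodule.mem_map.1 h3
  choose u hu hu' using h2
  exact ⟨d, hd, u, hu, fun j => (hu' j).symm⟩

/-- Transfer of the syzygy property. -/
lemma syz_transfer (h : ∀ φ v, i φ (i φ v) = 0) {B : Submodule ℝ M} {φ : Fin n → ℝ}
    (hker : bd i B ⊓ LinearMap.ker (i φ) ≤ B.map (i φ)) (hS : Syz i (B.map (i φ))) :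
    Syz i B := by
  intro c hc hmu
  obtain ⟨d, hd, u, hu, hcd⟩ := syz_core i h hker hS hc (by rw [hmu, map_zero])
  have hcd' : c = (fun j => i φ (u j)) - d := by
    funext j
    simp only [Pi.sub_apply, ← hcd j]
    abel
  have h1 : mu i (fun j => i φ (u j)) = 0 := by
    have : (fun j => i φ (u j)) = c + d := by
      funext j; simp [hcd j]
    rw [this, mu_add, hmu, mu_triv i h hd, add_zero]
  rw [mu_contr i h, neg_eq_zero] at h1
  have h2 : mu i u ∈ B.map (i φ) := hker ⟨mu_mem i hu, h1⟩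
  obtain ⟨w, hw, hw'⟩ := Submodule.mem_map.1 h2
  have h3 : (fun j => i φ (u j)) + (fun j => φ j • mu i u) ∈ triv i B := by
    have h4 : (∑ k, fun j => (ev k : Fin n → ℝ) j • i φ (u k) + φ j • i (ev k) (u k)) ∈
        triv i B := sum_mem fun k _ => polar i (ev k) φ (hu k)
    convert h4 using 1
    funext j
    simp only [Pi.add_apply, Finset.sum_apply, Finset.sum_add_distrib]
    congr 1
    · simp [ev, Pi.single_apply]
    · simp [mu, Finset.smul_sum]
  have h5 : (fun j => φ j • mu i u) ∈ triv i B := by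
    rw [← hw']
    exact gen_mem_triv i φ hw
  rw [hcd']
  refine sub_mem ?_ hd
  have := sub_mem h3 h5
  simpa using this

lemma exists_mu {V : Submodule ℝ M} {y : M} (hy : y ∈ bd i V) :
    ∃ c : Fin n → M, (∀ j, c j ∈ V) ∧ mu i c = y := by
  unfold bd at hy
  rw [Submodule.map₂] at hy
  induction hy using Submodule.iSup_induction' with
  | mem x y hy =>
    obtain ⟨v, hv, rfl⟩ := Submodule.mem_map.1 hy
    exact ⟨fun j => (x : Fin n → ℝ) j • v, fun j => V.smul_mem _ hv, mu_tensor i _ _⟩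
  | zero => exact ⟨0, fun _ => V.zero_mem, by simp [mu]⟩
  | add x y _ _ hx hy =>
    obtain ⟨c, hc, hc'⟩ := hx
    obtain ⟨d, hd, hd'⟩ := hy
    exact ⟨c + d, fun j => add_mem (hc j) (hd j), by rw [mu_add, hc', hd']⟩

/-- The kernel of the contraction on the second boundary. -/
lemma ker_transfer (h : ∀ φ v, i φ (i φ v) = 0) {B : Submodule ℝ M} {φ : Fin n → ℝ}
    (hker : bd i B ⊓ LinearMap.ker (i φ) ≤ B.map (i φ)) (hS : Syz i (B.map (i φ))) :
    bd i (bd i B) ⊓ LinearMap.ker (i φ) ≤ (bd i B).map (i φ) := by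
  rintro y ⟨hy, hy0⟩
  obtain ⟨c, hc, rfl⟩ := exists_mu i hy
  obtain ⟨d, hd, u, hu, hcd⟩ := syz_core i h hker hS hc hy0
  have h1 : mu i c = - i φ (mu i u) := by
    rw [← mu_contr i h]
    have : (fun j => i φ (u j)) = c + d := by
      funext j; simp [hcd j]
    rw [this, mu_add, mu_triv i h hd, add_zero]
  rw [h1]
  exact neg_mem (Submodule.mem_map_of_mem (mu_mem i hu))

end Pool.Agent.TH393.Lk
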